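import Mathlib

set_option autoImplicit false
open scoped ContDiff ComplexConjugate
open Set MeasureTheory intervalIntegral

namespace Pool.Agent.Helper331.FT

/-- A closed Legendrian curve `(z, w)` in the unit sphere of `ℂ²`, with velocity `ξ`
(in a left invariant frame), parametrised with period `2π`. -/
structure IsCurve (z w ξ : ℝ → ℂ) : Prop where
  cz : ContDiff ℝ ∞ z
  cw : ContDiff ℝ ∞ w
  cξ : ContDiff ℝ ∞ ξ
  unit : ∀ t, Complex.normSq (z t) + Complex.normSq (w t) = 1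
  dz : ∀ t, HasDerivAt z (-(w t * conj (ξ t))) t
  dw : ∀ t, HasDerivAt w (z t * ξ t) t
  pz : ∀ t, z (t + 2 * Real.pi) = z t
  pw : ∀ t, w (t + 2 * Real.pi) = w t
  pξ : ∀ t, ξ (t + 2 * Real.pi) = ξ t

/-- `A(x) = ∫₀ˣ g`. -/
noncomputable def AA (g : ℝ → ℝ) (x : ℝ) : ℝ := ∫ y in (0:ℝ)..x, g y

/-- `D(x) = ∫₀ˣ g(y) (1 - 2 y²) dy`. -/
noncomputable def DD (g : ℝ → ℝ) (x : ℝ) : ℝ := ∫ y in (0:ℝ)..x, g y * (1 - 2 * y ^ 2)

/-- first coordinate of the explicit curve -/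
noncomputable def zz (g : ℝ → ℝ) (t : ℝ) : ℂ :=
  (Real.cos t : ℂ) * Complex.exp (((AA g (Real.sin t) - DD g (Real.sin t) : ℝ) : ℂ) * Complex.I)

/-- second coordinate of the explicit curve -/
noncomputable def ww (g : ℝ → ℝ) (t : ℝ) : ℂ :=
  (Real.sin t : ℂ) * Complex.exp (((AA g (Real.sin t) + DD g (Real.sin t) : ℝ) : ℂ) * Complex.I)

/-- the slope `2 sin t cos² t g(sin t)` -/
noncomputable def yy (g : ℝ → ℝ) (t : ℝ) : ℝ :=
  2 * Real.sin t * Real.cos t ^ 2 * g (Real.sin t)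

/-- velocity of the explicit curve -/
noncomputable def xx (g : ℝ → ℝ) (t : ℝ) : ℂ :=
  (1 + (yy g t : ℂ) * Complex.I) * Complex.exp (((2 * DD g (Real.sin t) : ℝ) : ℂ) * Complex.I)

/-- The flat torus `ℝ²/(ℤu + ℤv)` admits a smooth isometric immersion into the unit sphere
of `ℝ⁴`. -/
def Immersible (u v : EuclideanSpace ℝ (Fin 2)) : Prop :=
  ∃ F : EuclideanSpace ℝ (Fin 2) → EuclideanSpace ℝ (Fin 4),
    ContDiff ℝ ∞ F ∧ (∀ x, ‖F x‖ = 1) ∧ (∀ x w, ‖fderiv ℝ F x w‖ = ‖w‖) ∧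
    ∀ x, ∀ p ∈ AddSubgroup.closure {u, v}, F (x + p) = F x

/-- Any two points of the flat torus `ℝ²/(ℤu + ℤv)` have distance at most `r`. -/
def DiamLE (u v : EuclideanSpace ℝ (Fin 2)) (r : ℝ) : Prop :=
  ∀ x y : EuclideanSpace ℝ (Fin 2), ∃ p ∈ AddSubgroup.closure {u, v}, ‖x - y - p‖ ≤ r

/-- The same immersion property, in complex coordinates. -/
def ImmC (a b : ℂ) : Prop :=
  ∃ F₁ F₂ : ℂ → ℂ, ContDiff ℝ ∞ F₁ ∧ ContDiff ℝ ∞ F₂ ∧
    (∀ x, Complex.normSq (F₁ x) + Complex.normSq (F₂ x) = 1) ∧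
    (∀ x h, Complex.normSq (fderiv ℝ F₁ x h) + Complex.normSq (fderiv ℝ F₂ x h) = Complex.normSq h) ∧
    (∀ x, F₁ (x + a) = F₁ x ∧ F₂ (x + a) = F₂ x) ∧ (∀ x, F₁ (x + b) = F₁ x ∧ F₂ (x + b) = F₂ x)

/-- There is a closed curve of total displacement `ρ` whose velocity stays in the open cone of
half-angle `δ` around the positive real axis. -/
def HasCurve (ρ δ : ℝ) : Prop :=
  ∃ z w ξ : ℝ → ℂ, IsCurve z w ξ ∧ (∫ t in (0:ℝ)..(2 * Real.pi), ξ t) = (ρ : ℂ) ∧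
      ∀ t, 0 < (ξ t).re ∧ |(ξ t).im| < Real.tan δ * (ξ t).re


end Pool.Agent.Helper331.FT
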