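import Pool.Agent.Helper331.FT.Defs
set_option autoImplicit false
open scoped ContDiff ComplexConjugate
open Set MeasureTheory intervalIntegral

namespace Pool.Agent.Helper331.FT


theorem E0_pt (g : ℝ → ℝ) (r : ℝ) (hpos : ∀ x, 0 ≤ g x) (hr : 0 < r) (hr2 : r < 1 / 2)
    (hsupp : ∀ x, r ≤ |x| → g x = 0) (y : ℝ) : |g y * (1 - 2 * y ^ 2)| ≤ g y := by
  rcases le_or_gt r |y| with h | h
  · rw [hsupp y h]; simp
  · have h1 : y ^ 2 < 1 / 4 := by
      have h2 : |y| < 1 / 2 := lt_trans h hr2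
      rw [← sq_abs]; nlinarith [abs_nonneg y]
    have h3 : |1 - 2 * y ^ 2| ≤ 1 := by
      rw [abs_le]; constructor <;> nlinarith [sq_nonneg y]
    rw [abs_mul, abs_of_nonneg (hpos y)]
    calc g y * |1 - 2 * y ^ 2| ≤ g y * 1 := mul_le_mul_of_nonneg_left h3 (hpos y)
      _ = g y := mul_one _

theorem E0_AA (g : ℝ → ℝ) (r : ℝ) (hc : Continuous g) (hpos : ∀ x, 0 ≤ g x) (hr : 0 < r)
    (hsupp : ∀ x, r ≤ |x| → g x = 0) (x : ℝ) : AA g x ≤ AA g r := by
  have h1 : AA g x ≤ AA g (max x r) := by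
    have e : AA g (max x r) = AA g x + ∫ y in x..(max x r), g y := by
      unfold AA
      rw [intervalIntegral.integral_add_adjacent_intervals (hc.intervalIntegrable _ _)
        (hc.intervalIntegrable _ _)]
    have : 0 ≤ ∫ y in x..(max x r), g y :=
      intervalIntegral.integral_nonneg (le_max_left _ _) (fun y _ => hpos y)
    linarith
  have h2 : AA g (max x r) = AA g r := by
    have e : AA g (max x r) = AA g r + ∫ y in r..(max x r), g y := by
      unfold AA
      rw [intervalIntegral.integral_add_adjacent_intervals (hc.intervalIntegrable _ _)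
        (hc.intervalIntegrable _ _)]
    have : ∫ y in r..(max x r), g y = 0 := by
      rw [← intervalIntegral.integral_zero (a := r) (b := max x r) (E := ℝ)]
      apply intervalIntegral.integral_congr
      intro y hy
      rw [Set.uIcc_of_le (le_max_right _ _)] at hy
      exact hsupp y (le_trans hy.1 (le_abs_self y))
    rw [e, this, add_zero]
  linarith

theorem E0_DD_nonneg (g : ℝ → ℝ) (r : ℝ) (hc : Continuous g) (hpos : ∀ x, 0 ≤ g x) (hr : 0 < r)
    (hr2 : r < 1 / 2) (hsupp : ∀ x, r ≤ |x| → g x = 0) (x : ℝ) (hx : 0 ≤ x) :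
    |DD g x| ≤ AA g r := by
  have hc2 : Continuous fun y => g y * (1 - 2 * y ^ 2) := by fun_prop
  calc |DD g x| ≤ ∫ y in (0:ℝ)..x, |g y * (1 - 2 * y ^ 2)| :=
        intervalIntegral.abs_integral_le_integral_abs hx
    _ ≤ ∫ y in (0:ℝ)..x, g y := by
        apply intervalIntegral.integral_mono_on hx (hc2.abs.intervalIntegrable _ _)
          (hc.intervalIntegrable _ _)
        intro y _
        exact E0_pt g r hpos hr hr2 hsupp y
    _ = AA g x := rfl
    _ ≤ AA g r := E0_AA g r hc hpos hr hsupp x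

theorem E0_DD_neg (g : ℝ → ℝ) (hev : ∀ x, g (-x) = g x) (x : ℝ) : DD g (-x) = - DD g x := by
  unfold DD
  have h := intervalIntegral.integral_comp_neg (a := 0) (b := x) (fun y => g y * (1 - 2 * y ^ 2))
  simp only [neg_zero] at h
  have h2 : (∫ y in (0:ℝ)..x, g (-y) * (1 - 2 * (-y) ^ 2)) = ∫ y in (0:ℝ)..x, g y * (1 - 2 * y ^ 2) := by
    apply intervalIntegral.integral_congr
    intro y _
    simp only [hev, neg_sq]
  rw [h2] at h
  rw [intervalIntegral.integral_symm, ← h]

theorem E0_DD (g : ℝ → ℝ) (r : ℝ) (hc : Continuous g) (hev : ∀ x, g (-x) = g x)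
    (hpos : ∀ x, 0 ≤ g x) (hr : 0 < r)
    (hr2 : r < 1 / 2) (hsupp : ∀ x, r ≤ |x| → g x = 0) (x : ℝ) :
    |DD g x| ≤ AA g r := by
  rcases le_total 0 x with hx | hx
  · exact E0_DD_nonneg g r hc hpos hr hr2 hsupp x hx
  · have h := E0_DD_nonneg g r hc hpos hr hr2 hsupp (-x) (by linarith)
    rw [E0_DD_neg g hev x, abs_neg] at h
    exact h

theorem E0 (g : ℝ → ℝ) (r μ l : ℝ) (hg : ContDiff ℝ ∞ g) (hev : ∀ x, g (-x) = g x)
    (hpos : ∀ x, 0 ≤ g x) (hr : 0 < r) (hr2 : r < 1 / 2) (hsupp : ∀ x, r ≤ |x| → g x = 0)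
    (hμ : ∀ x, |x| * g x ≤ μ) (hl : 0 ≤ l) (hl1 : l ≤ 1) :
    AA (fun x => l * g x) r = l * AA g r ∧ (∀ x, |2 * DD (fun x => l * g x) x| ≤ 2 * (l * AA g r)) ∧
      (∀ t, |yy (fun x => l * g x) t| ≤ 2 * μ) := by
  have hc : Continuous g := hg.continuous
  refine ⟨?_, ?_, ?_⟩
  · unfold AA
    rw [intervalIntegral.integral_const_mul]
  · intro x
    have e : DD (fun x => l * g x) x = l * DD g x := by
      unfold DD
      rw [← intervalIntegral.integral_const_mul]
      apply intervalIntegral.integral_congr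
      intro y _
      ring
    rw [e, abs_mul, abs_mul, abs_of_nonneg hl, abs_of_nonneg (by norm_num : (0:ℝ) ≤ 2)]
    have := E0_DD g r hc hev hpos hr hr2 hsupp x
    have := mul_le_mul_of_nonneg_left this hl
    linarith
  · intro t
    unfold yy
    have h1 : |2 * Real.sin t * Real.cos t ^ 2 * (l * g (Real.sin t))|
        = 2 * (Real.cos t ^ 2 * l) * (|Real.sin t| * g (Real.sin t)) := by
      rw [abs_mul, abs_mul, abs_mul, abs_mul, abs_of_nonneg hl, abs_of_nonneg (hpos _),
        abs_of_nonneg (by norm_num : (0:ℝ) ≤ 2), abs_of_nonneg (sq_nonneg (Real.cos t))]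
      ring
    have h2 : Real.cos t ^ 2 ≤ 1 := Real.cos_sq_le_one t
    have h3 : 0 ≤ |Real.sin t| * g (Real.sin t) := mul_nonneg (abs_nonneg _) (hpos _)
    have h4 : Real.cos t ^ 2 * l ≤ 1 := by
      calc Real.cos t ^ 2 * l ≤ 1 * 1 := mul_le_mul h2 hl1 hl zero_le_one
        _ = 1 := one_mul 1
    change |2 * Real.sin t * Real.cos t ^ 2 * (l * g (Real.sin t))| ≤ 2 * μ
    rw [h1]
    calc 2 * (Real.cos t ^ 2 * l) * (|Real.sin t| * g (Real.sin t))
        ≤ 2 * 1 * (|Real.sin t| * g (Real.sin t)) := by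
          apply mul_le_mul_of_nonneg_right _ h3
          linarith
      _ ≤ 2 * μ := by
          have := hμ (Real.sin t)
          linarith


end Pool.Agent.Helper331.FT
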