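import Pool.Agent.Helper331.FT.Defs
import Pool.Agent.Helper331.FT.E0
set_option autoImplicit false
open scoped ContDiff ComplexConjugate
open Set MeasureTheory intervalIntegral

namespace Pool.Agent.Helper331.FT

theorem E1 (g : ℝ → ℝ) (r μ l : ℝ) (hg : ContDiff ℝ ∞ g) (hev : ∀ x, g (-x) = g x)
    (hpos : ∀ x, 0 ≤ g x) (hr : 0 < r) (hr2 : r < 1 / 2) (hsupp : ∀ x, r ≤ |x| → g x = 0)
    (hμ : ∀ x, |x| * g x ≤ μ) (hl : 0 ≤ l) (hl1 : l ≤ 1) (hlA : 2 * (l * AA g r) ≤ Real.pi / 6) :
    ∀ t, Real.cos (2 * (l * AA g r)) - 2 * μ ≤ (xx (fun x => l * g x) t).re := by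
  intro t
  obtain ⟨_, h2, h3⟩ := E0 g r μ l hg hev hpos hr hr2 hsupp hμ hl hl1
  have h2' := h2 (Real.sin t)
  have h3' := h3 t
  have hre : (xx (fun x => l * g x) t).re =
      Real.cos (2 * DD (fun x => l * g x) (Real.sin t)) -
        yy (fun x => l * g x) t * Real.sin (2 * DD (fun x => l * g x) (Real.sin t)) := by
    unfold xx
    generalize 2 * DD (fun x => l * g x) (Real.sin t) = θ
    rw [Complex.exp_mul_I, ← Complex.ofReal_cos, ← Complex.ofReal_sin]
    simp only [Complex.mul_re, Complex.add_re, Complex.add_im, Complex.mul_im, Complex.ofReal_re,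
      Complex.ofReal_im, Complex.I_re, Complex.I_im, Complex.one_re, Complex.one_im]
    ring
  rw [hre]
  generalize DD (fun x => l * g x) (Real.sin t) = D at *
  generalize yy (fun x => l * g x) t = y at *
  have hc : Real.cos (2 * (l * AA g r)) ≤ Real.cos (2 * D) := by
    rw [← Real.cos_abs (2 * D)]
    exact Real.cos_le_cos_of_nonneg_of_le_pi (abs_nonneg _)
      (hlA.trans (by linarith [Real.pi_pos])) h2'
  have hs : y * Real.sin (2 * D) ≤ 2 * μ := by
    calc y * Real.sin (2 * D) ≤ |y * Real.sin (2 * D)| := le_abs_self _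
      _ = |y| * |Real.sin (2 * D)| := abs_mul _ _
      _ ≤ |y| * 1 := mul_le_mul_of_nonneg_left (Real.abs_sin_le_one _) (abs_nonneg _)
      _ ≤ 2 * μ := by rw [mul_one]; exact h3'
  linarith


end Pool.Agent.Helper331.FT
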