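import Pool.Agent.Helper331.FT.Defs
set_option autoImplicit false
open scoped ContDiff ComplexConjugate
open Set MeasureTheory intervalIntegral

namespace Pool.Agent.Helper331.FT

theorem P5_cont (g : ℝ → ℝ) (hg : ContDiff ℝ ∞ g) :
    Continuous (fun y => g y * (1 - 2 * y ^ 2)) := by
  have := hg.continuous
  fun_prop

theorem P5_nonneg (g : ℝ → ℝ) (r : ℝ) (hpos : ∀ x, 0 ≤ g x) (hr2 : r < 1 / 2)
    (hsupp : ∀ x, r ≤ |x| → g x = 0) (y : ℝ) : 0 ≤ g y * (1 - 2 * y ^ 2) := by
  by_cases h : r ≤ |y|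
  · rw [hsupp y h, zero_mul]
  · have h1 : |y| < 1 / 2 := by linarith [not_le.1 h]
    have h2 : y ^ 2 < 1 / 4 := by
      rw [← sq_abs]
      nlinarith [abs_nonneg y]
    exact mul_nonneg (hpos y) (by linarith)

theorem P5_mono (g : ℝ → ℝ) (r : ℝ) (hg : ContDiff ℝ ∞ g) (hpos : ∀ x, 0 ≤ g x)
    (hr2 : r < 1 / 2) (hsupp : ∀ x, r ≤ |x| → g x = 0) {a b : ℝ} (hab : a ≤ b) :
    DD g a ≤ DD g b := by
  have hc := P5_cont g hg
  have h1 : DD g b - DD g a = ∫ y in a..b, g y * (1 - 2 * y ^ 2) := by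
    unfold DD
    rw [intervalIntegral.integral_interval_sub_left (hc.intervalIntegrable _ _)
      (hc.intervalIntegrable _ _)]
  have h2 : 0 ≤ ∫ y in a..b, g y * (1 - 2 * y ^ 2) :=
    intervalIntegral.integral_nonneg hab fun y _ => P5_nonneg g r hpos hr2 hsupp y
  linarith

theorem P5_odd (g : ℝ → ℝ) (hev : ∀ x, g (-x) = g x) (x : ℝ) : DD g (-x) = - DD g x := by
  have h1 := intervalIntegral.integral_comp_neg (a := 0) (b := x)
    (fun y => g y * (1 - 2 * y ^ 2))
  simp only [hev, neg_sq, neg_zero] at h1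
  unfold DD
  rw [h1, ← intervalIntegral.integral_symm]

theorem P5_top (g : ℝ → ℝ) (r m : ℝ) (hg : ContDiff ℝ ∞ g)
    (hsupp : ∀ x, r ≤ |x| → g x = 0) (hm : DD g r = m) {x : ℝ}
    (hx : r ≤ x) : DD g x = m := by
  have hc := P5_cont g hg
  have h1 : DD g x - DD g r = ∫ y in r..x, g y * (1 - 2 * y ^ 2) := by
    unfold DD
    rw [intervalIntegral.integral_interval_sub_left (hc.intervalIntegrable _ _)
      (hc.intervalIntegrable _ _)]
  have h2 : ∫ y in r..x, g y * (1 - 2 * y ^ 2) = 0 := by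
    have h3 : ∫ y in r..x, g y * (1 - 2 * y ^ 2) = ∫ _y in r..x, (0 : ℝ) := by
      refine intervalIntegral.integral_congr fun y hy => ?_
      rw [uIcc_of_le hx] at hy
      show g y * (1 - 2 * y ^ 2) = 0
      rw [hsupp y (le_trans hy.1 (le_abs_self y)), zero_mul]
    rw [h3, intervalIntegral.integral_zero]
  linarith

theorem P5_re (g : ℝ → ℝ) (t : ℝ) : (xx g t).re =
    Real.cos (2 * DD g (Real.sin t)) - yy g t * Real.sin (2 * DD g (Real.sin t)) := by
  unfold xx
  generalize 2 * DD g (Real.sin t) = θ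
  rw [Complex.exp_mul_I, ← Complex.ofReal_cos, ← Complex.ofReal_sin]
  generalize Real.cos θ = c
  generalize Real.sin θ = s
  simp

theorem P5 (g : ℝ → ℝ) (r m : ℝ) (hg : ContDiff ℝ ∞ g) (hev : ∀ x, g (-x) = g x)
    (hpos : ∀ x, 0 ≤ g x) (hr : 0 < r) (hr2 : r < 1 / 2) (hsupp : ∀ x, r ≤ |x| → g x = 0)
    (hm : DD g r = m) (hm2 : 2 * m < Real.pi / 2) :
    (∀ x, |DD g x| ≤ m) ∧ (∀ t, (xx g t).re ≤ 1) ∧
      (∀ t, r ≤ |Real.sin t| → (xx g t).re ≤ Real.cos (2 * m)) := by
  have hle : ∀ x, DD g x ≤ m := by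
    intro x
    rcases le_total x r with h | h
    · rw [← hm]
      exact P5_mono g r hg hpos hr2 hsupp h
    · exact (P5_top g r m hg hsupp hm h).le
  have hge : ∀ x, -m ≤ DD g x := by
    intro x
    have h1 := hle (-x)
    rw [P5_odd g hev] at h1
    linarith
  have h00 : DD g 0 = 0 := by
    unfold DD
    exact intervalIntegral.integral_same
  have hnn : ∀ x, 0 ≤ x → 0 ≤ DD g x := by
    intro x hx
    rw [← h00]
    exact P5_mono g r hg hpos hr2 hsupp hx
  have hnp : ∀ x, x ≤ 0 → DD g x ≤ 0 := by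
    intro x hx
    rw [← h00]
    exact P5_mono g r hg hpos hr2 hsupp hx
  have hprod : ∀ t, 0 ≤ yy g t * Real.sin (2 * DD g (Real.sin t)) := by
    intro t
    have hpi := Real.pi_pos
    rcases le_total 0 (Real.sin t) with h | h
    · have h1 := hnn _ h
      have h2 := hle (Real.sin t)
      have h3 : 0 ≤ Real.sin (2 * DD g (Real.sin t)) :=
        Real.sin_nonneg_of_nonneg_of_le_pi (by linarith) (by linarith)
      have h4 : 0 ≤ yy g t := by
        unfold yy
        have := hpos (Real.sin t)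
        positivity
      exact mul_nonneg h4 h3
    · have h1 := hnp _ h
      have h2 := hge (Real.sin t)
      have h3 : Real.sin (2 * DD g (Real.sin t)) ≤ 0 :=
        Real.sin_nonpos_of_nonpos_of_neg_pi_le (by linarith) (by linarith)
      have h4 : yy g t ≤ 0 := by
        unfold yy
        have h5 : 0 ≤ Real.cos t ^ 2 * g (Real.sin t) :=
          mul_nonneg (sq_nonneg _) (hpos _)
        have h6 : 2 * Real.sin t * Real.cos t ^ 2 * g (Real.sin t) =
            2 * Real.sin t * (Real.cos t ^ 2 * g (Real.sin t)) := by ring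
        rw [h6]
        exact mul_nonpos_of_nonpos_of_nonneg (by linarith) h5
      exact mul_nonneg_of_nonpos_of_nonpos h4 h3
  refine ⟨fun x => abs_le.2 ⟨hge x, hle x⟩, fun t => ?_, fun t ht => ?_⟩
  · rw [P5_re]
    have := Real.cos_le_one (2 * DD g (Real.sin t))
    linarith [hprod t]
  · rw [P5_re]
    have hcos : Real.cos (2 * DD g (Real.sin t)) = Real.cos (2 * m) := by
      rcases abs_cases (Real.sin t) with h | h
      · rw [h.1] at ht
        rw [P5_top g r m hg hsupp hm ht]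
      · rw [h.1] at ht
        have h1 := P5_top g r m hg hsupp hm ht
        rw [P5_odd g hev] at h1
        have h2 : 2 * DD g (Real.sin t) = -(2 * m) := by linarith
        rw [h2, Real.cos_neg]
    rw [hcos]
    linarith [hprod t]


end Pool.Agent.Helper331.FT
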