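import Pool.Agent.Helper331.FT.Defs
import Pool.Agent.Helper331.FT.E0
import Pool.Agent.Helper331.FT.P5
set_option autoImplicit false
open scoped ContDiff ComplexConjugate
open Set MeasureTheory intervalIntegral

namespace Pool.Agent.Helper331.FT

theorem E2_cont (G : ℝ → ℝ) (hG : Continuous G) : Continuous (fun t => (xx G t).re) := by
  have h1 : Continuous (fun x => DD G x) := by
    unfold DD
    exact intervalIntegral.continuous_primitive
      (fun a b => (Continuous.intervalIntegrable (by fun_prop) a b)) 0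
  have h2 : Continuous (fun t => DD G (Real.sin t)) := h1.comp Real.continuous_sin
  have h3 : Continuous (fun t => yy G t) := by
    unfold yy
    fun_prop
  have h4 : Continuous (fun t => xx G t) := by
    unfold xx
    generalize hd : (fun t => DD G (Real.sin t)) = d at h2
    generalize hy : (fun t => yy G t) = y at h3
    have e : (fun t => (1 + (yy G t : ℂ) * Complex.I) *
        Complex.exp (((2 * DD G (Real.sin t) : ℝ) : ℂ) * Complex.I)) =
        fun t => (1 + (y t : ℂ) * Complex.I) * Complex.exp (((2 * d t : ℝ) : ℂ) * Complex.I) := by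
      funext t
      rw [← hd, ← hy]
    rw [e]
    fun_prop
  exact Complex.continuous_re.comp h4

theorem E2 (g : ℝ → ℝ) (r l α : ℝ) (hg : ContDiff ℝ ∞ g) (hev : ∀ x, g (-x) = g x)
    (hpos : ∀ x, 0 ≤ g x) (hr : 0 < r) (hr2 : r < 1 / 2) (hsupp : ∀ x, r ≤ |x| → g x = 0)
    (hl : 0 ≤ l) (hlA : 2 * (l * AA g r) ≤ Real.pi / 6)
    (hα1 : Real.pi / 3 ≤ α) (hα2 : α ≤ 2 * Real.pi / 3) :
    12 * ∫ t in (0:ℝ)..(α / 2), (xx (fun x => l * g x) t).re ≤
      6 * α * Real.cos (2 * (l * AA g r)) + 60 * r := by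
  have hpi : 0 < Real.pi := Real.pi_pos
  have hpi4 : Real.pi < 3.15 := Real.pi_lt_d2
  have hGs : ContDiff ℝ ∞ (fun x => l * g x) := contDiff_const.mul hg
  have hG : Continuous (fun x => l * g x) := hGs.continuous
  have hGev : ∀ x, (fun x => l * g x) (-x) = (fun x => l * g x) x := fun x => by
    simp only [hev]
  have hGpos : ∀ x, 0 ≤ (fun x => l * g x) x := fun x => mul_nonneg hl (hpos x)
  have hGsupp : ∀ x, r ≤ |x| → (fun x => l * g x) x = 0 := fun x hx => by
    simp only [hsupp x hx, mul_zero]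
  have hAA : AA (fun x => l * g x) r = l * AA g r := by
    unfold AA
    rw [intervalIntegral.integral_const_mul]
  set G : ℝ → ℝ := fun x => l * g x with hGdef
  set B : ℝ := l * AA g r with hB
  have hB0 : 0 ≤ B := by
    rw [← hAA]
    unfold AA
    exact intervalIntegral.integral_nonneg hr.le (fun x _ => hGpos x)
  obtain ⟨m, hm⟩ : ∃ m, DD G r = m := ⟨_, rfl⟩
  have hi1 : IntervalIntegrable G volume 0 r := hG.intervalIntegrable _ _
  have hi2 : IntervalIntegrable (fun y => G y * (1 - 2 * y ^ 2)) volume 0 r :=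
    Continuous.intervalIntegrable (by fun_prop) _ _
  have hi3 : IntervalIntegrable (fun y => G y * (1 - 2 * r ^ 2)) volume 0 r :=
    Continuous.intervalIntegrable (by fun_prop) _ _
  have hmB : m ≤ B := by
    rw [← hm, ← hAA]
    unfold DD AA
    apply intervalIntegral.integral_mono_on hr.le hi2 hi1
    intro y hy
    have h1 := hGpos y
    nlinarith [mul_nonneg h1 (sq_nonneg y)]
  have hmB2 : (1 - 2 * r ^ 2) * B ≤ m := by
    rw [← hm, ← hAA]
    unfold DD AA
    rw [mul_comm, ← intervalIntegral.integral_mul_const]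
    apply intervalIntegral.integral_mono_on hr.le hi3 hi2
    intro y hy
    apply mul_le_mul_of_nonneg_left _ (hGpos y)
    have h1 : y ^ 2 ≤ r ^ 2 := pow_le_pow_left₀ hy.1 hy.2 2
    linarith
  have hm2 : 2 * m < Real.pi / 2 := by
    have : Real.pi / 6 < Real.pi / 2 := by linarith
    linarith
  obtain ⟨-, hP1, hP2⟩ := P5 G r m hGs hGev hGpos hr hr2 hGsupp hm hm2
  have hcosm : Real.cos (2 * m) ≤ Real.cos (2 * B) + Real.pi / 3 * r ^ 2 := by
    have h1 : |Real.cos (2 * m) - Real.cos (2 * B)| ≤ |2 * m - 2 * B| :=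
      Real.abs_cos_sub_cos_le _ _
    have h2 : |2 * m - 2 * B| = 2 * B - 2 * m := by
      rw [abs_sub_comm, abs_of_nonneg]; linarith
    have h3 : 2 * B - 2 * m ≤ 4 * r ^ 2 * B := by nlinarith
    have h4 : 4 * r ^ 2 * B ≤ Real.pi / 3 * r ^ 2 := by nlinarith [sq_nonneg r]
    have h5 := le_abs_self (Real.cos (2 * m) - Real.cos (2 * B))
    linarith
  have hm0 : 0 ≤ m := by
    have : 0 ≤ (1 - 2 * r ^ 2) * B := mul_nonneg (by nlinarith) hB0
    linarith
  have hcm0 : 0 ≤ Real.cos (2 * m) :=
    Real.cos_nonneg_of_mem_Icc ⟨by linarith, by linarith⟩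
  have hcB0 : 0 ≤ Real.cos (2 * B) :=
    Real.cos_nonneg_of_mem_Icc ⟨by linarith, by linarith⟩
  have hcont := E2_cont G hG
  have hint : ∀ a b, IntervalIntegrable (fun t => (xx G t).re) volume a b :=
    fun a b => hcont.intervalIntegrable a b
  have hα0 : 0 < α := by linarith [div_pos hpi (by norm_num : (0:ℝ) < 3)]
  have hone : ∀ a b : ℝ, a ≤ b → ∫ t in a..b, (xx G t).re ≤ b - a := by
    intro a b hab
    have h1 : ∫ t in a..b, (xx G t).re ≤ ∫ t in a..b, (1 : ℝ) :=
      intervalIntegral.integral_mono_on hab (hint a b) (by simp) (fun t _ => hP1 t)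
    simpa using h1
  by_cases hcase : Real.pi * r / 2 ≤ α / 2
  · have hsplit : ∫ t in (0:ℝ)..(α / 2), (xx G t).re =
        (∫ t in (0:ℝ)..(Real.pi * r / 2), (xx G t).re) +
          ∫ t in (Real.pi * r / 2)..(α / 2), (xx G t).re :=
      (intervalIntegral.integral_add_adjacent_intervals (hint _ _) (hint _ _)).symm
    have h1 := hone 0 (Real.pi * r / 2) (by positivity)
    have h2 : ∫ t in (Real.pi * r / 2)..(α / 2), (xx G t).re ≤
        ∫ t in (Real.pi * r / 2)..(α / 2), Real.cos (2 * m) := by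
      apply intervalIntegral.integral_mono_on hcase (hint _ _) (by simp)
      intro t ht
      apply hP2 t
      have ht0 : 0 ≤ t := le_trans (by positivity) ht.1
      have ht1 : t ≤ Real.pi / 2 := by linarith [ht.2]
      have h3 := Real.mul_le_sin ht0 ht1
      have h4 : r ≤ 2 / Real.pi * t := by
        rw [div_mul_eq_mul_div, le_div_iff₀ hpi]
        linarith [ht.1]
      exact le_trans (le_trans h4 h3) (le_abs_self _)
    have h3 : ∫ t in (Real.pi * r / 2)..(α / 2), Real.cos (2 * m) =
        (α / 2 - Real.pi * r / 2) * Real.cos (2 * m) := by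
      rw [intervalIntegral.integral_const, smul_eq_mul]
    rw [h3] at h2
    have h4 : (α / 2 - Real.pi * r / 2) * Real.cos (2 * m) ≤ α / 2 * Real.cos (2 * m) :=
      mul_le_mul_of_nonneg_right (by nlinarith) hcm0
    have h5 : α / 2 * Real.cos (2 * m) ≤ α / 2 * (Real.cos (2 * B) + Real.pi / 3 * r ^ 2) :=
      mul_le_mul_of_nonneg_left hcosm (by positivity)
    have h6 : α * Real.pi * r ^ 2 ≤ 4 * r := by
      have h7 : α * Real.pi ≤ 2 * 3.15 / 3 * 3.15 := by
        apply mul_le_mul _ hpi4.le hpi.le (by norm_num)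
        linarith
      have h8 : α * Real.pi * r ^ 2 ≤ 2 * 3.15 / 3 * 3.15 * r ^ 2 :=
        mul_le_mul_of_nonneg_right h7 (sq_nonneg r)
      norm_num at h8
      nlinarith
    rw [hsplit]
    norm_num at hpi4
    nlinarith
  · push Not at hcase
    have h1 := hone 0 (α / 2) (by positivity)
    have h2 : 0 ≤ 6 * α * Real.cos (2 * B) := by positivity
    norm_num at hpi4
    nlinarith


end Pool.Agent.Helper331.FT
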