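import Pool.Agent.Helper331.FT.Defs
set_option autoImplicit false
open scoped ContDiff ComplexConjugate
open Set MeasureTheory intervalIntegral

namespace Pool.Agent.Helper331.FT

theorem G1 {E : Type} [NormedAddCommGroup E] [NormedSpace ℝ E] (Φ : E ≃L[ℝ] E) (c₀ : ℝ → E)
    (hc : ContDiff ℝ ∞ c₀) (α η : ℝ) (hα : 0 < α) (hη : 0 < η)
    (h : ∀ s, |s - α / 2| < η → c₀ s = Φ (c₀ (s - α))) :
    ∃ c : ℝ → E, ContDiff ℝ ∞ c ∧ (∀ t, c (t + α) = Φ (c t)) ∧
      (∀ t, |t| ≤ α / 2 → c =ᶠ[nhds t] c₀) := by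
  let cn : ℤ → ℝ → E := fun n t => (Φ ^ n : E ≃L[ℝ] E) (c₀ (t - n * α))
  let N : ℝ → ℤ := fun t => ⌊t / α + 1 / 2⌋
  let c : ℝ → E := fun t => cn (N t) t
  have hN : ∀ (t : ℝ) (m : ℤ), ((m : ℝ) - 1 / 2) * α ≤ t → t < ((m : ℝ) + 1 / 2) * α →
      N t = m := by
    intro t m h1 h2
    have h3 : (m : ℝ) - 1 / 2 ≤ t / α := by rw [le_div_iff₀ hα]; exact h1
    have h4 : t / α < (m : ℝ) + 1 / 2 := by rw [div_lt_iff₀ hα]; exact h2
    exact Int.floor_eq_iff.mpr ⟨by linarith, by linarith⟩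
  have hN2 : ∀ t : ℝ, ((N t : ℝ) - 1 / 2) * α ≤ t ∧ t < ((N t : ℝ) + 1 / 2) * α := by
    intro t
    have h1 : (N t : ℝ) ≤ t / α + 1 / 2 := Int.floor_le _
    have h2 : t / α + 1 / 2 < (N t : ℝ) + 1 := Int.lt_floor_add_one _
    constructor
    · have : (N t : ℝ) - 1 / 2 ≤ t / α := by linarith
      rwa [le_div_iff₀ hα] at this
    · have : t / α < (N t : ℝ) + 1 / 2 := by linarith
      rwa [div_lt_iff₀ hα] at this
  have hov : ∀ (n : ℤ) (t : ℝ), |t - ((n : ℝ) + 1 / 2) * α| < η → cn n t = cn (n + 1) t := by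
    intro n t ht
    have h1 := h (t - n * α) (by
      have : t - n * α - α / 2 = t - ((n : ℝ) + 1 / 2) * α := by ring
      rw [this]; exact ht)
    have h2 : t - n * α - α = t - ((n + 1 : ℤ) : ℝ) * α := by push_cast; ring
    rw [h2] at h1
    show (Φ ^ n : E ≃L[ℝ] E) (c₀ (t - n * α)) =
      (Φ ^ (n + 1) : E ≃L[ℝ] E) (c₀ (t - ((n + 1 : ℤ) : ℝ) * α))
    rw [h1, zpow_add_one]
    rfl
  have key : ∀ (n : ℤ) (t : ℝ), ((n : ℝ) - 1 / 2) * α - min η α < t →
      t < ((n : ℝ) + 1 / 2) * α + min η α → c t = cn n t := by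
    intro n t h1 h2
    have m1 := min_le_left η α
    have m2 := min_le_right η α
    rcases lt_or_ge t (((n : ℝ) - 1 / 2) * α) with h3 | h3
    · have e1 : N t = n - 1 := by
        apply hN
        · push_cast; nlinarith
        · push_cast
          have : ((n : ℝ) - 1 + 1 / 2) * α = ((n : ℝ) - 1 / 2) * α := by ring
          rw [this]; exact h3
      show cn (N t) t = cn n t
      rw [e1]
      have := hov (n - 1) t (by
        push_cast
        have e : ((n : ℝ) - 1 + 1 / 2) * α = ((n : ℝ) - 1 / 2) * α := by ring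
        rw [e, abs_lt]
        constructor <;> linarith)
      rw [this, sub_add_cancel]
    rcases lt_or_ge t (((n : ℝ) + 1 / 2) * α) with h4 | h4
    · show cn (N t) t = cn n t
      rw [hN t n h3 h4]
    · have e1 : N t = n + 1 := by
        apply hN
        · push_cast
          have : ((n : ℝ) + 1 - 1 / 2) * α = ((n : ℝ) + 1 / 2) * α := by ring
          rw [this]; exact h4
        · push_cast; nlinarith
      show cn (N t) t = cn n t
      rw [e1]
      exact (hov n t (by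
        rw [abs_lt]
        constructor <;> linarith)).symm
  have hmin : 0 < min η α := lt_min hη hα
  have hev : ∀ (n : ℤ) (t : ℝ), ((n : ℝ) - 1 / 2) * α ≤ t → t ≤ ((n : ℝ) + 1 / 2) * α →
      c =ᶠ[nhds t] cn n := by
    intro n t h1 h2
    have : Set.Ioo (((n : ℝ) - 1 / 2) * α - min η α) (((n : ℝ) + 1 / 2) * α + min η α) ∈ nhds t :=
      Ioo_mem_nhds (by linarith) (by linarith)
    filter_upwards [this] with s hs
    exact key n s hs.1 hs.2
  have hsm : ∀ n : ℤ, ContDiff ℝ ∞ (cn n) := by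
    intro n
    have h1 : ContDiff ℝ ∞ (fun t : ℝ => c₀ (t - n * α)) :=
      hc.comp (contDiff_id.sub contDiff_const)
    exact (Φ ^ n : E ≃L[ℝ] E).contDiff.comp h1
  refine ⟨c, ?_, ?_, ?_⟩
  · rw [contDiff_iff_contDiffAt]
    intro t
    have h1 := hev (N t) t (hN2 t).1 (hN2 t).2.le
    exact (hsm (N t)).contDiffAt.congr_of_eventuallyEq h1
  · intro t
    have e1 : N (t + α) = N t + 1 := by
      apply hN
      · push_cast; nlinarith [(hN2 t).1]
      · push_cast; nlinarith [(hN2 t).2]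
    show cn (N (t + α)) (t + α) = Φ (cn (N t) t)
    rw [e1]
    show (Φ ^ (N t + 1) : E ≃L[ℝ] E) (c₀ (t + α - ((N t + 1 : ℤ) : ℝ) * α)) =
      Φ ((Φ ^ (N t) : E ≃L[ℝ] E) (c₀ (t - (N t) * α)))
    have e2 : t + α - ((N t + 1 : ℤ) : ℝ) * α = t - (N t) * α := by push_cast; ring
    rw [e2, add_comm (N t) 1, zpow_one_add]
    rfl
  · intro t ht
    rw [abs_le] at ht
    have h1 := hev 0 t (by push_cast; linarith [ht.1]) (by push_cast; linarith [ht.2])
    have e : cn 0 = c₀ := by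
      funext s
      show (Φ ^ (0 : ℤ) : E ≃L[ℝ] E) (c₀ (s - ((0 : ℤ) : ℝ) * α)) = c₀ s
      rw [zpow_zero]
      have e0 : s - ((0 : ℤ) : ℝ) * α = s := by simp
      rw [e0]
      rfl
    rwa [e] at h1


end Pool.Agent.Helper331.FT
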