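import Pool.Agent.Helper331.FT.Defs
set_option autoImplicit false
open scoped ContDiff ComplexConjugate
open Set MeasureTheory intervalIntegral

namespace Pool.Agent.Helper331.FT

theorem G2_const (G : ℝ → ℝ) (r : ℝ) (hG : Continuous G) (hr : 0 < r)
    (hs : ∀ x, r ≤ |x| → G x = 0) (x : ℝ) (hx : r ≤ x) :
    (∫ y in (0:ℝ)..x, G y) = ∫ y in (0:ℝ)..r, G y := by
  have h1 := integral_add_adjacent_intervals (hG.intervalIntegrable (μ := volume) 0 r)
    (hG.intervalIntegrable r x)
  have h2 : (∫ y in r..x, G y) = 0 := by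
    have h3 : (∫ y in r..x, G y) = ∫ y in r..x, (0 : ℝ) := by
      refine integral_congr ?_
      intro y hy
      rw [uIcc_of_le hx] at hy
      exact hs y (hy.1.trans (le_abs_self y))
    rw [h3]
    simp
  rw [← h1, h2, add_zero]

theorem G2_odd (G : ℝ → ℝ) (hev : ∀ x, G (-x) = G x) (x : ℝ) :
    (∫ y in (0:ℝ)..(-x), G y) = -∫ y in (0:ℝ)..x, G y := by
  have h1 := integral_comp_neg (a := 0) (b := x) G
  rw [neg_zero] at h1
  rw [integral_symm, ← h1]
  simp only [hev]

theorem G2_conj (x : ℝ) : conj (Complex.exp ((x : ℂ) * Complex.I)) =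
    Complex.exp (((-x : ℝ) : ℂ) * Complex.I) := by
  rw [← Complex.exp_conj, map_mul, Complex.conj_ofReal, Complex.conj_I]
  congr 1
  push_cast
  ring

theorem G2_mul (x y : ℝ) : Complex.exp ((x : ℂ) * Complex.I) * Complex.exp ((y : ℂ) * Complex.I) =
    Complex.exp (((x + y : ℝ) : ℂ) * Complex.I) := by
  rw [← Complex.exp_add]
  congr 1
  push_cast
  ring

theorem G2 (g : ℝ → ℝ) (r α s : ℝ) (hg : ContDiff ℝ ∞ g) (hev : ∀ x, g (-x) = g x)
    (hr : 0 < r) (hsupp : ∀ x, r ≤ |x| → g x = 0)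
    (h1 : r ≤ Real.sin s) (h2 : r ≤ Real.sin (α - s)) :
    zz g s = (Real.cos α : ℂ) * conj (zz g (s - α)) -
      (Real.sin α : ℂ) * Complex.exp (((2 * AA g r : ℝ) : ℂ) * Complex.I) * ww g (s - α) ∧
    ww g s = (Real.cos α : ℂ) * conj (ww g (s - α)) +
      (Real.sin α : ℂ) * Complex.exp (((2 * AA g r : ℝ) : ℂ) * Complex.I) * zz g (s - α) ∧
    xx g s = conj (xx g (s - α)) := by
  have hc := hg.continuous
  have hc2 : Continuous (fun y : ℝ => g y * (1 - 2 * y ^ 2)) := by fun_prop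
  have hev2 : ∀ x : ℝ, g (-x) * (1 - 2 * (-x) ^ 2) = g x * (1 - 2 * x ^ 2) := by
    intro x; rw [hev, neg_sq]
  have hs2 : ∀ x : ℝ, r ≤ |x| → g x * (1 - 2 * x ^ 2) = 0 := by
    intro x hx; rw [hsupp x hx, zero_mul]
  have hsin : Real.sin (s - α) = -Real.sin (α - s) := by
    rw [← Real.sin_neg, neg_sub]
  have A1 : AA g (Real.sin s) = AA g r := G2_const g r hc hr hsupp _ h1
  have D1 : DD g (Real.sin s) = DD g r := G2_const _ r hc2 hr hs2 _ h1
  have A2 : AA g (Real.sin (s - α)) = -AA g r := by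
    rw [hsin]
    unfold AA
    rw [G2_odd g hev, G2_const g r hc hr hsupp _ h2]
  have D2 : DD g (Real.sin (s - α)) = -DD g r := by
    rw [hsin]
    unfold DD
    rw [G2_odd _ hev2, G2_const _ r hc2 hr hs2 _ h2]
  have g1 : g (Real.sin s) = 0 := hsupp _ (h1.trans (le_abs_self _))
  have g2 : g (Real.sin (s - α)) = 0 := by
    apply hsupp
    rw [hsin, abs_neg]
    exact h2.trans (le_abs_self _)
  have hcos : Real.cos s = Real.cos α * Real.cos (s - α) - Real.sin α * Real.sin (s - α) := by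
    rw [← Real.cos_add]; congr 1; ring
  have hsin' : Real.sin s = Real.cos α * Real.sin (s - α) + Real.sin α * Real.cos (s - α) := by
    have : Real.sin (α + (s - α)) = Real.sin α * Real.cos (s - α) + Real.cos α * Real.sin (s - α) :=
      Real.sin_add _ _
    rw [add_sub_cancel] at this
    linarith
  refine ⟨?_, ?_, ?_⟩
  · unfold zz ww
    rw [A1, D1, A2, D2, map_mul, Complex.conj_ofReal, G2_conj]
    have e1 : Complex.exp (((2 * AA g r : ℝ) : ℂ) * Complex.I) *
        Complex.exp (((-AA g r + -DD g r : ℝ) : ℂ) * Complex.I) =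
        Complex.exp (((AA g r - DD g r : ℝ) : ℂ) * Complex.I) := by
      rw [G2_mul]; congr 3; ring
    have e2 : (-(-AA g r - -DD g r) : ℝ) = AA g r - DD g r := by ring
    rw [e2]
    have e3 : (Real.sin α : ℂ) * Complex.exp (((2 * AA g r : ℝ) : ℂ) * Complex.I) *
        ((Real.sin (s - α) : ℂ) * Complex.exp (((-AA g r + -DD g r : ℝ) : ℂ) * Complex.I)) =
        (Real.sin α : ℂ) * (Real.sin (s - α) : ℂ) *
          Complex.exp (((AA g r - DD g r : ℝ) : ℂ) * Complex.I) := by
      rw [← e1]; ring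
    rw [e3, hcos]
    push_cast
    ring
  · unfold zz ww
    rw [A1, D1, A2, D2, map_mul, Complex.conj_ofReal, G2_conj]
    have e1 : Complex.exp (((2 * AA g r : ℝ) : ℂ) * Complex.I) *
        Complex.exp (((-AA g r - -DD g r : ℝ) : ℂ) * Complex.I) =
        Complex.exp (((AA g r + DD g r : ℝ) : ℂ) * Complex.I) := by
      rw [G2_mul]; congr 3; ring
    have e2 : (-(-AA g r + -DD g r) : ℝ) = AA g r + DD g r := by ring
    rw [e2]
    have e3 : (Real.sin α : ℂ) * Complex.exp (((2 * AA g r : ℝ) : ℂ) * Complex.I) *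
        ((Real.cos (s - α) : ℂ) * Complex.exp (((-AA g r - -DD g r : ℝ) : ℂ) * Complex.I)) =
        (Real.sin α : ℂ) * (Real.cos (s - α) : ℂ) *
          Complex.exp (((AA g r + DD g r : ℝ) : ℂ) * Complex.I) := by
      rw [← e1]; ring
    rw [e3, hsin']
    push_cast
    ring
  · unfold xx yy
    rw [g1, g2, D1, D2, map_mul, G2_conj]
    have e2 : (-(2 * -DD g r) : ℝ) = 2 * DD g r := by ring
    rw [e2]
    simp


end Pool.Agent.Helper331.FT
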