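import Pool.Agent.Helper331.FT.Defs
set_option autoImplicit false
open scoped ContDiff ComplexConjugate
open Set MeasureTheory intervalIntegral

namespace Pool.Agent.Helper331.FT


theorem P2_AA (g : ℝ → ℝ) (hg : Continuous g) (x : ℝ) : HasDerivAt (AA g) (g x) x := by
  have h := (hg.integral_hasStrictDerivAt 0 x).hasDerivAt
  exact h

theorem P2_DD (g : ℝ → ℝ) (hg : Continuous g) (x : ℝ) :
    HasDerivAt (DD g) (g x * (1 - 2 * x ^ 2)) x := by
  have hc : Continuous (fun y : ℝ => g y * (1 - 2 * y ^ 2)) := by fun_prop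
  have h := (hc.integral_hasStrictDerivAt 0 x).hasDerivAt
  exact h

theorem P2_AAs (g : ℝ → ℝ) (hg : ContDiff ℝ ∞ g) : ContDiff ℝ ∞ (AA g) := by
  rw [contDiff_infty_iff_deriv]
  refine ⟨fun x => (P2_AA g hg.continuous x).differentiableAt, ?_⟩
  have : deriv (AA g) = g := by
    funext x
    exact (P2_AA g hg.continuous x).deriv
  rw [this]
  exact hg

theorem P2_DDs (g : ℝ → ℝ) (hg : ContDiff ℝ ∞ g) : ContDiff ℝ ∞ (DD g) := by
  rw [contDiff_infty_iff_deriv]
  refine ⟨fun x => (P2_DD g hg.continuous x).differentiableAt, ?_⟩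
  have : deriv (DD g) = fun x => g x * (1 - 2 * x ^ 2) := by
    funext x
    exact (P2_DD g hg.continuous x).deriv
  rw [this]
  fun_prop

theorem P2_ofReal (f : ℝ → ℝ) (hf : ContDiff ℝ ∞ f) : ContDiff ℝ ∞ (fun t => (f t : ℂ)) :=
  Complex.ofRealCLM.contDiff.comp hf

theorem P2_exp (f : ℝ → ℝ) (hf : ContDiff ℝ ∞ f) :
    ContDiff ℝ ∞ (fun t => Complex.exp ((f t : ℂ) * Complex.I)) :=
  ((P2_ofReal f hf).mul contDiff_const).cexp

theorem P2_dexp (f : ℝ → ℝ) (f' t : ℝ) (hf : HasDerivAt f f' t) :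
    HasDerivAt (fun t => Complex.exp ((f t : ℂ) * Complex.I))
      (Complex.exp ((f t : ℂ) * Complex.I) * ((f' : ℂ) * Complex.I)) t :=
  (hf.ofReal_comp.mul_const Complex.I).cexp

theorem P2_nsq (r : ℝ) : Complex.normSq (Complex.exp ((r : ℂ) * Complex.I)) = 1 := by
  rw [Complex.normSq_eq_norm_sq, Complex.norm_exp_ofReal_mul_I]
  norm_num

theorem P2 (g : ℝ → ℝ) (hg : ContDiff ℝ ∞ g) : IsCurve (zz g) (ww g) (xx g) := by
  have hA := P2_AAs g hg
  have hD := P2_DDs g hg
  have hs : ContDiff ℝ ∞ Real.sin := Real.contDiff_sin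
  have hc : ContDiff ℝ ∞ Real.cos := Real.contDiff_cos
  have hAs : ContDiff ℝ ∞ (fun t => AA g (Real.sin t)) := hA.comp hs
  have hDs : ContDiff ℝ ∞ (fun t => DD g (Real.sin t)) := hD.comp hs
  have hgs : ContDiff ℝ ∞ (fun t => g (Real.sin t)) := hg.comp hs
  have hdA : ∀ t, HasDerivAt (fun t => AA g (Real.sin t)) (g (Real.sin t) * Real.cos t) t :=
    fun t => (P2_AA g hg.continuous (Real.sin t)).comp t (Real.hasDerivAt_sin t)
  have hdD : ∀ t, HasDerivAt (fun t => DD g (Real.sin t))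
      (g (Real.sin t) * (1 - 2 * Real.sin t ^ 2) * Real.cos t) t :=
    fun t => (P2_DD g hg.continuous (Real.sin t)).comp t (Real.hasDerivAt_sin t)
  have hsc : ∀ t : ℝ, ((Real.cos t : ℝ) : ℂ) ^ 2 = 1 - ((Real.sin t : ℝ) : ℂ) ^ 2 := by
    intro t
    have h := Real.sin_sq_add_cos_sq t
    have h2 : Real.cos t ^ 2 = 1 - Real.sin t ^ 2 := by linarith
    exact_mod_cast congrArg (fun r : ℝ => (r : ℂ)) h2
  refine ⟨?_, ?_, ?_, ?_, ?_, ?_, ?_, ?_, ?_⟩
  · exact (P2_ofReal _ hc).mul (P2_exp _ (hAs.sub hDs))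
  · exact (P2_ofReal _ hs).mul (P2_exp _ (hAs.add hDs))
  · have hy : ContDiff ℝ ∞ (yy g) := by
      unfold yy
      exact ((contDiff_const.mul hs).mul (hc.pow 2)).mul hgs
    exact (contDiff_const.add ((P2_ofReal _ hy).mul contDiff_const)).mul
      (P2_exp _ (contDiff_const.mul hDs))
  · intro t
    unfold zz ww
    rw [Complex.normSq_mul, Complex.normSq_mul, P2_nsq, P2_nsq, Complex.normSq_ofReal,
      Complex.normSq_ofReal]
    have := Real.sin_sq_add_cos_sq t
    nlinarith
  · intro t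
    have h1 := (Real.hasDerivAt_cos t).ofReal_comp.mul (P2_dexp _ _ t ((hdA t).sub (hdD t)))
    have h2 : HasDerivAt (zz g) _ t := h1
    convert h2 using 1
    unfold ww xx yy
    simp only [map_mul, map_add, map_one, Complex.conj_ofReal, Complex.conj_I, ← Complex.exp_conj]
    have e1 : Complex.exp (((AA g (Real.sin t) + DD g (Real.sin t) : ℝ) : ℂ) * Complex.I) *
        Complex.exp (((2 * DD g (Real.sin t) : ℝ) : ℂ) * -Complex.I) =
        Complex.exp (((AA g (Real.sin t) - DD g (Real.sin t) : ℝ) : ℂ) * Complex.I) := by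
      rw [← Complex.exp_add]
      congr 1
      push_cast
      ring
    simp only [Pi.sub_apply] at *
    rw [show ∀ a b c d : ℂ, -(a * b * (c * d)) = -(a * c * (b * d)) by intros; ring, e1]
    generalize Complex.exp (((AA g (Real.sin t) - DD g (Real.sin t) : ℝ) : ℂ) * Complex.I) = E
    push_cast
    have h3 := hsc t
    push_cast at h3
    linear_combination 0 * h3
  · intro t
    have h1 := (Real.hasDerivAt_sin t).ofReal_comp.mul (P2_dexp _ _ t ((hdA t).add (hdD t)))
    have h2 : HasDerivAt (ww g) _ t := h1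
    convert h2 using 1
    unfold zz xx yy
    have e1 : Complex.exp (((AA g (Real.sin t) - DD g (Real.sin t) : ℝ) : ℂ) * Complex.I) *
        Complex.exp (((2 * DD g (Real.sin t) : ℝ) : ℂ) * Complex.I) =
        Complex.exp (((AA g (Real.sin t) + DD g (Real.sin t) : ℝ) : ℂ) * Complex.I) := by
      rw [← Complex.exp_add]
      congr 1
      push_cast
      ring
    simp only [Pi.add_apply] at *
    rw [show ∀ a b c d : ℂ, a * b * (c * d) = a * c * (b * d) by intros; ring, e1]
    generalize Complex.exp (((AA g (Real.sin t) + DD g (Real.sin t) : ℝ) : ℂ) * Complex.I) = E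
    push_cast
    have h3 := hsc t
    push_cast at h3
    linear_combination (2 * Complex.cos t * Complex.sin t * (g (Real.sin t) : ℂ) * Complex.I * E) * h3
  · intro t
    simp [zz, Real.sin_add_two_pi, Real.cos_add_two_pi]
  · intro t
    simp [ww, Real.sin_add_two_pi, Real.cos_add_two_pi]
  · intro t
    simp only [xx, yy, Real.sin_add_two_pi, Real.cos_add_two_pi]


end Pool.Agent.Helper331.FT
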