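import Pool.Agent.Helper331.FT.Defs
import Pool.Agent.Helper331.FT.P2
import Pool.Agent.Helper331.FT.G1
import Pool.Agent.Helper331.FT.G2
set_option autoImplicit false
open scoped ContDiff ComplexConjugate
open Set MeasureTheory intervalIntegral

namespace Pool.Agent.Helper331.FT

/-- the relations at a point -/
def G3_Q (z w ξ : ℝ → ℂ) (t : ℝ) : Prop :=
  Complex.normSq (z t) + Complex.normSq (w t) = 1 ∧
    HasDerivAt z (-(w t * conj (ξ t))) t ∧ HasDerivAt w (z t * ξ t) t

theorem G3_step (z w ξ : ℝ → ℂ) (C : ℝ) (S : ℂ) (hCS : C ^ 2 + Complex.normSq S = 1) (β : ℝ)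
    (hz : ∀ t, z (t + β) = (C : ℂ) * conj (z t) - S * w t)
    (hw : ∀ t, w (t + β) = (C : ℂ) * conj (w t) + S * z t)
    (hξ : ∀ t, ξ (t + β) = conj (ξ t)) (t : ℝ) (hQ : G3_Q z w ξ t) : G3_Q z w ξ (t + β) := by
  obtain ⟨h1, h2, h3⟩ := hQ
  have hsub : HasDerivAt (fun s : ℝ => s - β) 1 (t + β) := (hasDerivAt_id _).sub_const β
  have ht : t + β - β = t := by ring
  have hz2 : HasDerivAt (fun s => z (s - β)) (-(w t * conj (ξ t))) (t + β) := by
    have := HasDerivAt.scomp (t + β) (by rw [ht]; exact h2) hsub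
    simpa [Function.comp_def] using this
  have hw2 : HasDerivAt (fun s => w (s - β)) (z t * ξ t) (t + β) := by
    have := HasDerivAt.scomp (t + β) (by rw [ht]; exact h3) hsub
    simpa [Function.comp_def] using this
  have hz3 : HasDerivAt (fun s => conj (z (s - β))) (conj (-(w t * conj (ξ t)))) (t + β) := by
    have := (Complex.conjCLE.toContinuousLinearMap.hasFDerivAt (x := z (t + β - β))).comp_hasDerivAt (t + β) hz2
    simpa [Function.comp_def] using this
  have hw3 : HasDerivAt (fun s => conj (w (s - β))) (conj (z t * ξ t)) (t + β) := by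
    have := (Complex.conjCLE.toContinuousLinearMap.hasFDerivAt (x := w (t + β - β))).comp_hasDerivAt (t + β) hw2
    simpa [Function.comp_def] using this
  have ez : z = fun s => (C : ℂ) * conj (z (s - β)) - S * w (s - β) := by
    funext s
    have := hz (s - β)
    rwa [sub_add_cancel] at this
  have ew : w = fun s => (C : ℂ) * conj (w (s - β)) + S * z (s - β) := by
    funext s
    have := hw (s - β)
    rwa [sub_add_cancel] at this
  refine ⟨?_, ?_, ?_⟩
  · rw [hz, hw]
    have e : Complex.normSq ((C : ℂ) * conj (z t) - S * w t) +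
        Complex.normSq ((C : ℂ) * conj (w t) + S * z t) =
        (C ^ 2 + Complex.normSq S) * (Complex.normSq (z t) + Complex.normSq (w t)) := by
      simp only [Complex.normSq_apply, Complex.sub_re, Complex.sub_im, Complex.add_re, Complex.add_im,
        Complex.mul_re, Complex.mul_im, Complex.ofReal_re, Complex.ofReal_im, Complex.conj_re,
        Complex.conj_im]
      ring
    rw [e, hCS, h1, one_mul]
  · have h4 : HasDerivAt (fun s => (C : ℂ) * conj (z (s - β)) - S * w (s - β))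
        ((C : ℂ) * conj (-(w t * conj (ξ t))) - S * (z t * ξ t)) (t + β) :=
      (hz3.const_mul _).sub (hw2.const_mul _)
    rw [← ez] at h4
    convert h4 using 1
    rw [hw, hξ]
    simp only [map_neg, map_mul, Complex.conj_conj]
    ring
  · have h4 : HasDerivAt (fun s => (C : ℂ) * conj (w (s - β)) + S * z (s - β))
        ((C : ℂ) * conj (z t * ξ t) + S * (-(w t * conj (ξ t)))) (t + β) :=
      (hw3.const_mul _).add (hz2.const_mul _)
    rw [← ew] at h4
    convert h4 using 1
    rw [hz, hξ]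
    simp only [map_mul]
    ring

theorem G3_inv (C : ℝ) (S : ℂ) (hCS : C ^ 2 + Complex.normSq S = 1) (z w : ℂ) :
    (C : ℂ) * conj ((C : ℂ) * conj z - S * w) + conj S * ((C : ℂ) * conj w + S * z) = z ∧
    (C : ℂ) * conj ((C : ℂ) * conj w + S * z) - conj S * ((C : ℂ) * conj z - S * w) = w := by
  have h : (C : ℂ) ^ 2 + S * conj S = 1 := by
    rw [Complex.mul_conj]; exact_mod_cast hCS
  constructor
  · simp only [map_sub, map_mul, Complex.conj_conj, Complex.conj_ofReal]
    linear_combination z * h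
  · simp only [map_add, map_mul, Complex.conj_conj, Complex.conj_ofReal]
    linear_combination w * h

/-- the real linear map -/
noncomputable def G3_map (C : ℝ) (S : ℂ) : (ℂ × ℂ × ℂ) →ₗ[ℝ] (ℂ × ℂ × ℂ) where
  toFun p := ((C : ℂ) * conj p.1 - S * p.2.1, (C : ℂ) * conj p.2.1 + S * p.1, conj p.2.2)
  map_add' p q := by
    refine Prod.ext ?_ (Prod.ext ?_ ?_)
    · simp; ring
    · simp; ring
    · simp
  map_smul' a p := by
    refine Prod.ext ?_ (Prod.ext ?_ ?_)
    · simp; ring
    · simp; ring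
    · simp

theorem G3_map_inj (C : ℝ) (S : ℂ) (hCS : C ^ 2 + Complex.normSq S = 1) :
    Function.Injective (G3_map C S) := by
  rintro ⟨z, w, x⟩ ⟨z', w', x'⟩ h
  have h1 : (C : ℂ) * conj z - S * w = (C : ℂ) * conj z' - S * w' := congrArg Prod.fst h
  have h2 : (C : ℂ) * conj w + S * z = (C : ℂ) * conj w' + S * z' := congrArg (fun p => p.2.1) h
  have h3 : conj x = conj x' := congrArg (fun p => p.2.2) h
  have a := G3_inv C S hCS z w
  have b := G3_inv C S hCS z' w'
  rw [h1, h2] at a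
  refine Prod.ext (a.1.symm.trans b.1) (Prod.ext (a.2.symm.trans b.2) ?_)
  exact (starRingEnd ℂ).injective h3

theorem G3 (g : ℝ → ℝ) (r α : ℝ) (hg : ContDiff ℝ ∞ g) (hev : ∀ x, g (-x) = g x)
    (hr : 0 < r) (hr2 : r < 1 / 2) (hsupp : ∀ x, r ≤ |x| → g x = 0)
    (hα1 : Real.pi / 3 ≤ α) (hα2 : α ≤ 2 * Real.pi / 3) :
    ∃ z w ξ : ℝ → ℂ, ContDiff ℝ ∞ z ∧ ContDiff ℝ ∞ w ∧ ContDiff ℝ ∞ ξ ∧
      (∀ t, Complex.normSq (z t) + Complex.normSq (w t) = 1) ∧
      (∀ t, HasDerivAt z (-(w t * conj (ξ t))) t) ∧ (∀ t, HasDerivAt w (z t * ξ t) t) ∧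
      (∀ t, z (t + α) = (Real.cos α : ℂ) * conj (z t) -
        (Real.sin α : ℂ) * Complex.exp (((2 * AA g r : ℝ) : ℂ) * Complex.I) * w t) ∧
      (∀ t, w (t + α) = (Real.cos α : ℂ) * conj (w t) +
        (Real.sin α : ℂ) * Complex.exp (((2 * AA g r : ℝ) : ℂ) * Complex.I) * z t) ∧
      (∀ t, ξ (t + α) = conj (ξ t)) ∧ (∀ t, |t| ≤ α / 2 → ξ t = xx g t) := by
  set C : ℝ := Real.cos α with hC
  set S : ℂ := (Real.sin α : ℂ) * Complex.exp (((2 * AA g r : ℝ) : ℂ) * Complex.I) with hS
  have hCS : C ^ 2 + Complex.normSq S = 1 := by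
    have h1 : Complex.normSq S = Real.sin α ^ 2 := by
      rw [hS, Complex.normSq_mul, Complex.normSq_ofReal, Complex.normSq_eq_norm_sq (Complex.exp _),
        Complex.norm_exp_ofReal_mul_I]
      ring
    rw [h1, hC]
    exact Real.cos_sq_add_sin_sq α
  let L : (ℂ × ℂ × ℂ) ≃ₗ[ℝ] (ℂ × ℂ × ℂ) :=
    LinearEquiv.ofInjectiveEndo (G3_map C S) (G3_map_inj C S hCS)
  let Φ : (ℂ × ℂ × ℂ) ≃L[ℝ] (ℂ × ℂ × ℂ) := L.toContinuousLinearEquiv
  have hΦ : ∀ p, Φ p = ((C : ℂ) * conj p.1 - S * p.2.1, (C : ℂ) * conj p.2.1 + S * p.1, conj p.2.2) :=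
    fun p => rfl
  have hP := P2 g hg
  have hpi := Real.pi_pos
  have hα : 0 < α := by linarith
  have hsin : r < Real.sin (α / 2) := by
    have h1 : Real.sin (Real.pi / 6) ≤ Real.sin (α / 2) :=
      Real.sin_le_sin_of_le_of_le_pi_div_two (by linarith) (by linarith) (by linarith)
    rw [Real.sin_pi_div_six] at h1
    linarith
  obtain ⟨η, hη, hηs⟩ : ∃ η > 0, ∀ u : ℝ, |u - α / 2| < η → r < Real.sin u := by
    have h1 := (Real.continuous_sin.tendsto (α / 2)).eventually (lt_mem_nhds hsin)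
    obtain ⟨η, hη, h2⟩ := Metric.eventually_nhds_iff.1 h1
    exact ⟨η, hη, fun u hu => h2 (by rwa [Real.dist_eq])⟩
  obtain ⟨c, hc1, hc2, hc3⟩ := G1 Φ (fun t => (zz g t, ww g t, xx g t))
    (hP.cz.prodMk (hP.cw.prodMk hP.cξ)) α η hα hη (by
      intro s hs
      have h1 := hηs s hs
      have h2 : r < Real.sin (α - s) := hηs (α - s) (by
        have : α - s - α / 2 = -(s - α / 2) := by ring
        rw [this, abs_neg]; exact hs)
      obtain ⟨e1, e2, e3⟩ := G2 g r α s hg hev hr hsupp h1.le h2.le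
      rw [hΦ]
      exact Prod.ext e1 (Prod.ext e2 e3))
  have hz : ∀ t, (c (t + α)).1 = (C : ℂ) * conj (c t).1 - S * (c t).2.1 := by
    intro t; rw [hc2, hΦ]
  have hw : ∀ t, (c (t + α)).2.1 = (C : ℂ) * conj (c t).2.1 + S * (c t).1 := by
    intro t; rw [hc2, hΦ]
  have hξ : ∀ t, (c (t + α)).2.2 = conj (c t).2.2 := by
    intro t; rw [hc2, hΦ]
  have hz' : ∀ t, (c (t + -α)).1 = (C : ℂ) * conj (c t).1 - (-conj S) * (c t).2.1 := by
    intro t
    have h1 := hz (t + -α)
    have h2 := hw (t + -α)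
    rw [neg_add_cancel_right] at h1 h2
    have h3 := (G3_inv C S hCS (c (t + -α)).1 (c (t + -α)).2.1).1
    rw [← h1, ← h2] at h3
    rw [← h3]; ring
  have hw' : ∀ t, (c (t + -α)).2.1 = (C : ℂ) * conj (c t).2.1 + (-conj S) * (c t).1 := by
    intro t
    have h1 := hz (t + -α)
    have h2 := hw (t + -α)
    rw [neg_add_cancel_right] at h1 h2
    have h3 := (G3_inv C S hCS (c (t + -α)).1 (c (t + -α)).2.1).2
    rw [← h1, ← h2] at h3
    rw [← h3]; ring
  have hξ' : ∀ t, (c (t + -α)).2.2 = conj (c t).2.2 := by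
    intro t
    have h1 := hξ (t + -α)
    rw [neg_add_cancel_right] at h1
    rw [h1, Complex.conj_conj]
  have hCS' : C ^ 2 + Complex.normSq (-conj S) = 1 := by
    rw [Complex.normSq_neg, Complex.normSq_conj]; exact hCS
  have base : ∀ t, |t| ≤ α / 2 → G3_Q (fun t => (c t).1) (fun t => (c t).2.1) (fun t => (c t).2.2) t := by
    intro t ht
    have h1 := hc3 t ht
    have h2 : c t = (zz g t, ww g t, xx g t) := h1.eq_of_nhds
    refine ⟨?_, ?_, ?_⟩
    · simp only [h2]; exact hP.unit t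
    · simp only [h2]
      exact (hP.dz t).congr_of_eventuallyEq (h1.mono fun s hs => by
        simp only [hs])
    · simp only [h2]
      exact (hP.dw t).congr_of_eventuallyEq (h1.mono fun s hs => by
        simp only [hs])
  have all : ∀ t, G3_Q (fun t => (c t).1) (fun t => (c t).2.1) (fun t => (c t).2.2) t := by
    have key : ∀ (t0 : ℝ), |t0| ≤ α / 2 → ∀ n : ℤ,
        G3_Q (fun t => (c t).1) (fun t => (c t).2.1) (fun t => (c t).2.2) (t0 + n * α) := by
      intro t0 ht0 n
      induction n using Int.induction_on with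
      | zero => simpa using base t0 ht0
      | succ i hi =>
        have := G3_step _ _ _ C S hCS α hz hw hξ _ hi
        have e : t0 + ((i : ℤ) : ℝ) * α + α = t0 + (((i : ℤ) + 1 : ℤ) : ℝ) * α := by
          push_cast; ring
        rw [e] at this
        exact this
      | pred i hi =>
        have := G3_step _ _ _ C (-conj S) hCS' (-α) hz' hw' hξ' _ hi
        have e : t0 + ((-(i : ℤ) : ℤ) : ℝ) * α + -α = t0 + ((-(i : ℤ) - 1 : ℤ) : ℝ) * α := by
          push_cast; ring
        rw [e] at this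
        exact this
    intro t
    have h1 := abs_sub_round (t / α)
    have h2 : |t - round (t / α) * α| ≤ α / 2 := by
      have e : t - round (t / α) * α = (t / α - round (t / α)) * α := by
        rw [sub_mul, div_mul_cancel₀ _ hα.ne']
      rw [e, abs_mul, abs_of_pos hα]
      nlinarith
    have h3 := key _ h2 (round (t / α))
    rw [sub_add_cancel] at h3
    exact h3
  refine ⟨fun t => (c t).1, fun t => (c t).2.1, fun t => (c t).2.2, hc1.fst, hc1.snd.fst, hc1.snd.snd,
    fun t => (all t).1, fun t => (all t).2.1, fun t => (all t).2.2, hz, hw, hξ, ?_⟩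
  intro t ht
  have h2 : c t = (zz g t, ww g t, xx g t) := (hc3 t ht).eq_of_nhds
  simp only [h2]


end Pool.Agent.Helper331.FT
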