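import Pool.Agent.Helper331.FT.Defs
set_option autoImplicit false
open scoped ContDiff ComplexConjugate
open Set MeasureTheory intervalIntegral

namespace Pool.Agent.Helper331.FT

theorem G4_aux (z w ξ : ℝ → ℂ) (α : ℝ) (c S r : ℂ) (hc : conj c = c) (hr : S + conj S = r)
    (hr3 : r ^ 2 = 3) (h1 : c ^ 2 + S * conj S = 1)
    (hz : ∀ t, z (t + α) = c * conj (z t) - S * w t)
    (hw : ∀ t, w (t + α) = c * conj (w t) + S * z t)
    (hξ : ∀ t, ξ (t + α) = conj (ξ t)) :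
    ∀ t, z (t + 6 * α) = z t ∧ w (t + 6 * α) = w t ∧ ξ (t + 6 * α) = ξ t := by
  have hrb : conj r = r := by rw [← hr]; simp [add_comm]
  obtain ⟨u, hu⟩ : ∃ u, u = c ^ 2 - S ^ 2 := ⟨_, rfl⟩
  obtain ⟨v, hv⟩ : ∃ v, v = c * r := ⟨_, rfl⟩
  have hub : conj u = c ^ 2 - conj S ^ 2 := by rw [hu, map_sub, map_pow, map_pow, hc]
  have hvb : conj v = v := by rw [hv, map_mul, hc, hrb]
  have e1 : u + conj u = -1 := by
    rw [hub, hu]
    linear_combination 2 * h1 - (S + conj S + r) * hr - hr3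
  have e2 : u * conj u + v ^ 2 = 1 := by
    rw [hub, hu, hv]
    linear_combination (c ^ 2 + S * conj S + 1) * h1 - c ^ 2 * (S + conj S + r) * hr
  have s2 : ∀ t, z (t + 2 * α) = u * z t - v * conj (w t) ∧
      w (t + 2 * α) = u * w t + v * conj (z t) ∧ ξ (t + 2 * α) = ξ t := by
    intro t
    have e : t + 2 * α = (t + α) + α := by ring
    rw [e, hz (t + α), hw (t + α), hξ (t + α), hz t, hw t, hξ t]
    simp only [map_sub, map_add, map_mul, Complex.conj_conj, hc]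
    refine ⟨?_, ?_, trivial⟩
    · rw [hu, hv, ← hr]; ring
    · rw [hu, hv, ← hr]; ring
  intro t
  have e : t + 6 * α = ((t + 2 * α) + 2 * α) + 2 * α := by ring
  obtain ⟨a1, a2, a3⟩ := s2 ((t + 2 * α) + 2 * α)
  obtain ⟨b1, b2, b3⟩ := s2 (t + 2 * α)
  obtain ⟨c1, c2, c3⟩ := s2 t
  rw [e, a1, a2, a3, b1, b2, b3, c1, c2, c3]
  simp only [map_sub, map_add, map_mul, Complex.conj_conj, hvb]
  obtain ⟨ub, hub'⟩ : ∃ x, x = conj u := ⟨_, rfl⟩
  rw [← hub'] at e1 e2 ⊢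
  have f1 : u ^ 2 + u * ub + ub ^ 2 - v ^ 2 = 0 := by
    linear_combination (u + ub - 1) * e1 - e2
  have f2 : u ^ 3 - 2 * u * v ^ 2 - ub * v ^ 2 = 1 := by
    linear_combination (u * (u + ub - 1) - 1) * e1 - (2 * u + ub) * e2
  refine ⟨?_, ?_, trivial⟩
  · linear_combination z t * f2 - v * conj (w t) * f1
  · linear_combination w t * f2 + v * conj (z t) * f1

theorem G4 (z w ξ : ℝ → ℂ) (α A : ℝ)
    (hz : ∀ t, z (t + α) = (Real.cos α : ℂ) * conj (z t) -
        (Real.sin α : ℂ) * Complex.exp (((2 * A : ℝ) : ℂ) * Complex.I) * w t)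
    (hw : ∀ t, w (t + α) = (Real.cos α : ℂ) * conj (w t) +
        (Real.sin α : ℂ) * Complex.exp (((2 * A : ℝ) : ℂ) * Complex.I) * z t)
    (hξ : ∀ t, ξ (t + α) = conj (ξ t)) (hcl : Real.sin α * Real.cos (2 * A) = Real.sqrt 3 / 2) :
    ∀ t, z (t + 6 * α) = z t ∧ w (t + 6 * α) = w t ∧ ξ (t + 6 * α) = ξ t := by
  have hS : (Real.sin α : ℂ) * Complex.exp (((2 * A : ℝ) : ℂ) * Complex.I) =
      ⟨Real.sin α * Real.cos (2 * A), Real.sin α * Real.sin (2 * A)⟩ := by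
    apply Complex.ext
    · rw [Complex.re_ofReal_mul, Complex.exp_ofReal_mul_I_re]
    · rw [Complex.im_ofReal_mul, Complex.exp_ofReal_mul_I_im]
  have hr3 : ((Real.sqrt 3 : ℝ) : ℂ) ^ 2 = 3 := by
    rw [← Complex.ofReal_pow, Real.sq_sqrt (by norm_num)]
    norm_num
  refine G4_aux z w ξ α (Real.cos α : ℂ)
    ((Real.sin α : ℂ) * Complex.exp (((2 * A : ℝ) : ℂ) * Complex.I)) ((Real.sqrt 3 : ℝ) : ℂ)
    (Complex.conj_ofReal _) ?_ hr3 ?_ hz hw hξ
  · rw [hS]
    apply Complex.ext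
    · simp only [Complex.add_re, Complex.conj_re, Complex.ofReal_re]
      linarith
    · simp only [Complex.add_im, Complex.conj_im, Complex.ofReal_im]
      ring
  · rw [hS, Complex.mul_conj, Complex.normSq_mk, ← Complex.ofReal_pow, ← Complex.ofReal_add,
      ← Complex.ofReal_one]
    congr 1
    have h1 := Real.sin_sq_add_cos_sq α
    have h2 := Real.sin_sq_add_cos_sq (2 * A)
    linear_combination h1 + Real.sin α ^ 2 * h2


end Pool.Agent.Helper331.FT
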