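import Pool.Agent.Helper331.FT.Defs
import Pool.Agent.Helper331.FT.G3
import Pool.Agent.Helper331.FT.G4
set_option autoImplicit false
open scoped ContDiff ComplexConjugate
open Set MeasureTheory intervalIntegral

namespace Pool.Agent.Helper331.FT

theorem G5_conj (g : ℝ → ℝ) (hev : ∀ x, g (-x) = g x) (t : ℝ) : xx g (-t) = conj (xx g t) := by
  have hD : ∀ x, DD g (-x) = - DD g x := by
    intro x
    unfold DD
    have h1 := intervalIntegral.integral_comp_neg (a := 0) (b := x)
      (fun y : ℝ => g y * (1 - 2 * y ^ 2))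
    simp only [neg_zero] at h1
    rw [intervalIntegral.integral_symm, ← h1]
    congr 1
    apply intervalIntegral.integral_congr
    intro y _
    simp only [hev, neg_sq]
  unfold xx yy
  rw [Real.sin_neg, Real.cos_neg, hev, hD]
  rw [map_mul, ← Complex.exp_conj, map_mul, map_add, map_mul, Complex.conj_I, Complex.conj_ofReal,
    Complex.conj_ofReal, map_one]
  push_cast
  ring_nf

theorem G5 (g : ℝ → ℝ) (r α : ℝ) (hg : ContDiff ℝ ∞ g) (hev : ∀ x, g (-x) = g x)
    (hr : 0 < r) (hr2 : r < 1 / 2) (hsupp : ∀ x, r ≤ |x| → g x = 0)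
    (hα1 : Real.pi / 3 ≤ α) (hα2 : α ≤ 2 * Real.pi / 3)
    (hcl : Real.sin α * Real.cos (2 * AA g r) = Real.sqrt 3 / 2) :
    ∃ z w ξ : ℝ → ℂ, IsCurve z w ξ ∧
      (∫ t in (0:ℝ)..(2 * Real.pi), ξ t) = ((12 * ∫ t in (0:ℝ)..(α / 2), (xx g t).re : ℝ) : ℂ) ∧
      ∀ t, ∃ s, ξ t = ((3 * α / Real.pi : ℝ) : ℂ) * xx g s ∨
        ξ t = ((3 * α / Real.pi : ℝ) : ℂ) * conj (xx g s) := by
  obtain ⟨z, w, ξ, cz, cw, cξ, hunit, hdz, hdw, hz, hw, hξ, hxx⟩ :=
    G3 g r α hg hev hr hr2 hsupp hα1 hα2
  have hper := G4 z w ξ α (AA g r) hz hw hξ hcl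
  have hπ := Real.pi_pos
  have hα0 : 0 < α := by linarith [Real.pi_pos]
  set κ : ℝ := 3 * α / Real.pi with hκ
  have hκπ : κ * (2 * Real.pi) = 6 * α := by
    rw [hκ]; field_simp; ring
  have hξc : Continuous ξ := cξ.continuous
  have hlin : ContDiff ℝ ∞ (fun t : ℝ => κ * t) := contDiff_const.mul contDiff_id
  have hderlin : ∀ t : ℝ, HasDerivAt (fun t : ℝ => κ * t) κ t := by
    intro t
    simpa using (hasDerivAt_id t).const_mul κ
  have hadd : ∀ t : ℝ, κ * (t + 2 * Real.pi) = κ * t + 6 * α := by
    intro t; rw [mul_add, hκπ]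
  refine ⟨fun t => z (κ * t), fun t => w (κ * t), fun t => (κ : ℂ) * ξ (κ * t), ?_, ?_, ?_⟩
  · refine ⟨cz.comp hlin, cw.comp hlin, contDiff_const.mul (cξ.comp hlin), fun t => hunit _,
      ?_, ?_, ?_, ?_, ?_⟩
    · intro t
      have h1 := HasDerivAt.scomp t (hdz (κ * t)) (hderlin t)
      have h2 : κ • -(w (κ * t) * conj (ξ (κ * t))) = -(w (κ * t) * conj ((κ : ℂ) * ξ (κ * t))) := by
        rw [map_mul, Complex.conj_ofReal, Complex.real_smul]; ring
      rw [← h2]
      exact h1
    · intro t
      have h1 := HasDerivAt.scomp t (hdw (κ * t)) (hderlin t)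
      have h2 : κ • (z (κ * t) * ξ (κ * t)) = z (κ * t) * ((κ : ℂ) * ξ (κ * t)) := by
        rw [Complex.real_smul]; ring
      rw [← h2]
      exact h1
    · intro t
      show z (κ * (t + 2 * Real.pi)) = z (κ * t)
      rw [hadd]; exact (hper _).1
    · intro t
      show w (κ * (t + 2 * Real.pi)) = w (κ * t)
      rw [hadd]; exact (hper _).2.1
    · intro t
      show (κ : ℂ) * ξ (κ * (t + 2 * Real.pi)) = (κ : ℂ) * ξ (κ * t)
      rw [hadd, (hper _).2.2]
  · -- the integral
    have e1 : (∫ t in (0:ℝ)..(2 * Real.pi), (κ : ℂ) * ξ (κ * t)) = ∫ t in (0:ℝ)..(6 * α), ξ t := by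
      have h1 := intervalIntegral.smul_integral_comp_mul_left (a := 0) (b := 2 * Real.pi) ξ κ
      rw [mul_zero, hκπ] at h1
      rw [← h1, intervalIntegral.integral_const_mul, Complex.real_smul]
    have hperiodic : Function.Periodic ξ (6 * α) := fun t => (hper t).2.2
    have e2 : (∫ t in (0:ℝ)..(6 * α), ξ t) = ∫ t in (-(α / 2))..(-(α / 2) + 6 * α), ξ t := by
      have := hperiodic.intervalIntegral_add_eq 0 (-(α / 2))
      rw [zero_add] at this
      exact this
    have hint : ∀ a b : ℝ, IntervalIntegrable ξ volume a b := fun a b =>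
      hξc.intervalIntegrable a b
    have hshift : ∀ a b : ℝ, (∫ t in (a + α)..(b + α), ξ t) = conj (∫ t in a..b, ξ t) := by
      intro a b
      rw [← intervalIntegral.integral_comp_add_right, ← intervalIntegral_conj]
      apply intervalIntegral.integral_congr
      intro t _
      exact hξ t
    set I : ℂ := ∫ t in (-(α / 2))..(α / 2), ξ t with hI
    have a1 : (α / 2 : ℝ) = -(α / 2) + α := by ring
    have I1 : (∫ t in (α / 2)..(α / 2 + α), ξ t) = conj I := by
      have := hshift (-(α / 2)) (α / 2)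
      rw [← a1] at this
      exact this
    have I2 : (∫ t in (α / 2 + α)..(α / 2 + α + α), ξ t) = I := by
      rw [hshift, I1, Complex.conj_conj]
    have I3 : (∫ t in (α / 2 + α + α)..(α / 2 + α + α + α), ξ t) = conj I := by
      rw [hshift, I2]
    have I4 : (∫ t in (α / 2 + α + α + α)..(α / 2 + α + α + α + α), ξ t) = I := by
      rw [hshift, I3, Complex.conj_conj]
    have I5 : (∫ t in (α / 2 + α + α + α + α)..(α / 2 + α + α + α + α + α), ξ t) = conj I := by
      rw [hshift, I4]
    have a2 : (-(α / 2) + 6 * α : ℝ) = α / 2 + α + α + α + α + α := by ring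
    have e3 : (∫ t in (-(α / 2))..(-(α / 2) + 6 * α), ξ t) = 3 * (I + conj I) := by
      rw [a2]
      rw [← intervalIntegral.integral_add_adjacent_intervals (hint _ (α / 2 + α + α + α + α))
        (hint _ _), I5]
      rw [← intervalIntegral.integral_add_adjacent_intervals (hint _ (α / 2 + α + α + α))
        (hint _ (α / 2 + α + α + α + α)), I4]
      rw [← intervalIntegral.integral_add_adjacent_intervals (hint _ (α / 2 + α + α))
        (hint _ (α / 2 + α + α + α)), I3]
      rw [← intervalIntegral.integral_add_adjacent_intervals (hint _ (α / 2 + α))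
        (hint _ (α / 2 + α + α)), I2]
      rw [← intervalIntegral.integral_add_adjacent_intervals (hint _ (α / 2))
        (hint _ (α / 2 + α)), I1]
      rw [← hI]
      ring
    have hre : I.re = 2 * ∫ t in (0:ℝ)..(α / 2), (xx g t).re := by
      have h1 : I.re = ∫ t in (-(α / 2))..(α / 2), (ξ t).re := by
        have := Complex.reCLM.intervalIntegral_comp_comm (hint (-(α / 2)) (α / 2))
        rw [hI]
        simpa using this.symm
      have hrc : Continuous fun t => (ξ t).re := Complex.continuous_re.comp hξc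
      have h2 : (∫ t in (-(α / 2))..(0:ℝ), (ξ t).re) = ∫ t in (0:ℝ)..(α / 2), (xx g t).re := by
        have h3 := intervalIntegral.integral_comp_neg (a := 0) (b := α / 2)
          (fun t : ℝ => (ξ t).re)
        rw [neg_zero] at h3
        rw [← h3]
        apply intervalIntegral.integral_congr
        intro t ht
        rw [uIcc_of_le (by positivity)] at ht
        show (ξ (-t)).re = (xx g t).re
        rw [hxx (-t) (by rw [abs_neg, abs_of_nonneg ht.1]; exact ht.2), G5_conj g hev,
          Complex.conj_re]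
      have h4 : (∫ t in (0:ℝ)..(α / 2), (ξ t).re) = ∫ t in (0:ℝ)..(α / 2), (xx g t).re := by
        apply intervalIntegral.integral_congr
        intro t ht
        rw [uIcc_of_le (by positivity)] at ht
        show (ξ t).re = (xx g t).re
        rw [hxx t (by rw [abs_of_nonneg ht.1]; exact ht.2)]
      rw [h1, ← intervalIntegral.integral_add_adjacent_intervals
        (hrc.intervalIntegrable _ 0) (hrc.intervalIntegrable _ _), h2, h4]
      ring
    rw [e1, e2, e3, Complex.add_conj, hre]
    push_cast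
    ring
  · intro t
    have h2per : Function.Periodic ξ (2 * α) := by
      intro u
      have : u + 2 * α = u + α + α := by ring
      rw [this, hξ, hξ, Complex.conj_conj]
    set u : ℝ := κ * t with hu
    set n : ℤ := round (u / α) with hn
    have habs : |u / α - n| ≤ 1 / 2 := abs_sub_round _
    set t0 : ℝ := u - n * α with ht0
    have ht0' : |t0| ≤ α / 2 := by
      have h1 : t0 = (u / α - n) * α := by rw [ht0]; field_simp
      rw [h1, abs_mul, abs_of_pos hα0]
      nlinarith
    have hx := hxx t0 ht0'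
    rcases Int.even_or_odd' n with ⟨m, hm | hm⟩
    · refine ⟨t0, Or.inl ?_⟩
      show (κ : ℂ) * ξ u = (κ : ℂ) * xx g t0
      have h3 : u = t0 + m * (2 * α) := by
        rw [ht0, hm]; push_cast; ring
      rw [h3, h2per.int_mul m t0, hx]
    · refine ⟨t0, Or.inr ?_⟩
      show (κ : ℂ) * ξ u = (κ : ℂ) * conj (xx g t0)
      have h3 : u = (t0 + α) + m * (2 * α) := by
        rw [ht0, hm]; push_cast; ring
      rw [h3, h2per.int_mul m (t0 + α), hξ, hx]


end Pool.Agent.Helper331.FT
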