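import Pool.Agent.Helper331.FT.Defs
set_option autoImplicit false
open scoped ContDiff ComplexConjugate
open Set MeasureTheory intervalIntegral

namespace Pool.Agent.Helper331.FT

theorem G6_DD (g : ℝ → ℝ) (c x : ℝ) : DD (fun x => c * g x) x = c * DD g x := by
  unfold DD
  rw [← intervalIntegral.integral_const_mul]
  congr 1
  funext y
  ring

theorem G6_xx (g : ℝ → ℝ) (c t : ℝ) : xx (fun x => c * g x) t =
    (1 + ((c * yy g t : ℝ) : ℂ) * Complex.I) *
      Complex.exp (((2 * (c * DD g (Real.sin t)) : ℝ) : ℂ) * Complex.I) := by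
  unfold xx
  rw [G6_DD]
  congr 4
  unfold yy
  ring

theorem G6 (g : ℝ → ℝ) (hg : ContDiff ℝ ∞ g) (A₀ : ℝ) (hA : 0 < A₀) :
    ContinuousOn (fun α : ℝ => 12 * ∫ t in (0:ℝ)..(α / 2),
      (xx (fun x => (Real.arccos (Real.sqrt 3 / (2 * Real.sin α)) / (2 * A₀)) * g x) t).re)
      (Set.Icc (Real.pi / 3) (2 * Real.pi / 3)) := by
  have hgc : Continuous g := hg.continuous
  have hDD : Continuous (DD g) := by
    unfold DD
    apply intervalIntegral.continuous_primitive
    intro a b
    apply Continuous.intervalIntegrable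
    fun_prop
  have hyy : Continuous (yy g) := by
    unfold yy
    fun_prop
  have hF : Continuous (fun p : (ℝ × ℝ) × ℝ => ((1 + ((p.1.1 * yy g p.2 : ℝ) : ℂ) * Complex.I) *
      Complex.exp (((2 * (p.1.1 * DD g (Real.sin p.2)) : ℝ) : ℂ) * Complex.I)).re) := by
    fun_prop
  have hP : Continuous (fun q : ℝ × ℝ => ∫ t in (0:ℝ)..q.2,
      ((1 + ((q.1 * yy g t : ℝ) : ℂ) * Complex.I) *
      Complex.exp (((2 * (q.1 * DD g (Real.sin t)) : ℝ) : ℂ) * Complex.I)).re) := by
    apply intervalIntegral.continuous_parametric_intervalIntegral_of_continuous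
      (f := fun (q : ℝ × ℝ) (t : ℝ) => ((1 + ((q.1 * yy g t : ℝ) : ℂ) * Complex.I) *
      Complex.exp (((2 * (q.1 * DD g (Real.sin t)) : ℝ) : ℂ) * Complex.I)).re)
    · exact hF
    · exact continuous_snd
  have hc : ContinuousOn (fun α : ℝ => ((Real.arccos (Real.sqrt 3 / (2 * Real.sin α)) / (2 * A₀),
      α / 2) : ℝ × ℝ)) (Set.Icc (Real.pi / 3) (2 * Real.pi / 3)) := by
    apply ContinuousOn.prodMk
    · apply ContinuousOn.div_const
      apply Real.continuous_arccos.comp_continuousOn
      apply ContinuousOn.div continuousOn_const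
      · exact (continuous_const.mul Real.continuous_sin).continuousOn
      · intro α hα
        have h1 : 0 < Real.sin α := by
          apply Real.sin_pos_of_pos_of_lt_pi
          · linarith [hα.1, Real.pi_pos]
          · linarith [hα.2, Real.pi_pos]
        positivity
    · exact (continuous_id.div_const 2).continuousOn
  have h := (hP.comp_continuousOn hc).const_smul (12 : ℝ)
  refine h.congr ?_
  intro α _
  simp only [smul_eq_mul, Function.comp]
  congr 1
  apply intervalIntegral.integral_congr
  intro t _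
  simp only
  rw [G6_xx]


end Pool.Agent.Helper331.FT
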