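import Pool.Agent.Helper331.FT.Defs
set_option autoImplicit false
open scoped ContDiff ComplexConjugate
open Set MeasureTheory intervalIntegral

namespace Pool.Agent.Helper331.FT

theorem P1_lower (r ε : ℝ) (hr : 0 < r) (hr2 : r < 1 / 2) (hε : 0 < ε) (φ : ℝ → ℝ)
    (hφc : Continuous φ) (hφ0 : ∀ x, 0 ≤ φ x) (hφo : ∀ x, |x| ≤ r / 2 → φ x = 1) :
    1 / 2 * Real.log ((r / 2 + ε) / ε) ≤ DD (fun x => φ x / Real.sqrt (x ^ 2 + ε ^ 2)) r := by
  have hpos : ∀ x : ℝ, 0 < Real.sqrt (x ^ 2 + ε ^ 2) := fun x => Real.sqrt_pos.2 (by positivity)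
  have hcont : Continuous fun y : ℝ => φ y / Real.sqrt (y ^ 2 + ε ^ 2) * (1 - 2 * y ^ 2) := by
    refine Continuous.mul (hφc.div (by fun_prop) fun x => (hpos x).ne') (by fun_prop)
  have hsplit : DD (fun x => φ x / Real.sqrt (x ^ 2 + ε ^ 2)) r =
      (∫ y in (0:ℝ)..(r / 2), φ y / Real.sqrt (y ^ 2 + ε ^ 2) * (1 - 2 * y ^ 2)) +
      ∫ y in (r / 2)..r, φ y / Real.sqrt (y ^ 2 + ε ^ 2) * (1 - 2 * y ^ 2) := by
    unfold DD
    exact (integral_add_adjacent_intervals (hcont.intervalIntegrable _ _)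
      (hcont.intervalIntegrable _ _)).symm
  have h2 : 0 ≤ ∫ y in (r / 2)..r, φ y / Real.sqrt (y ^ 2 + ε ^ 2) * (1 - 2 * y ^ 2) := by
    refine intervalIntegral.integral_nonneg (by linarith) fun y hy => ?_
    refine mul_nonneg (div_nonneg (hφ0 y) (hpos y).le) ?_
    nlinarith [hy.1, hy.2]
  have hci : ContinuousOn (fun y : ℝ => 1 / 2 * (y + ε)⁻¹) (Set.uIcc 0 (r / 2)) := by
    refine ContinuousOn.mul continuousOn_const (ContinuousOn.inv₀ (by fun_prop) fun y hy => ?_)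
    rw [Set.uIcc_of_le (by linarith)] at hy
    have := hy.1
    linarith
  have h3 : ∫ y in (0:ℝ)..(r / 2), 1 / 2 * (y + ε)⁻¹ ≤
      ∫ y in (0:ℝ)..(r / 2), φ y / Real.sqrt (y ^ 2 + ε ^ 2) * (1 - 2 * y ^ 2) := by
    refine intervalIntegral.integral_mono_on (by linarith) hci.intervalIntegrable
      (hcont.intervalIntegrable _ _) fun y hy => ?_
    have hy0 : 0 ≤ y := hy.1
    rw [hφo y (by rw [abs_of_nonneg hy0]; exact hy.2)]
    have h4 : Real.sqrt (y ^ 2 + ε ^ 2) ≤ y + ε := by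
      rw [Real.sqrt_le_left (by positivity)]
      nlinarith [mul_nonneg hy0 hε.le]
    have h5 : (y + ε)⁻¹ ≤ 1 / Real.sqrt (y ^ 2 + ε ^ 2) := by
      rw [one_div]
      exact inv_anti₀ (hpos y) h4
    have h6 : (1 : ℝ) / 2 ≤ 1 - 2 * y ^ 2 := by nlinarith [hy.2]
    have h7 : 0 ≤ (y + ε)⁻¹ := by positivity
    calc 1 / 2 * (y + ε)⁻¹ = (y + ε)⁻¹ * (1 / 2) := by ring
      _ ≤ 1 / Real.sqrt (y ^ 2 + ε ^ 2) * (1 - 2 * y ^ 2) :=
        mul_le_mul h5 h6 (by norm_num) (h7.trans h5)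
  have h8 : ∫ y in (0:ℝ)..(r / 2), 1 / 2 * (y + ε)⁻¹ = 1 / 2 * Real.log ((r / 2 + ε) / ε) := by
    rw [intervalIntegral.integral_const_mul]
    rw [intervalIntegral.integral_comp_add_right (fun y => y⁻¹) ε, zero_add,
      integral_inv_of_pos hε (by positivity)]
  rw [hsplit, ← h8]
  linarith

theorem P1 (r m μ : ℝ) (hr : 0 < r) (hr2 : r < 1 / 2) (hm : 0 < m) (hμ : 0 < μ) :
    ∃ g : ℝ → ℝ, ContDiff ℝ ∞ g ∧ (∀ x, g (-x) = g x) ∧ (∀ x, 0 ≤ g x) ∧
      (∀ x, r ≤ |x| → g x = 0) ∧ (∀ x, |x| * g x ≤ μ) ∧ DD g r = m := by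
  obtain ⟨φ, hφ⟩ : ∃ φ : ℝ → ℝ, φ =
    fun x => Real.smoothTransition ((r ^ 2 - x ^ 2) / (r ^ 2 - (r / 2) ^ 2)) := ⟨_, rfl⟩
  have hden : 0 < r ^ 2 - (r / 2) ^ 2 := by nlinarith
  have hφs : ContDiff ℝ ∞ φ := by
    rw [hφ]
    exact Real.smoothTransition.contDiff.comp (by fun_prop)
  have hφ0 : ∀ x, 0 ≤ φ x := fun x => by rw [hφ]; exact Real.smoothTransition.nonneg _
  have hφ1 : ∀ x, φ x ≤ 1 := fun x => by rw [hφ]; exact Real.smoothTransition.le_one _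
  have hφz : ∀ x, r ≤ |x| → φ x = 0 := by
    intro x hx
    rw [hφ]
    refine Real.smoothTransition.zero_of_nonpos (div_nonpos_of_nonpos_of_nonneg ?_ hden.le)
    have : r ^ 2 ≤ |x| ^ 2 := pow_le_pow_left₀ hr.le hx 2
    rw [sq_abs] at this
    linarith
  have hφo : ∀ x, |x| ≤ r / 2 → φ x = 1 := by
    intro x hx
    rw [hφ]
    refine Real.smoothTransition.one_of_one_le ?_
    rw [le_div_iff₀ hden]
    have : |x| ^ 2 ≤ (r / 2) ^ 2 := pow_le_pow_left₀ (abs_nonneg x) hx 2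
    rw [sq_abs] at this
    linarith
  have hφe : ∀ x, φ (-x) = φ x := fun x => by rw [hφ]; simp
  obtain ⟨ε, hε'⟩ : ∃ ε : ℝ, ε = r / 2 * Real.exp (-(2 * (m / μ))) := ⟨_, rfl⟩
  have hε : 0 < ε := by rw [hε']; positivity
  have hpos : ∀ x : ℝ, 0 < Real.sqrt (x ^ 2 + ε ^ 2) := fun x => Real.sqrt_pos.2 (by positivity)
  obtain ⟨h, hh⟩ : ∃ h : ℝ → ℝ, h = fun x => φ x / Real.sqrt (x ^ 2 + ε ^ 2) := ⟨_, rfl⟩
  have hlow : m / μ ≤ DD h r := by
    have h1 := P1_lower r ε hr hr2 hε φ hφs.continuous hφ0 hφo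
    rw [← hh] at h1
    refine le_trans ?_ h1
    have h2 : Real.exp (2 * (m / μ)) ≤ (r / 2 + ε) / ε := by
      have h3 : (r / 2 + ε) / ε = Real.exp (2 * (m / μ)) + 1 := by
        rw [add_div, div_self hε.ne', hε', Real.exp_neg]
        field_simp
      rw [h3]; linarith
    have h4 : 2 * (m / μ) ≤ Real.log ((r / 2 + ε) / ε) := by
      rw [Real.le_log_iff_exp_le (by positivity)]
      exact h2
    linarith
  have hI : 0 < DD h r := lt_of_lt_of_le (by positivity) hlow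
  have hc : m / DD h r ≤ μ := by
    rw [div_le_iff₀ hI]
    rw [div_le_iff₀ hμ] at hlow
    linarith
  have hc0 : 0 < m / DD h r := div_pos hm hI
  have hh0 : ∀ x, 0 ≤ h x := fun x => by rw [hh]; exact div_nonneg (hφ0 x) (hpos x).le
  refine ⟨fun x => m / DD h r * h x, ?_, ?_, ?_, ?_, ?_, ?_⟩
  · refine contDiff_const.mul ?_
    rw [hh]
    refine hφs.div ?_ fun x => (hpos x).ne'
    exact ContDiff.sqrt (by fun_prop) fun x => by positivity
  · intro x
    show m / DD h r * h (-x) = m / DD h r * h x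
    rw [hh]
    simp only [hφe, neg_sq, even_two, Even.neg_pow]
  · intro x
    exact mul_nonneg hc0.le (hh0 x)
  · intro x hx
    show m / DD h r * h x = 0
    rw [hh]
    simp only [hφz x hx, zero_div, mul_zero]
  · intro x
    show |x| * (m / DD h r * h x) ≤ μ
    have h1 : |x| * h x ≤ 1 := by
      rw [hh]
      show |x| * (φ x / Real.sqrt (x ^ 2 + ε ^ 2)) ≤ 1
      rw [← mul_div_assoc, div_le_one (hpos x)]
      have h2 : |x| ≤ Real.sqrt (x ^ 2 + ε ^ 2) := by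
        rw [← Real.sqrt_sq_eq_abs]
        exact Real.sqrt_le_sqrt (by nlinarith [sq_nonneg ε])
      calc |x| * φ x ≤ |x| * 1 := mul_le_mul_of_nonneg_left (hφ1 x) (abs_nonneg x)
        _ ≤ Real.sqrt (x ^ 2 + ε ^ 2) := by rw [mul_one]; exact h2
    calc |x| * (m / DD h r * h x) = m / DD h r * (|x| * h x) := by ring
      _ ≤ m / DD h r * 1 := mul_le_mul_of_nonneg_left h1 hc0.le
      _ ≤ μ := by rw [mul_one]; exact hc
  · have h1 : DD (fun x => m / DD h r * h x) r = m / DD h r * DD h r := by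
      unfold DD
      rw [← intervalIntegral.integral_const_mul]
      refine intervalIntegral.integral_congr fun y _ => ?_
      show _ * h y * _ = _
      ring
    rw [h1]
    exact div_mul_cancel₀ m hI.ne'


end Pool.Agent.Helper331.FT
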