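import Pool.Agent.Helper331.FT.Defs
set_option autoImplicit false
open scoped ContDiff ComplexConjugate
open Set MeasureTheory intervalIntegral

namespace Pool.Agent.Helper331.FT

theorem P6_arctan_nonneg (y : ℝ) (hy : 0 ≤ y) : 0 ≤ Real.arctan y ∧ Real.arctan y ≤ y := by
  have h0 : 0 ≤ Real.arctan y := by
    rw [← Real.arctan_zero]
    exact Real.arctan_strictMono.monotone hy
  refine ⟨h0, ?_⟩
  have := Real.le_tan h0 (Real.arctan_lt_pi_div_two y)
  rwa [Real.tan_arctan] at this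

theorem P6_abs_arctan (y : ℝ) : |Real.arctan y| ≤ |y| := by
  rcases le_total 0 y with hy | hy
  · obtain ⟨h0, h1⟩ := P6_arctan_nonneg y hy
    rw [abs_of_nonneg h0, abs_of_nonneg hy]
    exact h1
  · obtain ⟨h0, h1⟩ := P6_arctan_nonneg (-y) (by linarith)
    rw [Real.arctan_neg] at h0 h1
    rw [abs_of_nonpos (by linarith), abs_of_nonpos hy]
    exact h1

theorem P6 (δ y θ : ℝ) (hδ : δ < Real.pi / 2) (h : |θ| + |y| < δ) :
    0 < ((1 + (y : ℂ) * Complex.I) * Complex.exp ((θ : ℂ) * Complex.I)).re ∧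
    |((1 + (y : ℂ) * Complex.I) * Complex.exp ((θ : ℂ) * Complex.I)).im| <
      Real.tan δ * ((1 + (y : ℂ) * Complex.I) * Complex.exp ((θ : ℂ) * Complex.I)).re := by
  have hre : ((1 + (y : ℂ) * Complex.I) * Complex.exp ((θ : ℂ) * Complex.I)).re
      = Real.cos θ - y * Real.sin θ := by
    rw [Complex.mul_re, Complex.exp_ofReal_mul_I_re, Complex.exp_ofReal_mul_I_im]
    simp
  have him : ((1 + (y : ℂ) * Complex.I) * Complex.exp ((θ : ℂ) * Complex.I)).im
      = Real.sin θ + y * Real.cos θ := by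
    rw [Complex.mul_im, Complex.exp_ofReal_mul_I_re, Complex.exp_ofReal_mul_I_im]
    simp
  rw [hre, him]
  have hc := Real.cos_arctan_pos y
  set η := Real.arctan y with hη
  have hy : Real.sin η = y * Real.cos η := by
    have h1 : Real.tan η = y := Real.tan_arctan y
    rw [Real.tan_eq_sin_div_cos, div_eq_iff hc.ne'] at h1
    exact h1
  set φ := θ + η with hφ
  have hφa : |φ| < δ := by
    have h1 := abs_add_le θ η
    have h2 := P6_abs_arctan y
    rw [← hη] at h2
    linarith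
  obtain ⟨hl, hu⟩ := abs_lt.1 hφa
  have hcos : 0 < Real.cos φ := Real.cos_pos_of_mem_Ioo ⟨by linarith, by linarith⟩
  have e1 : Real.cos θ - y * Real.sin θ = Real.cos φ / Real.cos η := by
    rw [eq_div_iff hc.ne', hφ, Real.cos_add, hy]
    ring
  have e2 : Real.sin θ + y * Real.cos θ = Real.sin φ / Real.cos η := by
    rw [eq_div_iff hc.ne', hφ, Real.sin_add, hy]
    ring
  have t1 : Real.tan φ < Real.tan δ :=
    Real.tan_lt_tan_of_lt_of_lt_pi_div_two (by linarith) hδ hu
  have t2 : Real.tan (-φ) < Real.tan δ :=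
    Real.tan_lt_tan_of_lt_of_lt_pi_div_two (by linarith) hδ (by linarith)
  rw [Real.tan_neg] at t2
  have t3 : |Real.tan φ| < Real.tan δ := abs_lt.2 ⟨by linarith, t1⟩
  have e3 : Real.sin φ = Real.tan φ * Real.cos φ := by
    rw [Real.tan_eq_sin_div_cos, div_mul_cancel₀ _ hcos.ne']
  rw [e1, e2]
  refine ⟨div_pos hcos hc, ?_⟩
  rw [abs_div, abs_of_pos hc, ← mul_div_assoc]
  apply div_lt_div_of_pos_right _ hc
  rw [e3, abs_mul, abs_of_pos hcos]
  exact mul_lt_mul_of_pos_right t3 hcos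


end Pool.Agent.Helper331.FT
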