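import Pool.Agent.Helper331.FT.Defs
import Pool.Agent.Helper331.FT.P1
import Pool.Agent.Helper331.FT.P6
import Pool.Agent.Helper331.FT.G5
import Pool.Agent.Helper331.FT.G6
import Pool.Agent.Helper331.FT.E0
set_option autoImplicit false
open scoped ContDiff ComplexConjugate
open Set MeasureTheory intervalIntegral

namespace Pool.Agent.Helper331.FT

theorem G7_sin (α : ℝ) (hα : α ∈ Set.Icc (Real.pi / 3) (2 * Real.pi / 3)) :
    Real.sqrt 3 / 2 ≤ Real.sin α := by
  have hpi := Real.pi_pos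
  rw [← Real.sin_pi_div_three]
  rcases le_total α (Real.pi / 2) with h | h
  · exact Real.sin_le_sin_of_le_of_le_pi_div_two (by linarith) h hα.1
  · rw [← Real.sin_pi_sub α]
    exact Real.sin_le_sin_of_le_of_le_pi_div_two (by linarith) (by linarith) (by linarith [hα.2])

theorem G7_arccos (α : ℝ) (hα : α ∈ Set.Icc (Real.pi / 3) (2 * Real.pi / 3)) :
    0 ≤ Real.arccos (Real.sqrt 3 / (2 * Real.sin α)) ∧
    Real.arccos (Real.sqrt 3 / (2 * Real.sin α)) ≤ Real.pi / 6 ∧
    Real.sin α * Real.cos (Real.arccos (Real.sqrt 3 / (2 * Real.sin α))) = Real.sqrt 3 / 2 := by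
  have hs := G7_sin α hα
  have h3 : 0 < Real.sqrt 3 := Real.sqrt_pos.2 (by norm_num)
  have hspos : 0 < Real.sin α := by linarith
  have hs1 := Real.sin_le_one α
  have hx0 : 0 ≤ Real.sqrt 3 / (2 * Real.sin α) := by positivity
  have hx1 : Real.sqrt 3 / (2 * Real.sin α) ≤ 1 := by
    rw [div_le_one (by positivity)]
    linarith
  refine ⟨Real.arccos_nonneg _, ?_, ?_⟩
  · have h6 : Real.pi / 6 = Real.arccos (Real.sqrt 3 / 2) := by
      rw [← Real.cos_pi_div_six, Real.arccos_cos (by positivity) (by linarith [Real.pi_pos])]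
    rw [h6]
    apply Real.arccos_le_arccos
    rw [div_le_div_iff₀ (by norm_num) (by positivity)]
    nlinarith
  · rw [Real.cos_arccos (by linarith) hx1]
    field_simp

theorem G7_zero (g : ℝ → ℝ) (t : ℝ) : (xx (fun x => (0:ℝ) * g x) t).re = 1 := by
  have h1 : yy (fun x => (0:ℝ) * g x) t = 0 := by
    unfold yy
    ring
  have h2 : DD (fun x => (0:ℝ) * g x) (Real.sin t) = 0 := by
    unfold DD
    simp
  unfold xx
  rw [h1, h2]
  simp

theorem G7 (ρ δ : ℝ) (h1 : 2 * Real.pi ≤ ρ) (h2 : ρ ≤ 4 * Real.pi) (h3 : Real.pi / 6 < δ)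
    (h4 : δ < Real.pi / 2) : HasCurve ρ δ := by
  have hpi := Real.pi_pos
  obtain ⟨μ, hμ⟩ : ∃ μ : ℝ, μ = (δ - Real.pi / 6) / 4 := ⟨_, rfl⟩
  have hμpos : 0 < μ := by rw [hμ]; linarith
  obtain ⟨g, hg, hev, hpos, hsupp, hgμ, hDD⟩ := P1 (1 / 4) (Real.pi / 12) μ (by norm_num)
    (by norm_num) (by positivity) hμpos
  have hE := fun (l : ℝ) (hl : 0 ≤ l) (hl1 : l ≤ 1) =>
    E0 g (1 / 4) μ l hg hev hpos (by norm_num) (by norm_num) hsupp hgμ hl hl1
  obtain ⟨A₀, hA₀⟩ : ∃ A₀ : ℝ, A₀ = AA g (1 / 4) := ⟨_, rfl⟩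
  have hA : Real.pi / 12 ≤ A₀ := by
    have h := (hE 1 zero_le_one le_rfl).2.1 (1 / 4)
    have e : (fun x => (1:ℝ) * g x) = g := by
      funext x
      rw [one_mul]
    rw [e, hDD, ← hA₀, one_mul] at h
    have := le_abs_self (2 * (Real.pi / 12))
    linarith
  have hApos : 0 < A₀ := by linarith [show 0 < Real.pi / 12 by positivity]
  have hcont := G6 g hg A₀ hApos
  obtain ⟨c, hc⟩ : ∃ c : ℝ → ℝ, ∀ α, c α =
      Real.arccos (Real.sqrt 3 / (2 * Real.sin α)) / (2 * A₀) := ⟨_, fun _ => rfl⟩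
  simp only [← hc] at hcont
  have h3 : 0 < Real.sqrt 3 := Real.sqrt_pos.2 (by norm_num)
  have hc1 : c (Real.pi / 3) = 0 := by
    rw [hc, Real.sin_pi_div_three]
    have : Real.sqrt 3 / (2 * (Real.sqrt 3 / 2)) = 1 := by field_simp
    rw [this, Real.arccos_one, zero_div]
  have hc2 : c (2 * Real.pi / 3) = 0 := by
    have hs : Real.sin (2 * Real.pi / 3) = Real.sqrt 3 / 2 := by
      rw [← Real.sin_pi_sub, ← Real.sin_pi_div_three]
      congr 1
      ring
    rw [hc, hs]
    have : Real.sqrt 3 / (2 * (Real.sqrt 3 / 2)) = 1 := by field_simp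
    rw [this, Real.arccos_one, zero_div]
  have hval1 : 12 * ∫ t in (0:ℝ)..(Real.pi / 3 / 2),
      (xx (fun x => c (Real.pi / 3) * g x) t).re = 2 * Real.pi := by
    rw [hc1]
    simp only [G7_zero]
    rw [intervalIntegral.integral_const, smul_eq_mul]
    ring
  have hval2 : 12 * ∫ t in (0:ℝ)..(2 * Real.pi / 3 / 2),
      (xx (fun x => c (2 * Real.pi / 3) * g x) t).re = 4 * Real.pi := by
    rw [hc2]
    simp only [G7_zero]
    rw [intervalIntegral.integral_const, smul_eq_mul]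
    ring
  have hIVT := intermediate_value_Icc (by linarith : Real.pi / 3 ≤ 2 * Real.pi / 3) hcont
  have hmem : ρ ∈ Set.Icc (12 * ∫ t in (0:ℝ)..(Real.pi / 3 / 2),
      (xx (fun x => c (Real.pi / 3) * g x) t).re) (12 * ∫ t in (0:ℝ)..(2 * Real.pi / 3 / 2),
      (xx (fun x => c (2 * Real.pi / 3) * g x) t).re) := by
    rw [hval1, hval2]
    exact ⟨h1, h2⟩
  obtain ⟨α, hα, hρ⟩ := hIVT hmem
  simp only at hρ
  obtain ⟨ha0, ha6, hcos⟩ := G7_arccos α hα
  have hcα0 : 0 ≤ c α := by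
    rw [hc]
    positivity
  have hcA : 2 * (c α * A₀) = Real.arccos (Real.sqrt 3 / (2 * Real.sin α)) := by
    rw [hc]
    field_simp
  have hcα1 : c α ≤ 1 := by
    rw [hc, div_le_one (by positivity)]
    linarith
  obtain ⟨e1, e2, e3⟩ := hE (c α) hcα0 hcα1
  obtain ⟨z, w, ξ, hcurve, hint, hval⟩ := G5 (fun x => c α * g x) (1 / 4) α
    (contDiff_const.mul hg) (fun x => by rw [hev]) (by norm_num) (by norm_num)
    (fun x hx => by rw [hsupp x hx, mul_zero]) hα.1 hα.2 (by
      rw [e1, ← hA₀, hcA]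
      exact hcos)
  refine ⟨z, w, ξ, hcurve, ?_, ?_⟩
  · rw [hint, hρ]
  · intro t
    have hk : 0 < 3 * α / Real.pi := by
      have : 0 < α := by linarith [hα.1]
      positivity
    have hxx : ∀ s, 0 < (xx (fun x => c α * g x) s).re ∧
        |(xx (fun x => c α * g x) s).im| < Real.tan δ * (xx (fun x => c α * g x) s).re := by
      intro s
      have h := P6 δ (yy (fun x => c α * g x) s) (2 * DD (fun x => c α * g x) (Real.sin s)) h4 (by
        have g1 := e2 (Real.sin s)
        have g2 := e3 s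
        rw [← hA₀, hcA] at g1
        rw [hμ] at g2
        linarith)
      exact h
    have hre : ∀ x : ℂ, (((3 * α / Real.pi : ℝ) : ℂ) * x).re = 3 * α / Real.pi * x.re := by
      intro x
      simp only [Complex.re_ofReal_mul]
    have him : ∀ x : ℂ, (((3 * α / Real.pi : ℝ) : ℂ) * x).im = 3 * α / Real.pi * x.im := by
      intro x
      simp only [Complex.im_ofReal_mul]
    obtain ⟨s, hs | hs⟩ := hval t
    · obtain ⟨q1, q2⟩ := hxx s
      rw [hs, hre, him, abs_mul, abs_of_pos hk]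
      refine ⟨by positivity, ?_⟩
      calc 3 * α / Real.pi * |(xx (fun x => c α * g x) s).im|
          < 3 * α / Real.pi * (Real.tan δ * (xx (fun x => c α * g x) s).re) :=
            mul_lt_mul_of_pos_left q2 hk
        _ = _ := by ring
    · obtain ⟨q1, q2⟩ := hxx s
      rw [hs, hre, him, abs_mul, abs_of_pos hk, Complex.conj_re, Complex.conj_im, abs_neg]
      refine ⟨by positivity, ?_⟩
      calc 3 * α / Real.pi * |(xx (fun x => c α * g x) s).im|
          < 3 * α / Real.pi * (Real.tan δ * (xx (fun x => c α * g x) s).re) :=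
            mul_lt_mul_of_pos_left q2 hk
        _ = _ := by ring


end Pool.Agent.Helper331.FT
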