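import Pool.Agent.Helper331.FT.Defs
import Pool.Agent.Helper331.FT.P1
import Pool.Agent.Helper331.FT.P6
import Pool.Agent.Helper331.FT.G5
import Pool.Agent.Helper331.FT.G6
import Pool.Agent.Helper331.FT.E0
import Pool.Agent.Helper331.FT.E1
set_option autoImplicit false
open scoped ContDiff ComplexConjugate
open Set MeasureTheory intervalIntegral

namespace Pool.Agent.Helper331.FT

theorem G8_xx_cont (g : ℝ → ℝ) (hg : Continuous g) : Continuous (fun t => (xx g t).re) := by
  have hD : Continuous (DD g) := by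
    unfold DD
    exact intervalIntegral.continuous_primitive
      (fun a b => (by fun_prop : Continuous fun y => g y * (1 - 2 * y ^ 2)).intervalIntegrable a b) 0
  have hD2 : Continuous fun t => DD g (Real.sin t) := hD.comp Real.continuous_sin
  have hg2 : Continuous fun t => g (Real.sin t) := hg.comp Real.continuous_sin
  unfold xx yy
  refine Complex.continuous_re.comp (Continuous.mul ?_ ?_)
  · refine continuous_const.add (Continuous.mul ?_ continuous_const)
    refine Complex.continuous_ofReal.comp ?_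
    exact ((continuous_const.mul Real.continuous_sin).mul (Real.continuous_cos.pow 2)).mul hg2
  · refine Complex.continuous_exp.comp (Continuous.mul ?_ continuous_const)
    exact Complex.continuous_ofReal.comp (continuous_const.mul hD2)

theorem G8_xx_zero (t : ℝ) : (xx (fun _ => (0:ℝ)) t).re = 1 := by
  simp [xx, yy, DD]

/-- the cone condition passes to positive multiples and conjugates -/
theorem G8_cone (k δ : ℝ) (hk : 0 < k) (x ξ : ℂ) (h1 : 0 < x.re) (h2 : |x.im| < Real.tan δ * x.re)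
    (h : ξ = (k : ℂ) * x ∨ ξ = (k : ℂ) * conj x) :
    0 < ξ.re ∧ |ξ.im| < Real.tan δ * ξ.re := by
  have h3 : |k * x.im| < Real.tan δ * (k * x.re) := by
    rw [abs_mul, abs_of_pos hk]
    calc k * |x.im| < k * (Real.tan δ * x.re) := mul_lt_mul_of_pos_left h2 hk
      _ = _ := by ring
  rcases h with h | h
  · rw [h, Complex.re_ofReal_mul, Complex.im_ofReal_mul]
    exact ⟨mul_pos hk h1, h3⟩
  · rw [h, Complex.re_ofReal_mul, Complex.im_ofReal_mul, Complex.conj_re, Complex.conj_im,
      mul_neg, abs_neg]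
    exact ⟨mul_pos hk h1, h3⟩

theorem G8 (ρ : ℝ) (h1 : 2 * Real.pi ≤ ρ) (h2 : ρ < 3 * Real.sqrt 3 * Real.pi / 2) :
    ∃ δ, 0 < δ ∧ δ < Real.pi / 6 ∧ HasCurve ρ δ := by
  have hpi := Real.pi_pos
  have hs3 : 0 < Real.sqrt 3 := Real.sqrt_pos.mpr (by norm_num)
  -- choice of a1
  obtain ⟨a1, ha1, ha1', hf⟩ : ∃ a1, Real.pi / 3 < a1 ∧ a1 < Real.pi / 2 ∧
      ρ < 3 * Real.sqrt 3 * a1 / Real.sin a1 := by
    have hc : ContinuousAt (fun a => 3 * Real.sqrt 3 * a / Real.sin a) (Real.pi / 2) := by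
      refine ContinuousAt.div (by fun_prop) (by fun_prop) ?_
      rw [Real.sin_pi_div_two]; norm_num
    have h3 : ρ < (fun a => 3 * Real.sqrt 3 * a / Real.sin a) (Real.pi / 2) := by
      simp only [Real.sin_pi_div_two]
      linarith
    have h4 := hc.eventually (lt_mem_nhds h3)
    obtain ⟨ε, hε, hball⟩ := Metric.eventually_nhds_iff.mp h4
    have hm : 0 < min (ε / 2) (Real.pi / 12) := by positivity
    refine ⟨Real.pi / 2 - min (ε / 2) (Real.pi / 12), ?_, ?_, ?_⟩
    · have := min_le_right (ε / 2) (Real.pi / 12)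
      linarith
    · linarith
    · refine hball ?_
      rw [Real.dist_eq]
      have := min_le_left (ε / 2) (Real.pi / 12)
      rw [show Real.pi / 2 - min (ε / 2) (Real.pi / 12) - Real.pi / 2 =
        - min (ε / 2) (Real.pi / 12) by ring, abs_neg, abs_of_pos hm]
      linarith
  -- facts on sine
  have hsin_mono : ∀ a ∈ Set.Icc (Real.pi / 3) a1, Real.sqrt 3 / 2 ≤ Real.sin a ∧
      Real.sin a ≤ Real.sin a1 := by
    intro a ha
    constructor
    · rw [← Real.sin_pi_div_three]
      exact Real.sin_le_sin_of_le_of_le_pi_div_two (by linarith) (by linarith [ha.2]) ha.1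
    · exact Real.sin_le_sin_of_le_of_le_pi_div_two (by linarith [ha.1]) ha1'.le ha.2
  have hsa1 : Real.sin a1 < 1 := by
    rw [← Real.sin_pi_div_two]
    exact Real.sin_lt_sin_of_lt_of_le_pi_div_two (by linarith) le_rfl ha1'
  have hsa1' : 0 < Real.sin a1 := Real.sin_pos_of_pos_of_lt_pi (by linarith) (by linarith)
  set h : ℝ → ℝ := fun a => Real.arccos (Real.sqrt 3 / (2 * Real.sin a)) with hh
  have hh0 : ∀ a, 0 ≤ h a := fun a => Real.arccos_nonneg _
  have hh1 : h a1 < Real.pi / 6 := by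
    have e : Real.pi / 6 = Real.arccos (Real.sqrt 3 / 2) := by
      rw [← Real.cos_pi_div_six, Real.arccos_cos (by linarith) (by linarith)]
    rw [e, hh]
    refine Real.strictAntiOn_arccos ⟨?_, ?_⟩ ⟨?_, ?_⟩ ?_
    · have : 0 ≤ Real.sqrt 3 / 2 := by positivity
      linarith
    · rw [← Real.cos_pi_div_six]; exact Real.cos_le_one _
    · have : 0 ≤ Real.sqrt 3 / (2 * Real.sin a1) := by positivity
      linarith
    · rw [div_le_one (by positivity)]
      have := (hsin_mono a1 ⟨ha1.le, le_rfl⟩).1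
      linarith
    · apply div_lt_div_of_pos_left hs3 (by positivity)
      linarith
  have hmono : ∀ a ∈ Set.Icc (Real.pi / 3) a1, h a ≤ h a1 := by
    intro a ha
    refine Real.antitone_arccos ?_
    have h3 := hsin_mono a ha
    have h4 : 0 < Real.sin a := by linarith [h3.1, (by positivity : 0 < Real.sqrt 3 / 2)]
    apply div_le_div_of_nonneg_left hs3.le (by positivity)
    linarith [h3.2]
  -- cos (h a)
  have hcos : ∀ a ∈ Set.Icc (Real.pi / 3) a1, Real.cos (h a) = Real.sqrt 3 / (2 * Real.sin a) := by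
    intro a ha
    have h3 := hsin_mono a ha
    have h4 : 0 < Real.sin a := by linarith [h3.1, (by positivity : 0 < Real.sqrt 3 / 2)]
    refine Real.cos_arccos ?_ ?_
    · have : 0 ≤ Real.sqrt 3 / (2 * Real.sin a) := by positivity
      linarith
    · rw [div_le_one (by positivity)]
      linarith [h3.1]
  set δ : ℝ := (h a1 + Real.pi / 6) / 2 with hδ
  have hδ0 : 0 < δ := by
    have := hh0 a1
    rw [hδ]; linarith
  have hδ1 : δ < Real.pi / 6 := by rw [hδ]; linarith
  -- choice of μ
  obtain ⟨μ, hμ0, hμ1, hμ2⟩ : ∃ μ, 0 < μ ∧ 12 * (a1 / 2) * (2 * μ) < 3 * Real.sqrt 3 * a1 / Real.sin a1 - ρ ∧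
      2 * μ < δ - h a1 := by
    have hd1 : 0 < 3 * Real.sqrt 3 * a1 / Real.sin a1 - ρ := by linarith
    have hd2 : 0 < δ - h a1 := by rw [hδ]; linarith
    have ha1p : 0 < a1 := by linarith
    refine ⟨min ((3 * Real.sqrt 3 * a1 / Real.sin a1 - ρ) / (24 * a1)) ((δ - h a1) / 4), by positivity, ?_, ?_⟩
    · have h3 := min_le_left ((3 * Real.sqrt 3 * a1 / Real.sin a1 - ρ) / (24 * a1)) ((δ - h a1) / 4)
      rw [le_div_iff₀ (by positivity)] at h3
      nlinarith
    · have h3 := min_le_right ((3 * Real.sqrt 3 * a1 / Real.sin a1 - ρ) / (24 * a1)) ((δ - h a1) / 4)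
      linarith
  obtain ⟨g, hg, hev, hpos, hsupp, hgμ, hDD⟩ := P1 (1/4) (Real.pi / 12) μ (by norm_num) (by norm_num)
    (by positivity) hμ0
  set A0 := AA g (1/4) with hA0
  have hA0pi : Real.pi / 12 ≤ A0 := by
    have h3 := (E0 g (1/4) μ 1 hg hev hpos (by norm_num) (by norm_num) hsupp hgμ zero_le_one le_rfl).2.1 (1/4)
    simp only [one_mul] at h3
    have h4 : (fun x => g x) = g := rfl
    rw [hDD] at h3
    have h5 := (abs_le.mp h3).2
    linarith
  have hA0pos : 0 < A0 := by linarith [(by positivity : 0 < Real.pi / 12)]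
  have hcA : ∀ a, 2 * ((h a / (2 * A0)) * A0) = h a := fun a => by
    field_simp
  have hc0 : ∀ a, 0 ≤ h a / (2 * A0) := fun a => div_nonneg (hh0 a) (by positivity)
  have hc1 : ∀ a ∈ Set.Icc (Real.pi / 3) a1, h a / (2 * A0) ≤ 1 := by
    intro a ha
    rw [div_le_one (by positivity)]
    have := hmono a ha
    linarith
  have hE1 : ∀ a ∈ Set.Icc (Real.pi / 3) a1, ∀ t,
      Real.sqrt 3 / (2 * Real.sin a) - 2 * μ ≤ (xx (fun x => (h a / (2 * A0)) * g x) t).re := by
    intro a ha t
    have h3 := E1 g (1/4) μ (h a / (2 * A0)) hg hev hpos (by norm_num) (by norm_num) hsupp hgμ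
      (hc0 a) (hc1 a ha) (by rw [← hA0, hcA a]; linarith [hmono a ha]) t
    rw [← hA0, hcA a, hcos a ha] at h3
    exact h3
  set Rho : ℝ → ℝ := fun α : ℝ => 12 * ∫ t in (0:ℝ)..(α / 2),
      (xx (fun x => (h α / (2 * A0)) * g x) t).re with hRho
  have hRc : ContinuousOn Rho (Set.Icc (Real.pi / 3) a1) :=
    (G6 g hg A0 hA0pos).mono (Set.Icc_subset_Icc le_rfl (by linarith))
  have hR0 : Rho (Real.pi / 3) = 2 * Real.pi := by
    have h3 : h (Real.pi / 3) = 0 := by
      simp only [hh]
      rw [Real.sin_pi_div_three, show Real.sqrt 3 / (2 * (Real.sqrt 3 / 2)) = 1 by field_simp,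
        Real.arccos_one]
    simp only [hRho]
    rw [h3]
    simp only [zero_div, zero_mul, G8_xx_zero]
    rw [intervalIntegral.integral_const]
    simp only [smul_eq_mul, mul_one, sub_zero]
    ring
  have hR1 : ρ ≤ Rho a1 := by
    have hmem : a1 ∈ Set.Icc (Real.pi / 3) a1 := ⟨ha1.le, le_rfl⟩
    have h3 : (∫ t in (0:ℝ)..(a1 / 2), (Real.sqrt 3 / (2 * Real.sin a1) - 2 * μ)) ≤
        ∫ t in (0:ℝ)..(a1 / 2), (xx (fun x => (h a1 / (2 * A0)) * g x) t).re := by
      refine intervalIntegral.integral_mono_on (by linarith) (continuous_const.intervalIntegrable _ _)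
        ((G8_xx_cont _ (continuous_const.mul hg.continuous)).intervalIntegrable _ _) fun t _ => hE1 a1 hmem t
    rw [intervalIntegral.integral_const] at h3
    simp only [smul_eq_mul, sub_zero] at h3
    have h4 : 12 * (a1 / 2 * (Real.sqrt 3 / (2 * Real.sin a1) - 2 * μ)) =
        3 * Real.sqrt 3 * a1 / Real.sin a1 - 12 * (a1 / 2) * (2 * μ) := by
      field_simp
      ring
    simp only [hRho]
    linarith
  obtain ⟨a, ha, haρ⟩ : ∃ a ∈ Set.Icc (Real.pi / 3) a1, Rho a = ρ := by
    have := intermediate_value_Icc ha1.le hRc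
    exact this ⟨by rw [hR0]; exact h1, hR1⟩
  have hsa := hsin_mono a ha
  have hsa0 : 0 < Real.sin a := by linarith [hsa.1, (by positivity : 0 < Real.sqrt 3 / 2)]
  have hE0 := E0 g (1/4) μ (h a / (2 * A0)) hg hev hpos (by norm_num) (by norm_num) hsupp hgμ
      (hc0 a) (hc1 a ha)
  rw [← hA0] at hE0
  obtain ⟨z, w, ξ, hcurve, hint, hval⟩ := G5 (fun x => (h a / (2 * A0)) * g x) (1/4) a
    (contDiff_const.mul hg) (fun x => by simp only [hev]) (by norm_num) (by norm_num)
    (fun x hx => by simp only [hsupp x hx, mul_zero]) ha.1 (by linarith [ha.2])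
    (by
      rw [hE0.1, hcA a, hcos a ha]
      field_simp)
  refine ⟨δ, hδ0, hδ1, z, w, ξ, hcurve, ?_, ?_⟩
  · rw [hint, ← haρ]
  · intro t
    obtain ⟨s, hs⟩ := hval t
    have hP := P6 δ (yy (fun x => (h a / (2 * A0)) * g x) s)
      (2 * DD (fun x => (h a / (2 * A0)) * g x) (Real.sin s)) (by linarith) (by
        have h5 := hE0.2.1 (Real.sin s)
        have h6 := hE0.2.2 s
        rw [hcA a] at h5
        have h7 := hmono a ha
        linarith)
    have hap : 0 < a := by linarith [ha.1]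
    exact G8_cone (3 * a / Real.pi) δ (by positivity) _ _ hP.1 hP.2 hs


end Pool.Agent.Helper331.FT
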