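import Pool.Agent.Helper331.FT.Defs
set_option autoImplicit false
open scoped ContDiff ComplexConjugate
open Set MeasureTheory intervalIntegral

namespace Pool.Agent.Helper331.FT

theorem K4_trig (φ θ : ℝ) : 2 * Real.cos φ * Real.sin θ = Real.sin (θ + φ) + Real.sin (θ - φ) := by
  rw [Real.sin_add, Real.sin_sub]; ring

theorem K4_rec (X : ℝ → ℂ) (β φ : ℝ)
    (hrec : ∀ t, X (t + β + β) = 2 * (Real.cos φ : ℂ) * X (t + β) - X t) (n : ℕ) :
    (∀ t, (Real.sin φ : ℂ) * X (t + n * β) =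
      (Real.sin (n * φ) : ℂ) * X (t + β) - (Real.sin ((n - 1) * φ) : ℂ) * X t) ∧
    (∀ t, (Real.sin φ : ℂ) * X (t + (n + 1) * β) =
      (Real.sin ((n + 1) * φ) : ℂ) * X (t + β) - (Real.sin (n * φ) : ℂ) * X t) := by
  induction n with
  | zero =>
    constructor
    · intro t
      have : (((0:ℕ):ℝ) - 1) * φ = -φ := by push_cast; ring
      rw [this, Real.sin_neg]
      simp
    · intro t
      simp
  | succ n ih =>
    obtain ⟨h0, h1⟩ := ih
    constructor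
    · intro t
      have := h1 t
      push_cast at this ⊢
      have e : ((n:ℝ) + 1 - 1) * φ = n * φ := by ring
      simp only [← Complex.ofReal_sin, ← Complex.ofReal_mul] at *
      push_cast at this ⊢
      rw [show ((n:ℂ) + 1 - 1) = n by ring]
      exact this
    · intro t
      have e1 : t + (((n + 1 : ℕ) : ℝ) + 1) * β = (t + n * β) + β + β := by push_cast; ring
      have e2 : (t + n * β) + β = t + (n + 1) * β := by ring
      have t1 : 2 * Real.cos φ * Real.sin (((n:ℝ) + 1) * φ) =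
          Real.sin ((((n + 1 : ℕ) : ℝ) + 1) * φ) + Real.sin (n * φ) := by
        rw [K4_trig]; congr 2 <;> (push_cast; ring)
      have t2 : 2 * Real.cos φ * Real.sin ((n:ℝ) * φ) =
          Real.sin (((n + 1 : ℕ) : ℝ) * φ) + Real.sin (((n:ℝ) - 1) * φ) := by
        rw [K4_trig]; congr 2 <;> (push_cast; ring)
      have t1' : 2 * (Real.cos φ : ℂ) * (Real.sin (((n:ℝ) + 1) * φ) : ℂ) =
          (Real.sin ((((n + 1 : ℕ) : ℝ) + 1) * φ) : ℂ) + (Real.sin (n * φ) : ℂ) := by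
        exact_mod_cast t1
      have t2' : 2 * (Real.cos φ : ℂ) * (Real.sin ((n:ℝ) * φ) : ℂ) =
          (Real.sin (((n + 1 : ℕ) : ℝ) * φ) : ℂ) + (Real.sin (((n:ℝ) - 1) * φ) : ℂ) := by
        exact_mod_cast t2
      rw [e1, hrec, e2]
      have h1t := h1 t
      have h0t := h0 t
      linear_combination 2 * (Real.cos φ : ℂ) * h1t - h0t + X (t + β) * t1' - X t * t2'

theorem K4 (k : ℕ) (hk : 1 ≤ k) (z w ξ : ℝ → ℂ) (α A : ℝ)
    (hz : ∀ t, z (t + α) = (Real.cos α : ℂ) * conj (z t) -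
        (Real.sin α : ℂ) * Complex.exp (((2 * A : ℝ) : ℂ) * Complex.I) * w t)
    (hw : ∀ t, w (t + α) = (Real.cos α : ℂ) * conj (w t) +
        (Real.sin α : ℂ) * Complex.exp (((2 * A : ℝ) : ℂ) * Complex.I) * z t)
    (hξ : ∀ t, ξ (t + α) = conj (ξ t))
    (hcl : Real.sin α * Real.cos (2 * A) = Real.cos (Real.pi / (2 * (2 * k + 1)))) :
    ∀ t, z (t + 2 * (2 * k + 1) * α) = z t ∧ w (t + 2 * (2 * k + 1) * α) = w t ∧
      ξ (t + 2 * (2 * k + 1) * α) = ξ t := by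
  obtain ⟨θ, hθ⟩ : ∃ θ : ℝ, θ = Real.pi / (2 * (2 * k + 1)) := ⟨_, rfl⟩
  rw [← hθ] at hcl
  have hpi := Real.pi_pos
  have hk0 : (0:ℝ) < 2 * k + 1 := by positivity
  have hk1 : (1:ℝ) ≤ k := by exact_mod_cast hk
  have hθ2 : (2 * k + 1) * (2 * θ) = Real.pi := by rw [hθ]; field_simp
  have hθ0 : 0 < θ := by rw [hθ]; positivity
  have hθ1 : 2 * θ < Real.pi := by nlinarith
  obtain ⟨φ, hφ⟩ : ∃ φ : ℝ, φ = Real.pi - 2 * θ := ⟨_, rfl⟩
  obtain ⟨a, ha⟩ : ∃ a : ℝ, a = Real.sin α * Real.cos (2 * A) := ⟨_, rfl⟩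
  obtain ⟨b, hb⟩ : ∃ b : ℝ, b = Real.sin α * Real.sin (2 * A) := ⟨_, rfl⟩
  obtain ⟨C, hC⟩ : ∃ C : ℝ, C = Real.cos α := ⟨_, rfl⟩
  have hcφ : Real.cos φ = 1 - 2 * a ^ 2 := by
    rw [hφ, Real.cos_pi_sub, Real.cos_two_mul, ha, hcl]; ring
  have hsum : C ^ 2 + a ^ 2 + b ^ 2 = 1 := by
    rw [hC, ha, hb]
    nlinarith [Real.sin_sq_add_cos_sq α, Real.sin_sq_add_cos_sq (2 * A)]
  obtain ⟨S, hS⟩ : ∃ S : ℂ, S = (Real.sin α : ℂ) * Complex.exp (((2 * A : ℝ) : ℂ) * Complex.I) :=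
    ⟨_, rfl⟩
  rw [← hS] at hz hw
  rw [← hC] at hz hw
  have hSab : S = (a : ℂ) + (b : ℂ) * Complex.I := by
    rw [hS, Complex.exp_mul_I, ← Complex.ofReal_cos, ← Complex.ofReal_sin, ha, hb]
    push_cast; ring
  have hSc : conj S = (a : ℂ) - (b : ℂ) * Complex.I := by
    rw [hSab]; simp; ring
  have hI : Complex.I ^ 2 = -1 := Complex.I_sq
  have hsumC : (C : ℂ) ^ 2 + (a : ℂ) ^ 2 + (b : ℂ) ^ 2 = 1 := by exact_mod_cast hsum
  have hcφC : (Real.cos φ : ℂ) = 1 - 2 * (a : ℂ) ^ 2 := by exact_mod_cast hcφ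
  -- two steps
  have hz2 : ∀ t, z (t + 2 * α) = ((C : ℂ) ^ 2 - S ^ 2) * z t - 2 * (C : ℂ) * (a : ℂ) * conj (w t) := by
    intro t
    have e : t + 2 * α = (t + α) + α := by ring
    rw [e, hz, hz, hw]
    simp only [map_sub, map_mul, Complex.conj_ofReal, Complex.conj_conj]
    rw [hSc, hSab]; ring
  have hw2 : ∀ t, w (t + 2 * α) = ((C : ℂ) ^ 2 - S ^ 2) * w t + 2 * (C : ℂ) * (a : ℂ) * conj (z t) := by
    intro t
    have e : t + 2 * α = (t + α) + α := by ring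
    rw [e, hw, hz, hw]
    simp only [map_add, map_mul, Complex.conj_ofReal, Complex.conj_conj]
    rw [hSc, hSab]; ring
  have h1 : ((C : ℂ) ^ 2 - S ^ 2) ^ 2 - (2 * (C : ℂ) * (a : ℂ)) ^ 2 -
      2 * (Real.cos φ : ℂ) * ((C : ℂ) ^ 2 - S ^ 2) + 1 = 0 := by
    have hC2 : (C : ℂ) ^ 2 = 1 - (a : ℂ) ^ 2 - (b : ℂ) ^ 2 := by linear_combination hsumC
    have hS2 : S ^ 2 = (a : ℂ) ^ 2 - (b : ℂ) ^ 2 + 2 * a * b * Complex.I := by
      rw [hSab]; linear_combination (b : ℂ) ^ 2 * hI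
    have hV2 : (2 * (C : ℂ) * (a : ℂ)) ^ 2 = 4 * (1 - (a : ℂ) ^ 2 - (b : ℂ) ^ 2) * (a : ℂ) ^ 2 := by
      rw [← hC2]; ring
    rw [hV2, hS2, hC2, hcφC]
    linear_combination (4 * (a : ℂ) ^ 2 * (b : ℂ) ^ 2) * hI
  have h2 : ((C : ℂ) ^ 2 - S ^ 2) + conj ((C : ℂ) ^ 2 - S ^ 2) = 2 * (Real.cos φ : ℂ) := by
    have hC2 : (C : ℂ) ^ 2 = 1 - (a : ℂ) ^ 2 - (b : ℂ) ^ 2 := by linear_combination hsumC
    simp only [map_sub, map_pow, Complex.conj_ofReal]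
    rw [hSc, hSab, hcφC, hC2]
    linear_combination (-2 * (b : ℂ) ^ 2) * hI
  have hzr : ∀ t, z (t + 2 * α + 2 * α) = 2 * (Real.cos φ : ℂ) * z (t + 2 * α) - z t := by
    intro t
    rw [hz2 (t + 2 * α), hw2 t, hz2 t]
    rw [map_add, map_mul, map_mul, map_mul, map_mul, Complex.conj_ofReal, Complex.conj_ofReal,
      Complex.conj_conj, Complex.conj_ofNat]
    linear_combination z t * h1 - 2 * (C : ℂ) * (a : ℂ) * conj (w t) * h2
  have hwr : ∀ t, w (t + 2 * α + 2 * α) = 2 * (Real.cos φ : ℂ) * w (t + 2 * α) - w t := by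
    intro t
    rw [hw2 (t + 2 * α), hz2 t, hw2 t]
    rw [map_sub, map_mul, map_mul, map_mul, map_mul, Complex.conj_ofReal, Complex.conj_ofReal,
      Complex.conj_conj, Complex.conj_ofNat]
    linear_combination w t * h1 + 2 * (C : ℂ) * (a : ℂ) * conj (z t) * h2
  have hsφ : Real.sin φ ≠ 0 := by
    rw [hφ, Real.sin_pi_sub]
    exact (Real.sin_pos_of_pos_of_lt_pi (by linarith) hθ1).ne'
  have hNφ : ((2 * k + 1 : ℕ) : ℝ) * φ = k * (2 * Real.pi) := by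
    push_cast
    rw [hφ]
    linear_combination -hθ2
  have hNφ1 : (((2 * k + 1 : ℕ) : ℝ) - 1) * φ = k * (2 * Real.pi) - φ := by
    rw [sub_mul, hNφ]; ring
  have hs1 : Real.sin (((2 * k + 1 : ℕ) : ℝ) * φ) = 0 := by
    rw [hNφ]
    have := Real.sin_nat_mul_pi (2 * k)
    rw [← this]; congr 1; push_cast; ring
  have hs2 : Real.sin ((((2 * k + 1 : ℕ) : ℝ) - 1) * φ) = - Real.sin φ := by
    rw [hNφ1, Real.sin_nat_mul_two_pi_sub]
  have hfin : ∀ X : ℝ → ℂ, (∀ t, X (t + 2 * α + 2 * α) = 2 * (Real.cos φ : ℂ) * X (t + 2 * α) - X t) →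
      ∀ t, X (t + 2 * (2 * k + 1) * α) = X t := by
    intro X hX t
    have h := (K4_rec X (2 * α) φ hX (2 * k + 1)).1 t
    rw [hs1, hs2] at h
    have e : t + ((2 * k + 1 : ℕ) : ℝ) * (2 * α) = t + 2 * (2 * k + 1) * α := by push_cast; ring
    rw [e] at h
    have hsC : (Real.sin φ : ℂ) ≠ 0 := by exact_mod_cast hsφ
    apply mul_left_cancel₀ hsC
    rw [h]
    push_cast
    ring
  intro t
  refine ⟨hfin z hzr t, hfin w hwr t, ?_⟩
  have hper : Function.Periodic ξ (2 * α) := by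
    intro t
    have e : t + 2 * α = (t + α) + α := by ring
    rw [e, hξ, hξ, Complex.conj_conj]
  have := hper.nat_mul (2 * k + 1) t
  have e : t + ((2 * k + 1 : ℕ) : ℝ) * (2 * α) = t + 2 * (2 * k + 1) * α := by push_cast; ring
  rw [e] at this
  exact this


end Pool.Agent.Helper331.FT
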