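import Pool.Agent.Helper331.FT.Defs
import Pool.Agent.Helper331.FT.P1
import Pool.Agent.Helper331.FT.P6
import Pool.Agent.Helper331.FT.E0
import Pool.Agent.Helper331.FT.K5
import Pool.Agent.Helper331.FT.K6
set_option autoImplicit false
open scoped ContDiff ComplexConjugate
open Set MeasureTheory intervalIntegral

namespace Pool.Agent.Helper331.FT

theorem K7_arccos (d α : ℝ) (hd0 : 0 < d) (hd : d ≤ Real.pi / 6)
    (hα : α ∈ Set.Icc (Real.pi / 2 - d) (Real.pi / 2 + d)) :
    0 ≤ Real.arccos (Real.cos d / Real.sin α) ∧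
    Real.arccos (Real.cos d / Real.sin α) ≤ d ∧
    Real.sin α * Real.cos (Real.arccos (Real.cos d / Real.sin α)) = Real.cos d := by
  have hpi := Real.pi_pos
  have hcd : 0 < Real.cos d := Real.cos_pos_of_mem_Ioo ⟨by linarith, by linarith⟩
  have hs : Real.cos d ≤ Real.sin α := by
    rw [← Real.cos_sub_pi_div_two, ← Real.cos_abs (α - Real.pi / 2)]
    apply Real.cos_le_cos_of_nonneg_of_le_pi (abs_nonneg _) (by linarith)
    rw [abs_le]
    exact ⟨by linarith [hα.1], by linarith [hα.2]⟩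
  have hspos : 0 < Real.sin α := hcd.trans_le hs
  have hs1 := Real.sin_le_one α
  have hx0 : 0 ≤ Real.cos d / Real.sin α := by positivity
  have hx1 : Real.cos d / Real.sin α ≤ 1 := by
    rw [div_le_one hspos]
    exact hs
  refine ⟨Real.arccos_nonneg _, ?_, ?_⟩
  · have h6 : d = Real.arccos (Real.cos d) := by
      rw [Real.arccos_cos hd0.le (by linarith)]
    conv_rhs => rw [h6]
    apply Real.arccos_le_arccos
    rw [le_div_iff₀ hspos]
    nlinarith
  · rw [Real.cos_arccos (by linarith) hx1]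
    field_simp

theorem K7_zero (g : ℝ → ℝ) (t : ℝ) : (xx (fun x => (0:ℝ) * g x) t).re = 1 := by
  have h1 : yy (fun x => (0:ℝ) * g x) t = 0 := by
    unfold yy
    ring
  have h2 : DD (fun x => (0:ℝ) * g x) (Real.sin t) = 0 := by
    unfold DD
    simp
  unfold xx
  rw [h1, h2]
  simp

theorem K7 (k : ℕ) (hk : 1 ≤ k) (ρ δ : ℝ) (h1 : 2 * Real.pi * k ≤ ρ)
    (h2 : ρ ≤ 2 * Real.pi * (k + 1)) (h3 : Real.pi / (2 * (2 * k + 1)) < δ)
    (h4 : δ < Real.pi / 2) : HasCurve ρ δ := by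
  have hpi := Real.pi_pos
  have hk1 : (1 : ℝ) ≤ k := by exact_mod_cast hk
  obtain ⟨N, hN⟩ : ∃ N : ℝ, N = 2 * k + 1 := ⟨_, rfl⟩
  have hN3 : 3 ≤ N := by rw [hN]; linarith
  have hNpos : 0 < N := by linarith
  obtain ⟨d, hd⟩ : ∃ d : ℝ, d = Real.pi / (2 * (2 * k + 1)) := ⟨_, rfl⟩
  have hdN : d = Real.pi / (2 * N) := by rw [hd, hN]
  have hd0 : 0 < d := by rw [hdN]; positivity
  have hd6 : d ≤ Real.pi / 6 := by
    rw [hdN]
    exact div_le_div_of_nonneg_left hpi.le (by norm_num) (by linarith)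
  rw [← hd] at h3
  obtain ⟨μ, hμ⟩ : ∃ μ : ℝ, μ = (δ - d) / 4 := ⟨_, rfl⟩
  have hμpos : 0 < μ := by rw [hμ]; linarith
  obtain ⟨g, hg, hev, hpos, hsupp, hgμ, hDD⟩ := P1 (1 / 4) (Real.pi / 12) μ (by norm_num)
    (by norm_num) (by positivity) hμpos
  have hE := fun (l : ℝ) (hl : 0 ≤ l) (hl1 : l ≤ 1) =>
    E0 g (1 / 4) μ l hg hev hpos (by norm_num) (by norm_num) hsupp hgμ hl hl1
  obtain ⟨A₀, hA₀⟩ : ∃ A₀ : ℝ, A₀ = AA g (1 / 4) := ⟨_, rfl⟩
  have hA : Real.pi / 12 ≤ A₀ := by
    have h := (hE 1 zero_le_one le_rfl).2.1 (1 / 4)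
    have e : (fun x => (1:ℝ) * g x) = g := by
      funext x
      rw [one_mul]
    rw [e, hDD, ← hA₀, one_mul] at h
    have := le_abs_self (2 * (Real.pi / 12))
    linarith
  have hApos : 0 < A₀ := by linarith [show 0 < Real.pi / 12 by positivity]
  have hcont0 := K6 g hg A₀ (Real.cos d) (4 * N) hApos
  have hcont := hcont0.mono (Set.Icc_subset_Icc
    (by linarith : Real.pi / 3 ≤ Real.pi / 2 - d) (by linarith : Real.pi / 2 + d ≤ 2 * Real.pi / 3))
  obtain ⟨c, hc⟩ : ∃ c : ℝ → ℝ, ∀ α, c α =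
      Real.arccos (Real.cos d / Real.sin α) / (2 * A₀) := ⟨_, fun _ => rfl⟩
  simp only [← hc] at hcont
  have hcd : 0 < Real.cos d := Real.cos_pos_of_mem_Ioo ⟨by linarith, by linarith⟩
  have hc1 : c (Real.pi / 2 - d) = 0 := by
    rw [hc, Real.sin_pi_div_two_sub, div_self hcd.ne', Real.arccos_one, zero_div]
  have hc2 : c (Real.pi / 2 + d) = 0 := by
    have hs : Real.sin (Real.pi / 2 + d) = Real.cos d := by
      rw [add_comm, Real.sin_add_pi_div_two]
    rw [hc, hs, div_self hcd.ne', Real.arccos_one, zero_div]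
  have hNd : N * d = Real.pi / 2 := by
    rw [hdN]
    field_simp
  have hval1 : 4 * N * ∫ t in (0:ℝ)..((Real.pi / 2 - d) / 2),
      (xx (fun x => c (Real.pi / 2 - d) * g x) t).re = 2 * Real.pi * k := by
    rw [hc1]
    simp only [K7_zero]
    rw [intervalIntegral.integral_const, smul_eq_mul]
    have : N * Real.pi = (2 * k + 1) * Real.pi := by rw [hN]
    linear_combination this - 2 * hNd
  have hval2 : 4 * N * ∫ t in (0:ℝ)..((Real.pi / 2 + d) / 2),
      (xx (fun x => c (Real.pi / 2 + d) * g x) t).re = 2 * Real.pi * (k + 1) := by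
    rw [hc2]
    simp only [K7_zero]
    rw [intervalIntegral.integral_const, smul_eq_mul]
    have : N * Real.pi = (2 * k + 1) * Real.pi := by rw [hN]
    linear_combination this + 2 * hNd
  have hIVT := intermediate_value_Icc (by linarith : Real.pi / 2 - d ≤ Real.pi / 2 + d) hcont
  have hmem : ρ ∈ Set.Icc (4 * N * ∫ t in (0:ℝ)..((Real.pi / 2 - d) / 2),
      (xx (fun x => c (Real.pi / 2 - d) * g x) t).re) (4 * N * ∫ t in (0:ℝ)..((Real.pi / 2 + d) / 2),
      (xx (fun x => c (Real.pi / 2 + d) * g x) t).re) := by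
    rw [hval1, hval2]
    exact ⟨h1, h2⟩
  obtain ⟨α, hα, hρ⟩ := hIVT hmem
  simp only at hρ
  obtain ⟨ha0, ha6, hcos⟩ := K7_arccos d α hd0 hd6 hα
  have hcα0 : 0 ≤ c α := by
    rw [hc]
    positivity
  have hcA : 2 * (c α * A₀) = Real.arccos (Real.cos d / Real.sin α) := by
    rw [hc]
    field_simp
  have hcα1 : c α ≤ 1 := by
    rw [hc, div_le_one (by positivity)]
    linarith
  have hα1 : Real.pi / 3 ≤ α := by linarith [hα.1]
  have hα2 : α ≤ 2 * Real.pi / 3 := by linarith [hα.2]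
  obtain ⟨e1, e2, e3⟩ := hE (c α) hcα0 hcα1
  obtain ⟨z, w, ξ, hcurve, hint, hval⟩ := K5 k hk (fun x => c α * g x) (1 / 4) α
    (contDiff_const.mul hg) (fun x => by rw [hev]) (by norm_num) (by norm_num)
    (fun x hx => by rw [hsupp x hx, mul_zero]) hα1 hα2 (by
      rw [e1, ← hA₀, hcA, ← hd]
      exact hcos)
  refine ⟨z, w, ξ, hcurve, ?_, ?_⟩
  · rw [hint, ← hN, hρ]
  · intro t
    have hkk : 0 < (2 * k + 1) * α / Real.pi := by
      have : 0 < α := by linarith
      positivity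
    have hxx : ∀ s, 0 < (xx (fun x => c α * g x) s).re ∧
        |(xx (fun x => c α * g x) s).im| < Real.tan δ * (xx (fun x => c α * g x) s).re := by
      intro s
      have h := P6 δ (yy (fun x => c α * g x) s) (2 * DD (fun x => c α * g x) (Real.sin s)) h4 (by
        have g1 := e2 (Real.sin s)
        have g2 := e3 s
        rw [← hA₀, hcA] at g1
        rw [hμ] at g2
        linarith)
      exact h
    have hre : ∀ x : ℂ, ((((2 * k + 1) * α / Real.pi : ℝ) : ℂ) * x).re =
        (2 * k + 1) * α / Real.pi * x.re := by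
      intro x
      rw [Complex.re_ofReal_mul]
    have him : ∀ x : ℂ, ((((2 * k + 1) * α / Real.pi : ℝ) : ℂ) * x).im =
        (2 * k + 1) * α / Real.pi * x.im := by
      intro x
      rw [Complex.im_ofReal_mul]
    obtain ⟨s, hs | hs⟩ := hval t
    · obtain ⟨q1, q2⟩ := hxx s
      rw [hs, hre, him, abs_mul, abs_of_pos hkk]
      refine ⟨by positivity, ?_⟩
      calc (2 * k + 1) * α / Real.pi * |(xx (fun x => c α * g x) s).im|
          < (2 * k + 1) * α / Real.pi * (Real.tan δ * (xx (fun x => c α * g x) s).re) :=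
            mul_lt_mul_of_pos_left q2 hkk
        _ = _ := by ring
    · obtain ⟨q1, q2⟩ := hxx s
      rw [hs, hre, him, abs_mul, abs_of_pos hkk, Complex.conj_re, Complex.conj_im, abs_neg]
      refine ⟨by positivity, ?_⟩
      calc (2 * k + 1) * α / Real.pi * |(xx (fun x => c α * g x) s).im|
          < (2 * k + 1) * α / Real.pi * (Real.tan δ * (xx (fun x => c α * g x) s).re) :=
            mul_lt_mul_of_pos_left q2 hkk
        _ = _ := by ring


end Pool.Agent.Helper331.FT
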