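import Pool.Agent.Helper331.FT.Defs
import Pool.Agent.Helper331.FT.K7
set_option autoImplicit false
open scoped ContDiff ComplexConjugate
open Set MeasureTheory intervalIntegral

namespace Pool.Agent.Helper331.FT

theorem K8 (k : ℕ) (hk : 1 ≤ k) (ρ δ : ℝ) (h1 : 2 * Real.pi * k ≤ ρ)
    (h3 : Real.pi / (2 * (2 * k + 1)) < δ) (h4 : δ < Real.pi / 2) : HasCurve ρ δ := by
  have hpi := Real.pi_pos
  have hk' : (1:ℝ) ≤ k := by exact_mod_cast hk
  have hρ : 0 ≤ ρ / (2 * Real.pi) := by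
    apply div_nonneg _ (by positivity)
    nlinarith
  have hj1 : (⌊ρ / (2 * Real.pi)⌋₊ : ℝ) ≤ ρ / (2 * Real.pi) := Nat.floor_le hρ
  have hj2 : ρ / (2 * Real.pi) < ⌊ρ / (2 * Real.pi)⌋₊ + 1 := Nat.lt_floor_add_one _
  have hkj : k ≤ ⌊ρ / (2 * Real.pi)⌋₊ := by
    apply Nat.le_floor
    rw [le_div_iff₀ (by positivity)]
    linarith
  have hkj' : (k:ℝ) ≤ ⌊ρ / (2 * Real.pi)⌋₊ := by exact_mod_cast hkj
  rw [le_div_iff₀ (by positivity)] at hj1
  rw [div_lt_iff₀ (by positivity)] at hj2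
  refine K7 ⌊ρ / (2 * Real.pi)⌋₊ (hk.trans hkj) ρ δ (by linarith) (by linarith) ?_ h4
  refine lt_of_le_of_lt ?_ h3
  apply div_le_div_of_nonneg_left hpi.le (by positivity)
  linarith


end Pool.Agent.Helper331.FT
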