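import Pool.Agent.Helper331.FT.Defs
set_option autoImplicit false
open scoped ContDiff ComplexConjugate
open Set MeasureTheory intervalIntegral

namespace Pool.Agent.Helper331.FT

theorem P3_DDodd (g : ℝ → ℝ) (hev : ∀ x, g (-x) = g x) (x : ℝ) : DD g (-x) = - DD g x := by
  unfold DD
  have h := intervalIntegral.integral_comp_neg (a := 0) (b := x) (fun y : ℝ => g y * (1 - 2 * y ^ 2))
  simp only [hev, neg_zero] at h
  rw [intervalIntegral.integral_symm]
  rw [← h]
  congr 1
  apply intervalIntegral.integral_congr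
  intro y _
  simp

theorem P3_neg (g : ℝ → ℝ) (hev : ∀ x, g (-x) = g x) (t : ℝ) : xx g (-t) = conj (xx g t) := by
  unfold xx yy
  rw [Real.sin_neg, Real.cos_neg, P3_DDodd g hev, hev]
  rw [map_mul, map_add, map_one, map_mul, Complex.conj_ofReal, Complex.conj_I, ← Complex.exp_conj,
    map_mul, Complex.conj_ofReal, Complex.conj_I]
  push_cast
  congr 1
  · ring
  · congr 1
    ring

theorem P3_per (g : ℝ → ℝ) : Function.Periodic (xx g) (2 * Real.pi) := by
  intro t
  unfold xx yy
  rw [Real.sin_add_two_pi, Real.cos_add_two_pi]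

theorem P3_cont (g : ℝ → ℝ) (hg : ContDiff ℝ ∞ g) : Continuous (xx g) := by
  have hgc : Continuous g := hg.continuous
  have hD : Continuous (DD g) := by
    unfold DD
    exact intervalIntegral.continuous_primitive (fun a b => (by fun_prop : Continuous (fun y : ℝ => g y * (1 - 2 * y ^ 2))).intervalIntegrable a b) 0
  have hy : Continuous (yy g) := by
    unfold yy
    have := hgc.comp Real.continuous_sin
    have h2 : Continuous fun t => g (Real.sin t) := this
    fun_prop
  have h3 : Continuous fun t => DD g (Real.sin t) := hD.comp Real.continuous_sin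
  unfold xx
  exact (continuous_const.add ((Complex.continuous_ofReal.comp hy).mul continuous_const)).mul
    (Complex.continuous_exp.comp ((Complex.continuous_ofReal.comp (continuous_const.mul h3)).mul continuous_const))

theorem P3 (g : ℝ → ℝ) (hg : ContDiff ℝ ∞ g) (hev : ∀ x, g (-x) = g x) :
    (∫ t in (0:ℝ)..(2 * Real.pi), xx g t) = ((∫ t in (0:ℝ)..(2 * Real.pi), (xx g t).re : ℝ) : ℂ) := by
  have hc := P3_cont g hg
  have h1 : conj (∫ t in (0:ℝ)..(2 * Real.pi), xx g t) = ∫ t in (0:ℝ)..(2 * Real.pi), xx g t := by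
    have e1 : conj (∫ t in (0:ℝ)..(2 * Real.pi), xx g t) = ∫ t in (0:ℝ)..(2 * Real.pi), conj (xx g t) := by
      simp only [intervalIntegral.integral_of_le (by positivity : (0:ℝ) ≤ 2 * Real.pi)]
      exact (integral_conj).symm
    have e2 : (∫ t in (0:ℝ)..(2 * Real.pi), conj (xx g t)) = ∫ t in (0:ℝ)..(2 * Real.pi), xx g (-t) := by
      apply intervalIntegral.integral_congr
      intro t _
      exact (P3_neg g hev t).symm
    have e3 : (∫ t in (0:ℝ)..(2 * Real.pi), xx g (-t)) = ∫ t in (-(2 * Real.pi))..(-0), xx g t :=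
      intervalIntegral.integral_comp_neg (xx g)
    have e4 := (P3_per g).intervalIntegral_add_eq (-(2 * Real.pi)) 0
    rw [neg_add_cancel, zero_add] at e4
    rw [e1, e2, e3, neg_zero, e4]
  obtain ⟨r, hr⟩ := Complex.conj_eq_iff_real.1 h1
  have h2 : (∫ t in (0:ℝ)..(2 * Real.pi), (xx g t).re) = (∫ t in (0:ℝ)..(2 * Real.pi), xx g t).re := by
    have := (Complex.reCLM.intervalIntegral_comp_comm (μ := volume) (hc.intervalIntegrable 0 (2 * Real.pi)))
    simpa using this
  rw [h2, hr, Complex.ofReal_re]


end Pool.Agent.Helper331.FT
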