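import Pool.Agent.Helper331.FT.Defs
set_option autoImplicit false
open scoped ContDiff ComplexConjugate
open Set MeasureTheory intervalIntegral

namespace Pool.Agent.Helper331.FT

theorem P4_bd (f : ℝ → ℝ) (hf : Continuous f) (a b K : ℝ) (hab : a ≤ b)
    (h : ∀ t, a ≤ t → t ≤ b → f t ≤ K) : ∫ t in a..b, f t ≤ K * (b - a) := by
  have h1 : ∫ t in a..b, f t ≤ ∫ _t in a..b, K := by
    apply intervalIntegral.integral_mono_on hab (hf.intervalIntegrable _ _)
      (continuous_const.intervalIntegrable _ _)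
    intro t ht
    exact h t ht.1 ht.2
  rw [intervalIntegral.integral_const, smul_eq_mul] at h1
  linarith

theorem P4_sin (r : ℝ) (hr : 0 < r) (t : ℝ) (h1 : Real.pi * r / 2 ≤ t)
    (h2 : t ≤ Real.pi - Real.pi * r / 2) : r ≤ Real.sin t := by
  have hpi := Real.pi_pos
  have key : ∀ x : ℝ, Real.pi * r / 2 ≤ x → x ≤ Real.pi / 2 → r ≤ Real.sin x := by
    intro x hx1 hx2
    have hx0 : 0 ≤ x := le_trans (by positivity) hx1
    have h3 := Real.mul_le_sin hx0 hx2
    have h4 : r ≤ 2 / Real.pi * x := by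
      have : 2 / Real.pi * (Real.pi * r / 2) ≤ 2 / Real.pi * x :=
        mul_le_mul_of_nonneg_left hx1 (by positivity)
      have e : 2 / Real.pi * (Real.pi * r / 2) = r := by field_simp
      linarith
    linarith
  rcases le_total t (Real.pi / 2) with h | h
  · exact key t h1 h
  · have := key (Real.pi - t) (by linarith) (by linarith)
    rwa [Real.sin_pi_sub] at this

theorem P4 (ε : ℝ) (hε : 0 < ε) : ∃ r : ℝ, 0 < r ∧ r < 1 / 2 ∧
    ∀ (f : ℝ → ℝ) (c : ℝ), Continuous f → -1 ≤ c → c ≤ 1 → (∀ t, f t ≤ 1) →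
      (∀ t, r ≤ |Real.sin t| → f t ≤ c) →
      ∫ t in (0:ℝ)..(2 * Real.pi), f t ≤ 2 * Real.pi * c + ε := by
  have hpi := Real.pi_pos
  obtain ⟨r, hr0, hr1, hr2⟩ : ∃ r : ℝ, 0 < r ∧ r ≤ 1 / 4 ∧ 4 * Real.pi * r ≤ ε := by
    refine ⟨min (1 / 4) (ε / (4 * Real.pi)), lt_min (by norm_num) (by positivity),
      min_le_left _ _, ?_⟩
    have := min_le_right (1 / 4) (ε / (4 * Real.pi))
    calc 4 * Real.pi * min (1 / 4) (ε / (4 * Real.pi)) ≤ 4 * Real.pi * (ε / (4 * Real.pi)) :=
          mul_le_mul_of_nonneg_left this (by positivity)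
      _ = ε := by field_simp
  refine ⟨r, hr0, by linarith, ?_⟩
  intro f c hf hc1 hc2 hf1 hfc
  set s : ℝ := Real.pi * r / 2 with hs
  have hs0 : 0 < s := by positivity
  have hs1 : 2 * s ≤ Real.pi := by rw [hs]; nlinarith
  have hii : ∀ a b : ℝ, IntervalIntegrable f volume a b := fun a b => hf.intervalIntegrable a b
  have e1 : ∫ t in (0:ℝ)..(2 * Real.pi), f t =
      (∫ t in (0:ℝ)..s, f t) + (∫ t in s..(Real.pi - s), f t) +
      (∫ t in (Real.pi - s)..(Real.pi + s), f t) +
      (∫ t in (Real.pi + s)..(2 * Real.pi - s), f t) +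
      ∫ t in (2 * Real.pi - s)..(2 * Real.pi), f t := by
    rw [intervalIntegral.integral_add_adjacent_intervals (hii _ _) (hii _ _),
      intervalIntegral.integral_add_adjacent_intervals (hii _ _) (hii _ _),
      intervalIntegral.integral_add_adjacent_intervals (hii _ _) (hii _ _),
      intervalIntegral.integral_add_adjacent_intervals (hii _ _) (hii _ _)]
  have b1 := P4_bd f hf 0 s 1 hs0.le (fun t _ _ => hf1 t)
  have b2 := P4_bd f hf s (Real.pi - s) c (by linarith) (fun t h1 h2 =>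
    hfc t ((P4_sin r hr0 t h1 h2).trans (le_abs_self _)))
  have b3 := P4_bd f hf (Real.pi - s) (Real.pi + s) 1 (by linarith) (fun t _ _ => hf1 t)
  have b4 := P4_bd f hf (Real.pi + s) (2 * Real.pi - s) c (by linarith) (fun t h1 h2 => by
    apply hfc t
    have h3 := P4_sin r hr0 (t - Real.pi) (by linarith) (by linarith)
    rw [Real.sin_sub_pi] at h3
    exact h3.trans (neg_le_abs _))
  have b5 := P4_bd f hf (2 * Real.pi - s) (2 * Real.pi) 1 (by linarith) (fun t _ _ => hf1 t)
  have h8 : 8 * s ≤ ε := by rw [hs]; linarith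
  have h9 : 4 * s * (1 - c) ≤ 4 * s * 2 := mul_le_mul_of_nonneg_left (by linarith) (by positivity)
  rw [e1]
  nlinarith [b1, b2, b3, b4, b5, h8, h9]


end Pool.Agent.Helper331.FT
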