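import Pool.Agent.Helper331.FT.Defs
set_option autoImplicit false
open scoped ContDiff ComplexConjugate
open Set MeasureTheory intervalIntegral

namespace Pool.Agent.Helper331.FT

theorem P7_DD (g : ℝ → ℝ) (l x : ℝ) : DD (fun y => l * g y) x = l * DD g x := by
  unfold DD
  rw [← intervalIntegral.integral_const_mul]
  apply intervalIntegral.integral_congr
  intro y _
  simp only
  ring

theorem P7_DDc (g : ℝ → ℝ) (hg : Continuous g) : Continuous (DD g) := by
  unfold DD
  apply intervalIntegral.continuous_primitive
  intro a b
  apply Continuous.intervalIntegrable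
  fun_prop

theorem P7_yy (g : ℝ → ℝ) (l t : ℝ) : yy (fun y => l * g y) t = l * yy g t := by
  unfold yy
  ring

theorem P7_yyc (g : ℝ → ℝ) (hg : Continuous g) : Continuous (yy g) := by
  unfold yy
  fun_prop

theorem P7 (g : ℝ → ℝ) (hg : ContDiff ℝ ∞ g) :
    Continuous (fun l : ℝ => ∫ t in (0:ℝ)..(2 * Real.pi), (xx (fun x => l * g x) t).re) := by
  have hgc : Continuous g := hg.continuous
  have h1 := P7_DDc g hgc
  have h2 := P7_yyc g hgc
  have h3 : (fun l : ℝ => ∫ t in (0:ℝ)..(2 * Real.pi), (xx (fun x => l * g x) t).re) =
      fun l : ℝ => ∫ t in (0:ℝ)..(2 * Real.pi),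
        (fun (l t : ℝ) => ((1 + ((l * yy g t : ℝ) : ℂ) * Complex.I) *
          Complex.exp (((2 * (l * DD g (Real.sin t)) : ℝ) : ℂ) * Complex.I)).re) l t := by
    funext l
    apply intervalIntegral.integral_congr
    intro t _
    simp only
    unfold xx
    rw [P7_DD, P7_yy]
  rw [h3]
  apply intervalIntegral.continuous_parametric_intervalIntegral_of_continuous'
  simp only [Function.uncurry_def]
  apply Complex.continuous_re.comp
  apply Continuous.mul
  · apply Continuous.add continuous_const
    apply Continuous.mul _ continuous_const
    apply Complex.continuous_ofReal.comp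
    exact continuous_fst.mul (h2.comp continuous_snd)
  · apply Complex.continuous_exp.comp
    apply Continuous.mul _ continuous_const
    apply Complex.continuous_ofReal.comp
    apply continuous_const.mul
    exact continuous_fst.mul (h1.comp (Real.continuous_sin.comp continuous_snd))


end Pool.Agent.Helper331.FT
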