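import Pool.Agent.Helper331.FT.Defs
import Pool.Agent.Helper331.FT.P1
import Pool.Agent.Helper331.FT.P2
import Pool.Agent.Helper331.FT.P3
import Pool.Agent.Helper331.FT.P4
import Pool.Agent.Helper331.FT.P5
import Pool.Agent.Helper331.FT.P6
import Pool.Agent.Helper331.FT.P7
set_option autoImplicit false
open scoped ContDiff ComplexConjugate
open Set MeasureTheory intervalIntegral

namespace Pool.Agent.Helper331.FT

theorem P8 (ρ δ : ℝ) (hρ : 0 < ρ) (hρ2 : ρ ≤ 2 * Real.pi) (hδ : 0 < δ) (hδ2 : δ < Real.pi / 2)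
    (h : 2 * Real.pi * Real.cos δ < ρ) :
    ∃ z w ξ : ℝ → ℂ, IsCurve z w ξ ∧ (∫ t in (0:ℝ)..(2 * Real.pi), ξ t) = (ρ : ℂ) ∧
      ∀ t, 0 < (ξ t).re ∧ |(ξ t).im| < Real.tan δ * (ξ t).re := by
  obtain ⟨M, hM0, hMδ, hMρ⟩ : ∃ M : ℝ, 0 < M ∧ M < δ ∧ 2 * Real.pi * Real.cos M < ρ := by
    have hc : Continuous (fun M : ℝ => 2 * Real.pi * Real.cos M) :=
      continuous_const.mul Real.continuous_cos
    have h1 : ∀ᶠ M in nhdsWithin δ (Set.Iio δ), 2 * Real.pi * Real.cos M < ρ :=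
      (hc.continuousAt.eventually_lt_const h).filter_mono nhdsWithin_le_nhds
    have h2 : ∀ᶠ M in nhdsWithin δ (Set.Iio δ), M ∈ Set.Ioo 0 δ := Ioo_mem_nhdsLT hδ
    obtain ⟨M, hM1, hM2⟩ := (h1.and h2).exists
    exact ⟨M, hM2.1, hM2.2, hM1⟩
  obtain ⟨r, hr, hr2, hr3⟩ := P4 ((ρ - 2 * Real.pi * Real.cos M) / 2) (by linarith)
  obtain ⟨g, hg, hev, hpos, hsupp, hμ, hm⟩ := P1 r (M / 2) ((δ - M) / 4) hr hr2 (by linarith)
    (by linarith)
  obtain ⟨hD, hre, hcos⟩ := P5 g r (M / 2) hg hev hpos hr hr2 hsupp hm (by linarith)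
  have hcont := P7 g hg
  set I : ℝ → ℝ := fun l : ℝ => ∫ t in (0:ℝ)..(2 * Real.pi), (xx (fun x => l * g x) t).re with hI
  have hI0 : ρ ≤ I 0 := by
    have : I 0 = 2 * Real.pi := by
      simp [hI, xx, yy, DD]
    rw [this]; exact hρ2
  have hI1 : I 1 ≤ ρ := by
    have hfc : Continuous (fun t => (xx g t).re) :=
      Complex.continuous_re.comp (P2 g hg).cξ.continuous
    have h1 := hr3 (fun t => (xx g t).re) (Real.cos (2 * (M / 2))) hfc (Real.neg_one_le_cos _)
      (Real.cos_le_one _) hre hcos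
    have h2 : I 1 = ∫ t in (0:ℝ)..(2 * Real.pi), (xx g t).re := by
      simp [hI]
    rw [h2]
    have h3 : 2 * (M / 2) = M := by ring
    rw [h3] at h1
    linarith
  obtain ⟨l, hl, hlρ⟩ := intermediate_value_Icc' (zero_le_one' ℝ) hcont.continuousOn
    (show ρ ∈ Set.Icc (I 1) (I 0) from ⟨hI1, hI0⟩)
  set G : ℝ → ℝ := fun x => l * g x with hG
  have hGs : ContDiff ℝ ∞ G := contDiff_const.mul hg
  have hGe : ∀ x, G (-x) = G x := fun x => by simp only [hG, hev]
  refine ⟨zz G, ww G, xx G, P2 G hGs, ?_, ?_⟩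
  · rw [P3 G hGs hGe]
    have : (∫ t in (0:ℝ)..(2 * Real.pi), (xx G t).re) = ρ := hlρ
    rw [this]
  · intro t
    have hy : |yy G t| ≤ 2 * ((δ - M) / 4) := by
      have h1 : yy G t = 2 * (l * Real.cos t ^ 2) * (Real.sin t * g (Real.sin t)) := by
        simp only [yy, hG]; ring
      rw [h1, abs_mul, abs_mul, abs_mul (Real.sin t), abs_of_nonneg (hpos _)]
      have h2 : |l * Real.cos t ^ 2| ≤ 1 := by
        rw [abs_of_nonneg (mul_nonneg hl.1 (sq_nonneg _))]
        have := Real.cos_sq_le_one t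
        have h3 : l * Real.cos t ^ 2 ≤ 1 * 1 := mul_le_mul hl.2 this (sq_nonneg _) (by norm_num)
        linarith
      have h3 := hμ (Real.sin t)
      have h4 : 0 ≤ |Real.sin t| * g (Real.sin t) := mul_nonneg (abs_nonneg _) (hpos _)
      rw [abs_of_pos (by norm_num : (0:ℝ) < 2)]
      calc 2 * |l * Real.cos t ^ 2| * (|Real.sin t| * g (Real.sin t))
          ≤ 2 * 1 * ((δ - M) / 4) := by
            apply mul_le_mul _ h3 h4 (by norm_num)
            linarith
        _ = _ := by ring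
    have hθ : |2 * DD G (Real.sin t)| ≤ M := by
      have h1 : DD G (Real.sin t) = l * DD g (Real.sin t) := by
        simp only [DD, hG]
        rw [← intervalIntegral.integral_const_mul]
        congr 1
        funext y
        ring
      rw [h1, abs_mul, abs_mul, abs_of_pos (by norm_num : (0:ℝ) < 2), abs_of_nonneg hl.1]
      have h2 := hD (Real.sin t)
      have h3 : l * |DD g (Real.sin t)| ≤ 1 * (M / 2) := mul_le_mul hl.2 h2 (abs_nonneg _) (by norm_num)
      linarith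
    have := P6 δ (yy G t) (2 * DD G (Real.sin t)) hδ2 (by linarith)
    exact this


end Pool.Agent.Helper331.FT
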