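import Pool.Agent.Helper331.FT.Defs
set_option autoImplicit false
open scoped ContDiff ComplexConjugate
open Set MeasureTheory intervalIntegral

namespace Pool.Agent.Helper331.FT

theorem Q1 (z w ξ : ℝ → ℂ) (h : IsCurve z w ξ) (a : ℂ) (ha : Complex.normSq a = 1) :
    IsCurve z (fun t => a * w t) (fun t => a * ξ t) := by
  have haa : a * conj a = 1 := by
    rw [Complex.mul_conj, ha]
    simp
  refine ⟨h.cz, contDiff_const.mul h.cw, contDiff_const.mul h.cξ, ?_, ?_, ?_, h.pz, ?_, ?_⟩
  · intro t
    rw [Complex.normSq_mul, ha, one_mul]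
    exact h.unit t
  · intro t
    have e : -(a * w t * conj (a * ξ t)) = -(w t * conj (ξ t)) := by
      rw [map_mul]
      linear_combination -(w t * conj (ξ t)) * haa
    rw [e]
    exact h.dz t
  · intro t
    have e : z t * (a * ξ t) = a * (z t * ξ t) := by ring
    rw [e]
    exact (h.dw t).const_mul a
  · intro t
    simp only [h.pw t]
  · intro t
    simp only [h.pξ t]


end Pool.Agent.Helper331.FT
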