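import Pool.Agent.Helper331.FT.Defs
set_option autoImplicit false
open scoped ContDiff ComplexConjugate
open Set MeasureTheory intervalIntegral

namespace Pool.Agent.Helper331.FT

theorem Q2 (z₁ w₁ z₂ w₂ ζ : ℂ) (h₁ : Complex.normSq z₁ + Complex.normSq w₁ = 1)
    (h₂ : Complex.normSq z₂ + Complex.normSq w₂ = 1) :
    Complex.normSq (z₁ * conj z₂ + w₁ * conj w₂) + Complex.normSq (w₁ * z₂ - z₁ * w₂) = 1 ∧
    Complex.normSq (ζ * (z₁ * conj w₂) - conj ζ * (w₁ * conj z₂)) +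
      Complex.normSq (ζ * (z₁ * z₂) + conj ζ * (w₁ * w₂)) = Complex.normSq ζ := by
  simp only [Complex.normSq_apply] at h₁ h₂ ⊢
  simp only [Complex.add_re, Complex.add_im, Complex.sub_re, Complex.sub_im, Complex.mul_re,
    Complex.mul_im, Complex.conj_re, Complex.conj_im]
  constructor
  · linear_combination (z₂.re * z₂.re + z₂.im * z₂.im + (w₂.re * w₂.re + w₂.im * w₂.im)) * h₁ + h₂
  · linear_combination (ζ.re * ζ.re + ζ.im * ζ.im) *
      ((z₂.re * z₂.re + z₂.im * z₂.im + (w₂.re * w₂.re + w₂.im * w₂.im)) * h₁ + h₂)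

end Pool.Agent.Helper331.FT
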