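import Pool.Agent.Helper331.FT.Defs
set_option autoImplicit false
open scoped ContDiff ComplexConjugate
open Set MeasureTheory intervalIntegral

namespace Pool.Agent.Helper331.FT


theorem Q3_prim {F g : ℝ → ℝ} (hF : ∀ x, HasDerivAt F (g x) x) (hg : Continuous g)
    (hp : ∀ t, g (t + 2 * Real.pi) = g t) (hpos : ∀ t, 0 < g t) (h0 : F 0 = 0) :
    StrictMono F ∧ Filter.Tendsto F Filter.atTop Filter.atTop ∧
      Filter.Tendsto F Filter.atBot Filter.atBot := by
  have hs : StrictMono F := strictMono_of_deriv_pos (fun x => by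
    rw [(hF x).deriv]; exact hpos x)
  obtain ⟨y0, -, hy0⟩ := (isCompact_Icc (a := (0:ℝ)) (b := 2 * Real.pi)).exists_isMinOn
    (nonempty_Icc.2 (by positivity)) hg.continuousOn
  set m := g y0 with hm
  have hmpos : 0 < m := hpos y0
  have hlow : ∀ x, m ≤ g x := by
    intro x
    obtain ⟨y, hy, hxy⟩ := (show Function.Periodic g (2 * Real.pi) from hp).exists_mem_Ico₀
      (by positivity) x
    rw [hxy]
    exact hy0 ⟨hy.1, hy.2.le⟩
  have hmono : Monotone (fun x => F x - m * x) := by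
    have hd : ∀ x, HasDerivAt (fun x => F x - m * x) (g x - m) x := by
      intro x
      have := (hF x).fun_sub ((hasDerivAt_id x).const_mul m)
      simpa using this
    apply monotone_of_deriv_nonneg (fun x => (hd x).differentiableAt)
    intro x
    rw [(hd x).deriv]
    linarith [hlow x]
  refine ⟨hs, ?_, ?_⟩
  · apply Filter.tendsto_atTop_mono' _ _ (Filter.Tendsto.const_mul_atTop hmpos Filter.tendsto_id)
    filter_upwards [Filter.eventually_ge_atTop 0] with x hx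
    have := hmono hx
    simp only [h0, mul_zero, sub_zero] at this
    simp only [id]
    linarith
  · apply Filter.tendsto_atBot_mono' _ _ (Filter.Tendsto.const_mul_atBot hmpos Filter.tendsto_id)
    filter_upwards [Filter.eventually_le_atBot 0] with x hx
    have := hmono hx
    simp only [h0, mul_zero, sub_zero] at this
    simp only [id]
    linarith

theorem Q3_V {ξ : ℝ → ℂ} (c : ContDiff ℝ ∞ ξ) :
    (∀ s, HasDerivAt (fun s => ∫ u in (0:ℝ)..s, ξ u) (ξ s) s) ∧
      ContDiff ℝ ∞ (fun s => ∫ u in (0:ℝ)..s, ξ u) := by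
  have h1 : ∀ s, HasDerivAt (fun s => ∫ u in (0:ℝ)..s, ξ u) (ξ s) s := fun s =>
    (c.continuous.integral_hasStrictDerivAt 0 s).hasDerivAt
  refine ⟨h1, ?_⟩
  rw [contDiff_infty_iff_deriv]
  refine ⟨fun s => (h1 s).differentiableAt, ?_⟩
  have : deriv (fun s => ∫ u in (0:ℝ)..s, ξ u) = ξ := funext fun s => (h1 s).deriv
  rw [this]
  exact c

theorem Q3_im {V ξ : ℝ → ℂ} (h : ∀ s, HasDerivAt V (ξ s) s) (p : ℂ) (s : ℝ) :
    HasDerivAt (fun s => (p * V s).im) ((p * ξ s).im) s := by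
  have h1 : HasDerivAt (fun s => p * V s) (p * ξ s) s := (h s).const_mul p
  exact (Complex.imCLM.hasFDerivAt.comp_hasDerivAt s h1)

theorem Q3_indep {a b : ℝ} {x1 x2 p q : ℂ} (hp : 0 < (p * x1).im ∧ (p * x2).im < 0)
    (hq : 0 < (q * x1).im ∧ 0 < (q * x2).im) (h : (a : ℂ) * x1 - (b : ℂ) * x2 = 0) :
    a = 0 ∧ b = 0 := by
  have e1 : a * (p * x1).im - b * (p * x2).im = 0 := by
    have : (p * ((a : ℂ) * x1 - (b : ℂ) * x2)).im = 0 := by rw [h]; simp
    rw [← this]
    have : p * ((a : ℂ) * x1 - (b : ℂ) * x2) = (a : ℂ) * (p * x1) - (b : ℂ) * (p * x2) := by ring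
    rw [this, Complex.sub_im, Complex.im_ofReal_mul, Complex.im_ofReal_mul]
  have e2 : a * (q * x1).im - b * (q * x2).im = 0 := by
    have : (q * ((a : ℂ) * x1 - (b : ℂ) * x2)).im = 0 := by rw [h]; simp
    rw [← this]
    have : q * ((a : ℂ) * x1 - (b : ℂ) * x2) = (a : ℂ) * (q * x1) - (b : ℂ) * (q * x2) := by ring
    rw [this, Complex.sub_im, Complex.im_ofReal_mul, Complex.im_ofReal_mul]
  have ha : a = 0 := by
    rcases lt_trichotomy a 0 with ha | ha | ha
    · have h1 : b * (p * x2).im < 0 := by nlinarith [hp.1]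
      have h2 : 0 < b := by
        by_contra hb
        push Not at hb
        nlinarith [hp.2]
      nlinarith [hq.1, hq.2, mul_pos h2 hq.2, mul_neg_of_neg_of_pos ha hq.1]
    · exact ha
    · have h1 : 0 < b * (p * x2).im := by nlinarith [hp.1, mul_pos ha hp.1]
      have h2 : b < 0 := by
        by_contra hb
        push Not at hb
        nlinarith [hp.2, mul_nonneg hb (neg_nonneg.2 hp.2.le)]
      nlinarith [hq.1, hq.2, mul_neg_of_neg_of_pos h2 hq.2, mul_pos ha hq.1]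
  refine ⟨ha, ?_⟩
  subst ha
  have : b * (q * x2).im = 0 := by linarith
  rcases mul_eq_zero.1 this with h | h
  · exact h
  · linarith [hq.2]

theorem Q3_sep {y x1 x2 p q : ℂ} (hp : 0 < (p * x1).im ∧ (p * x2).im < 0)
    (hq : 0 < (q * x1).im ∧ 0 < (q * x2).im) (h1 : (p * y).im = 0) (h2 : (q * y).im = 0) :
    y = 0 := by
  by_contra hy
  have hp0 : p ≠ 0 := by rintro rfl; simp at hp
  have hpy : p * y ≠ 0 := mul_ne_zero hp0 hy
  have e1 : p * y = (((p * y).re : ℝ) : ℂ) := by apply Complex.ext <;> simp [h1]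
  have e2 : q * y = (((q * y).re : ℝ) : ℂ) := by apply Complex.ext <;> simp [h2]
  have hre : (p * y).re ≠ 0 := fun h => hpy (by rw [e1, h]; simp)
  have hqr : q = (((q * y).re / (p * y).re : ℝ) : ℂ) * p := by
    have hh : (q * y).re / (p * y).re * (p * y).re = (q * y).re := div_mul_cancel₀ _ hre
    have : q * y = (((q * y).re / (p * y).re : ℝ) : ℂ) * p * y := by
      rw [mul_assoc]
      conv_rhs => rw [e1]
      conv_lhs => rw [e2, ← hh]
      simp
    exact mul_right_cancel₀ hy this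
  set r := (q * y).re / (p * y).re
  have f1 : (q * x1).im = r * (p * x1).im := by
    rw [hqr, mul_assoc]; simp
  have f2 : (q * x2).im = r * (p * x2).im := by
    rw [hqr, mul_assoc]; simp
  have hr : 0 < r := by
    have := hq.1
    rw [f1] at this
    by_contra hr
    push Not at hr
    nlinarith [mul_nonneg (neg_nonneg.2 hr) hp.1.le]
  have := hq.2
  rw [f2] at this
  nlinarith [hp.2, mul_pos hr (neg_pos.2 hp.2)]

theorem Q3_bij {V1 V2 ξ₁ ξ₂ : ℝ → ℂ} (d1 : ∀ s, HasDerivAt V1 (ξ₁ s) s)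
    (d2 : ∀ s, HasDerivAt V2 (ξ₂ s) s) (k1 : Continuous ξ₁) (k2 : Continuous ξ₂)
    (z1 : V1 0 = 0) (z2 : V2 0 = 0)
    (p₁ : ∀ t, ξ₁ (t + 2 * Real.pi) = ξ₁ t) (p₂ : ∀ t, ξ₂ (t + 2 * Real.pi) = ξ₂ t)
    (p q : ℂ) (hp : ∀ t, 0 < (p * ξ₁ t).im ∧ (p * ξ₂ t).im < 0)
    (hq : ∀ t, 0 < (q * ξ₁ t).im ∧ 0 < (q * ξ₂ t).im) :
    Function.Bijective (fun z : ℝ × ℝ => V1 z.1 - V2 z.2) := by
  obtain ⟨Am, At, Ab⟩ := Q3_prim (Q3_im d1 p)
    (Complex.continuous_im.comp (continuous_const.mul k1)) (fun t => by rw [p₁])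
    (fun t => (hp t).1) (by simp [z1])
  obtain ⟨Bm, Bt, Bb⟩ := Q3_prim (Q3_im d2 (-p))
    (Complex.continuous_im.comp (continuous_const.mul k2)) (fun t => by rw [p₂])
    (fun t => by rw [neg_mul, Complex.neg_im]; linarith [(hp t).2]) (by simp [z2])
  obtain ⟨Cm, Ct, Cb⟩ := Q3_prim (Q3_im d1 q)
    (Complex.continuous_im.comp (continuous_const.mul k1)) (fun t => by rw [p₁])
    (fun t => (hq t).1) (by simp [z1])
  obtain ⟨Dm, Dt, Db⟩ := Q3_prim (Q3_im d2 q)
    (Complex.continuous_im.comp (continuous_const.mul k2)) (fun t => by rw [p₂])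
    (fun t => (hq t).2) (by simp [z2])
  have Acont : Continuous (fun s => (p * V1 s).im) :=
    continuous_iff_continuousAt.2 fun s => (Q3_im d1 p s).continuousAt
  have Bcont : Continuous (fun s => (-p * V2 s).im) :=
    continuous_iff_continuousAt.2 fun s => (Q3_im d2 (-p) s).continuousAt
  have Ccont : Continuous (fun s => (q * V1 s).im) :=
    continuous_iff_continuousAt.2 fun s => (Q3_im d1 q s).continuousAt
  have Dcont : Continuous (fun s => (q * V2 s).im) :=
    continuous_iff_continuousAt.2 fun s => (Q3_im d2 q s).continuousAt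
  have hpH : ∀ s t : ℝ, (p * (V1 s - V2 t)).im = (p * V1 s).im + (-p * V2 t).im := by
    intro s t
    rw [mul_sub, Complex.sub_im, neg_mul, Complex.neg_im]; ring
  have hqH : ∀ s t : ℝ, (q * (V1 s - V2 t)).im = (q * V1 s).im - (q * V2 t).im := by
    intro s t
    rw [mul_sub, Complex.sub_im]
  constructor
  · rintro ⟨s, t⟩ ⟨s', t'⟩ h
    simp only at h
    have e1 : (p * V1 s).im + (-p * V2 t).im = (p * V1 s').im + (-p * V2 t').im := by
      rw [← hpH, ← hpH, h]
    have e2 : (q * V1 s).im - (q * V2 t).im = (q * V1 s').im - (q * V2 t').im := by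
      rw [← hqH, ← hqH, h]
    have key : ∀ s t s' t' : ℝ,
        (p * V1 s).im + (-p * V2 t).im = (p * V1 s').im + (-p * V2 t').im →
        (q * V1 s).im - (q * V2 t).im = (q * V1 s').im - (q * V2 t').im → ¬ s < s' := by
      intro s t s' t' e1 e2 hs
      have h1 := Am hs
      have h2 : t' < t := by
        by_contra hh
        push Not at hh
        have := Bm.monotone hh
        simp only at this h1
        linarith
      have h3 := Cm hs
      have h4 := Dm h2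
      simp only at h3 h4
      linarith
    have hs : s = s' := by
      rcases lt_trichotomy s s' with h | h | h
      · exact absurd h (key s t s' t' e1 e2)
      · exact h
      · exact absurd h (key s' t' s t e1.symm e2.symm)
    subst hs
    have ht : t = t' := Dm.injective (show (q * V2 t).im = (q * V2 t').im by linarith)
    rw [ht]
  · intro x
    have Bsurj : Function.Surjective (fun s => (-p * V2 s).im) := Bcont.surjective Bt Bb
    set e : ℝ ≃o ℝ := Bm.orderIsoOfSurjective _ Bsurj with he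
    have hee : ∀ y, (-p * V2 (e.symm y)).im = y := by
      intro y
      exact e.apply_symm_apply y
    have hτc : Continuous (fun s => e.symm ((p * x).im - (p * V1 s).im)) :=
      e.symm.continuous.comp (continuous_const.sub Acont)
    have hτa : Antitone (fun s => e.symm ((p * x).im - (p * V1 s).im)) := by
      intro s s' h
      have hh : (p * V1 s).im ≤ (p * V1 s').im := Am.monotone h
      exact e.symm.monotone (by linarith)
    have hG : Continuous (fun s => (q * V1 s).im -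
        (q * V2 (e.symm ((p * x).im - (p * V1 s).im))).im) := Ccont.sub (Dcont.comp hτc)
    have hGs : Function.Surjective (fun s => (q * V1 s).im -
        (q * V2 (e.symm ((p * x).im - (p * V1 s).im))).im) := by
      apply hG.surjective
      · apply Filter.tendsto_atTop_mono' _ _
          (Filter.tendsto_atTop_add_const_right _
            (-(q * V2 (e.symm ((p * x).im - (p * V1 0).im))).im) Ct)
        filter_upwards [Filter.eventually_ge_atTop 0] with s hs
        have := Dm.monotone (hτa hs)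
        simp only at this
        linarith
      · apply Filter.tendsto_atBot_mono' _ _
          (Filter.tendsto_atBot_add_const_right _
            (-(q * V2 (e.symm ((p * x).im - (p * V1 0).im))).im) Cb)
        filter_upwards [Filter.eventually_le_atBot 0] with s hs
        have := Dm.monotone (hτa hs)
        simp only at this
        linarith
    obtain ⟨s, hs⟩ := hGs (q * x).im
    simp only at hs
    refine ⟨(s, e.symm ((p * x).im - (p * V1 s).im)), ?_⟩
    simp only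
    set t := e.symm ((p * x).im - (p * V1 s).im) with ht
    have ht' := hee ((p * x).im - (p * V1 s).im)
    rw [← ht] at ht'
    have : V1 s - V2 t - x = 0 := by
      apply Q3_sep (hp 0) (hq 0)
      · rw [mul_sub, Complex.sub_im, hpH]; linarith
      · rw [mul_sub, Complex.sub_im, hqH]; linarith
    exact sub_eq_zero.1 this

theorem Q3_smooth {V1 V2 ξ₁ ξ₂ : ℝ → ℂ} (d1 : ∀ s, HasDerivAt V1 (ξ₁ s) s)
    (d2 : ∀ s, HasDerivAt V2 (ξ₂ s) s) (s1 : ContDiff ℝ ∞ V1) (s2 : ContDiff ℝ ∞ V2)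
    (p q : ℂ) (hp : ∀ t s, 0 < (p * ξ₁ t).im ∧ (p * ξ₂ s).im < 0)
    (hq : ∀ t s, 0 < (q * ξ₁ t).im ∧ 0 < (q * ξ₂ s).im)
    (K : ℂ → ℝ × ℝ) (hKr : ∀ x, V1 (K x).1 - V2 (K x).2 = x)
    (hKl : ∀ z : ℝ × ℝ, K (V1 z.1 - V2 z.2) = z) : ContDiff ℝ ∞ K := by
  set H : ℝ × ℝ → ℂ := fun z => V1 z.1 - V2 z.2 with hH
  have hHc : ContDiff ℝ ∞ H := (s1.comp contDiff_fst).sub (s2.comp contDiff_snd)
  rw [contDiff_iff_contDiffAt]
  intro x
  set a := K x with ha
  have hHa : H a = x := hKr x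
  set L : ℝ × ℝ →L[ℝ] ℂ :=
    (ContinuousLinearMap.toSpanSingleton ℝ (ξ₁ a.1)).comp (ContinuousLinearMap.fst ℝ ℝ ℝ) -
    (ContinuousLinearMap.toSpanSingleton ℝ (ξ₂ a.2)).comp (ContinuousLinearMap.snd ℝ ℝ ℝ) with hL
  have hLd : HasFDerivAt H L a := by
    have h1 := (d1 a.1).hasFDerivAt.comp a
      (hasFDerivAt_fst (𝕜 := ℝ) (E := ℝ) (F := ℝ) (p := a))
    have h2 := (d2 a.2).hasFDerivAt.comp a
      (hasFDerivAt_snd (𝕜 := ℝ) (E := ℝ) (F := ℝ) (p := a))
    exact h1.sub h2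
  have hLinj : Function.Injective (L : ℝ × ℝ →ₗ[ℝ] ℂ) := by
    rw [← LinearMap.ker_eq_bot, LinearMap.ker_eq_bot']
    rintro ⟨u, v⟩ huv
    have h0 : (u : ℂ) * ξ₁ a.1 - (v : ℂ) * ξ₂ a.2 = 0 := by
      simpa [hL] using huv
    obtain ⟨h1, h2⟩ := Q3_indep (hp a.1 a.2) (hq a.1 a.2) h0
    rw [h1, h2]
    rfl
  set E : (ℝ × ℝ) ≃L[ℝ] ℂ := (LinearMap.linearEquivOfInjective (L : ℝ × ℝ →ₗ[ℝ] ℂ) hLinj
    (by simp)).toContinuousLinearEquiv with hE
  have hEL : (E : ℝ × ℝ →L[ℝ] ℂ) = L := by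
    ext <;> rfl
  have hd : HasFDerivAt H (E : ℝ × ℝ →L[ℝ] ℂ) a := by rw [hEL]; exact hLd
  have hca : ContDiffAt ℝ ∞ H a := hHc.contDiffAt
  have hn : (∞ : WithTop ℕ∞) ≠ 0 := by simp
  have h1 := hca.to_localInverse hd hn
  rw [hHa] at h1
  refine h1.congr_of_eventuallyEq ?_
  have h2 := (hca.hasStrictFDerivAt' hd hn).eventually_right_inverse
  rw [hHa] at h2
  filter_upwards [h2] with y hy
  conv_lhs => rw [← hy]
  exact hKl _

theorem Q3 (ξ₁ ξ₂ : ℝ → ℂ) (c₁ : ContDiff ℝ ∞ ξ₁) (c₂ : ContDiff ℝ ∞ ξ₂)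
    (p₁ : ∀ t, ξ₁ (t + 2 * Real.pi) = ξ₁ t) (p₂ : ∀ t, ξ₂ (t + 2 * Real.pi) = ξ₂ t)
    (p q : ℂ) (hp : ∀ t, 0 < (p * ξ₁ t).im ∧ (p * ξ₂ t).im < 0)
    (hq : ∀ t, 0 < (q * ξ₁ t).im ∧ 0 < (q * ξ₂ t).im) :
    ∃ S T : ℂ → ℝ, ContDiff ℝ ∞ S ∧ ContDiff ℝ ∞ T ∧
      (∀ x : ℂ, (∫ s in (0:ℝ)..(S x), ξ₁ s) - (∫ s in (0:ℝ)..(T x), ξ₂ s) = x) ∧
      (∀ s t : ℝ, S ((∫ s' in (0:ℝ)..s, ξ₁ s') - (∫ s' in (0:ℝ)..t, ξ₂ s')) = s ∧
        T ((∫ s' in (0:ℝ)..s, ξ₁ s') - (∫ s' in (0:ℝ)..t, ξ₂ s')) = t) := by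
  obtain ⟨d1, s1⟩ := Q3_V c₁
  obtain ⟨d2, s2⟩ := Q3_V c₂
  have hb := Q3_bij d1 d2 c₁.continuous c₂.continuous (by simp) (by simp) p₁ p₂ p q hp hq
  set e := Equiv.ofBijective _ hb with he
  have hr : ∀ x, (∫ u in (0:ℝ)..(e.symm x).1, ξ₁ u) - (∫ u in (0:ℝ)..(e.symm x).2, ξ₂ u) = x :=
    fun x => e.apply_symm_apply x
  have hl : ∀ z : ℝ × ℝ, e.symm ((∫ u in (0:ℝ)..z.1, ξ₁ u) - (∫ u in (0:ℝ)..z.2, ξ₂ u)) = z :=
    fun z => e.symm_apply_apply z
  have hsm : ContDiff ℝ ∞ e.symm := Q3_smooth d1 d2 s1 s2 p q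
    (fun t s => ⟨(hp t).1, (hp s).2⟩) (fun t s => ⟨(hq t).1, (hq s).2⟩) e.symm hr hl
  refine ⟨fun x => (e.symm x).1, fun x => (e.symm x).2, contDiff_fst.comp hsm,
    contDiff_snd.comp hsm, hr, ?_⟩
  intro s t
  have := hl (s, t)
  simp only at this
  constructor
  · simp only; rw [this]
  · simp only; rw [this]


end Pool.Agent.Helper331.FT
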