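import Pool.Agent.Helper331.FT.Defs
import Pool.Agent.Helper331.FT.Q2
import Pool.Agent.Helper331.FT.Q3
set_option autoImplicit false
open scoped ContDiff ComplexConjugate
open Set MeasureTheory intervalIntegral

namespace Pool.Agent.Helper331.FT

theorem Q4_V (ξ : ℝ → ℂ) (c : ContDiff ℝ ∞ ξ) (t : ℝ) :
    HasDerivAt (fun t : ℝ => ∫ s in (0:ℝ)..t, ξ s) (ξ t) t :=
  intervalIntegral.integral_hasDerivAt_right (c.continuous.intervalIntegrable _ _)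
    (c.continuous.stronglyMeasurableAtFilter _ _) c.continuous.continuousAt

theorem Q4_per (ξ : ℝ → ℂ) (c : ContDiff ℝ ∞ ξ) (p : ∀ t, ξ (t + 2 * Real.pi) = ξ t) (t : ℝ) :
    (∫ s in (0:ℝ)..(t + 2 * Real.pi), ξ s) =
      (∫ s in (0:ℝ)..t, ξ s) + ∫ s in (0:ℝ)..(2 * Real.pi), ξ s := by
  have h1 : (∫ s in (0:ℝ)..t, ξ s) + ∫ s in t..(t + 2 * Real.pi), ξ s =
      ∫ s in (0:ℝ)..(t + 2 * Real.pi), ξ s :=
    intervalIntegral.integral_add_adjacent_intervals (c.continuous.intervalIntegrable _ _)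
      (c.continuous.intervalIntegrable _ _)
  have hp : Function.Periodic ξ (2 * Real.pi) := p
  have h2 : (∫ s in t..(t + 2 * Real.pi), ξ s) = ∫ s in (0:ℝ)..(0 + 2 * Real.pi), ξ s :=
    hp.intervalIntegral_add_eq t 0
  rw [← h1, h2, zero_add]

theorem Q4_comp (z : ℝ → ℂ) (z' : ℂ) (S : ℂ → ℝ) (x : ℂ) (S' : ℂ →L[ℝ] ℝ)
    (hz : HasDerivAt z z' (S x)) (hS : HasFDerivAt S S' x) :
    HasFDerivAt (fun x => z (S x)) (S'.smulRight z') x := by
  have h := HasFDerivAt.comp x hz.hasFDerivAt hS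
  have e : (ContinuousLinearMap.toSpanSingleton ℝ z').comp S' = S'.smulRight z' := by
    ext v
    simp
  rw [e] at h
  exact h

theorem Q4_conj (f : ℂ → ℂ) (f' : ℂ →L[ℝ] ℂ) (x : ℂ) (hf : HasFDerivAt f f' x) :
    HasFDerivAt (fun x => conj (f x)) ((Complex.conjCLE : ℂ →L[ℝ] ℂ).comp f') x := by
  have h := HasFDerivAt.comp x (Complex.conjCLE : ℂ →L[ℝ] ℂ).hasFDerivAt hf
  exact h

theorem Q4 (z₁ w₁ ξ₁ z₂ w₂ ξ₂ : ℝ → ℂ) (h₁ : IsCurve z₁ w₁ ξ₁) (h₂ : IsCurve z₂ w₂ ξ₂)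
    (p q : ℂ) (hp : ∀ t, 0 < (p * ξ₁ t).im ∧ (p * ξ₂ t).im < 0)
    (hq : ∀ t, 0 < (q * ξ₁ t).im ∧ 0 < (q * ξ₂ t).im) :
    ImmC (∫ t in (0:ℝ)..(2 * Real.pi), ξ₁ t) (∫ t in (0:ℝ)..(2 * Real.pi), ξ₂ t) := by
  obtain ⟨S, T, cS, cT, hx, hST⟩ := Q3 ξ₁ ξ₂ h₁.cξ h₂.cξ h₁.pξ h₂.pξ p q hp hq
  have cconj : ContDiff ℝ ∞ (fun z : ℂ => conj z) := (Complex.conjCLE : ℂ →L[ℝ] ℂ).contDiff
  have cz1 : ContDiff ℝ ∞ (fun x => z₁ (S x)) := h₁.cz.comp cS
  have cw1 : ContDiff ℝ ∞ (fun x => w₁ (S x)) := h₁.cw.comp cS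
  have cz2 : ContDiff ℝ ∞ (fun x => z₂ (T x)) := h₂.cz.comp cT
  have cw2 : ContDiff ℝ ∞ (fun x => w₂ (T x)) := h₂.cw.comp cT
  have cz2' : ContDiff ℝ ∞ (fun x => conj (z₂ (T x))) := cconj.comp cz2
  have cw2' : ContDiff ℝ ∞ (fun x => conj (w₂ (T x))) := cconj.comp cw2
  -- periodicity of S, T
  have hSa : ∀ x, S (x + ∫ t in (0:ℝ)..(2 * Real.pi), ξ₁ t) = S x + 2 * Real.pi ∧
      T (x + ∫ t in (0:ℝ)..(2 * Real.pi), ξ₁ t) = T x := by
    intro x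
    have e : x + (∫ t in (0:ℝ)..(2 * Real.pi), ξ₁ t) =
        (∫ s in (0:ℝ)..(S x + 2 * Real.pi), ξ₁ s) - ∫ s in (0:ℝ)..(T x), ξ₂ s := by
      rw [Q4_per ξ₁ h₁.cξ h₁.pξ]
      linear_combination -(hx x)
    rw [e]
    exact hST _ _
  have hSb : ∀ x, S (x + ∫ t in (0:ℝ)..(2 * Real.pi), ξ₂ t) = S x ∧
      T (x + ∫ t in (0:ℝ)..(2 * Real.pi), ξ₂ t) = T x - 2 * Real.pi := by
    intro x
    have e : x + (∫ t in (0:ℝ)..(2 * Real.pi), ξ₂ t) =
        (∫ s in (0:ℝ)..(S x), ξ₁ s) - ∫ s in (0:ℝ)..(T x - 2 * Real.pi), ξ₂ s := by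
      have h := Q4_per ξ₂ h₂.cξ h₂.pξ (T x - 2 * Real.pi)
      rw [sub_add_cancel] at h
      linear_combination -(hx x) - h
    rw [e]
    exact hST _ _
  have pz2 : ∀ t, z₂ (t - 2 * Real.pi) = z₂ t := fun t => by
    have := h₂.pz (t - 2 * Real.pi)
    rw [sub_add_cancel] at this
    exact this.symm
  have pw2 : ∀ t, w₂ (t - 2 * Real.pi) = w₂ t := fun t => by
    have := h₂.pw (t - 2 * Real.pi)
    rw [sub_add_cancel] at this
    exact this.symm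
  refine ⟨fun x => z₁ (S x) * conj (z₂ (T x)) + w₁ (S x) * conj (w₂ (T x)),
    fun x => w₁ (S x) * z₂ (T x) - z₁ (S x) * w₂ (T x), ?_, ?_, ?_, ?_, ?_, ?_⟩
  · exact (cz1.mul cz2').add (cw1.mul cw2')
  · exact (cw1.mul cz2).sub (cz1.mul cw2)
  · intro x
    exact (Q2 _ _ _ _ 0 (h₁.unit (S x)) (h₂.unit (T x))).1
  · intro x h
    have dS : HasFDerivAt S (fderiv ℝ S x) x :=
      ((cS.differentiable (by norm_num)) x).hasFDerivAt
    have dT : HasFDerivAt T (fderiv ℝ T x) x :=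
      ((cT.differentiable (by norm_num)) x).hasFDerivAt
    have dz1 := Q4_comp z₁ _ S x _ (h₁.dz (S x)) dS
    have dw1 := Q4_comp w₁ _ S x _ (h₁.dw (S x)) dS
    have dz2 := Q4_comp z₂ _ T x _ (h₂.dz (T x)) dT
    have dw2 := Q4_comp w₂ _ T x _ (h₂.dw (T x)) dT
    have dz2' := Q4_conj _ _ x dz2
    have dw2' := Q4_conj _ _ x dw2
    have dV1 := Q4_comp (fun t : ℝ => ∫ s in (0:ℝ)..t, ξ₁ s) _ S x _ (Q4_V ξ₁ h₁.cξ (S x)) dS
    have dV2 := Q4_comp (fun t : ℝ => ∫ s in (0:ℝ)..t, ξ₂ s) _ T x _ (Q4_V ξ₂ h₂.cξ (T x)) dT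
    have dV := dV1.sub dV2
    have did : HasFDerivAt (fun x : ℂ => x) (ContinuousLinearMap.id ℝ ℂ) x := hasFDerivAt_id x
    have hfun : (fun x : ℂ => x) = (fun x => (∫ s in (0:ℝ)..(S x), ξ₁ s) - ∫ s in (0:ℝ)..(T x), ξ₂ s) := by
      funext y
      exact (hx y).symm
    rw [hfun] at did
    have huniq := dV.unique did
    have hζ : (ξ₁ (S x)) * ((fderiv ℝ S x h : ℝ) : ℂ) - (ξ₂ (T x)) * ((fderiv ℝ T x h : ℝ) : ℂ) = h := by
      have := congrArg (fun L : ℂ →L[ℝ] ℂ => L h) huniq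
      simp only [ContinuousLinearMap.sub_apply, ContinuousLinearMap.smulRight_apply,
        ContinuousLinearMap.id_apply, Complex.real_smul] at this
      linear_combination this
    have hζ' : conj (ξ₁ (S x)) * ((fderiv ℝ S x h : ℝ) : ℂ) -
        conj (ξ₂ (T x)) * ((fderiv ℝ T x h : ℝ) : ℂ) = conj h := by
      have := congrArg (fun z : ℂ => conj z) hζ
      simp only [map_sub, map_mul, Complex.conj_ofReal] at this
      exact this
    have dF1 := (dz1.mul dz2').add (dw1.mul dw2')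
    have dF2 := (dw1.mul dz2).sub (dz1.mul dw2)
    have e1 : fderiv ℝ (fun x => z₁ (S x) * conj (z₂ (T x)) + w₁ (S x) * conj (w₂ (T x))) x h =
        h * (z₁ (S x) * conj (w₂ (T x))) - conj h * (w₁ (S x) * conj (z₂ (T x))) := by
      have := dF1.fderiv
      have h' := congrArg (fun L : ℂ →L[ℝ] ℂ => L h) this
      simp only [ContinuousLinearMap.add_apply, ContinuousLinearMap.smul_apply,
        ContinuousLinearMap.smulRight_apply, ContinuousLinearMap.comp_apply, smul_eq_mul,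
        Complex.real_smul] at h'
      refine h'.trans ?_
      simp only [ContinuousLinearEquiv.coe_coe, Complex.conjCLE_apply, map_mul, map_neg,
        Complex.conj_ofReal, Complex.conj_conj]
      linear_combination (z₁ (S x) * conj (w₂ (T x))) * hζ - (w₁ (S x) * conj (z₂ (T x))) * hζ'
    have e2 : fderiv ℝ (fun x => w₁ (S x) * z₂ (T x) - z₁ (S x) * w₂ (T x)) x h =
        h * (z₁ (S x) * z₂ (T x)) + conj h * (w₁ (S x) * w₂ (T x)) := by
      have := dF2.fderiv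
      have h' := congrArg (fun L : ℂ →L[ℝ] ℂ => L h) this
      simp only [ContinuousLinearMap.add_apply, ContinuousLinearMap.sub_apply, ContinuousLinearMap.smul_apply,
        ContinuousLinearMap.smulRight_apply, ContinuousLinearMap.comp_apply, smul_eq_mul,
        Complex.real_smul] at h'
      refine h'.trans ?_
      linear_combination (z₁ (S x) * z₂ (T x)) * hζ + (w₁ (S x) * w₂ (T x)) * hζ'
    rw [e1, e2]
    exact (Q2 _ _ _ _ h (h₁.unit (S x)) (h₂.unit (T x))).2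
  · intro x
    refine ⟨?_, ?_⟩
    · simp only [(hSa x).1, (hSa x).2, h₁.pz, h₁.pw]
    · simp only [(hSa x).1, (hSa x).2, h₁.pz, h₁.pw]
  · intro x
    refine ⟨?_, ?_⟩
    · simp only [(hSb x).1, (hSb x).2, pz2, pw2]
    · simp only [(hSb x).1, (hSb x).2, pz2, pw2]


end Pool.Agent.Helper331.FT
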