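import Pool.Agent.Helper331.FT.Defs
set_option autoImplicit false
open scoped ContDiff ComplexConjugate
open Set MeasureTheory intervalIntegral

namespace Pool.Agent.Helper331.FT

theorem R1 (δ θ : ℝ) (ζ : ℂ) (hδ : 0 < δ) (hδ2 : δ < Real.pi / 2) (h1 : δ ≤ θ)
    (h2 : θ ≤ Real.pi - δ) (h3 : 0 < ζ.re) (h4 : |ζ.im| < Real.tan δ * ζ.re) :
    0 < (Complex.exp ((θ : ℂ) * Complex.I) * ζ).im ∧
      (Complex.exp (((-θ : ℝ) : ℂ) * Complex.I) * ζ).im < 0 := by
  have hk : 0 < Real.cos δ := Real.cos_pos_of_mem_Ioo ⟨by linarith [Real.pi_pos], hδ2⟩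
  have hs : 0 < Real.sin δ := Real.sin_pos_of_pos_of_lt_pi hδ (by linarith [Real.pi_pos])
  have hS : 0 < Real.sin θ := Real.sin_pos_of_pos_of_lt_pi (by linarith) (by linarith)
  have hm : 0 ≤ Real.sin (θ - δ) := Real.sin_nonneg_of_nonneg_of_le_pi (by linarith) (by linarith)
  have hp : 0 ≤ Real.sin (θ + δ) := Real.sin_nonneg_of_nonneg_of_le_pi (by linarith) (by linarith)
  rw [Real.sin_sub] at hm
  rw [Real.sin_add] at hp
  have h5 : |ζ.im * Real.cos δ| < Real.sin δ * ζ.re := by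
    rw [abs_mul, abs_of_pos hk]
    have h6 := mul_lt_mul_of_pos_right h4 hk
    rw [Real.tan_eq_sin_div_cos] at h6
    have h7 : Real.sin δ / Real.cos δ * ζ.re * Real.cos δ = Real.sin δ * ζ.re := by
      field_simp
    rwa [h7] at h6
  have h8 : |Real.cos θ| * Real.sin δ ≤ Real.sin θ * Real.cos δ := by
    rcases abs_cases (Real.cos θ) with ⟨h, _⟩ | ⟨h, _⟩ <;> rw [h] <;> nlinarith
  have h9 : |Real.cos θ * ζ.im| < Real.sin θ * ζ.re := by
    have h10 : |Real.cos θ * ζ.im| * Real.cos δ < (Real.sin θ * ζ.re) * Real.cos δ := by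
      have e1 : |Real.cos θ * ζ.im| * Real.cos δ = |Real.cos θ| * |ζ.im * Real.cos δ| := by
        rw [abs_mul, abs_mul, abs_of_pos hk]
        ring
      rw [e1]
      rcases eq_or_ne (Real.cos θ) 0 with h0 | h0
      · rw [h0, abs_zero, zero_mul]
        positivity
      · have hc : 0 < |Real.cos θ| := abs_pos.mpr h0
        calc |Real.cos θ| * |ζ.im * Real.cos δ| < |Real.cos θ| * (Real.sin δ * ζ.re) :=
              mul_lt_mul_of_pos_left h5 hc
          _ = (|Real.cos θ| * Real.sin δ) * ζ.re := by ring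
          _ ≤ (Real.sin θ * Real.cos δ) * ζ.re := mul_le_mul_of_nonneg_right h8 h3.le
          _ = (Real.sin θ * ζ.re) * Real.cos δ := by ring
    exact lt_of_mul_lt_mul_right h10 hk.le
  rw [abs_lt] at h9
  have i1 : (Complex.exp ((θ : ℂ) * Complex.I) * ζ).im = Real.cos θ * ζ.im + Real.sin θ * ζ.re := by
    rw [Complex.mul_im, Complex.exp_ofReal_mul_I_re, Complex.exp_ofReal_mul_I_im]
  have i2 : (Complex.exp (((-θ : ℝ) : ℂ) * Complex.I) * ζ).im = Real.cos θ * ζ.im - Real.sin θ * ζ.re := by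
    rw [Complex.mul_im, Complex.exp_ofReal_mul_I_re, Complex.exp_ofReal_mul_I_im, Real.cos_neg, Real.sin_neg]
    ring
  rw [i1, i2]
  constructor
  · linarith [h9.1]
  · linarith [h9.2]


end Pool.Agent.Helper331.FT
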