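import Pool.Agent.Helper331.FT.Defs
import Pool.Agent.Helper331.FT.Q1
import Pool.Agent.Helper331.FT.Q4
import Pool.Agent.Helper331.FT.R1
set_option autoImplicit false
open scoped ContDiff ComplexConjugate
open Set MeasureTheory intervalIntegral

namespace Pool.Agent.Helper331.FT

theorem R7 (a b φ β δ₁ δ₂ : ℝ) (hβ2 : β ≤ Real.pi / 2) (h1 : 0 < δ₁) (h1' : δ₁ < Real.pi / 2)
    (h2 : 0 < δ₂) (h2' : δ₂ < Real.pi / 2) (hs : δ₁ + δ₂ ≤ β) (hb : HasCurve b δ₁)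
    (ha : HasCurve a δ₂) :
    ImmC ((b : ℂ) * Complex.exp (((φ + β : ℝ) : ℂ) * Complex.I))
      ((a : ℂ) * Complex.exp ((φ : ℂ) * Complex.I)) := by
  obtain ⟨z₁, w₁, ξ₁, hc₁, hi₁, hk₁⟩ := hb
  obtain ⟨z₂, w₂, ξ₂, hc₂, hi₂, hk₂⟩ := ha
  have hpi := Real.pi_pos
  have hn : ∀ x : ℝ, Complex.normSq (Complex.exp ((x : ℂ) * Complex.I)) = 1 := by
    intro x
    rw [Complex.normSq_eq_norm_sq, Complex.norm_exp_ofReal_mul_I]
    norm_num
  have k₁ := Q1 z₁ w₁ ξ₁ hc₁ (Complex.exp (((φ + β : ℝ) : ℂ) * Complex.I)) (hn _)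
  have k₂ := Q1 z₂ w₂ ξ₂ hc₂ (Complex.exp ((φ : ℂ) * Complex.I)) (hn _)
  have e₁ : (∫ t in (0:ℝ)..(2 * Real.pi), Complex.exp (((φ + β : ℝ) : ℂ) * Complex.I) * ξ₁ t) =
      (b : ℂ) * Complex.exp (((φ + β : ℝ) : ℂ) * Complex.I) := by
    rw [intervalIntegral.integral_const_mul, hi₁, mul_comm]
  have e₂ : (∫ t in (0:ℝ)..(2 * Real.pi), Complex.exp ((φ : ℂ) * Complex.I) * ξ₂ t) =
      (a : ℂ) * Complex.exp ((φ : ℂ) * Complex.I) := by
    rw [intervalIntegral.integral_const_mul, hi₂, mul_comm]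
  rw [← e₁, ← e₂]
  apply Q4 z₁ _ _ z₂ _ _ k₁ k₂ (Complex.exp (((-(δ₂ + φ) : ℝ) : ℂ) * Complex.I))
    (Complex.exp (((δ₂ - φ : ℝ) : ℂ) * Complex.I))
  · intro t
    obtain ⟨a1, a2⟩ := hk₁ t
    obtain ⟨b1, b2⟩ := hk₂ t
    constructor
    · have h := (R1 δ₁ (β - δ₂) (ξ₁ t) h1 h1' (by linarith) (by linarith) a1 a2).1
      have e : Complex.exp (((-(δ₂ + φ) : ℝ) : ℂ) * Complex.I) *
          (Complex.exp (((φ + β : ℝ) : ℂ) * Complex.I) * ξ₁ t) =
          Complex.exp (((β - δ₂ : ℝ) : ℂ) * Complex.I) * ξ₁ t := by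
        rw [← mul_assoc, ← Complex.exp_add]
        congr 2
        push_cast
        ring
      rw [e]
      exact h
    · have h := (R1 δ₂ δ₂ (ξ₂ t) h2 h2' le_rfl (by linarith) b1 b2).2
      have e : Complex.exp (((-(δ₂ + φ) : ℝ) : ℂ) * Complex.I) *
          (Complex.exp ((φ : ℂ) * Complex.I) * ξ₂ t) =
          Complex.exp (((-δ₂ : ℝ) : ℂ) * Complex.I) * ξ₂ t := by
        rw [← mul_assoc, ← Complex.exp_add]
        congr 2
        push_cast
        ring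
      rw [e]
      exact h
  · intro t
    obtain ⟨a1, a2⟩ := hk₁ t
    obtain ⟨b1, b2⟩ := hk₂ t
    constructor
    · have h := (R1 δ₁ (β + δ₂) (ξ₁ t) h1 h1' (by linarith) (by linarith) a1 a2).1
      have e : Complex.exp (((δ₂ - φ : ℝ) : ℂ) * Complex.I) *
          (Complex.exp (((φ + β : ℝ) : ℂ) * Complex.I) * ξ₁ t) =
          Complex.exp (((β + δ₂ : ℝ) : ℂ) * Complex.I) * ξ₁ t := by
        rw [← mul_assoc, ← Complex.exp_add]
        congr 2
        push_cast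
        ring
      rw [e]
      exact h
    · have h := (R1 δ₂ δ₂ (ξ₂ t) h2 h2' le_rfl (by linarith) b1 b2).1
      have e : Complex.exp (((δ₂ - φ : ℝ) : ℂ) * Complex.I) *
          (Complex.exp ((φ : ℂ) * Complex.I) * ξ₂ t) =
          Complex.exp ((δ₂ : ℂ) * Complex.I) * ξ₂ t := by
        rw [← mul_assoc, ← Complex.exp_add]
        congr 2
        push_cast
        ring
      rw [e]
      exact h


end Pool.Agent.Helper331.FT
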