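import Pool.Agent.Helper331.FT.Defs
import Pool.Agent.Helper331.FT.R7
set_option autoImplicit false
open scoped ContDiff ComplexConjugate
open Set MeasureTheory intervalIntegral

namespace Pool.Agent.Helper331.FT

theorem R8_aux (a b : ℂ) (ha : a ≠ 0) (hb : b ≠ 0) (β : ℝ)
    (hc : Real.cos β = (conj a * b).re / (‖a‖ * ‖b‖))
    (hs : Real.sin β = (conj a * b).im / (‖a‖ * ‖b‖)) :
    (‖b‖ : ℂ) * Complex.exp (((Complex.arg a + β : ℝ) : ℂ) * Complex.I) = b := by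
  have hna : (‖a‖ : ℂ) ≠ 0 := by simpa using ha
  have hnb : (‖b‖ : ℂ) ≠ 0 := by simpa using hb
  have h1 : Complex.exp ((β : ℂ) * Complex.I) = conj a * b / (‖a‖ * ‖b‖) := by
    rw [Complex.exp_mul_I, ← Complex.ofReal_cos, ← Complex.ofReal_sin, hc, hs]
    conv_rhs => rw [← Complex.re_add_im (conj a * b)]
    push_cast
    field_simp
  have h2 : (‖a‖ : ℂ) * Complex.exp ((Complex.arg a : ℂ) * Complex.I) = a :=
    Complex.norm_mul_exp_arg_mul_I a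
  have h3 : Complex.exp ((Complex.arg a : ℂ) * Complex.I) = a / ‖a‖ := by
    rw [eq_div_iff hna, mul_comm]; exact h2
  have h4 : a * conj a = (‖a‖ : ℂ) ^ 2 := by
    rw [Complex.mul_conj, Complex.normSq_eq_norm_sq]; push_cast; rfl
  push_cast
  rw [add_mul, Complex.exp_add, h1, h3]
  have h5 : (‖b‖ : ℂ) * (a / ‖a‖ * (conj a * b / (‖a‖ * ‖b‖))) = (a * conj a) * b / ‖a‖ ^ 2 := by
    field_simp
  rw [h5, h4]
  field_simp

theorem R8_symm (a b : ℂ) (h : ImmC a b) : ImmC b a := by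
  obtain ⟨F₁, F₂, h1, h2, h3, h4, h5, h6⟩ := h
  exact ⟨F₁, F₂, h1, h2, h3, h4, h6, h5⟩

theorem R8 (a b : ℂ) (δ₁ δ₂ : ℝ) (ha0 : a ≠ 0) (hb0 : b ≠ 0) (h1 : 0 < δ₁) (h1' : δ₁ < Real.pi / 2)
    (h2 : 0 < δ₂) (h2' : δ₂ < Real.pi / 2) (hb : HasCurve ‖b‖ δ₁) (ha : HasCurve ‖a‖ δ₂)
    (hi0 : 0 ≤ (a * conj b).re) (hs : δ₁ + δ₂ ≤ Real.pi / 2)
    (hi : (a * conj b).re ≤ ‖a‖ * ‖b‖ * Real.cos (δ₁ + δ₂)) :
    ImmC a b := by
  have hna : 0 < ‖a‖ := norm_pos_iff.2 ha0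
  have hnb : 0 < ‖b‖ := norm_pos_iff.2 hb0
  have hn : 0 < ‖a‖ * ‖b‖ := mul_pos hna hnb
  set x : ℝ := (a * conj b).re / (‖a‖ * ‖b‖) with hx
  set y : ℝ := (a * conj b).im / (‖a‖ * ‖b‖) with hy
  have hx0 : 0 ≤ x := div_nonneg hi0 hn.le
  have hx1 : x ≤ Real.cos (δ₁ + δ₂) := by
    rw [hx, div_le_iff₀ hn]; linarith
  have hxy : x ^ 2 + y ^ 2 = 1 := by
    have h3 : (a * conj b).re ^ 2 + (a * conj b).im ^ 2 = (‖a‖ * ‖b‖) ^ 2 := by
      have h4 : Complex.normSq (a * conj b) = (‖a‖ * ‖b‖) ^ 2 := by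
        rw [Complex.normSq_eq_norm_sq, norm_mul, RCLike.norm_conj]
      rw [← h4, Complex.normSq_apply]; ring
    rw [hx, hy, div_pow, div_pow, ← add_div, h3]
    exact div_self (by positivity)
  set β : ℝ := Real.arccos x with hβ
  have hxle1 : x ≤ 1 := by nlinarith [sq_nonneg y]
  have hcos : Real.cos β = x := Real.cos_arccos (by linarith) hxle1
  have hsin : Real.sin β = |y| := by
    rw [hβ, Real.sin_arccos, show 1 - x ^ 2 = y ^ 2 by linarith, Real.sqrt_sq_eq_abs]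
  have hβ2 : β ≤ Real.pi / 2 := Real.arccos_le_pi_div_two.2 hx0
  have hβ1 : δ₁ + δ₂ ≤ β := by
    have h3 : Real.arccos (Real.cos (δ₁ + δ₂)) = δ₁ + δ₂ :=
      Real.arccos_cos (by linarith) (by linarith [Real.pi_pos])
    rw [← h3, hβ]
    exact Real.arccos_le_arccos hx1
  rcases le_total (a * conj b).im 0 with him | him
  · have hy0 : y ≤ 0 := div_nonpos_of_nonpos_of_nonneg him hn.le
    have e1 : (conj a * b).re = (a * conj b).re := by simp [Complex.mul_re]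
    have e2 : (conj a * b).im = -(a * conj b).im := by simp [Complex.mul_im]; ring
    have hb' := R8_aux a b ha0 hb0 β (by rw [hcos, e1]) (by
      rw [hsin, abs_of_nonpos hy0, e2, hy]; ring)
    have h7 := R7 ‖a‖ ‖b‖ (Complex.arg a) β δ₁ δ₂ hβ2 h1 h1' h2 h2' hβ1 hb ha
    rw [hb', Complex.norm_mul_exp_arg_mul_I] at h7
    exact R8_symm _ _ h7
  · have hy0 : 0 ≤ y := div_nonneg him hn.le
    have e1 : (conj b * a).re = (a * conj b).re := by rw [mul_comm]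
    have e2 : (conj b * a).im = (a * conj b).im := by rw [mul_comm]
    have ha' := R8_aux b a hb0 ha0 β (by rw [hcos, e1, hx, mul_comm ‖b‖]) (by
      rw [hsin, abs_of_nonneg hy0, e2, hy, mul_comm ‖b‖])
    have h7 := R7 ‖b‖ ‖a‖ (Complex.arg b) β δ₂ δ₁ hβ2 h2 h2' h1 h1' (by linarith) ha hb
    rw [ha', Complex.norm_mul_exp_arg_mul_I] at h7
    exact h7


end Pool.Agent.Helper331.FT
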