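import Pool.Agent.Helper331.FT.Defs
import Pool.Agent.Helper331.FT.P8
import Pool.Agent.Helper331.FT.R8
import Pool.Agent.Helper331.FT.K8
set_option autoImplicit false
open scoped ContDiff ComplexConjugate
open Set MeasureTheory intervalIntegral

namespace Pool.Agent.Helper331.FT

theorem K9 (k : ℕ) (hk : 1 ≤ k) (a b : ℂ) (ha : a ≠ 0) (hb : 2 * Real.pi * k ≤ ‖b‖)
    (ha2 : ‖a‖ ≤ 2 * Real.pi) (β : ℝ) (hβ1 : Real.pi / 3 ≤ β) (hβ2 : β ≤ Real.pi / 2)
    (hre : (a * conj b).re = ‖a‖ * ‖b‖ * Real.cos β)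
    (h : 2 * Real.pi * Real.cos (β - Real.pi / (2 * (2 * k + 1))) < ‖a‖) : ImmC a b := by
  have hpi := Real.pi_pos
  have hk' : (1 : ℝ) ≤ k := by exact_mod_cast hk
  set d0 : ℝ := Real.pi / (2 * (2 * k + 1)) with hd0
  have hd0pos : 0 < d0 := by positivity
  have hd0le : d0 ≤ Real.pi / 6 := by
    rw [hd0]
    apply div_le_div_of_nonneg_left hpi.le (by norm_num)
    linarith
  have hapos : 0 < ‖a‖ := norm_pos_iff.2 ha
  set x : ℝ := Real.arccos (‖a‖ / (2 * Real.pi)) with hx
  have hq1 : ‖a‖ / (2 * Real.pi) ≤ 1 := by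
    rw [div_le_one (by positivity)]; exact ha2
  have hq0 : 0 < ‖a‖ / (2 * Real.pi) := by positivity
  have hcosx : Real.cos x = ‖a‖ / (2 * Real.pi) := by
    rw [hx]; exact Real.cos_arccos (by linarith) hq1
  have hx0 : 0 ≤ x := Real.arccos_nonneg _
  have hxpi : x ≤ Real.pi := Real.arccos_le_pi _
  have hlt : Real.cos (β - d0) < Real.cos x := by
    rw [hcosx, lt_div_iff₀ (by positivity)]
    linarith
  have hxlt : x < β - d0 := by
    by_contra hcon
    push Not at hcon
    have := Real.cos_le_cos_of_nonneg_of_le_pi (by linarith) hxpi hcon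
    linarith
  set e : ℝ := (β - d0 - x) / 2 with he
  have hepos : 0 < e := by rw [he]; linarith
  have hsum : (d0 + e) + (x + e) = β := by rw [he]; ring
  have hb0 : b ≠ 0 := by
    intro hb0
    rw [hb0, norm_zero] at hb
    have : 0 < 2 * Real.pi * k := by positivity
    linarith
  have hBc : HasCurve ‖b‖ (d0 + e) := K8 k hk ‖b‖ (d0 + e) hb (by linarith) (by linarith)
  have hAc : HasCurve ‖a‖ (x + e) := by
    refine P8 ‖a‖ (x + e) hapos ha2 (by linarith) (by linarith) ?_
    have h1 : Real.cos (x + e) < Real.cos x :=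
      Real.cos_lt_cos_of_nonneg_of_le_pi hx0 (by linarith) (by linarith)
    rw [hcosx, lt_div_iff₀ (by positivity)] at h1
    linarith
  refine R8 a b (d0 + e) (x + e) ha hb0 (by linarith) (by linarith) (by linarith) (by linarith)
    hBc hAc ?_ (by linarith) ?_
  · rw [hre]
    have : 0 ≤ Real.cos β := Real.cos_nonneg_of_mem_Icc ⟨by linarith, hβ2⟩
    positivity
  · rw [hre, hsum]


end Pool.Agent.Helper331.FT
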