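import Pool.Agent.Helper331.FT.Defs
set_option autoImplicit false
open scoped ContDiff ComplexConjugate
open Set MeasureTheory intervalIntegral

namespace Pool.Agent.Helper331.FT

/-- real linear identification of `ℂ × ℂ` with `ℝ⁴` -/
noncomputable def L1_J : ℂ × ℂ →ₗ[ℝ] EuclideanSpace ℝ (Fin 4) where
  toFun p := !₂[p.1.re, p.1.im, p.2.re, p.2.im]
  map_add' := by
    intro p q
    ext i
    fin_cases i <;> simp
  map_smul' := by
    intro c p
    ext i
    fin_cases i <;> simp

theorem L1_J_norm (p : ℂ × ℂ) : ‖L1_J p‖ ^ 2 = Complex.normSq p.1 + Complex.normSq p.2 := by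
  rw [EuclideanSpace.norm_sq_eq, Fin.sum_univ_four, Complex.normSq_apply, Complex.normSq_apply]
  simp [L1_J]
  ring

theorem L1 (a b : ℂ) (h : ImmC a b) (u v : EuclideanSpace ℝ (Fin 2))
    (hu : u ∈ AddSubgroup.closure {(Complex.orthonormalBasisOneI.repr a : EuclideanSpace ℝ (Fin 2)),
      Complex.orthonormalBasisOneI.repr b})
    (hv : v ∈ AddSubgroup.closure {(Complex.orthonormalBasisOneI.repr a : EuclideanSpace ℝ (Fin 2)),
      Complex.orthonormalBasisOneI.repr b}) : Immersible u v := by
  obtain ⟨F₁, F₂, h1, h2, hn, hd, ha, hb⟩ := h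
  let e := Complex.orthonormalBasisOneI.repr
  let J := LinearMap.toContinuousLinearMap L1_J
  let es : EuclideanSpace ℝ (Fin 2) →L[ℝ] ℂ :=
    (e.symm.toContinuousLinearEquiv : EuclideanSpace ℝ (Fin 2) →L[ℝ] ℂ)
  have hes : ∀ x, es x = e.symm x := fun x => rfl
  refine ⟨fun x => J (F₁ (es x), F₂ (es x)), ?_, ?_, ?_, ?_⟩
  · exact J.contDiff.comp ((h1.comp es.contDiff).prodMk (h2.comp es.contDiff))
  · intro x
    have h3 : ‖J (F₁ (es x), F₂ (es x))‖ ^ 2 = 1 := by
      have h4 := L1_J_norm (F₁ (es x), F₂ (es x))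
      rw [hn (es x)] at h4
      exact h4
    have h5 : (0:ℝ) ≤ ‖J (F₁ (es x), F₂ (es x))‖ := norm_nonneg _
    show ‖J (F₁ (es x), F₂ (es x))‖ = 1
    nlinarith
  · intro x w
    have d1 : HasFDerivAt (fun x => F₁ (es x)) ((fderiv ℝ F₁ (es x)).comp es) x :=
      HasFDerivAt.comp x ((h1.differentiable (by simp)) (es x)).hasFDerivAt es.hasFDerivAt
    have d2 : HasFDerivAt (fun x => F₂ (es x)) ((fderiv ℝ F₂ (es x)).comp es) x :=
      HasFDerivAt.comp x ((h2.differentiable (by simp)) (es x)).hasFDerivAt es.hasFDerivAt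
    have d3 : HasFDerivAt (fun x => J (F₁ (es x), F₂ (es x)))
        (J.comp (((fderiv ℝ F₁ (es x)).comp es).prod ((fderiv ℝ F₂ (es x)).comp es))) x :=
      HasFDerivAt.comp x J.hasFDerivAt (d1.prodMk d2)
    rw [d3.fderiv]
    have h3 : ‖J (fderiv ℝ F₁ (es x) (es w), fderiv ℝ F₂ (es x) (es w))‖ ^ 2 = ‖w‖ ^ 2 := by
      have h4 := L1_J_norm (fderiv ℝ F₁ (es x) (es w), fderiv ℝ F₂ (es x) (es w))
      rw [hd (es x) (es w), Complex.normSq_eq_norm_sq, hes w, e.symm.norm_map] at h4
      exact h4
    exact (sq_eq_sq₀ (norm_nonneg _) (norm_nonneg _)).1 h3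
  · intro x p hp
    have hsub : AddSubgroup.closure {u, v} ≤ AddSubgroup.closure {e a, e b} := by
      rw [AddSubgroup.closure_le]
      rintro q (rfl | rfl)
      · exact hu
      · exact hv
    have key : ∀ p ∈ AddSubgroup.closure {e a, e b}, ∀ y : ℂ,
        F₁ (y + es p) = F₁ y ∧ F₂ (y + es p) = F₂ y := by
      intro p hp
      induction hp using AddSubgroup.closure_induction with
      | mem x hx =>
        rcases hx with rfl | rfl
        · intro y
          have h6 : es (e a) = a := e.symm_apply_apply a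
          rw [h6]
          exact ha y
        · intro y
          have h6 : es (e b) = b := e.symm_apply_apply b
          rw [h6]
          exact hb y
      | zero => intro y; simp
      | add p q hp hq ihp ihq =>
        intro y
        rw [map_add, ← add_assoc]
        exact ⟨(ihq (y + es p)).1.trans (ihp y).1, (ihq (y + es p)).2.trans (ihp y).2⟩
      | neg p hp ih =>
        intro y
        have h7 := ih (y + es (-p))
        rw [map_neg, neg_add_cancel_right] at h7
        rw [map_neg]
        exact ⟨h7.1.symm, h7.2.symm⟩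
    have h8 := key p (hsub hp) (es x)
    show J (F₁ (es (x + p)), F₂ (es (x + p))) = J (F₁ (es x), F₂ (es x))
    rw [map_add, h8.1, h8.2]



end Pool.Agent.Helper331.FT
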