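import Pool.Agent.Helper331.FT.Defs
set_option autoImplicit false
open scoped ContDiff ComplexConjugate
open Set MeasureTheory intervalIntegral

namespace Pool.Agent.Helper331.FT

theorem M5 (x : ℝ) (hx : Real.sqrt 3 * Real.pi < x) : ∃ n : ℕ, 0 < n ∧
    x / n ≤ 2 * (Real.sqrt 3 * Real.pi) ∧ Real.sqrt 3 * Real.pi < x / n := by
  have hc : 0 < Real.sqrt 3 * Real.pi := by
    have := Real.pi_pos
    positivity
  generalize Real.sqrt 3 * Real.pi = c at hx hc
  rcases lt_or_ge x (2 * c) with h | h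
  · refine ⟨1, one_pos, ?_, ?_⟩
    · simpa using h.le
    · simpa using hx
  · have hx0 : 0 < x := by linarith
    have h1 : x / (2 * c) ≤ (⌈x / (2 * c)⌉₊ : ℝ) := Nat.le_ceil _
    have h2 : (⌈x / (2 * c)⌉₊ : ℝ) < x / (2 * c) + 1 := Nat.ceil_lt_add_one (by positivity)
    have hn : 0 < ⌈x / (2 * c)⌉₊ := Nat.ceil_pos.mpr (by positivity)
    have hn' : (0:ℝ) < (⌈x / (2 * c)⌉₊ : ℝ) := by exact_mod_cast hn
    refine ⟨⌈x / (2 * c)⌉₊, hn, ?_, ?_⟩
    · rw [div_le_iff₀ hn']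
      rw [div_le_iff₀ (by positivity)] at h1
      linarith
    · rw [lt_div_iff₀ hn']
      have h3 : c * (⌈x / (2 * c)⌉₊ : ℝ) < c * (x / (2 * c) + 1) := mul_lt_mul_of_pos_left h2 hc
      have h4 : c * (x / (2 * c) + 1) = x / 2 + c := by
        field_simp
      linarith


end Pool.Agent.Helper331.FT
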