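import Pool.Agent.Helper331.FT.Defs
import Pool.Agent.Helper331.FT.P8
import Pool.Agent.Helper331.FT.G7
import Pool.Agent.Helper331.FT.G8
import Pool.Agent.Helper331.FT.G9
import Pool.Agent.Helper331.FT.R8
set_option autoImplicit false
open scoped ContDiff ComplexConjugate
open Set MeasureTheory intervalIntegral

namespace Pool.Agent.Helper331.FT

theorem R9_s3 : 1.7320 < Real.sqrt 3 ∧ Real.sqrt 3 < 1.7321 := by
  constructor
  · rw [Real.lt_sqrt (by norm_num)]
    norm_num
  · rw [Real.sqrt_lt' (by norm_num)]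
    norm_num

theorem R9_nonS (ρ : ℝ) (h1 : Real.sqrt 3 * Real.pi < ρ) (h2 : ρ ≤ 2 * (Real.sqrt 3 * Real.pi))
    (hne : ρ ≠ 3 * Real.sqrt 3 * Real.pi / 2) :
    ∃ δ, 0 < δ ∧ δ < Real.pi / 6 ∧ HasCurve ρ δ := by
  have hpi := Real.pi_pos
  obtain ⟨s1, s2⟩ := R9_s3
  have hρ0 : 0 < ρ := lt_trans (by positivity) h1
  rcases le_or_gt ρ (2 * Real.pi) with h | h
  · have e1 : ∀ᶠ δ in nhdsWithin (Real.pi / 6) (Iio (Real.pi / 6)), 2 * Real.pi * Real.cos δ < ρ := by
      apply Filter.Eventually.filter_mono nhdsWithin_le_nhds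
      have hc : ContinuousAt (fun δ : ℝ => 2 * Real.pi * Real.cos δ) (Real.pi / 6) := by
        fun_prop
      apply hc.eventually_lt_const
      show 2 * Real.pi * Real.cos (Real.pi / 6) < ρ
      rw [Real.cos_pi_div_six]
      linarith
    have e2 : ∀ᶠ δ in nhdsWithin (Real.pi / 6) (Iio (Real.pi / 6)), δ ∈ Ioo 0 (Real.pi / 6) :=
      Ioo_mem_nhdsLT (by positivity)
    obtain ⟨δ, h3, h4⟩ := (e1.and e2).exists
    exact ⟨δ, h4.1, h4.2, P8 ρ δ hρ0 h h4.1 (by linarith [h4.2]) h3⟩
  · rcases lt_or_gt_of_ne hne with h' | h'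
    · exact G8 ρ h.le h'
    · exact G9 ρ h' (by nlinarith)

theorem R9_S (δ : ℝ) (h3 : Real.pi / 6 < δ) (h4 : δ < Real.pi / 2) :
    HasCurve (3 * Real.sqrt 3 * Real.pi / 2) δ := by
  have hpi := Real.pi_pos
  obtain ⟨s1, s2⟩ := R9_s3
  exact G7 _ δ (by nlinarith) (by nlinarith) h3 h4

theorem R9_cos {x y : ℝ} (hx : 0 < x) (hy : 0 < y) (h : x + y ≤ Real.pi / 3) :
    1 / 2 ≤ Real.cos (x + y) := by
  rw [← Real.cos_pi_div_three]
  apply Real.cos_le_cos_of_nonneg_of_le_pi (by linarith) (by linarith [Real.pi_pos]) h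

theorem R9_half (a b : ℂ) (h : ImmC (a / 2) (b - a / 2)) : ImmC a b := by
  obtain ⟨F, G, h1, h2, h3, h4, h5, h6⟩ := h
  refine ⟨F, G, h1, h2, h3, h4, fun x => ?_, fun x => ?_⟩
  · have e : x + a = x + a / 2 + a / 2 := by ring
    rw [e, (h5 _).1, (h5 _).1, (h5 _).2, (h5 _).2]
    exact ⟨rfl, rfl⟩
  · have e : x + b = x + (b - a / 2) + a / 2 := by ring
    rw [e, (h5 _).1, (h6 _).1, (h5 _).2, (h6 _).2]
    exact ⟨rfl, rfl⟩

theorem R9 (a b : ℂ) (ha : Real.sqrt 3 * Real.pi < ‖a‖) (hb : Real.sqrt 3 * Real.pi < ‖b‖)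
    (ha2 : ‖a‖ ≤ 2 * (Real.sqrt 3 * Real.pi)) (hb2 : ‖b‖ ≤ 2 * (Real.sqrt 3 * Real.pi))
    (hi0 : 0 ≤ (a * conj b).re) (hi1 : 2 * (a * conj b).re ≤ ‖a‖ * ‖b‖) :
    ImmC a b := by
  have hpi := Real.pi_pos
  obtain ⟨s1, s2⟩ := R9_s3
  have ha0 : 0 < ‖a‖ := lt_trans (by positivity) ha
  have hb0 : 0 < ‖b‖ := lt_trans (by positivity) hb
  have hane : a ≠ 0 := norm_pos_iff.1 ha0
  have hbne : b ≠ 0 := norm_pos_iff.1 hb0
  have hab : 0 < ‖a‖ * ‖b‖ := mul_pos ha0 hb0
  -- the case with small angles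
  have main : ∀ δ₁ δ₂ : ℝ, 0 < δ₁ → 0 < δ₂ → δ₁ + δ₂ ≤ Real.pi / 3 → HasCurve ‖b‖ δ₁ →
      HasCurve ‖a‖ δ₂ → ImmC a b := by
    intro δ₁ δ₂ h1 h2 h3 h4 h5
    have hc := R9_cos h1 h2 h3
    refine R8 a b δ₁ δ₂ hane hbne h1 (by linarith) h2 (by linarith) h4 h5 hi0 (by linarith) ?_
    nlinarith
  set s : ℝ := 3 * Real.sqrt 3 * Real.pi / 2 with hs
  have hs0 : 0 < s := by rw [hs]; positivity
  by_cases hA : ‖a‖ = s
  · by_cases hB : ‖b‖ = s
    · -- both equal to s
      rw [hA, hB] at hi1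
      rcases lt_or_eq_of_le hi1 with hlt | heq
      · have e1 : ∀ᶠ δ in nhdsWithin (Real.pi / 6) (Ioi (Real.pi / 6)),
            (a * conj b).re < s * s * Real.cos (δ + δ) := by
          apply Filter.Eventually.filter_mono nhdsWithin_le_nhds
          have hc : ContinuousAt (fun δ : ℝ => s * s * Real.cos (δ + δ)) (Real.pi / 6) := by
            fun_prop
          apply hc.eventually_const_lt
          have : Real.pi / 6 + Real.pi / 6 = Real.pi / 3 := by ring
          simp only [this]
          rw [Real.cos_pi_div_three]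
          linarith
        have e2 : ∀ᶠ δ in nhdsWithin (Real.pi / 6) (Ioi (Real.pi / 6)),
            δ ∈ Ioo (Real.pi / 6) (Real.pi / 4) :=
          Ioo_mem_nhdsGT (by linarith)
        obtain ⟨δ, h3, h4⟩ := (e1.and e2).exists
        refine R8 a b δ δ hane hbne (by linarith [h4.1]) (by linarith [h4.2]) (by linarith [h4.1])
          (by linarith [h4.2]) ?_ ?_ hi0 (by linarith [h4.2]) ?_
        · rw [hB]
          exact R9_S δ h4.1 (by linarith [h4.2])
        · rw [hA]
          exact R9_S δ h4.1 (by linarith [h4.2])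
        · rw [hA, hB]
          exact h3.le
      · -- the exceptional case
        apply R9_half
        have hre : (a * conj b).re = a.re * b.re + a.im * b.im := by
          simp [Complex.mul_re]
        have hna : a.re ^ 2 + a.im ^ 2 = s ^ 2 := by
          rw [← hA, Complex.sq_norm, Complex.normSq_apply]
          ring
        have hnb : b.re ^ 2 + b.im ^ 2 = s ^ 2 := by
          rw [← hB, Complex.sq_norm, Complex.normSq_apply]
          ring
        have hn1 : ‖a / 2‖ = s / 2 := by
          rw [norm_div, hA]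
          simp
        have h3 : Real.sqrt 3 ^ 2 = 3 := Real.sq_sqrt (by norm_num)
        have hn2 : ‖b - a / 2‖ = 9 * Real.pi / 4 := by
          have h1 : ‖b - a / 2‖ ^ 2 = (9 * Real.pi / 4) ^ 2 := by
            rw [Complex.sq_norm, Complex.normSq_apply]
            have e1 : (b - a / 2).re = b.re - a.re / 2 := by simp
            have e2 : (b - a / 2).im = b.im - a.im / 2 := by simp
            rw [e1, e2]
            rw [hre] at heq
            have h4 : s ^ 2 = 27 * Real.pi ^ 2 / 4 := by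
              rw [hs]
              have : (3 * Real.sqrt 3 * Real.pi / 2) ^ 2 =
                9 * Real.sqrt 3 ^ 2 * Real.pi ^ 2 / 4 := by ring
              rw [this, h3]
              ring
            nlinarith
          exact (pow_left_inj₀ (norm_nonneg _) (by positivity) (by norm_num)).1 h1
        have hne1 : a / 2 ≠ 0 := by
          rw [← norm_pos_iff, hn1]
          positivity
        have hne2 : b - a / 2 ≠ 0 := by
          rw [← norm_pos_iff, hn2]
          positivity
        have hre2 : ((a / 2) * conj (b - a / 2)).re = 0 := by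
          have e1 : (b - a / 2).re = b.re - a.re / 2 := by simp
          have e2 : (b - a / 2).im = b.im - a.im / 2 := by simp
          have e3 : (a / 2).re = a.re / 2 := by simp
          have e4 : (a / 2).im = a.im / 2 := by simp
          rw [Complex.mul_re, Complex.conj_re, Complex.conj_im, e1, e2, e3, e4]
          rw [hre] at heq
          nlinarith
        have e1 : ∀ᶠ δ in nhdsWithin (Real.pi / 3) (Iio (Real.pi / 3)),
            2 * Real.pi * Real.cos δ < s / 2 := by
          apply Filter.Eventually.filter_mono nhdsWithin_le_nhds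
          have hc : ContinuousAt (fun δ : ℝ => 2 * Real.pi * Real.cos δ) (Real.pi / 3) := by
            fun_prop
          apply hc.eventually_lt_const
          show 2 * Real.pi * Real.cos (Real.pi / 3) < s / 2
          rw [Real.cos_pi_div_three, hs]
          nlinarith
        have e2 : ∀ᶠ δ in nhdsWithin (Real.pi / 3) (Iio (Real.pi / 3)),
            δ ∈ Ioo 0 (Real.pi / 3) :=
          Ioo_mem_nhdsLT (by positivity)
        obtain ⟨δ, h5, h6⟩ := (e1.and e2).exists
        have hsum : (Real.pi / 2 - δ) + δ = Real.pi / 2 := by ring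
        refine R8 (a / 2) (b - a / 2) (Real.pi / 2 - δ) δ hne1 hne2 (by linarith [h6.2])
          (by linarith [h6.1]) h6.1 (by linarith [h6.2]) ?_ ?_ hre2.ge (by linarith) ?_
        · rw [hn2]
          exact G7 _ _ (by linarith) (by linarith) (by linarith [h6.2]) (by linarith [h6.1])
        · rw [hn1]
          exact P8 _ δ (by positivity) (by rw [hs]; nlinarith) h6.1 (by linarith [h6.2]) h5
        · rw [hsum, Real.cos_pi_div_two, mul_zero]
          exact hre2.le
    · obtain ⟨δ, h1, h2, h3⟩ := R9_nonS ‖b‖ hb hb2 hB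
      refine main δ (Real.pi / 4 - δ / 2) h1 (by linarith) (by linarith) h3 ?_
      rw [hA]
      exact R9_S _ (by linarith) (by linarith)
  · obtain ⟨δ, h1, h2, h3⟩ := R9_nonS ‖a‖ ha ha2 hA
    by_cases hB : ‖b‖ = s
    · refine main (Real.pi / 4 - δ / 2) δ (by linarith) h1 (by linarith) ?_ h3
      rw [hB]
      exact R9_S _ (by linarith) (by linarith)
    · obtain ⟨δ', h1', h2', h3'⟩ := R9_nonS ‖b‖ hb hb2 hB
      exact main δ' δ h1' h1 (by linarith) h3' h3


end Pool.Agent.Helper331.FT
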