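import Pool.Agent.Helper331.FT.Defs
import Pool.Agent.Helper331.FT.P8
import Pool.Agent.Helper331.FT.G7
import Pool.Agent.Helper331.FT.R8
import Pool.Agent.Helper331.FT.M5
set_option autoImplicit false
open scoped ContDiff ComplexConjugate
open Set MeasureTheory intervalIntegral

namespace Pool.Agent.Helper331.FT

theorem T1_per (a b : ℂ) (n : ℕ) (hn : 0 < n) (h : ImmC a (b / (n : ℂ))) : ImmC a b := by
  obtain ⟨F₁, F₂, h1, h2, h3, h4, h5, h6⟩ := h
  have hn' : (n : ℂ) ≠ 0 := by exact_mod_cast hn.ne'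
  have key : ∀ m : ℕ, ∀ x, F₁ (x + (m : ℂ) * (b / (n : ℂ))) = F₁ x ∧ F₂ (x + (m : ℂ) * (b / (n : ℂ))) = F₂ x := by
    intro m
    induction m with
    | zero => intro x; simp
    | succ m ih =>
      intro x
      have e : x + ((m + 1 : ℕ) : ℂ) * (b / (n : ℂ)) = (x + (m : ℂ) * (b / (n : ℂ))) + b / (n : ℂ) := by
        push_cast; ring
      rw [e]
      exact ⟨(h6 _).1.trans (ih x).1, (h6 _).2.trans (ih x).2⟩
  refine ⟨F₁, F₂, h1, h2, h3, h4, h5, fun x => ?_⟩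
  have e : (n : ℂ) * (b / (n : ℂ)) = b := by field_simp
  have := key n x
  rwa [e] at this

theorem T1_curve (ρ d : ℝ) (h1 : Real.sqrt 3 * Real.pi < ρ) (h2 : ρ ≤ 2 * (Real.sqrt 3 * Real.pi))
    (h3 : Real.pi / 6 < d) (h4 : d < Real.pi / 2) : HasCurve ρ d := by
  have hpi := Real.pi_pos
  have hs3 : Real.sqrt 3 ≤ 2 := by
    rw [Real.sqrt_le_left (by norm_num)]; norm_num
  have hs0 : 0 ≤ Real.sqrt 3 := Real.sqrt_nonneg 3
  rcases le_total ρ (2 * Real.pi) with h | h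
  · apply P8 ρ d (lt_of_le_of_lt (by positivity) h1) h (by linarith) h4
    have hc : Real.cos d < Real.cos (Real.pi / 6) :=
      Real.cos_lt_cos_of_nonneg_of_le_pi (by linarith) (by linarith) h3
    rw [Real.cos_pi_div_six] at hc
    nlinarith
  · apply G7 ρ d h _ h3 h4
    nlinarith

theorem T1 (a b : ℂ) (hb : Real.sqrt 3 * Real.pi < ‖b‖) (ha : a ≠ 0)
    (ha2 : ‖a‖ ≤ Real.sqrt 3 * Real.pi) (hi0 : 0 ≤ (a * conj b).re)
    (hi1 : 2 * (a * conj b).re ≤ ‖a‖ * ‖b‖)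
    (h : 2 * Real.pi * (Real.sqrt 3 / 2 * (a * conj b).re + 1 / 2 * |(a * conj b).im|) <
      ‖a‖ ^ 2 * ‖b‖) : ImmC a b := by
  have hpi := Real.pi_pos
  have ha0 : 0 < ‖a‖ := norm_pos_iff.2 ha
  have hs3 : Real.sqrt 3 < 1.7321 := by
    rw [Real.sqrt_lt' (by norm_num)]; norm_num
  have hs0 : 1.732 ≤ Real.sqrt 3 := by
    apply Real.le_sqrt_of_sq_le; norm_num
  have hb0 : 0 < ‖b‖ := lt_trans (by positivity) hb
  obtain ⟨n, hn, hn1, hn2⟩ := M5 ‖b‖ hb
  have hnR : (0:ℝ) < n := by exact_mod_cast hn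
  apply T1_per a b n hn
  have hnb : ‖b / (n : ℂ)‖ = ‖b‖ / n := by
    rw [norm_div, Complex.norm_natCast]
  have hre : (a * conj (b / (n : ℂ))).re = (a * conj b).re / n := by
    rw [map_div₀, Complex.conj_natCast, ← mul_div_assoc, Complex.div_natCast_re]
  have hnorm : (a * conj b).re ^ 2 + (a * conj b).im ^ 2 = (‖a‖ * ‖b‖) ^ 2 := by
    have h1 : ‖a * conj b‖ = ‖a‖ * ‖b‖ := by
      rw [norm_mul, RCLike.norm_conj]
    rw [← h1, Complex.sq_norm, Complex.normSq_apply]; ring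
  generalize (a * conj b).re = re at *
  generalize (a * conj b).im = im at *
  have hAB : 0 < ‖a‖ * ‖b‖ := mul_pos ha0 hb0
  -- the angle of `a`
  obtain ⟨c, hc⟩ : ∃ c : ℝ, c = ‖a‖ / (2 * Real.pi) := ⟨_, rfl⟩
  have hac : ‖a‖ = 2 * Real.pi * c := by rw [hc]; field_simp
  have hc0 : 0 < c := by rw [hc]; positivity
  have hc2 : c ≤ Real.sqrt 3 / 2 := by
    rw [hc, div_le_iff₀ (by positivity)]
    calc ‖a‖ ≤ Real.sqrt 3 * Real.pi := ha2
      _ = Real.sqrt 3 / 2 * (2 * Real.pi) := by ring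
  have hc3 : c ≤ 1 := by linarith
  have hx0 : 0 ≤ Real.arccos c := Real.arccos_nonneg c
  have hx1 : Real.arccos c < Real.pi / 2 := Real.arccos_lt_pi_div_two.2 hc0
  have hcosx : Real.cos (Real.arccos c) = c := Real.cos_arccos (by linarith) hc3
  -- the angle between `a` and `b`
  obtain ⟨r, hr⟩ : ∃ r : ℝ, r = re / (‖a‖ * ‖b‖) := ⟨_, rfl⟩
  have hr0 : 0 ≤ r := by rw [hr]; positivity
  have hr1 : r ≤ 1 / 2 := by
    rw [hr, div_le_iff₀ hAB]; linarith
  have hrr : re = ‖a‖ * ‖b‖ * r := by rw [hr]; field_simp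
  have hb0' : 0 ≤ Real.arccos r := Real.arccos_nonneg r
  have hb1' : Real.arccos r ≤ Real.pi / 2 := Real.arccos_le_pi_div_two.2 hr0
  have hb2' : Real.pi / 3 ≤ Real.arccos r := by
    have h1 : Real.arccos (1 / 2) = Real.pi / 3 := by
      rw [← Real.cos_pi_div_three, Real.arccos_cos (by positivity) (by linarith)]
    rw [← h1]
    exact Real.arccos_le_arccos hr1
  have hcosb : Real.cos (Real.arccos r) = r := Real.cos_arccos (by linarith) (by linarith)
  have hsinb : Real.sin (Real.arccos r) = Real.sqrt (1 - r ^ 2) := Real.sin_arccos r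
  have him : |im| = ‖a‖ * ‖b‖ * Real.sqrt (1 - r ^ 2) := by
    rw [← Real.sqrt_sq_eq_abs]
    have h1 : im ^ 2 = (‖a‖ * ‖b‖) ^ 2 * (1 - r ^ 2) := by
      have : im ^ 2 = (‖a‖ * ‖b‖) ^ 2 - re ^ 2 := by linarith
      rw [this, hrr]; ring
    rw [h1, Real.sqrt_mul (by positivity), Real.sqrt_sq hAB.le]
  have hkey : Real.cos (Real.arccos r - Real.pi / 6) < c := by
    rw [Real.cos_sub, hcosb, hsinb, Real.cos_pi_div_six, Real.sin_pi_div_six]
    rw [him, hrr] at h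
    have h1 : (‖a‖ * ‖b‖) * (2 * Real.pi * (r * (Real.sqrt 3 / 2) + Real.sqrt (1 - r ^ 2) * (1 / 2)))
        < (‖a‖ * ‖b‖) * ‖a‖ := by
      calc (‖a‖ * ‖b‖) * (2 * Real.pi * (r * (Real.sqrt 3 / 2) + Real.sqrt (1 - r ^ 2) * (1 / 2)))
          = 2 * Real.pi * (Real.sqrt 3 / 2 * (‖a‖ * ‖b‖ * r) +
            1 / 2 * (‖a‖ * ‖b‖ * Real.sqrt (1 - r ^ 2))) := by ring
        _ < ‖a‖ ^ 2 * ‖b‖ := h
        _ = (‖a‖ * ‖b‖) * ‖a‖ := by ring
    have h2 := lt_of_mul_lt_mul_left h1 hAB.le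
    rw [hac] at h2
    exact lt_of_mul_lt_mul_left h2 (by positivity)
  have hT : Real.arccos c < Real.arccos r - Real.pi / 6 := by
    by_contra hcon
    push Not at hcon
    have h1 : Real.cos (Real.arccos c) ≤ Real.cos (Real.arccos r - Real.pi / 6) :=
      Real.cos_le_cos_of_nonneg_of_le_pi (by linarith) (by linarith) hcon
    rw [hcosx] at h1
    linarith
  obtain ⟨e, he⟩ : ∃ e : ℝ, e = (Real.arccos r - Real.pi / 6 - Real.arccos c) / 2 := ⟨_, rfl⟩
  have he0 : 0 < e := by rw [he]; linarith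
  have hsum : (Real.pi / 6 + e) + (Real.arccos c + e) = Real.arccos r := by rw [he]; ring
  have hbn : 0 < ‖b‖ / n := by positivity
  refine R8 a (b / (n : ℂ)) (Real.pi / 6 + e) (Real.arccos c + e) ha
    (norm_pos_iff.1 (by rw [hnb]; exact hbn)) (by linarith) (by linarith) (by linarith) (by linarith)
    ?_ ?_ ?_ ?_ ?_
  · rw [hnb]
    exact T1_curve _ _ hn2 hn1 (by linarith) (by linarith)
  · apply P8 ‖a‖ _ ha0 (by nlinarith) (by linarith) (by linarith)
    have h1 : Real.cos (Real.arccos c + e) < Real.cos (Real.arccos c) :=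
      Real.cos_lt_cos_of_nonneg_of_le_pi hx0 (by linarith) (by linarith)
    rw [hcosx] at h1
    rw [hac]
    exact mul_lt_mul_of_pos_left h1 (by positivity)
  · rw [hre]; positivity
  · rw [hsum]; exact hb1'
  · rw [hsum, hcosb, hre, hnb]
    have h1 : ‖a‖ * (‖b‖ / n) * r = (‖a‖ * ‖b‖ * r) / n := by ring
    rw [h1, ← hrr]


end Pool.Agent.Helper331.FT
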