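import Pool.Agent.Helper331.FT.Defs
import Pool.Agent.Helper331.FT.R9
import Pool.Agent.Helper331.FT.M5
import Pool.Agent.Helper331.FT.L1
import Pool.Agent.Helper331.FT.T1
set_option autoImplicit false
open scoped ContDiff ComplexConjugate
open Set MeasureTheory intervalIntegral

namespace Pool.Agent.Helper331.FT

theorem T2_map (a b x : ℂ) (hx : x ∈ AddSubgroup.closure ({a, b} : Set ℂ)) :
    (Complex.orthonormalBasisOneI.repr x : EuclideanSpace ℝ (Fin 2)) ∈
      AddSubgroup.closure {(Complex.orthonormalBasisOneI.repr a : EuclideanSpace ℝ (Fin 2)),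
        Complex.orthonormalBasisOneI.repr b} := by
  induction hx using AddSubgroup.closure_induction with
  | mem x hx =>
    rcases hx with h | h
    · rw [h]; exact AddSubgroup.subset_closure (by simp)
    · rw [h]; exact AddSubgroup.subset_closure (by simp)
  | zero => rw [map_zero]; exact zero_mem _
  | add x y _ _ hx hy => rw [map_add]; exact add_mem hx hy
  | neg x _ hx => rw [map_neg]; exact neg_mem hx


theorem T2_polar (a b : ℂ) : 
    (a * conj b).re = ‖a‖ * ‖b‖ * Real.cos (InnerProductGeometry.angle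
      (Complex.orthonormalBasisOneI.repr a : EuclideanSpace ℝ (Fin 2)) (Complex.orthonormalBasisOneI.repr b)) ∧
    |(a * conj b).im| = ‖a‖ * ‖b‖ * Real.sin (InnerProductGeometry.angle
      (Complex.orthonormalBasisOneI.repr a : EuclideanSpace ℝ (Fin 2)) (Complex.orthonormalBasisOneI.repr b)) := by
  have h1 : (a * conj b).re = ‖a‖ * ‖b‖ * Real.cos (InnerProductGeometry.angle
      (Complex.orthonormalBasisOneI.repr a : EuclideanSpace ℝ (Fin 2)) (Complex.orthonormalBasisOneI.repr b)) := by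
    have h2 := InnerProductGeometry.cos_angle_mul_norm_mul_norm
      (Complex.orthonormalBasisOneI.repr a : EuclideanSpace ℝ (Fin 2)) (Complex.orthonormalBasisOneI.repr b)
    rw [LinearIsometryEquiv.inner_map_map, LinearIsometryEquiv.norm_map, LinearIsometryEquiv.norm_map,
      Complex.inner] at h2
    have h3 : (b * conj a).re = (a * conj b).re := by
      simp only [Complex.mul_re, Complex.conj_re, Complex.conj_im]; ring
    rw [← h3, ← h2]
    ring
  refine ⟨h1, ?_⟩
  have hs0 : 0 ≤ ‖a‖ * ‖b‖ * Real.sin (InnerProductGeometry.angle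
      (Complex.orthonormalBasisOneI.repr a : EuclideanSpace ℝ (Fin 2)) (Complex.orthonormalBasisOneI.repr b)) :=
    mul_nonneg (by positivity) (InnerProductGeometry.sin_angle_nonneg _ _)
  rw [← abs_of_nonneg hs0]
  rw [← sq_eq_sq_iff_abs_eq_abs]
  have h3 : (a * conj b).re ^ 2 + (a * conj b).im ^ 2 = (‖a‖ * ‖b‖) ^ 2 := by
    have h4 : Complex.normSq (a * conj b) = (‖a‖ * ‖b‖) ^ 2 := by
      rw [Complex.normSq_eq_norm_sq, norm_mul, RCLike.norm_conj]
    rw [← h4, Complex.normSq_apply]; ring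
  rw [h1] at h3
  have h5 := Real.sin_sq_add_cos_sq (InnerProductGeometry.angle
      (Complex.orthonormalBasisOneI.repr a : EuclideanSpace ℝ (Fin 2)) (Complex.orthonormalBasisOneI.repr b))
  rw [mul_pow]
  rw [mul_pow] at h3
  linear_combination h3 - (‖a‖ * ‖b‖) ^ 2 * h5

theorem T2 (u v a b : EuclideanSpace ℝ (Fin 2)) (hli : LinearIndependent ℝ ![a, b])
    (hle : AddSubgroup.closure {u, v} ≤ AddSubgroup.closure {a, b})
    (hb : Real.sqrt 3 * Real.pi < ‖b‖) (h1 : Real.pi / 3 ≤ InnerProductGeometry.angle a b)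
    (h2 : InnerProductGeometry.angle a b ≤ Real.pi / 2)
    (h : 2 * Real.pi * Real.cos (InnerProductGeometry.angle a b - Real.pi / 6) < ‖a‖) :
    Immersible u v := by
  obtain ⟨a0, ha0⟩ : ∃ a0 : ℂ, (Complex.orthonormalBasisOneI.repr a0 : EuclideanSpace ℝ (Fin 2)) = a :=
    ⟨Complex.orthonormalBasisOneI.repr.symm a, LinearIsometryEquiv.apply_symm_apply _ _⟩
  obtain ⟨b0, hb0⟩ : ∃ b0 : ℂ, (Complex.orthonormalBasisOneI.repr b0 : EuclideanSpace ℝ (Fin 2)) = b :=
    ⟨Complex.orthonormalBasisOneI.repr.symm b, LinearIsometryEquiv.apply_symm_apply _ _⟩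
  have hane : a ≠ 0 := by
    have := hli.ne_zero 0
    simpa using this
  subst ha0 hb0
  have ha00 : a0 ≠ 0 := by
    rintro rfl; apply hane; exact map_zero _
  obtain ⟨hp1, hp2⟩ := T2_polar a0 b0
  rw [LinearIsometryEquiv.norm_map] at hb h
  set θ := InnerProductGeometry.angle (Complex.orthonormalBasisOneI.repr a0 : EuclideanSpace ℝ (Fin 2))
    (Complex.orthonormalBasisOneI.repr b0) with hθ
  have hpi := Real.pi_pos
  have hcos0 : 0 ≤ Real.cos θ := Real.cos_nonneg_of_mem_Icc ⟨by linarith, h2⟩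
  have hcos1 : Real.cos θ ≤ 1 / 2 := by
    rw [← Real.cos_pi_div_three]
    exact Real.cos_le_cos_of_nonneg_of_le_pi (by positivity) (by linarith) h1
  have hpos : 0 < ‖a0‖ * ‖b0‖ := mul_pos (norm_pos_iff.mpr ha00) (lt_trans (by positivity) hb)
  have hre0 : 0 ≤ (a0 * conj b0).re := by rw [hp1]; exact mul_nonneg hpos.le hcos0
  have h2re : 2 * (a0 * conj b0).re ≤ ‖a0‖ * ‖b0‖ := by
    rw [hp1]; nlinarith
  have hu : u ∈ AddSubgroup.closure {(Complex.orthonormalBasisOneI.repr a0 : EuclideanSpace ℝ (Fin 2)),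
        Complex.orthonormalBasisOneI.repr b0} := hle (AddSubgroup.subset_closure (by simp))
  have hv : v ∈ AddSubgroup.closure {(Complex.orthonormalBasisOneI.repr a0 : EuclideanSpace ℝ (Fin 2)),
        Complex.orthonormalBasisOneI.repr b0} := hle (AddSubgroup.subset_closure (by simp))
  rcases le_or_gt ‖a0‖ (Real.sqrt 3 * Real.pi) with hcase | hna
  · have him := T1 a0 b0 hb ha00 hcase hre0 h2re (by
      rw [hp1, hp2]
      have e1 : Real.cos (θ - Real.pi / 6) = Real.sqrt 3 / 2 * Real.cos θ + 1 / 2 * Real.sin θ := by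
        rw [Real.cos_sub, Real.cos_pi_div_six, Real.sin_pi_div_six]; ring
      rw [e1] at h
      have h3 := mul_lt_mul_of_pos_left h hpos
      nlinarith)
    exact L1 a0 b0 him u v hu hv
  · obtain ⟨n1, hn1, hA1, hA2⟩ := M5 _ hna
    obtain ⟨n2, hn2, hB1, hB2⟩ := M5 _ hb
    have hn1' : (0:ℝ) < n1 := by exact_mod_cast hn1
    have hn2' : (0:ℝ) < n2 := by exact_mod_cast hn2
    obtain ⟨a, ha⟩ : ∃ a : ℂ, a = ((1 / (n1:ℝ) : ℝ) : ℂ) * a0 := ⟨_, rfl⟩
    obtain ⟨b, hb⟩ : ∃ b : ℂ, b = ((1 / (n2:ℝ) : ℝ) : ℂ) * b0 := ⟨_, rfl⟩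
    have hnorma : ‖a‖ = ‖a0‖ / n1 := by
      rw [ha, norm_mul, Complex.norm_real, Real.norm_of_nonneg (by positivity)]; ring
    have hnormb : ‖b‖ = ‖b0‖ / n2 := by
      rw [hb, norm_mul, Complex.norm_real, Real.norm_of_nonneg (by positivity)]; ring
    have hre : (a * conj b).re = (a0 * conj b0).re / (n1 * n2) := by
      have : a * conj b = ((1 / (n1:ℝ) * (1 / (n2:ℝ)) : ℝ) : ℂ) * (a0 * conj b0) := by
        rw [ha, hb, map_mul, Complex.conj_ofReal]; push_cast; ring
      rw [this, Complex.re_ofReal_mul]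
      field_simp
    have himm : ImmC a b := by
      refine R9 a b ?_ ?_ ?_ ?_ ?_ ?_
      · rw [hnorma]; exact hA2
      · rw [hnormb]; exact hB2
      · rw [hnorma]; exact hA1
      · rw [hnormb]; exact hB1
      · rw [hre]; positivity
      · rw [hre, hnorma, hnormb]
        have : ‖a0‖ / n1 * (‖b0‖ / n2) = (‖a0‖ * ‖b0‖) / (n1 * n2) := by field_simp
        rw [this, ← mul_div_assoc]
        gcongr
    have hle' : AddSubgroup.closure {(Complex.orthonormalBasisOneI.repr a0 : EuclideanSpace ℝ (Fin 2)),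
          Complex.orthonormalBasisOneI.repr b0} ≤
        AddSubgroup.closure {(Complex.orthonormalBasisOneI.repr a : EuclideanSpace ℝ (Fin 2)),
          Complex.orthonormalBasisOneI.repr b} := by
      rw [AddSubgroup.closure_le]
      intro x hx
      rcases hx with h | h
      · have e1 : a0 = n1 • a := by
          rw [ha, nsmul_eq_mul, ← mul_assoc]
          have : ((n1:ℂ) * ((1 / (n1:ℝ) : ℝ) : ℂ)) = 1 := by
            push_cast
            have : (n1:ℂ) ≠ 0 := by exact_mod_cast hn1.ne'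
            field_simp
          rw [this, one_mul]
        rw [h, e1, map_nsmul]
        exact nsmul_mem (AddSubgroup.subset_closure (by simp)) _
      · have e1 : b0 = n2 • b := by
          rw [hb, nsmul_eq_mul, ← mul_assoc]
          have : ((n2:ℂ) * ((1 / (n2:ℝ) : ℝ) : ℂ)) = 1 := by
            push_cast
            have : (n2:ℂ) ≠ 0 := by exact_mod_cast hn2.ne'
            field_simp
          rw [this, one_mul]
        rw [h, e1, map_nsmul]
        exact nsmul_mem (AddSubgroup.subset_closure (by simp)) _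
    exact L1 a b himm u v (hle' hu) (hle' hv)



end Pool.Agent.Helper331.FT
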