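import Pool.Agent.Helper331.FT.Defs
import Pool.Agent.Helper331.FT.L1
import Pool.Agent.Helper331.FT.T2
import Pool.Agent.Helper331.FT.K9
set_option autoImplicit false
open scoped ContDiff ComplexConjugate
open Set MeasureTheory intervalIntegral

namespace Pool.Agent.Helper331.FT

theorem K10_polar (a b : ℂ) :
    (a * conj b).re = ‖a‖ * ‖b‖ * Real.cos (InnerProductGeometry.angle
      (Complex.orthonormalBasisOneI.repr a : EuclideanSpace ℝ (Fin 2))
      (Complex.orthonormalBasisOneI.repr b)) := by
  have h2 := InnerProductGeometry.cos_angle_mul_norm_mul_norm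
    (Complex.orthonormalBasisOneI.repr a : EuclideanSpace ℝ (Fin 2))
    (Complex.orthonormalBasisOneI.repr b)
  rw [LinearIsometryEquiv.inner_map_map, LinearIsometryEquiv.norm_map,
    LinearIsometryEquiv.norm_map, Complex.inner] at h2
  have h3 : (b * conj a).re = (a * conj b).re := by
    simp only [Complex.mul_re, Complex.conj_re, Complex.conj_im]; ring
  rw [← h3, ← h2]
  ring

theorem K10 (k : ℕ) (hk : 1 ≤ k) (u v a b : EuclideanSpace ℝ (Fin 2))
    (hli : LinearIndependent ℝ ![a, b])
    (hle : AddSubgroup.closure {u, v} ≤ AddSubgroup.closure {a, b})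
    (hb : 2 * Real.pi * k ≤ ‖b‖) (h1 : Real.pi / 3 ≤ InnerProductGeometry.angle a b)
    (h2 : InnerProductGeometry.angle a b ≤ Real.pi / 2)
    (h : 2 * Real.pi * Real.cos (InnerProductGeometry.angle a b - Real.pi / (2 * (2 * k + 1))) <
      ‖a‖) : Immersible u v := by
  have hpi := Real.pi_pos
  rcases le_or_gt ‖a‖ (2 * Real.pi) with hcase | hcase
  · have hane : a ≠ 0 := by
      have := hli.ne_zero 0
      simpa using this
    obtain ⟨a0, ha0⟩ : ∃ a0 : ℂ,
        (Complex.orthonormalBasisOneI.repr a0 : EuclideanSpace ℝ (Fin 2)) = a :=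
      ⟨Complex.orthonormalBasisOneI.repr.symm a, LinearIsometryEquiv.apply_symm_apply _ _⟩
    obtain ⟨b0, hb0⟩ : ∃ b0 : ℂ,
        (Complex.orthonormalBasisOneI.repr b0 : EuclideanSpace ℝ (Fin 2)) = b :=
      ⟨Complex.orthonormalBasisOneI.repr.symm b, LinearIsometryEquiv.apply_symm_apply _ _⟩
    subst ha0 hb0
    have ha00 : a0 ≠ 0 := by
      rintro rfl; apply hane; exact map_zero _
    have hp1 := K10_polar a0 b0
    rw [LinearIsometryEquiv.norm_map] at hb h hcase
    have hu : u ∈ AddSubgroup.closure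
        {(Complex.orthonormalBasisOneI.repr a0 : EuclideanSpace ℝ (Fin 2)),
          Complex.orthonormalBasisOneI.repr b0} := hle (AddSubgroup.subset_closure (by simp))
    have hv : v ∈ AddSubgroup.closure
        {(Complex.orthonormalBasisOneI.repr a0 : EuclideanSpace ℝ (Fin 2)),
          Complex.orthonormalBasisOneI.repr b0} := hle (AddSubgroup.subset_closure (by simp))
    exact L1 a0 b0 (K9 k hk a0 b0 ha00 hb hcase _ h1 h2 hp1 h) u v hu hv
  · refine T2 u v a b hli hle ?_ h1 h2 ?_
    · have h3 : Real.sqrt 3 < 2 := by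
        rw [Real.sqrt_lt' (by norm_num)]
        norm_num
      have h4 : (1 : ℝ) ≤ k := by exact_mod_cast hk
      nlinarith
    · have h3 := Real.cos_le_one (InnerProductGeometry.angle a b - Real.pi / 6)
      nlinarith


end Pool.Agent.Helper331.FT
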