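import Pool.Agent.Helper331.FT.Defs
set_option autoImplicit false
open scoped ContDiff ComplexConjugate
open Set MeasureTheory intervalIntegral

namespace Pool.Agent.Helper331.FT

theorem L2_min (w0 w1 w2 N0 N1 N2 B : ℝ) (h0 : 0 ≤ w0) (h1 : 0 ≤ w1) (h2 : 0 ≤ w2)
    (hs : w0 + w1 + w2 = 1) (hB : w0 * N0 + w1 * N1 + w2 * N2 ≤ B) :
    N0 ≤ B ∨ N1 ≤ B ∨ N2 ≤ B := by
  by_contra h
  push Not at h
  obtain ⟨a0, a1, a2⟩ := h
  have b0 : 0 ≤ w0 * (N0 - B) := mul_nonneg h0 (by linarith)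
  have b1 : 0 ≤ w1 * (N1 - B) := mul_nonneg h1 (by linarith)
  have b2 : 0 ≤ w2 * (N2 - B) := mul_nonneg h2 (by linarith)
  have e : w0 * (N0 - B) + w1 * (N1 - B) + w2 * (N2 - B) =
      w0 * N0 + w1 * N1 + w2 * N2 - (w0 + w1 + w2) * B := by ring
  rw [hs] at e
  have c0 : w0 = 0 := by
    rcases mul_eq_zero.mp (show w0 * (N0 - B) = 0 by linarith) with h | h
    · exact h
    · linarith
  have c1 : w1 = 0 := by
    rcases mul_eq_zero.mp (show w1 * (N1 - B) = 0 by linarith) with h | h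
    · exact h
    · linarith
  have c2 : w2 = 0 := by
    rcases mul_eq_zero.mp (show w2 * (N2 - B) = 0 by linarith) with h | h
    · exact h
    · linarith
  rw [c0, c1, c2] at hs
  norm_num at hs

theorem L2_real (a1 a2 b1 b2 R k l : ℝ) (hD : a1 * b2 - a2 * b1 ≠ 0)
    (hR : (a1 ^ 2 + a2 ^ 2) * (b1 ^ 2 + b2 ^ 2) * ((a1 - b1) ^ 2 + (a2 - b2) ^ 2) ≤
      4 * R ^ 2 * (a1 * b2 - a2 * b1) ^ 2) (hk : 0 ≤ k) (hl : 0 ≤ l) (hkl : k + l ≤ 1) :
    (k * a1 + l * b1) ^ 2 + (k * a2 + l * b2) ^ 2 ≤ R ^ 2 ∨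
    (k * a1 + l * b1 - a1) ^ 2 + (k * a2 + l * b2 - a2) ^ 2 ≤ R ^ 2 ∨
    (k * a1 + l * b1 - b1) ^ 2 + (k * a2 + l * b2 - b2) ^ 2 ≤ R ^ 2 := by
  refine L2_min (1 - k - l) k l _ _ _ _ (by linarith) hk hl (by ring) ?_
  have hD2 : 0 < (a1 * b2 - a2 * b1) ^ 2 := by positivity
  have key : 4 * (a1 * b2 - a2 * b1) ^ 2 *
      ((1 - k - l) * ((k * a1 + l * b1) ^ 2 + (k * a2 + l * b2) ^ 2) +
        k * ((k * a1 + l * b1 - a1) ^ 2 + (k * a2 + l * b2 - a2) ^ 2) +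
        l * ((k * a1 + l * b1 - b1) ^ 2 + (k * a2 + l * b2 - b2) ^ 2)) =
      (a1 ^ 2 + a2 ^ 2) * (b1 ^ 2 + b2 ^ 2) * ((a1 - b1) ^ 2 + (a2 - b2) ^ 2) -
      (2 * (a1 * b2 - a2 * b1) * (k * a1 + l * b1) -
        ((a1 ^ 2 + a2 ^ 2) * b2 - (b1 ^ 2 + b2 ^ 2) * a2)) ^ 2 -
      (2 * (a1 * b2 - a2 * b1) * (k * a2 + l * b2) +
        ((a1 ^ 2 + a2 ^ 2) * b1 - (b1 ^ 2 + b2 ^ 2) * a1)) ^ 2 := by ring
  have h1 := sq_nonneg (2 * (a1 * b2 - a2 * b1) * (k * a1 + l * b1) -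
        ((a1 ^ 2 + a2 ^ 2) * b2 - (b1 ^ 2 + b2 ^ 2) * a2))
  have h2 := sq_nonneg (2 * (a1 * b2 - a2 * b1) * (k * a2 + l * b2) +
        ((a1 ^ 2 + a2 ^ 2) * b1 - (b1 ^ 2 + b2 ^ 2) * a1))
  refine le_of_mul_le_mul_left ?_ (show 0 < 4 * (a1 * b2 - a2 * b1) ^ 2 by positivity)
  rw [key]
  linarith

theorem L2_norm_le (z : ℂ) (R : ℝ) (hR0 : 0 ≤ R) (h : z.re ^ 2 + z.im ^ 2 ≤ R ^ 2) : ‖z‖ ≤ R := by
  have h1 : ‖z‖ ^ 2 ≤ R ^ 2 := by
    rw [Complex.sq_norm, Complex.normSq_apply]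
    linarith [sq z.re, sq z.im]
  exact (sq_le_sq₀ (norm_nonneg _) hR0).mp h1

theorem L2_tri (a b : ℂ) (h0 : (a * conj b).im ≠ 0) (R : ℝ) (hR0 : 0 ≤ R)
    (hR : ‖a‖ * ‖b‖ * ‖a - b‖ ≤ 2 * R * |(a * conj b).im|) (k l : ℝ)
    (hk : 0 ≤ k) (hl : 0 ≤ l) (hkl : k + l ≤ 1) :
    ∃ m n : ℤ, ‖((k : ℂ) * a + (l : ℂ) * b) - (m * a + n * b)‖ ≤ R := by
  have him : (a * conj b).im = -(a.re * b.im - a.im * b.re) := by
    simp only [Complex.mul_im, Complex.conj_re, Complex.conj_im]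
    ring
  have hD : a.re * b.im - a.im * b.re ≠ 0 := by
    intro h
    apply h0
    rw [him, h, neg_zero]
  have hR2 : (a.re ^ 2 + a.im ^ 2) * (b.re ^ 2 + b.im ^ 2) *
      ((a.re - b.re) ^ 2 + (a.im - b.im) ^ 2) ≤
      4 * R ^ 2 * (a.re * b.im - a.im * b.re) ^ 2 := by
    have h1 : (‖a‖ * ‖b‖ * ‖a - b‖) ^ 2 ≤ (2 * R * |(a * conj b).im|) ^ 2 :=
      pow_le_pow_left₀ (by positivity) hR 2
    rw [mul_pow, mul_pow, Complex.sq_norm, Complex.sq_norm, Complex.sq_norm,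
      Complex.normSq_apply, Complex.normSq_apply, Complex.normSq_apply, mul_pow, sq_abs, him,
      Complex.sub_re, Complex.sub_im] at h1
    calc _ = (a.re * a.re + a.im * a.im) * (b.re * b.re + b.im * b.im) *
      ((a.re - b.re) * (a.re - b.re) + (a.im - b.im) * (a.im - b.im)) := by ring
      _ ≤ _ := h1
      _ = _ := by ring
  rcases L2_real a.re a.im b.re b.im R k l hD hR2 hk hl hkl with h | h | h
  · refine ⟨0, 0, L2_norm_le _ R hR0 ?_⟩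
    refine le_trans (le_of_eq ?_) h
    simp
  · refine ⟨1, 0, L2_norm_le _ R hR0 ?_⟩
    refine le_trans (le_of_eq ?_) h
    simp
  · refine ⟨0, 1, L2_norm_le _ R hR0 ?_⟩
    refine le_trans (le_of_eq ?_) h
    simp

theorem L2 (a b : ℂ) (h0 : (a * conj b).im ≠ 0) (R : ℝ) (hR0 : 0 ≤ R)
    (hR : ‖a‖ * ‖b‖ * ‖a - b‖ ≤ 2 * R * |(a * conj b).im|) :
    ∀ x : ℂ, ∃ m n : ℤ, ‖x - (m * a + n * b)‖ ≤ R := by
  intro x
  set D : ℝ := (a * conj b).im with hDdef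
  have him : D = a.im * b.re - a.re * b.im := by
    rw [hDdef]
    simp only [Complex.mul_im, Complex.conj_re, Complex.conj_im]
    ring
  set k : ℝ := (x.im * b.re - x.re * b.im) / D with hk
  set l : ℝ := (a.im * x.re - a.re * x.im) / D with hl
  have hx : x = (k : ℂ) * a + (l : ℂ) * b := by
    apply Complex.ext
    · simp only [Complex.add_re, Complex.mul_re, Complex.ofReal_re, Complex.ofReal_im, zero_mul,
        sub_zero]
      rw [hk, hl]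
      field_simp
      rw [him]
      ring
    · simp only [Complex.add_im, Complex.mul_im, Complex.ofReal_re, Complex.ofReal_im, zero_mul,
        add_zero]
      rw [hk, hl]
      field_simp
      rw [him]
      ring
  have hkf := Int.fract_nonneg k
  have hlf := Int.fract_nonneg l
  have hk1 := Int.fract_lt_one k
  have hl1 := Int.fract_lt_one l
  have hke : (k : ℂ) = ((⌊k⌋ : ℤ) : ℂ) + ((Int.fract k : ℝ) : ℂ) := by
    have := Int.floor_add_fract k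
    exact_mod_cast this.symm
  have hle : (l : ℂ) = ((⌊l⌋ : ℤ) : ℂ) + ((Int.fract l : ℝ) : ℂ) := by
    have := Int.floor_add_fract l
    exact_mod_cast this.symm
  by_cases hc : Int.fract k + Int.fract l ≤ 1
  · obtain ⟨m, n, hmn⟩ := L2_tri a b h0 R hR0 hR _ _ hkf hlf hc
    refine ⟨⌊k⌋ + m, ⌊l⌋ + n, ?_⟩
    refine le_trans (le_of_eq ?_) hmn
    congr 1
    rw [hx, hke, hle]
    push_cast
    ring
  · push Not at hc
    obtain ⟨m, n, hmn⟩ := L2_tri a b h0 R hR0 hR (1 - Int.fract k) (1 - Int.fract l)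
      (by linarith) (by linarith) (by linarith)
    refine ⟨⌊k⌋ + (1 - m), ⌊l⌋ + (1 - n), ?_⟩
    refine le_trans (le_of_eq ?_) hmn
    rw [← norm_neg]
    congr 1
    rw [hx, hke, hle]
    push_cast
    ring


end Pool.Agent.Helper331.FT
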