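import Pool.Agent.Helper331.FT.Defs
set_option autoImplicit false
open scoped ContDiff ComplexConjugate
open Set MeasureTheory intervalIntegral

namespace Pool.Agent.Helper331.FT

theorem L3_fin (a b : ℂ) (h0 : (a * conj b).im ≠ 0) (K : ℝ) (ha : ‖a‖ ≤ K) (hb : ‖b‖ ≤ K) :
    {x : ℂ | x ∈ AddSubgroup.closure {a, b} ∧ ‖x‖ ≤ K}.Finite := by
  obtain ⟨D, hDdef⟩ : ∃ D, D = (a * conj b).im := ⟨_, rfl⟩
  rw [← hDdef] at h0
  obtain ⟨N, hN⟩ := exists_nat_ge (K * K / |D|)
  apply Set.Finite.subset ((((Set.finite_Icc (-(N:ℤ)) N).prod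
    (Set.finite_Icc (-(N:ℤ)) N))).image (fun p : ℤ × ℤ => p.1 • a + p.2 • b))
  rintro x ⟨hx, hxK⟩
  rw [AddSubgroup.mem_closure_pair] at hx
  obtain ⟨m, n, rfl⟩ := hx
  have hD : 0 < |D| := abs_pos.2 h0
  have hK : 0 ≤ K := (norm_nonneg _).trans hxK
  have h1 : ((m • a + n • b) * conj b).im = m * D := by
    rw [hDdef]
    simp [zsmul_eq_mul]
    ring
  have h2 : (a * conj (m • a + n • b)).im = n * D := by
    rw [hDdef]
    simp [zsmul_eq_mul]
    ring
  have h3 : |(m:ℝ)| * |D| ≤ K * K := by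
    rw [← abs_mul, ← h1]
    calc |((m • a + n • b) * conj b).im| ≤ ‖(m • a + n • b) * conj b‖ := Complex.abs_im_le_norm _
      _ = ‖m • a + n • b‖ * ‖b‖ := by rw [norm_mul, RCLike.norm_conj]
      _ ≤ K * K := mul_le_mul hxK hb (norm_nonneg _) hK
  have h4 : |(n:ℝ)| * |D| ≤ K * K := by
    rw [← abs_mul, ← h2]
    calc |(a * conj (m • a + n • b)).im| ≤ ‖a * conj (m • a + n • b)‖ := Complex.abs_im_le_norm _
      _ = ‖a‖ * ‖m • a + n • b‖ := by rw [norm_mul, RCLike.norm_conj]
      _ ≤ K * K := mul_le_mul ha hxK (norm_nonneg _) hK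
  have h5 : |(m:ℝ)| ≤ N := le_trans ((le_div_iff₀ hD).2 h3) hN
  have h6 : |(n:ℝ)| ≤ N := le_trans ((le_div_iff₀ hD).2 h4) hN
  rw [abs_le] at h5 h6
  refine ⟨(m, n), ⟨⟨?_, ?_⟩, ⟨?_, ?_⟩⟩, rfl⟩
  · exact_mod_cast h5.1
  · exact_mod_cast h5.2
  · exact_mod_cast h6.1
  · exact_mod_cast h6.2

theorem L3_norm (u v : ℂ) (h : Complex.normSq u ≤ Complex.normSq v) : ‖u‖ ≤ ‖v‖ := by
  rw [← sq_le_sq₀ (norm_nonneg _) (norm_nonneg _), Complex.sq_norm, Complex.sq_norm]
  exact h

theorem L3_cl (x y x' y' : ℂ) (h1 : x' ∈ AddSubgroup.closure {x, y})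
    (h2 : y' ∈ AddSubgroup.closure {x, y}) (h3 : x ∈ AddSubgroup.closure {x', y'})
    (h4 : y ∈ AddSubgroup.closure {x', y'}) :
    AddSubgroup.closure {x', y'} = AddSubgroup.closure {x, y} := by
  apply le_antisymm
  · rw [AddSubgroup.closure_le]
    rintro z (rfl | rfl)
    · exact h1
    · exact h2
  · rw [AddSubgroup.closure_le]
    rintro z (rfl | rfl)
    · exact h3
    · exact h4

theorem L3_l (x y : ℂ) : x ∈ AddSubgroup.closure {x, y} :=
  AddSubgroup.subset_closure (Set.mem_insert _ _)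

theorem L3_r (x y : ℂ) : y ∈ AddSubgroup.closure {x, y} :=
  AddSubgroup.subset_closure (Set.mem_insert_of_mem _ rfl)

theorem L3 (a b : ℂ) (h0 : (a * conj b).im ≠ 0) (K : ℝ) (ha : ‖a‖ ≤ K) (hb : ‖b‖ ≤ K) :
    ∃ a' b' : ℂ, AddSubgroup.closure {a', b'} = AddSubgroup.closure {a, b} ∧ ‖a'‖ ≤ K ∧ ‖b'‖ ≤ K ∧
      (a' * conj b').im ≠ 0 ∧ 0 ≤ (a' * conj b').re ∧
      2 * (a' * conj b').re ≤ Complex.normSq a' ∧ 2 * (a' * conj b').re ≤ Complex.normSq b' := by
  have hfin := L3_fin a b h0 K ha hb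
  have hP : {p : ℂ × ℂ | AddSubgroup.closure {p.1, p.2} = AddSubgroup.closure {a, b} ∧
      ‖p.1‖ ≤ K ∧ ‖p.2‖ ≤ K}.Finite := by
    apply Set.Finite.subset (hfin.prod hfin)
    rintro ⟨x, y⟩ ⟨h1, h2, h3⟩
    refine ⟨⟨?_, h2⟩, ⟨?_, h3⟩⟩
    · rw [← h1]
      exact L3_l x y
    · rw [← h1]
      exact L3_r x y
  obtain ⟨⟨x, y⟩, ⟨h1, h2, h3⟩, hmin⟩ := Set.exists_min_image _
    (fun p : ℂ × ℂ => Complex.normSq p.1 + Complex.normSq p.2) hP ⟨(a, b), rfl, ha, hb⟩
  simp only at h1 h2 h3 hmin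
  have him : (x * conj y).im ≠ 0 := by
    intro hz
    apply h0
    have e1 : a ∈ AddSubgroup.closure {x, y} := by
      rw [h1]
      exact L3_l a b
    have e2 : b ∈ AddSubgroup.closure {x, y} := by
      rw [h1]
      exact L3_r a b
    rw [AddSubgroup.mem_closure_pair] at e1 e2
    obtain ⟨m, n, rfl⟩ := e1
    obtain ⟨p, q, rfl⟩ := e2
    have : ((m • x + n • y) * conj (p • x + q • y)).im = (m * q - n * p) * (x * conj y).im := by
      simp [zsmul_eq_mul]
      ring
    rw [this, hz, mul_zero]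
  have A1 : 2 * (x * conj y).re ≤ Complex.normSq x := by
    by_contra hc
    push Not at hc
    have e : Complex.normSq (y - x) =
        Complex.normSq y + Complex.normSq x - 2 * (x * conj y).re := by
      simp [Complex.normSq_apply]
      ring
    have hlt : Complex.normSq (y - x) < Complex.normSq y := by linarith
    have hcl : AddSubgroup.closure {x, y - x} = AddSubgroup.closure {a, b} := by
      rw [← h1]
      refine L3_cl _ _ _ _ (L3_l _ _) (sub_mem (L3_r _ _) (L3_l _ _)) (L3_l _ _) ?_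
      have := add_mem (L3_r x (y - x)) (L3_l x (y - x))
      rwa [sub_add_cancel] at this
    have := hmin (x, y - x) ⟨hcl, h2, (L3_norm _ _ hlt.le).trans h3⟩
    simp only at this
    linarith
  have A2 : -(2 * (x * conj y).re) ≤ Complex.normSq x := by
    by_contra hc
    push Not at hc
    have e : Complex.normSq (y + x) =
        Complex.normSq y + Complex.normSq x + 2 * (x * conj y).re := by
      simp [Complex.normSq_apply]
      ring
    have hlt : Complex.normSq (y + x) < Complex.normSq y := by linarith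
    have hcl : AddSubgroup.closure {x, y + x} = AddSubgroup.closure {a, b} := by
      rw [← h1]
      refine L3_cl _ _ _ _ (L3_l _ _) (add_mem (L3_r _ _) (L3_l _ _)) (L3_l _ _) ?_
      have := sub_mem (L3_r x (y + x)) (L3_l x (y + x))
      rwa [add_sub_cancel_right] at this
    have := hmin (x, y + x) ⟨hcl, h2, (L3_norm _ _ hlt.le).trans h3⟩
    simp only at this
    linarith
  have A3 : 2 * (x * conj y).re ≤ Complex.normSq y := by
    by_contra hc
    push Not at hc
    have e : Complex.normSq (x - y) =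
        Complex.normSq x + Complex.normSq y - 2 * (x * conj y).re := by
      simp [Complex.normSq_apply]
      ring
    have hlt : Complex.normSq (x - y) < Complex.normSq x := by linarith
    have hcl : AddSubgroup.closure {x - y, y} = AddSubgroup.closure {a, b} := by
      rw [← h1]
      refine L3_cl _ _ _ _ (sub_mem (L3_l _ _) (L3_r _ _)) (L3_r _ _) ?_ (L3_r _ _)
      have := add_mem (L3_l (x - y) y) (L3_r (x - y) y)
      rwa [sub_add_cancel] at this
    have := hmin (x - y, y) ⟨hcl, (L3_norm _ _ hlt.le).trans h2, h3⟩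
    simp only at this
    linarith
  have A4 : -(2 * (x * conj y).re) ≤ Complex.normSq y := by
    by_contra hc
    push Not at hc
    have e : Complex.normSq (x + y) =
        Complex.normSq x + Complex.normSq y + 2 * (x * conj y).re := by
      simp [Complex.normSq_apply]
      ring
    have hlt : Complex.normSq (x + y) < Complex.normSq x := by linarith
    have hcl : AddSubgroup.closure {x + y, y} = AddSubgroup.closure {a, b} := by
      rw [← h1]
      refine L3_cl _ _ _ _ (add_mem (L3_l _ _) (L3_r _ _)) (L3_r _ _) ?_ (L3_r _ _)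
      have := sub_mem (L3_l (x + y) y) (L3_r (x + y) y)
      rwa [add_sub_cancel_right] at this
    have := hmin (x + y, y) ⟨hcl, (L3_norm _ _ hlt.le).trans h2, h3⟩
    simp only at this
    linarith
  rcases le_total 0 (x * conj y).re with hr | hr
  · exact ⟨x, y, h1, h2, h3, him, hr, A1, A3⟩
  · have e1 : (x * conj (-y)).re = -(x * conj y).re := by simp
    have e2 : (x * conj (-y)).im = -(x * conj y).im := by simp
    refine ⟨x, -y, ?_, h2, by rwa [norm_neg], ?_, ?_, ?_, ?_⟩
    · rw [← h1]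
      refine L3_cl _ _ _ _ (L3_l _ _) (neg_mem (L3_r _ _)) (L3_l _ _) ?_
      have := neg_mem (L3_r x (-y))
      rwa [neg_neg] at this
    · rw [e2]
      exact neg_ne_zero.2 him
    · rw [e1]
      linarith
    · rw [e1]
      linarith
    · rw [e1, Complex.normSq_neg]
      linarith


end Pool.Agent.Helper331.FT
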