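import Pool.Agent.Helper331.FT.Defs
import Pool.Agent.Helper331.FT.P8
import Pool.Agent.Helper331.FT.Q1
import Pool.Agent.Helper331.FT.Q4
import Pool.Agent.Helper331.FT.R1
set_option autoImplicit false
open scoped ContDiff ComplexConjugate
open Set MeasureTheory intervalIntegral

namespace Pool.Agent.Helper331.FT

theorem R2_exp (s t : ℝ) (x : ℂ) :
    Complex.exp ((s : ℂ) * Complex.I) * (Complex.exp ((t : ℂ) * Complex.I) * x) =
      Complex.exp (((s + t : ℝ) : ℂ) * Complex.I) * x := by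
  rw [← mul_assoc, ← Complex.exp_add]
  congr 2
  push_cast
  ring

theorem R2_norm (s : ℝ) : Complex.normSq (Complex.exp ((s : ℂ) * Complex.I)) = 1 := by
  rw [Complex.normSq_eq_norm_sq, Complex.norm_exp_ofReal_mul_I, one_pow]

theorem R2 (a b φ β x₁ x₂ : ℝ) (ha : 0 < a) (hb : 0 < b) (ha2 : a ≤ 2 * Real.pi) (hb2 : b ≤ 2 * Real.pi)
    (hx₁ : 0 ≤ x₁) (hx₂ : 0 ≤ x₂) (hβ2 : β ≤ Real.pi / 2)
    (hca : 2 * Real.pi * Real.cos x₂ = a) (hcb : 2 * Real.pi * Real.cos x₁ = b)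
    (hx₁' : x₁ < Real.pi / 2) (hx₂' : x₂ < Real.pi / 2) (hlt : x₁ + x₂ < β) :
    ImmC ((b : ℂ) * Complex.exp (((φ + β : ℝ) : ℂ) * Complex.I))
      ((a : ℂ) * Complex.exp ((φ : ℂ) * Complex.I)) := by
  have hpi := Real.pi_pos
  obtain ⟨d₁, hd₁⟩ : ∃ d₁ : ℝ, d₁ = x₁ + (β - x₁ - x₂) / 2 := ⟨_, rfl⟩
  obtain ⟨d₂, hd₂⟩ : ∃ d₂ : ℝ, d₂ = x₂ + (β - x₁ - x₂) / 2 := ⟨_, rfl⟩
  have hsum : d₁ + d₂ = β := by rw [hd₁, hd₂]; ring
  have h1 : x₁ < d₁ := by rw [hd₁]; linarith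
  have h2 : x₂ < d₂ := by rw [hd₂]; linarith
  have h10 : 0 < d₁ := by linarith
  have h20 : 0 < d₂ := by linarith
  have h1p : d₁ < Real.pi / 2 := by linarith
  have h2p : d₂ < Real.pi / 2 := by linarith
  have hc1 : 2 * Real.pi * Real.cos d₁ < b := by
    rw [← hcb]
    exact mul_lt_mul_of_pos_left (Real.cos_lt_cos_of_nonneg_of_le_pi hx₁ (by linarith) h1)
      (by positivity)
  have hc2 : 2 * Real.pi * Real.cos d₂ < a := by
    rw [← hca]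
    exact mul_lt_mul_of_pos_left (Real.cos_lt_cos_of_nonneg_of_le_pi hx₂ (by linarith) h2)
      (by positivity)
  obtain ⟨z₁, w₁, ξ₁, hC₁, hI₁, hA₁⟩ := P8 b d₁ hb hb2 h10 h1p hc1
  obtain ⟨z₂, w₂, ξ₂, hC₂, hI₂, hA₂⟩ := P8 a d₂ ha ha2 h20 h2p hc2
  have hR₁ := Q1 z₁ w₁ ξ₁ hC₁ _ (R2_norm (φ + β))
  have hR₂ := Q1 z₂ w₂ ξ₂ hC₂ _ (R2_norm φ)
  have key := Q4 _ _ _ _ _ _ hR₁ hR₂ (Complex.exp (((-(d₂ + φ) : ℝ) : ℂ) * Complex.I))
    (Complex.exp (((d₂ - φ : ℝ) : ℂ) * Complex.I)) ?_ ?_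
  · have e1 : (∫ t in (0:ℝ)..(2 * Real.pi), Complex.exp (((φ + β : ℝ) : ℂ) * Complex.I) * ξ₁ t) =
        (b : ℂ) * Complex.exp (((φ + β : ℝ) : ℂ) * Complex.I) := by
      rw [intervalIntegral.integral_const_mul, hI₁, mul_comm]
    have e2 : (∫ t in (0:ℝ)..(2 * Real.pi), Complex.exp ((φ : ℂ) * Complex.I) * ξ₂ t) =
        (a : ℂ) * Complex.exp ((φ : ℂ) * Complex.I) := by
      rw [intervalIntegral.integral_const_mul, hI₂, mul_comm]
    rw [e1, e2] at key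
    exact key
  · intro t
    constructor
    · rw [R2_exp]
      have e : -(d₂ + φ) + (φ + β) = d₁ := by linarith
      rw [e]
      exact (R1 d₁ d₁ _ h10 h1p le_rfl (by linarith) (hA₁ t).1 (hA₁ t).2).1
    · rw [R2_exp]
      have e : -(d₂ + φ) + φ = -d₂ := by ring
      rw [e]
      exact (R1 d₂ d₂ _ h20 h2p le_rfl (by linarith) (hA₂ t).1 (hA₂ t).2).2
  · intro t
    constructor
    · rw [R2_exp]
      have e : d₂ - φ + (φ + β) = d₂ + β := by ring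
      rw [e]
      exact (R1 d₁ (d₂ + β) _ h10 h1p (by linarith) (by linarith) (hA₁ t).1 (hA₁ t).2).1
    · rw [R2_exp]
      have e : d₂ - φ + φ = d₂ := by ring
      rw [e]
      exact (R1 d₂ d₂ _ h20 h2p le_rfl (by linarith) (hA₂ t).1 (hA₂ t).2).1


end Pool.Agent.Helper331.FT
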