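import Pool.Agent.Helper331.FT.Defs
set_option autoImplicit false
open scoped ContDiff ComplexConjugate
open Set MeasureTheory intervalIntegral

namespace Pool.Agent.Helper331.FT

theorem R3 (A B β x₁ x₂ : ℝ) (hβ : 0 < β) (hβ2 : β ≤ Real.pi / 2) (hx₁ : 0 ≤ x₁) (hx₁' : x₁ < Real.pi / 2)
    (hx₂ : 0 ≤ x₂) (hx₂' : x₂ < Real.pi / 2) (hA : Real.cos x₁ = A) (hB : Real.cos x₂ = B)
    (h1 : Real.sin β ^ 2 < A ^ 2 + B ^ 2 - 2 * A * B * Real.cos β)
    (h2 : B * Real.cos β ≤ A) (h3 : A * Real.cos β ≤ B) : x₁ + x₂ < β := by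
  have hpi := Real.pi_pos
  have hsb : 0 ≤ Real.sin β := Real.sin_nonneg_of_nonneg_of_le_pi hβ.le (by linarith)
  have hs1 : 0 ≤ Real.sin x₁ := Real.sin_nonneg_of_nonneg_of_le_pi hx₁ (by linarith)
  have hs2 : 0 ≤ Real.sin x₂ := Real.sin_nonneg_of_nonneg_of_le_pi hx₂ (by linarith)
  have e2 := Real.sin_sq_add_cos_sq x₂
  have eb := Real.sin_sq_add_cos_sq β
  rw [hB] at e2
  have key : Real.sin β * Real.sin x₂ < A - B * Real.cos β := by
    apply lt_of_pow_lt_pow_left₀ 2 (by linarith)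
    have e3 : (Real.sin β * Real.sin x₂) ^ 2 = Real.sin β ^ 2 * (1 - B ^ 2) := by
      rw [mul_pow]; congr 1; linarith
    have e4 : (A - B * Real.cos β) ^ 2
        = A ^ 2 + B ^ 2 - 2 * A * B * Real.cos β - B ^ 2 * Real.sin β ^ 2 := by
      have : Real.cos β ^ 2 = 1 - Real.sin β ^ 2 := by linarith
      calc (A - B * Real.cos β) ^ 2 = A ^ 2 - 2 * A * B * Real.cos β + B ^ 2 * Real.cos β ^ 2 := by ring
        _ = _ := by rw [this]; ring
    rw [e3, e4]
    nlinarith
  have hlt : Real.cos (β - x₂) < Real.cos x₁ := by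
    rw [Real.cos_sub, hA, hB]
    nlinarith
  rcases le_total x₂ β with h | h
  · by_contra hcon
    push Not at hcon
    have : Real.cos x₁ ≤ Real.cos (β - x₂) :=
      Real.cos_le_cos_of_nonneg_of_le_pi (by linarith) (by linarith) (by linarith)
    linarith
  · exfalso
    have hx : x₁ < x₂ - β := by
      by_contra hcon
      push Not at hcon
      have h5 : Real.cos x₁ ≤ Real.cos (x₂ - β) :=
        Real.cos_le_cos_of_nonneg_of_le_pi (by linarith) (by linarith) (by linarith)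
      have h6 : Real.cos (β - x₂) = Real.cos (x₂ - β) := by
        rw [← Real.cos_neg]; congr 1; ring
      linarith
    have h7 : Real.cos x₂ < Real.cos (x₁ + β) :=
      Real.cos_lt_cos_of_nonneg_of_le_pi (by linarith) (by linarith) (by linarith)
    rw [Real.cos_add, hA, hB] at h7
    nlinarith [mul_nonneg hs1 hsb]


end Pool.Agent.Helper331.FT
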