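import Pool.Agent.Helper331.FT.Defs
import Pool.Agent.Helper331.FT.R2
import Pool.Agent.Helper331.FT.R3
set_option autoImplicit false
open scoped ContDiff ComplexConjugate
open Set MeasureTheory intervalIntegral

namespace Pool.Agent.Helper331.FT

theorem R4_symm (a b : ℂ) (h : ImmC a b) : ImmC b a := by
  obtain ⟨F₁, F₂, h1, h2, h3, h4, h5, h6⟩ := h
  exact ⟨F₁, F₂, h1, h2, h3, h4, h6, h5⟩

theorem R4_real (P A B β : ℝ) (hP : 0 < P) (hA : 0 < A) (hB : 0 < B) (n : ℝ) (hn : 0 ≤ n)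
    (hs : 0 ≤ Real.sin β) (hn2 : n ^ 2 = B ^ 2 + A ^ 2 - 2 * (B * A * Real.cos β))
    (hR : P * (B * A * Real.sin β) < A * B * n) :
    Real.sin β ^ 2 < (B / P) ^ 2 + (A / P) ^ 2 - 2 * (B / P) * (A / P) * Real.cos β := by
  have h1 : P * Real.sin β < n := by
    have h2 : (A * B) * (P * Real.sin β) < (A * B) * n := by
      calc (A * B) * (P * Real.sin β) = P * (B * A * Real.sin β) := by ring
        _ < A * B * n := hR
    exact lt_of_mul_lt_mul_left h2 (mul_nonneg hA.le hB.le)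
  have h3 : (P * Real.sin β) ^ 2 < n ^ 2 := pow_lt_pow_left₀ h1 (mul_nonneg hP.le hs) two_ne_zero
  have e : (B / P) ^ 2 + (A / P) ^ 2 - 2 * (B / P) * (A / P) * Real.cos β = n ^ 2 / P ^ 2 := by
    rw [hn2]
    field_simp
  rw [e, lt_div_iff₀ (by positivity)]
  calc Real.sin β ^ 2 * P ^ 2 = (P * Real.sin β) ^ 2 := by ring
    _ < n ^ 2 := h3

theorem R4_main (a b : ℂ) (ha : ‖a‖ ≤ 2 * Real.pi) (hb : ‖b‖ ≤ 2 * Real.pi)
    (h0 : 0 < (b * conj a).im)
    (hi0 : 0 ≤ (b * conj a).re) (hi1 : (b * conj a).re ≤ Complex.normSq a)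
    (hi2 : (b * conj a).re ≤ Complex.normSq b)
    (hR : 2 * Real.pi * (b * conj a).im < ‖a‖ * ‖b‖ * ‖b - a‖) :
    ImmC b a := by
  have hπ := Real.pi_pos
  have ha0 : a ≠ 0 := by
    rintro rfl
    simp at h0
  have hb0 : b ≠ 0 := by
    rintro rfl
    simp at h0
  have hna : 0 < ‖a‖ := norm_pos_iff.mpr ha0
  have hnb : 0 < ‖b‖ := norm_pos_iff.mpr hb0
  have hz : ‖b * conj a‖ = ‖b‖ * ‖a‖ := by rw [norm_mul, Complex.norm_conj]
  have hre := Complex.norm_mul_cos_arg (b * conj a)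
  have him := Complex.norm_mul_sin_arg (b * conj a)
  have hexp := Complex.norm_mul_exp_arg_mul_I (b * conj a)
  have hβ0 : 0 < Complex.arg (b * conj a) := by
    rcases (Complex.arg_nonneg_iff.mpr h0.le).lt_or_eq with h | h
    · exact h
    · exfalso
      rw [← h, Real.sin_zero, mul_zero] at him
      linarith
  have hβ2 : Complex.arg (b * conj a) ≤ Real.pi / 2 :=
    (abs_le.mp (Complex.abs_arg_le_pi_div_two_iff.mpr hi0)).2
  have hN : Complex.normSq (b - a) = Complex.normSq b + Complex.normSq a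
      - 2 * (b * conj a).re := Complex.normSq_sub b a
  generalize hβ : Complex.arg (b * conj a) = β at *
  rw [hz] at hre him
  have e1 := Complex.norm_mul_exp_arg_mul_I a
  generalize Complex.arg a = φ at e1
  have hbexp : (‖b‖ : ℂ) * Complex.exp (((φ + β : ℝ) : ℂ) * Complex.I) = b := by
    have hna2 : ((‖a‖ : ℂ) ^ 2) ≠ 0 := pow_ne_zero _ (by exact_mod_cast hna.ne')
    apply mul_left_cancel₀ hna2
    calc (‖a‖ : ℂ) ^ 2 * ((‖b‖ : ℂ) * Complex.exp (((φ + β : ℝ) : ℂ) * Complex.I))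
        = ((‖a‖ : ℂ) * Complex.exp ((φ : ℂ) * Complex.I))
          * (((‖b‖ * ‖a‖ : ℝ) : ℂ) * Complex.exp ((β : ℂ) * Complex.I)) := by
          push_cast
          rw [add_mul, Complex.exp_add]
          ring
      _ = a * (b * conj a) := by rw [e1, ← hz, hexp]
      _ = (‖a‖ : ℂ) ^ 2 * b := by
          have h2 : a * conj a = (‖a‖ : ℂ) ^ 2 := by
            rw [Complex.mul_conj, Complex.normSq_eq_norm_sq]
            push_cast
            rfl
          rw [← h2]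
          ring
  have hca1 : ‖a‖ / (2 * Real.pi) ≤ 1 := (div_le_one (by positivity)).mpr ha
  have hcb1 : ‖b‖ / (2 * Real.pi) ≤ 1 := (div_le_one (by positivity)).mpr hb
  have hca0 : 0 < ‖a‖ / (2 * Real.pi) := by positivity
  have hcb0 : 0 < ‖b‖ / (2 * Real.pi) := by positivity
  have hx1 : Real.cos (Real.arccos (‖b‖ / (2 * Real.pi))) = ‖b‖ / (2 * Real.pi) :=
    Real.cos_arccos (by linarith) hcb1
  have hx2 : Real.cos (Real.arccos (‖a‖ / (2 * Real.pi))) = ‖a‖ / (2 * Real.pi) :=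
    Real.cos_arccos (by linarith) hca1
  have hx1' : Real.arccos (‖b‖ / (2 * Real.pi)) < Real.pi / 2 := Real.arccos_lt_pi_div_two.mpr hcb0
  have hx2' : Real.arccos (‖a‖ / (2 * Real.pi)) < Real.pi / 2 := Real.arccos_lt_pi_div_two.mpr hca0
  rw [Complex.normSq_eq_norm_sq] at hi1 hi2
  rw [Complex.normSq_eq_norm_sq, Complex.normSq_eq_norm_sq, Complex.normSq_eq_norm_sq, ← hre] at hN
  have hsin : 0 ≤ Real.sin β := Real.sin_nonneg_of_nonneg_of_le_pi hβ0.le (by linarith)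
  have h1 := R4_real (2 * Real.pi) ‖a‖ ‖b‖ β (by positivity) hna hnb ‖b - a‖ (norm_nonneg _) hsin
    hN (by rw [him]; exact hR)
  have h2 : ‖a‖ / (2 * Real.pi) * Real.cos β ≤ ‖b‖ / (2 * Real.pi) := by
    rw [div_mul_eq_mul_div]
    refine div_le_div_of_nonneg_right ?_ (by positivity)
    have : ‖b‖ * (‖a‖ * Real.cos β) ≤ ‖b‖ * ‖b‖ := by
      calc ‖b‖ * (‖a‖ * Real.cos β) = ‖b‖ * ‖a‖ * Real.cos β := by ring
        _ = (b * conj a).re := hre
        _ ≤ ‖b‖ ^ 2 := hi2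
        _ = ‖b‖ * ‖b‖ := by ring
    exact le_of_mul_le_mul_left this hnb
  have h3 : ‖b‖ / (2 * Real.pi) * Real.cos β ≤ ‖a‖ / (2 * Real.pi) := by
    rw [div_mul_eq_mul_div]
    refine div_le_div_of_nonneg_right ?_ (by positivity)
    have : ‖a‖ * (‖b‖ * Real.cos β) ≤ ‖a‖ * ‖a‖ := by
      calc ‖a‖ * (‖b‖ * Real.cos β) = ‖b‖ * ‖a‖ * Real.cos β := by ring
        _ = (b * conj a).re := hre
        _ ≤ ‖a‖ ^ 2 := hi1
        _ = ‖a‖ * ‖a‖ := by ring
    exact le_of_mul_le_mul_left this hna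
  have hlt := R3 (‖b‖ / (2 * Real.pi)) (‖a‖ / (2 * Real.pi)) β
    (Real.arccos (‖b‖ / (2 * Real.pi))) (Real.arccos (‖a‖ / (2 * Real.pi))) hβ0 hβ2
    (Real.arccos_nonneg _) hx1' (Real.arccos_nonneg _) hx2' hx1 hx2 h1 h2 h3
  have hfin := R2 ‖a‖ ‖b‖ φ β (Real.arccos (‖b‖ / (2 * Real.pi)))
    (Real.arccos (‖a‖ / (2 * Real.pi))) hna hnb ha hb (Real.arccos_nonneg _)
    (Real.arccos_nonneg _) hβ2 (by rw [hx2]; field_simp) (by rw [hx1]; field_simp)
    hx1' hx2' hlt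
  rw [hbexp, e1] at hfin
  exact hfin

theorem R4 (a b : ℂ) (ha : ‖a‖ ≤ 2 * Real.pi) (hb : ‖b‖ ≤ 2 * Real.pi)
    (h0 : (a * conj b).im ≠ 0)
    (hi0 : 0 ≤ (a * conj b).re) (hi1 : (a * conj b).re ≤ Complex.normSq a)
    (hi2 : (a * conj b).re ≤ Complex.normSq b)
    (hR : 2 * Real.pi * |(a * conj b).im| < ‖a‖ * ‖b‖ * ‖a - b‖) :
    ImmC a b := by
  have hc : b * conj a = conj (a * conj b) := by
    rw [map_mul, Complex.conj_conj, mul_comm]
  have hre : (b * conj a).re = (a * conj b).re := by rw [hc, Complex.conj_re]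
  have him : (b * conj a).im = -(a * conj b).im := by rw [hc, Complex.conj_im]
  rcases lt_or_gt_of_ne h0 with h | h
  · refine R4_symm _ _ (R4_main a b ha hb ?_ ?_ ?_ ?_ ?_)
    · rw [him]; linarith
    · rw [hre]; exact hi0
    · rw [hre]; exact hi1
    · rw [hre]; exact hi2
    · rw [him, norm_sub_rev]
      rw [abs_of_neg h] at hR
      exact hR
  · refine R4_main b a hb ha h hi0 hi2 hi1 ?_
    rw [abs_of_pos h] at hR
    rw [mul_comm ‖b‖ ‖a‖]
    exact hR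


end Pool.Agent.Helper331.FT
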