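import Pool.Agent.Helper331.FT.Defs
import Pool.Agent.Helper331.FT.R4
import Pool.Agent.Helper331.FT.L1
import Pool.Agent.Helper331.FT.L2
import Pool.Agent.Helper331.FT.L3
set_option autoImplicit false
open scoped ContDiff ComplexConjugate
open Set MeasureTheory intervalIntegral

namespace Pool.Agent.Helper331.FT

theorem L4_map (a b c : ℂ) (h : c ∈ AddSubgroup.closure ({a, b} : Set ℂ)) :
    (Complex.orthonormalBasisOneI.repr c : EuclideanSpace ℝ (Fin 2)) ∈
      AddSubgroup.closure {(Complex.orthonormalBasisOneI.repr a : EuclideanSpace ℝ (Fin 2)),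
      Complex.orthonormalBasisOneI.repr b} := by
  let f : ℂ →+ EuclideanSpace ℝ (Fin 2) :=
    { toFun := fun x => Complex.orthonormalBasisOneI.repr x
      map_zero' := map_zero _
      map_add' := fun x y => map_add _ x y }
  have h1 : f c ∈ (AddSubgroup.closure ({a, b} : Set ℂ)).map f := ⟨c, h, rfl⟩
  rw [AddMonoidHom.map_closure, Set.image_pair] at h1
  exact h1

theorem L4_im (a b : ℂ) (h : ∀ s t : ℝ, s • a + t • b = 0 → s = 0 ∧ t = 0) : (a * conj b).im ≠ 0 := by
  intro h0
  have h1 : a.im * b.re - a.re * b.im = 0 := by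
    have : (a * conj b).im = a.im * b.re - a.re * b.im := by
      simp [Complex.mul_im]; ring
    rw [← this, h0]
  have h2 := h b.im (-a.im) (by
    apply Complex.ext
    · simp; linarith
    · simp; ring)
  have h3 := h b.re (-a.re) (by
    apply Complex.ext
    · simp; ring
    · simp; linarith)
  have h4 := h 1 0 (by
    apply Complex.ext
    · simp; linarith [h3.2]
    · simp; linarith [h2.2])
  exact one_ne_zero h4.1

theorem L4 (u v : EuclideanSpace ℝ (Fin 2)) (hli : LinearIndependent ℝ ![u, v])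
    (hu : ‖u‖ ≤ 2 * Real.pi) (hv : ‖v‖ ≤ 2 * Real.pi) (hd : ¬ DiamLE u v Real.pi) :
    Immersible u v := by
  have hlp := LinearIndependent.pair_iff.mp hli
  obtain ⟨a0, hau⟩ : ∃ a0 : ℂ, (Complex.orthonormalBasisOneI.repr a0 : EuclideanSpace ℝ (Fin 2)) = u :=
    Complex.orthonormalBasisOneI.repr.surjective u
  obtain ⟨b0, hbv⟩ : ∃ b0 : ℂ, (Complex.orthonormalBasisOneI.repr b0 : EuclideanSpace ℝ (Fin 2)) = v :=
    Complex.orthonormalBasisOneI.repr.surjective v
  have hna : ‖a0‖ ≤ 2 * Real.pi := by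
    rw [← Complex.orthonormalBasisOneI.repr.norm_map a0, hau]; exact hu
  have hnb : ‖b0‖ ≤ 2 * Real.pi := by
    rw [← Complex.orthonormalBasisOneI.repr.norm_map b0, hbv]; exact hv
  have him0 : (a0 * conj b0).im ≠ 0 := by
    apply L4_im
    intro s t hst
    apply hlp
    rw [← hau, ← hbv, ← map_smul, ← map_smul, ← map_add, hst, map_zero]
  obtain ⟨a, b, hcl, ha, hb, him, hre0, hre1, hre2⟩ := L3 a0 b0 him0 (2 * Real.pi) hna hnb
  have hua : u ∈ AddSubgroup.closure {(Complex.orthonormalBasisOneI.repr a : EuclideanSpace ℝ (Fin 2)),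
      Complex.orthonormalBasisOneI.repr b} := by
    rw [← hau]
    apply L4_map
    rw [hcl]
    exact AddSubgroup.subset_closure (by simp)
  have hva : v ∈ AddSubgroup.closure {(Complex.orthonormalBasisOneI.repr a : EuclideanSpace ℝ (Fin 2)),
      Complex.orthonormalBasisOneI.repr b} := by
    rw [← hbv]
    apply L4_map
    rw [hcl]
    exact AddSubgroup.subset_closure (by simp)
  refine L1 a b ?_ u v hua hva
  by_cases hR : ‖a‖ * ‖b‖ * ‖a - b‖ ≤ 2 * Real.pi * |(a * conj b).im|
  · exfalso
    apply hd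
    intro x y
    obtain ⟨c, hc⟩ : ∃ c : ℂ, (Complex.orthonormalBasisOneI.repr c : EuclideanSpace ℝ (Fin 2)) = x - y :=
      Complex.orthonormalBasisOneI.repr.surjective (x - y)
    obtain ⟨m, n, hmn⟩ := L2 a b him Real.pi Real.pi_pos.le hR c
    refine ⟨Complex.orthonormalBasisOneI.repr (m * a + n * b), ?_, ?_⟩
    · rw [← hau, ← hbv]
      apply L4_map
      rw [← hcl]
      apply AddSubgroup.add_mem
      · rw [← zsmul_eq_mul]
        exact AddSubgroup.zsmul_mem _ (AddSubgroup.subset_closure (by simp)) m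
      · rw [← zsmul_eq_mul]
        exact AddSubgroup.zsmul_mem _ (AddSubgroup.subset_closure (by simp)) n
    · rw [← hc, ← map_sub, LinearIsometryEquiv.norm_map]
      exact hmn
  · push Not at hR
    exact R4 a b ha hb him hre0 (by linarith) (by linarith) hR



end Pool.Agent.Helper331.FT
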