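import Pool.Agent.Helper331.FT.Defs
set_option autoImplicit false
open scoped ContDiff ComplexConjugate
open Set MeasureTheory intervalIntegral

namespace Pool.Agent.Helper331.FT

theorem L7 (u v a b : EuclideanSpace ℝ (Fin 2)) (hli : LinearIndependent ℝ ![u, v])
    (h : AddSubgroup.closure {u, v} ≤ AddSubgroup.closure {a, b}) :
    LinearIndependent ℝ ![a, b] := by
  have hu : u ∈ AddSubgroup.closure ({a, b} : Set (EuclideanSpace ℝ (Fin 2))) :=
    h (AddSubgroup.subset_closure (by simp))
  have hv : v ∈ AddSubgroup.closure ({a, b} : Set (EuclideanSpace ℝ (Fin 2))) :=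
    h (AddSubgroup.subset_closure (by simp))
  rw [AddSubgroup.mem_closure_pair] at hu hv
  obtain ⟨m, n, hmn⟩ := hu
  obtain ⟨m', n', hmn'⟩ := hv
  have key : Submodule.span ℝ (Set.range ![u, v]) ≤ Submodule.span ℝ (Set.range ![a, b]) := by
    rw [Submodule.span_le]
    have ha : a ∈ Submodule.span ℝ (Set.range ![a, b]) := Submodule.subset_span ⟨0, rfl⟩
    have hb : b ∈ Submodule.span ℝ (Set.range ![a, b]) := Submodule.subset_span ⟨1, rfl⟩
    rintro x ⟨i, rfl⟩
    fin_cases i
    · show u ∈ Submodule.span ℝ (Set.range ![a, b])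
      rw [← hmn]
      exact Submodule.add_mem _ (zsmul_mem ha m) (zsmul_mem hb n)
    · show v ∈ Submodule.span ℝ (Set.range ![a, b])
      rw [← hmn']
      exact Submodule.add_mem _ (zsmul_mem ha m') (zsmul_mem hb n')
  rw [linearIndependent_iff_card_le_finrank_span]
  rw [linearIndependent_iff_card_le_finrank_span] at hli
  refine hli.trans ?_
  exact Submodule.finrank_mono key


end Pool.Agent.Helper331.FT
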