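import Pool.Agent.Helper331.FT.Defs
import Pool.Agent.Helper331.FT.R9
import Pool.Agent.Helper331.FT.L1
import Pool.Agent.Helper331.FT.L3
import Pool.Agent.Helper331.FT.M5
set_option autoImplicit false
open scoped ContDiff ComplexConjugate
open Set MeasureTheory intervalIntegral

namespace Pool.Agent.Helper331.FT

theorem M6_map (a b x : ℂ) (hx : x ∈ AddSubgroup.closure ({a, b} : Set ℂ)) :
    (Complex.orthonormalBasisOneI.repr x : EuclideanSpace ℝ (Fin 2)) ∈
      AddSubgroup.closure {(Complex.orthonormalBasisOneI.repr a : EuclideanSpace ℝ (Fin 2)),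
        Complex.orthonormalBasisOneI.repr b} := by
  induction hx using AddSubgroup.closure_induction with
  | mem x hx =>
    rcases hx with h | h
    · rw [h]; exact AddSubgroup.subset_closure (by simp)
    · rw [h]; exact AddSubgroup.subset_closure (by simp)
  | zero => rw [map_zero]; exact zero_mem _
  | add x y _ _ hx hy => rw [map_add]; exact add_mem hx hy
  | neg x _ hx => rw [map_neg]; exact neg_mem hx

theorem M6_im (u v : EuclideanSpace ℝ (Fin 2)) (hli : LinearIndependent ℝ ![u, v]) (a b : ℂ)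
    (ha : (Complex.orthonormalBasisOneI.repr a : EuclideanSpace ℝ (Fin 2)) = u)
    (hb : (Complex.orthonormalBasisOneI.repr b : EuclideanSpace ℝ (Fin 2)) = v) :
    (a * conj b).im ≠ 0 := by
  intro h
  rw [LinearIndependent.pair_iff] at hli
  have him : a.im * b.re - a.re * b.im = 0 := by
    simp only [Complex.mul_im, Complex.conj_im, Complex.conj_re] at h
    linarith
  have key : ∀ s t : ℝ, s • a + t • b = 0 → s = 0 ∧ t = 0 := by
    intro s t hst
    apply hli s t
    rw [← ha, ← hb, ← map_smul, ← map_smul, ← map_add, hst, map_zero]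
  have h1 := key b.re (-a.re) (by
    apply Complex.ext
    · simp; ring
    · simp; linarith)
  have h2 := key b.im (-a.im) (by
    apply Complex.ext
    · simp; linarith
    · simp; ring)
  have hb0 : b = 0 := Complex.ext h1.1 h2.1
  have h3 := key 0 1 (by rw [hb0]; simp)
  exact one_ne_zero h3.2

theorem M6 (u v : EuclideanSpace ℝ (Fin 2)) (hli : LinearIndependent ℝ ![u, v])
    (hs : ∀ p ∈ AddSubgroup.closure {u, v}, p ≠ 0 → Real.sqrt 3 * Real.pi < ‖p‖) :
    Immersible u v := by
  obtain ⟨a0, ha0⟩ : ∃ a0 : ℂ, (Complex.orthonormalBasisOneI.repr a0 : EuclideanSpace ℝ (Fin 2)) = u :=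
    ⟨Complex.orthonormalBasisOneI.repr.symm u, LinearIsometryEquiv.apply_symm_apply _ _⟩
  obtain ⟨b0, hb0⟩ : ∃ b0 : ℂ, (Complex.orthonormalBasisOneI.repr b0 : EuclideanSpace ℝ (Fin 2)) = v :=
    ⟨Complex.orthonormalBasisOneI.repr.symm v, LinearIsometryEquiv.apply_symm_apply _ _⟩
  have him := M6_im u v hli a0 b0 ha0 hb0
  obtain ⟨a', b', hcl, -, -, him', hre0, hra, hrb⟩ := L3 a0 b0 him (max ‖a0‖ ‖b0‖)
    (le_max_left _ _) (le_max_right _ _)
  have ha'0 : a' ≠ 0 := by rintro rfl; simp at him'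
  have hb'0 : b' ≠ 0 := by rintro rfl; simp at him'
  have ha'm : a' ∈ AddSubgroup.closure ({a0, b0} : Set ℂ) := by
    rw [← hcl]; exact AddSubgroup.subset_closure (by simp)
  have hb'm : b' ∈ AddSubgroup.closure ({a0, b0} : Set ℂ) := by
    rw [← hcl]; exact AddSubgroup.subset_closure (by simp)
  have hna : Real.sqrt 3 * Real.pi < ‖a'‖ := by
    have h1 := M6_map a0 b0 a' ha'm
    rw [ha0, hb0] at h1
    have h2 := hs _ h1 (by
      intro h; apply ha'0
      exact (LinearIsometryEquiv.map_eq_zero_iff _).1 h)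
    rwa [LinearIsometryEquiv.norm_map] at h2
  have hnb : Real.sqrt 3 * Real.pi < ‖b'‖ := by
    have h1 := M6_map a0 b0 b' hb'm
    rw [ha0, hb0] at h1
    have h2 := hs _ h1 (by
      intro h; apply hb'0
      exact (LinearIsometryEquiv.map_eq_zero_iff _).1 h)
    rwa [LinearIsometryEquiv.norm_map] at h2
  obtain ⟨n1, hn1, hA1, hA2⟩ := M5 _ hna
  obtain ⟨n2, hn2, hB1, hB2⟩ := M5 _ hnb
  have hn1' : (0:ℝ) < n1 := by exact_mod_cast hn1
  have hn2' : (0:ℝ) < n2 := by exact_mod_cast hn2
  obtain ⟨a, ha⟩ : ∃ a : ℂ, a = ((1 / (n1:ℝ) : ℝ) : ℂ) * a' := ⟨_, rfl⟩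
  obtain ⟨b, hb⟩ : ∃ b : ℂ, b = ((1 / (n2:ℝ) : ℝ) : ℂ) * b' := ⟨_, rfl⟩
  have hnorma : ‖a‖ = ‖a'‖ / n1 := by
    rw [ha, norm_mul, Complex.norm_real, Real.norm_of_nonneg (by positivity)]; ring
  have hnormb : ‖b‖ = ‖b'‖ / n2 := by
    rw [hb, norm_mul, Complex.norm_real, Real.norm_of_nonneg (by positivity)]; ring
  have hre : (a * conj b).re = (a' * conj b').re / (n1 * n2) := by
    have : a * conj b = ((1 / (n1:ℝ) * (1 / (n2:ℝ)) : ℝ) : ℂ) * (a' * conj b') := by
      rw [ha, hb, map_mul, Complex.conj_ofReal]; push_cast; ring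
    rw [this, Complex.re_ofReal_mul]
    field_simp
  have h2re : 2 * (a' * conj b').re ≤ ‖a'‖ * ‖b'‖ := by
    rw [Complex.normSq_eq_norm_sq] at hra hrb
    refine le_of_sq_le_sq ?_ (by positivity)
    rw [mul_pow (‖a'‖), pow_two (2 * (a' * conj b').re)]
    exact mul_le_mul hra hrb (by linarith) (by positivity)
  have himm : ImmC a b := by
    refine R9 a b ?_ ?_ ?_ ?_ ?_ ?_
    · rw [hnorma]; exact hA2
    · rw [hnormb]; exact hB2
    · rw [hnorma]; exact hA1
    · rw [hnormb]; exact hB1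
    · rw [hre]; positivity
    · rw [hre, hnorma, hnormb]
      have : ‖a'‖ / n1 * (‖b'‖ / n2) = (‖a'‖ * ‖b'‖) / (n1 * n2) := by field_simp
      rw [this, ← mul_div_assoc]
      gcongr
  have hle : AddSubgroup.closure {(Complex.orthonormalBasisOneI.repr a' : EuclideanSpace ℝ (Fin 2)),
        Complex.orthonormalBasisOneI.repr b'} ≤
      AddSubgroup.closure {(Complex.orthonormalBasisOneI.repr a : EuclideanSpace ℝ (Fin 2)),
        Complex.orthonormalBasisOneI.repr b} := by
    rw [AddSubgroup.closure_le]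
    intro x hx
    rcases hx with h | h
    · have e1 : a' = n1 • a := by
        rw [ha, nsmul_eq_mul, ← mul_assoc]
        have : ((n1:ℂ) * ((1 / (n1:ℝ) : ℝ) : ℂ)) = 1 := by
          push_cast
          have : (n1:ℂ) ≠ 0 := by exact_mod_cast hn1.ne'
          field_simp
        rw [this, one_mul]
      rw [h, e1, map_nsmul]
      exact nsmul_mem (AddSubgroup.subset_closure (by simp)) _
    · have e1 : b' = n2 • b := by
        rw [hb, nsmul_eq_mul, ← mul_assoc]
        have : ((n2:ℂ) * ((1 / (n2:ℝ) : ℝ) : ℂ)) = 1 := by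
          push_cast
          have : (n2:ℂ) ≠ 0 := by exact_mod_cast hn2.ne'
          field_simp
        rw [this, one_mul]
      rw [h, e1, map_nsmul]
      exact nsmul_mem (AddSubgroup.subset_closure (by simp)) _
  have hmu : a0 ∈ AddSubgroup.closure ({a', b'} : Set ℂ) := by
    rw [hcl]; exact AddSubgroup.subset_closure (by simp)
  have hmv : b0 ∈ AddSubgroup.closure ({a', b'} : Set ℂ) := by
    rw [hcl]; exact AddSubgroup.subset_closure (by simp)
  refine L1 a b himm u v ?_ ?_
  · rw [← ha0]; exact hle (M6_map a' b' a0 hmu)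
  · rw [← hb0]; exact hle (M6_map a' b' b0 hmv)


end Pool.Agent.Helper331.FT
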