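import Pool.Agent.Helper331.FT.Defs
import Pool.Agent.Helper331.FT.L2
set_option autoImplicit false
open scoped ContDiff ComplexConjugate
open Set MeasureTheory intervalIntegral

namespace Pool.Agent.Helper331.FT

theorem M7_sq : (Real.sqrt 3 * Real.pi) ^ 2 = 3 * Real.pi ^ 2 := by
  rw [mul_pow, Real.sq_sqrt (by norm_num)]

theorem M7_norm (u v : EuclideanSpace ℝ (Fin 2)) (hu : ‖u‖ = Real.sqrt 3 * Real.pi)
    (hv : ‖v‖ = Real.sqrt 3 * Real.pi) (huv : ‖u - v‖ = Real.sqrt 3 * Real.pi) (x y : ℝ) :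
    ‖x • u + y • v‖ ^ 2 = 3 * Real.pi ^ 2 * (x ^ 2 + x * y + y ^ 2) := by
  have h1 := norm_sub_sq_real u v
  rw [hu, hv, huv, M7_sq] at h1
  rw [norm_add_sq_real, norm_smul, norm_smul, real_inner_smul_left, real_inner_smul_right,
    mul_pow, mul_pow, hu, hv, M7_sq]
  have h2 : inner ℝ u v = 3 * Real.pi ^ 2 / 2 := by linarith
  rw [h2, Real.norm_eq_abs, Real.norm_eq_abs, sq_abs, sq_abs]
  ring

theorem M7_int (u v : EuclideanSpace ℝ (Fin 2)) (hu : ‖u‖ = Real.sqrt 3 * Real.pi)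
    (hv : ‖v‖ = Real.sqrt 3 * Real.pi) (huv : ‖u - v‖ = Real.sqrt 3 * Real.pi) (m n : ℤ) :
    ‖m • u + n • v‖ ^ 2 = 3 * Real.pi ^ 2 * ((m ^ 2 + m * n + n ^ 2 : ℤ) : ℝ) := by
  have := M7_norm u v hu hv huv (m : ℝ) (n : ℝ)
  rw [Int.cast_smul_eq_zsmul, Int.cast_smul_eq_zsmul] at this
  rw [this]
  push_cast
  ring

theorem M7_complex (a b : ℂ) (ha : ‖a‖ = Real.sqrt 3 * Real.pi)
    (hb : ‖b‖ = Real.sqrt 3 * Real.pi) (hab : ‖a - b‖ = Real.sqrt 3 * Real.pi) :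
    |(a * conj b).im| = Real.sqrt 3 / 2 * (3 * Real.pi ^ 2) := by
  have h1 : ‖a‖ ^ 2 = 3 * Real.pi ^ 2 := by rw [ha, M7_sq]
  have h2 : ‖b‖ ^ 2 = 3 * Real.pi ^ 2 := by rw [hb, M7_sq]
  have h3 : ‖a - b‖ ^ 2 = 3 * Real.pi ^ 2 := by rw [hab, M7_sq]
  rw [← Complex.normSq_eq_norm_sq, Complex.normSq_apply] at h1 h2 h3
  rw [Complex.sub_re, Complex.sub_im] at h3
  have hre : a.re * b.re + a.im * b.im = 3 * Real.pi ^ 2 / 2 := by nlinarith
  have him : (a * conj b).im ^ 2 = (Real.sqrt 3 / 2 * (3 * Real.pi ^ 2)) ^ 2 := by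
    have e : (a * conj b).im = a.im * b.re - a.re * b.im := by
      simp [Complex.mul_im]; ring
    rw [e, mul_pow, div_pow, Real.sq_sqrt (by norm_num : (0:ℝ) ≤ 3)]
    have e2 : (a.im * b.re - a.re * b.im) ^ 2 =
        (a.re * a.re + a.im * a.im) * (b.re * b.re + b.im * b.im) -
          (a.re * b.re + a.im * b.im) ^ 2 := by ring
    rw [e2, h1, h2, hre]
    ring
  have h4 := (sq_eq_sq_iff_abs_eq_abs _ _).1 him
  rw [h4]
  exact abs_of_nonneg (by positivity)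

theorem M7_diam (u v : EuclideanSpace ℝ (Fin 2)) (hu : ‖u‖ = Real.sqrt 3 * Real.pi)
    (hv : ‖v‖ = Real.sqrt 3 * Real.pi) (huv : ‖u - v‖ = Real.sqrt 3 * Real.pi) :
    DiamLE u v Real.pi := by
  intro x y
  let e : EuclideanSpace ℝ (Fin 2) ≃ₗᵢ[ℝ] ℂ := Complex.orthonormalBasisOneI.repr.symm
  have ha : ‖e u‖ = Real.sqrt 3 * Real.pi := by rw [e.norm_map, hu]
  have hb : ‖e v‖ = Real.sqrt 3 * Real.pi := by rw [e.norm_map, hv]
  have hab : ‖e u - e v‖ = Real.sqrt 3 * Real.pi := by rw [← map_sub, e.norm_map, huv]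
  have him := M7_complex (e u) (e v) ha hb hab
  have hpos : 0 < |(e u * conj (e v)).im| := by
    rw [him]
    have := Real.pi_pos
    positivity
  obtain ⟨m, n, hmn⟩ := L2 (e u) (e v) (abs_pos.1 hpos) Real.pi Real.pi_pos.le (by
    rw [him, ha, hb, hab]
    refine le_of_eq ?_
    have : Real.sqrt 3 ^ 3 = 3 * Real.sqrt 3 := by
      rw [pow_succ, Real.sq_sqrt (by norm_num)]
    calc Real.sqrt 3 * Real.pi * (Real.sqrt 3 * Real.pi) * (Real.sqrt 3 * Real.pi)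
        = Real.sqrt 3 ^ 3 * Real.pi ^ 3 := by ring
      _ = _ := by rw [this]; ring) (e (x - y))
  refine ⟨m • u + n • v, AddSubgroup.mem_closure_pair.2 ⟨m, n, rfl⟩, ?_⟩
  have h1 : e (x - y - (m • u + n • v)) = e (x - y) - (m * e u + n * e v) := by
    rw [map_sub, map_add, map_zsmul, map_zsmul, zsmul_eq_mul, zsmul_eq_mul]
  rw [← e.norm_map, h1]
  exact hmn

theorem M7 (u v : EuclideanSpace ℝ (Fin 2)) (hu : ‖u‖ = Real.sqrt 3 * Real.pi)
    (hv : ‖v‖ = Real.sqrt 3 * Real.pi) (huv : ‖u - v‖ = Real.sqrt 3 * Real.pi) :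
    LinearIndependent ℝ ![u, v] ∧ DiamLE u v Real.pi ∧
    (∀ p ∈ AddSubgroup.closure {u, v}, p ≠ 0 → Real.sqrt 3 * Real.pi ≤ ‖p‖) ∧
    ¬ ∃ a b : EuclideanSpace ℝ (Fin 2), AddSubgroup.closure {a, b} = AddSubgroup.closure {u, v} ∧
      inner ℝ a b = 0 ∧ ‖a‖ ^ 2 + ‖b‖ ^ 2 = (2 * Real.pi) ^ 2 := by
  have hpi := Real.pi_pos
  refine ⟨?_, M7_diam u v hu hv huv, ?_, ?_⟩
  · rw [LinearIndependent.pair_iff]
    intro x y hxy
    have h := M7_norm u v hu hv huv x y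
    rw [hxy, norm_zero] at h
    have h2 : x ^ 2 + x * y + y ^ 2 = 0 := by
      have h3 : 3 * Real.pi ^ 2 * (x ^ 2 + x * y + y ^ 2) = 0 := by rw [← h]; norm_num
      rcases mul_eq_zero.1 h3 with h4 | h4
      · exact absurd h4 (by positivity)
      · exact h4
    constructor
    · nlinarith [sq_nonneg (x + 2 * y), sq_nonneg x, sq_nonneg y]
    · nlinarith [sq_nonneg (2 * x + y), sq_nonneg x, sq_nonneg y]
  · intro p hp hp0
    obtain ⟨m, n, rfl⟩ := AddSubgroup.mem_closure_pair.1 hp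
    have h := M7_int u v hu hv huv m n
    have h1 : 1 ≤ m ^ 2 + m * n + n ^ 2 := by
      by_contra hlt
      push Not at hlt
      have hm : m = 0 := by nlinarith [sq_nonneg (m + 2 * n), sq_nonneg m, sq_nonneg n]
      have hn : n = 0 := by nlinarith [sq_nonneg (2 * m + n), sq_nonneg m, sq_nonneg n]
      exact hp0 (by simp [hm, hn])
    have h2 : (1 : ℝ) ≤ ((m ^ 2 + m * n + n ^ 2 : ℤ) : ℝ) := by exact_mod_cast h1
    refine le_of_sq_le_sq ?_ (norm_nonneg _)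
    rw [M7_sq, h]
    nlinarith [sq_nonneg Real.pi, mul_pos hpi hpi]
  · rintro ⟨a, b, hcl, -, hab⟩
    have ha : a ∈ AddSubgroup.closure {u, v} := by
      rw [← hcl]; exact AddSubgroup.subset_closure (by simp)
    have hb : b ∈ AddSubgroup.closure {u, v} := by
      rw [← hcl]; exact AddSubgroup.subset_closure (by simp)
    obtain ⟨m, n, rfl⟩ := AddSubgroup.mem_closure_pair.1 ha
    obtain ⟨p, q, rfl⟩ := AddSubgroup.mem_closure_pair.1 hb
    rw [M7_int u v hu hv huv m n, M7_int u v hu hv huv p q] at hab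
    have h1 : Real.pi ^ 2 * (3 * (((m ^ 2 + m * n + n ^ 2 : ℤ) : ℝ) +
        ((p ^ 2 + p * q + q ^ 2 : ℤ) : ℝ)) - 4) = 0 := by
      nlinarith
    have h2 : 3 * (((m ^ 2 + m * n + n ^ 2 : ℤ) : ℝ) + ((p ^ 2 + p * q + q ^ 2 : ℤ) : ℝ)) - 4 = 0 := by
      rcases mul_eq_zero.1 h1 with h | h
      · exact absurd h (by positivity)
      · exact h
    have h3 : 3 * ((m ^ 2 + m * n + n ^ 2) + (p ^ 2 + p * q + q ^ 2)) - 4 = 0 := by
      exact_mod_cast h2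
    omega


end Pool.Agent.Helper331.FT
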