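import Pool.Agent.Helper331.FT.Defs
import Pool.Agent.Helper331.FT.P8
import Pool.Agent.Helper331.FT.G7
import Pool.Agent.Helper331.FT.R8
import Pool.Agent.Helper331.FT.M5
set_option autoImplicit false
open scoped ContDiff ComplexConjugate
open Set MeasureTheory intervalIntegral

namespace Pool.Agent.Helper331.FT

theorem N1_per (a b : ℂ) (n : ℕ) (hn : 0 < n) (h : ImmC a (b / (n : ℂ))) : ImmC a b := by
  obtain ⟨F₁, F₂, h1, h2, h3, h4, h5, h6⟩ := h
  have hn' : (n : ℂ) ≠ 0 := by exact_mod_cast hn.ne'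
  have key : ∀ m : ℕ, ∀ x, F₁ (x + (m : ℂ) * (b / (n : ℂ))) = F₁ x ∧ F₂ (x + (m : ℂ) * (b / (n : ℂ))) = F₂ x := by
    intro m
    induction m with
    | zero => intro x; simp
    | succ m ih =>
      intro x
      have e : x + ((m + 1 : ℕ) : ℂ) * (b / (n : ℂ)) = (x + (m : ℂ) * (b / (n : ℂ))) + b / (n : ℂ) := by
        push_cast; ring
      rw [e]
      exact ⟨(h6 _).1.trans (ih x).1, (h6 _).2.trans (ih x).2⟩
  refine ⟨F₁, F₂, h1, h2, h3, h4, h5, fun x => ?_⟩
  have e : (n : ℂ) * (b / (n : ℂ)) = b := by field_simp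
  have := key n x
  rwa [e] at this

theorem N1_curve (ρ d : ℝ) (h1 : Real.sqrt 3 * Real.pi < ρ) (h2 : ρ ≤ 2 * (Real.sqrt 3 * Real.pi))
    (h3 : Real.pi / 6 < d) (h4 : d < Real.pi / 2) : HasCurve ρ d := by
  have hpi := Real.pi_pos
  have hs3 : Real.sqrt 3 ≤ 2 := by
    rw [Real.sqrt_le_left (by norm_num)]; norm_num
  have hs0 : 0 ≤ Real.sqrt 3 := Real.sqrt_nonneg 3
  rcases le_total ρ (2 * Real.pi) with h | h
  · apply P8 ρ d (lt_of_le_of_lt (by positivity) h1) h (by linarith) h4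
    have hc : Real.cos d < Real.cos (Real.pi / 6) :=
      Real.cos_lt_cos_of_nonneg_of_le_pi (by linarith) (by linarith) h3
    rw [Real.cos_pi_div_six] at hc
    nlinarith
  · apply G7 ρ d h _ h3 h4
    nlinarith

theorem N1 (a b : ℂ) (ha : 13 * Real.pi / 8 ≤ ‖a‖) (ha2 : ‖a‖ ≤ Real.sqrt 3 * Real.pi)
    (hb : 2 * Real.pi < ‖b‖) (hi0 : 0 ≤ (a * conj b).re)
    (hi1 : 2 * (a * conj b).re ≤ Complex.normSq a) : ImmC a b := by
  have hpi := Real.pi_pos
  have ha0 : 0 < ‖a‖ := lt_of_lt_of_le (by positivity) ha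
  have hs3 : Real.sqrt 3 < 1.7321 := by
    rw [Real.sqrt_lt' (by norm_num)]; norm_num
  have hs0 : 1.732 ≤ Real.sqrt 3 := by
    apply Real.le_sqrt_of_sq_le; norm_num
  have hsq3 : Real.sqrt 3 ^ 2 = 3 := Real.sq_sqrt (by norm_num)
  have hbig : Real.sqrt 3 * Real.pi < ‖b‖ := by nlinarith
  obtain ⟨n, hn, hn1, hn2⟩ := M5 ‖b‖ hbig
  have hnR : (0:ℝ) < n := by exact_mod_cast hn
  have hb0 : 0 < ‖b‖ := by linarith
  apply N1_per a b n hn
  have hnb : ‖b / (n : ℂ)‖ = ‖b‖ / n := by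
    rw [norm_div, Complex.norm_natCast]
  have hre : (a * conj (b / (n : ℂ))).re = (a * conj b).re / n := by
    rw [map_div₀, Complex.conj_natCast, ← mul_div_assoc, Complex.div_natCast_re]
  -- the angle of `a`
  obtain ⟨c, hc⟩ : ∃ c : ℝ, c = ‖a‖ / (2 * Real.pi) := ⟨_, rfl⟩
  have hac : ‖a‖ = 2 * Real.pi * c := by rw [hc]; field_simp
  have hc1 : 13 / 16 ≤ c := by
    rw [hc, le_div_iff₀ (by positivity)]; linarith
  have hc2 : c ≤ Real.sqrt 3 / 2 := by
    rw [hc, div_le_iff₀ (by positivity)]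
    calc ‖a‖ ≤ Real.sqrt 3 * Real.pi := ha2
      _ = Real.sqrt 3 / 2 * (2 * Real.pi) := by ring
  have hc3 : c ≤ 1 := by linarith
  have hx0 : 0 ≤ Real.arccos c := Real.arccos_nonneg c
  have hx1 : Real.arccos c ≤ Real.pi / 2 := Real.arccos_le_pi_div_two.2 (by linarith)
  have hcosx : Real.cos (Real.arccos c) = c := Real.cos_arccos (by linarith) hc3
  have hsinx : Real.sin (Real.arccos c) = Real.sqrt (1 - c ^ 2) := Real.sin_arccos c
  have hcs : c / 2 < Real.cos (Real.arccos c + Real.pi / 6) := by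
    rw [Real.cos_add, hcosx, hsinx, Real.cos_pi_div_six, Real.sin_pi_div_six]
    have h1 : Real.sqrt (1 - c ^ 2) < c * (Real.sqrt 3 - 1) := by
      rw [Real.sqrt_lt' (by nlinarith)]
      have e : (c * (Real.sqrt 3 - 1)) ^ 2 = c ^ 2 * (4 - 2 * Real.sqrt 3) := by
        have : (c * (Real.sqrt 3 - 1)) ^ 2 = c ^ 2 * (Real.sqrt 3 ^ 2 - 2 * Real.sqrt 3 + 1) := by ring
        rw [this, hsq3]; ring
      rw [e]
      have hc4 : (13 / 16 : ℝ) ^ 2 ≤ c ^ 2 := pow_le_pow_left₀ (by norm_num) hc1 2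
      nlinarith
    linarith
  have hT : Real.arccos c + Real.pi / 6 < Real.arccos (c / 2) := by
    have h1 : Real.arccos c + Real.pi / 6 = Real.arccos (Real.cos (Real.arccos c + Real.pi / 6)) := by
      rw [Real.arccos_cos (by linarith) (by linarith)]
    rw [h1]
    exact Real.arccos_lt_arccos (by linarith) hcs (Real.cos_le_one _)
  have hT2 : Real.arccos (c / 2) ≤ Real.pi / 2 := Real.arccos_le_pi_div_two.2 (by linarith)
  obtain ⟨e, he⟩ : ∃ e : ℝ, e = (Real.arccos (c / 2) - (Real.arccos c + Real.pi / 6)) / 2 := ⟨_, rfl⟩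
  have he0 : 0 < e := by rw [he]; linarith
  have hsum : (Real.pi / 6 + e) + (Real.arccos c + e) = Real.arccos (c / 2) := by rw [he]; ring
  have hbn : 0 < ‖b‖ / n := by positivity
  refine R8 a (b / (n : ℂ)) (Real.pi / 6 + e) (Real.arccos c + e) (norm_pos_iff.1 ha0)
    (norm_pos_iff.1 (by rw [hnb]; exact hbn)) (by linarith) (by linarith) (by linarith) (by linarith)
    ?_ ?_ ?_ ?_ ?_
  · rw [hnb]
    exact N1_curve _ _ hn2 hn1 (by linarith) (by linarith)
  · apply P8 ‖a‖ _ ha0 (by nlinarith) (by linarith) (by linarith)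
    have h1 : Real.cos (Real.arccos c + e) < Real.cos (Real.arccos c) :=
      Real.cos_lt_cos_of_nonneg_of_le_pi hx0 (by linarith) (by linarith)
    rw [hcosx] at h1
    rw [hac]
    exact mul_lt_mul_of_pos_left h1 (by positivity)
  · rw [hre]; positivity
  · rw [hsum]; exact hT2
  · rw [hsum, Real.cos_arccos (by linarith) (by linarith), hre, hnb]
    have h1 : ‖a‖ * (‖b‖ / n) * (c / 2) = (‖a‖ * ‖b‖ * (c / 2)) / n := by ring
    rw [h1]
    apply div_le_div_of_nonneg_right _ hnR.le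
    have h2 : Complex.normSq a = ‖a‖ ^ 2 := (Complex.sq_norm a).symm
    rw [h2] at hi1
    have h3 : ‖a‖ * ‖a‖ ≤ ‖a‖ * (‖b‖ * c) := by
      apply mul_le_mul_of_nonneg_left _ ha0.le
      rw [hac]
      exact mul_le_mul_of_nonneg_right hb.le (by linarith)
    nlinarith


end Pool.Agent.Helper331.FT
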