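import Pool.Agent.Helper331.FT.Defs
import Pool.Agent.Helper331.FT.L1
import Pool.Agent.Helper331.FT.L3
import Pool.Agent.Helper331.FT.L4
import Pool.Agent.Helper331.FT.R9
import Pool.Agent.Helper331.FT.M5
import Pool.Agent.Helper331.FT.N1
set_option autoImplicit false
open scoped ContDiff ComplexConjugate
open Set MeasureTheory intervalIntegral

namespace Pool.Agent.Helper331.FT

theorem N2_li (a b : ℂ) (h : (a * conj b).im ≠ 0) :
    LinearIndependent ℝ ![(Complex.orthonormalBasisOneI.repr a : EuclideanSpace ℝ (Fin 2)),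
      Complex.orthonormalBasisOneI.repr b] := by
  rw [LinearIndependent.pair_iff]
  intro s t hst
  have h1 : Complex.orthonormalBasisOneI.repr (s • a + t • b) = 0 := by
    rw [map_add, map_smul, map_smul]
    exact hst
  have h2 : s • a + t • b = 0 := by
    have := (LinearIsometryEquiv.map_eq_zero_iff Complex.orthonormalBasisOneI.repr).mp h1
    exact this
  have hD : (a * conj b).im = a.im * b.re - a.re * b.im := by
    simp [Complex.mul_im]
    ring
  rw [hD] at h
  have hre := congrArg Complex.re h2
  have him := congrArg Complex.im h2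
  simp only [Complex.add_re, Complex.add_im, Complex.real_smul, Complex.mul_re, Complex.mul_im,
    Complex.ofReal_re, Complex.ofReal_im, zero_mul, sub_zero, add_zero, Complex.zero_re,
    Complex.zero_im] at hre him
  constructor
  · have : s * (a.im * b.re - a.re * b.im) = 0 := by
      linear_combination b.re * him - b.im * hre
    rcases mul_eq_zero.mp this with h3 | h3
    · exact h3
    · exact absurd h3 h
  · have : t * (a.im * b.re - a.re * b.im) = 0 := by
      linear_combination a.im * hre - a.re * him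
    rcases mul_eq_zero.mp this with h3 | h3
    · exact h3
    · exact absurd h3 h

theorem N2_im (u v : EuclideanSpace ℝ (Fin 2)) (hli : LinearIndependent ℝ ![u, v]) :
    ((Complex.orthonormalBasisOneI.repr.symm u) *
      conj (Complex.orthonormalBasisOneI.repr.symm v)).im ≠ 0 := by
  intro h0
  rw [LinearIndependent.pair_iff] at hli
  set a : ℂ := Complex.orthonormalBasisOneI.repr.symm u with ha
  set b : ℂ := Complex.orthonormalBasisOneI.repr.symm v with hb
  have hu : Complex.orthonormalBasisOneI.repr a = u := LinearIsometryEquiv.apply_symm_apply _ u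
  have hv : Complex.orthonormalBasisOneI.repr b = v := LinearIsometryEquiv.apply_symm_apply _ v
  have hD : (a * conj b).im = a.im * b.re - a.re * b.im := by
    simp [Complex.mul_im]
    ring
  rw [hD] at h0
  have h1 : (b.re ^ 2 + b.im ^ 2) • a + (-(a.re * b.re + a.im * b.im)) • b = 0 := by
    apply Complex.ext
    · simp only [Complex.add_re, Complex.real_smul, Complex.mul_re,
        Complex.ofReal_re, Complex.ofReal_im, zero_mul, sub_zero, Complex.zero_re]
      linear_combination -b.im * h0
    · simp only [Complex.add_im, Complex.real_smul, Complex.mul_im,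
        Complex.ofReal_re, Complex.ofReal_im, zero_mul, add_zero, Complex.zero_im]
      linear_combination b.re * h0
  have h2 : (b.re ^ 2 + b.im ^ 2) • u + (-(a.re * b.re + a.im * b.im)) • v = 0 := by
    have h11 := congrArg Complex.orthonormalBasisOneI.repr h1
    rw [map_zero, map_add, map_smul, map_smul, hu, hv] at h11
    exact h11
  have h3 := (hli _ _ h2).1
  have hbr : b.re = 0 := by nlinarith [sq_nonneg b.re, sq_nonneg b.im]
  have hbi : b.im = 0 := by nlinarith [sq_nonneg b.re, sq_nonneg b.im]
  have hb0 : b = 0 := Complex.ext hbr hbi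
  have hv0 : v = 0 := by rw [← hv, hb0, map_zero]
  have h4 := hli 0 1 (by rw [hv0]; simp)
  exact one_ne_zero h4.2

theorem N2_clo (a b a' b' : ℂ)
    (h : AddSubgroup.closure {a', b'} = AddSubgroup.closure {a, b}) :
    AddSubgroup.closure {(Complex.orthonormalBasisOneI.repr a' : EuclideanSpace ℝ (Fin 2)),
      Complex.orthonormalBasisOneI.repr b'} =
    AddSubgroup.closure {(Complex.orthonormalBasisOneI.repr a : EuclideanSpace ℝ (Fin 2)),
      Complex.orthonormalBasisOneI.repr b} := by
  let f : ℂ →+ EuclideanSpace ℝ (Fin 2) :=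
    (Complex.orthonormalBasisOneI.repr.toLinearEquiv.toLinearMap).toAddMonoidHom
  have hf : ∀ x, f x = Complex.orthonormalBasisOneI.repr x := fun x => rfl
  have h1 := congrArg (AddSubgroup.map f) h
  rw [AddMonoidHom.map_closure, AddMonoidHom.map_closure, Set.image_pair, Set.image_pair] at h1
  exact h1

theorem N2_core (u v : EuclideanSpace ℝ (Fin 2))
    (hs : ∀ p ∈ AddSubgroup.closure {u, v}, p ≠ 0 → 13 * Real.pi / 8 ≤ ‖p‖)
    (hd : ¬ DiamLE u v Real.pi) (a b : ℂ)
    (hcl : AddSubgroup.closure {(Complex.orthonormalBasisOneI.repr a : EuclideanSpace ℝ (Fin 2)),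
      Complex.orthonormalBasisOneI.repr b} = AddSubgroup.closure {u, v})
    (him : (a * conj b).im ≠ 0) (hre : 0 ≤ (a * conj b).re)
    (h1 : 2 * (a * conj b).re ≤ Complex.normSq a) (hab : ‖a‖ ≤ ‖b‖) : Immersible u v := by
  have hpi := Real.pi_pos
  have ha0 : a ≠ 0 := by
    rintro rfl
    simp at him
  have hb0 : b ≠ 0 := by
    rintro rfl
    simp at him
  have hu : u ∈ AddSubgroup.closure {(Complex.orthonormalBasisOneI.repr a : EuclideanSpace ℝ (Fin 2)),
      Complex.orthonormalBasisOneI.repr b} := by
    rw [hcl]; exact AddSubgroup.subset_closure (by simp)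
  have hv : v ∈ AddSubgroup.closure {(Complex.orthonormalBasisOneI.repr a : EuclideanSpace ℝ (Fin 2)),
      Complex.orthonormalBasisOneI.repr b} := by
    rw [hcl]; exact AddSubgroup.subset_closure (by simp)
  have hna : 13 * Real.pi / 8 ≤ ‖a‖ := by
    have h2 := hs (Complex.orthonormalBasisOneI.repr a)
      (by rw [← hcl]; exact AddSubgroup.subset_closure (by simp))
      (by
        intro h0
        exact ha0 ((LinearIsometryEquiv.map_eq_zero_iff Complex.orthonormalBasisOneI.repr).mp h0))
    rwa [LinearIsometryEquiv.norm_map] at h2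
  rcases le_or_gt ‖b‖ (2 * Real.pi) with hb | hb
  · have h3 : Immersible (Complex.orthonormalBasisOneI.repr a) (Complex.orthonormalBasisOneI.repr b) := by
      apply L4
      · exact N2_li a b him
      · rw [LinearIsometryEquiv.norm_map]; linarith
      · rw [LinearIsometryEquiv.norm_map]; exact hb
      · intro h4
        apply hd
        intro x y
        obtain ⟨p, hp, hp2⟩ := h4 x y
        rw [hcl] at hp
        exact ⟨p, hp, hp2⟩
    obtain ⟨F, hF1, hF2, hF3, hF4⟩ := h3
    refine ⟨F, hF1, hF2, hF3, fun x p hp => hF4 x p ?_⟩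
    rw [hcl]
    exact hp
  · rcases le_or_gt ‖a‖ (Real.sqrt 3 * Real.pi) with ha | ha
    · exact L1 a b (N1 a b hna ha hb hre h1) u v hu hv
    · obtain ⟨n1, hn1, hn1a, hn1b⟩ := M5 ‖a‖ ha
      obtain ⟨n2, hn2, hn2a, hn2b⟩ := M5 ‖b‖ (lt_of_lt_of_le ha hab)
      have hn1' : (0:ℝ) < (n1:ℝ) := by exact_mod_cast hn1
      have hn2' : (0:ℝ) < (n2:ℝ) := by exact_mod_cast hn2
      have hna' : ‖a / (n1 : ℂ)‖ = ‖a‖ / n1 := by simp
      have hnb' : ‖b / (n2 : ℂ)‖ = ‖b‖ / n2 := by simp
      have hmul : (a / (n1 : ℂ)) * conj (b / (n2 : ℂ)) = (((n1 : ℝ) * (n2 : ℝ))⁻¹ : ℝ) * (a * conj b) := by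
        rw [map_div₀]
        simp only [Complex.conj_natCast]
        push_cast
        rw [mul_inv]
        ring
      have hre' : ((a / (n1 : ℂ)) * conj (b / (n2 : ℂ))).re
          = ((n1 : ℝ) * (n2 : ℝ))⁻¹ * (a * conj b).re := by
        rw [hmul, Complex.re_ofReal_mul]
      have h2 : 2 * (a * conj b).re ≤ ‖a‖ * ‖b‖ := by
        rw [Complex.normSq_eq_norm_sq] at h1
        nlinarith [norm_nonneg a]
      have h3 : ImmC (a / (n1 : ℂ)) (b / (n2 : ℂ)) := by
        apply R9
        · rw [hna']; exact hn1b
        · rw [hnb']; exact hn2b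
        · rw [hna']; exact hn1a
        · rw [hnb']; exact hn2a
        · rw [hre']; positivity
        · rw [hre', hna', hnb']
          have h4 : 0 < ((n1 : ℝ) * (n2 : ℝ))⁻¹ := by positivity
          calc 2 * (((n1 : ℝ) * (n2 : ℝ))⁻¹ * (a * conj b).re)
              = ((n1 : ℝ) * (n2 : ℝ))⁻¹ * (2 * (a * conj b).re) := by ring
            _ ≤ ((n1 : ℝ) * (n2 : ℝ))⁻¹ * (‖a‖ * ‖b‖) := mul_le_mul_of_nonneg_left h2 h4.le
            _ = ‖a‖ / n1 * (‖b‖ / n2) := by rw [mul_inv]; ring
      have hsub : AddSubgroup.closure {(Complex.orthonormalBasisOneI.repr a : EuclideanSpace ℝ (Fin 2)),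
          Complex.orthonormalBasisOneI.repr b} ≤
          AddSubgroup.closure {(Complex.orthonormalBasisOneI.repr (a / (n1 : ℂ)) :
            EuclideanSpace ℝ (Fin 2)), Complex.orthonormalBasisOneI.repr (b / (n2 : ℂ))} := by
        rw [AddSubgroup.closure_le]
        intro x hx
        rcases hx with hx | hx
        · have h5 : x = n1 • (Complex.orthonormalBasisOneI.repr (a / (n1 : ℂ)) :
            EuclideanSpace ℝ (Fin 2)) := by
            rw [hx, ← map_nsmul]
            congr 1
            rw [nsmul_eq_mul, mul_div_cancel₀]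
            exact_mod_cast hn1.ne'
          rw [h5]
          exact AddSubgroup.nsmul_mem _ (AddSubgroup.subset_closure (by simp)) _
        · have hx' : x = Complex.orthonormalBasisOneI.repr b := hx
          have h5 : x = n2 • (Complex.orthonormalBasisOneI.repr (b / (n2 : ℂ)) :
            EuclideanSpace ℝ (Fin 2)) := by
            rw [hx', ← map_nsmul]
            congr 1
            rw [nsmul_eq_mul, mul_div_cancel₀]
            exact_mod_cast hn2.ne'
          rw [h5]
          exact AddSubgroup.nsmul_mem _ (AddSubgroup.subset_closure (by simp)) _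
      exact L1 _ _ h3 u v (hsub hu) (hsub hv)

theorem N2 (u v : EuclideanSpace ℝ (Fin 2)) (hli : LinearIndependent ℝ ![u, v])
    (hs : ∀ p ∈ AddSubgroup.closure {u, v}, p ≠ 0 → 13 * Real.pi / 8 ≤ ‖p‖)
    (hd : ¬ DiamLE u v Real.pi) : Immersible u v := by
  have h0 := N2_im u v hli
  set a0 : ℂ := Complex.orthonormalBasisOneI.repr.symm u with ha0
  set b0 : ℂ := Complex.orthonormalBasisOneI.repr.symm v with hb0
  have hu : Complex.orthonormalBasisOneI.repr a0 = u := LinearIsometryEquiv.apply_symm_apply _ u
  have hv : Complex.orthonormalBasisOneI.repr b0 = v := LinearIsometryEquiv.apply_symm_apply _ v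
  obtain ⟨a, b, hcl, _, _, him, hre, h1, h2⟩ := L3 a0 b0 h0 (max ‖a0‖ ‖b0‖) (le_max_left _ _)
    (le_max_right _ _)
  have hcl' := N2_clo a0 b0 a b hcl
  rw [hu, hv] at hcl'
  have hsymre : (b * conj a).re = (a * conj b).re := by
    simp [Complex.mul_re]
    ring
  have hsymim : (b * conj a).im = -(a * conj b).im := by
    simp [Complex.mul_im]
    ring
  rcases le_total ‖a‖ ‖b‖ with hab | hab
  · exact N2_core u v hs hd a b hcl' him hre h1 hab
  · refine N2_core u v hs hd b a ?_ ?_ ?_ ?_ hab
    · rw [Set.pair_comm]; exact hcl'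
    · rw [hsymim]; exact neg_ne_zero.mpr him
    · rw [hsymre]; exact hre
    · rw [hsymre]; exact h2


end Pool.Agent.Helper331.FT
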