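import Pool.Agent.Helper331.FT.Defs
import Pool.Agent.Helper331.FT.R2
import Pool.Agent.Helper331.FT.L1
import Pool.Agent.Helper331.FT.L3
set_option autoImplicit false
open scoped ContDiff ComplexConjugate
open Set MeasureTheory intervalIntegral

namespace Pool.Agent.Helper331.FT

theorem N3_symm {a b : ℂ} (h : ImmC a b) : ImmC b a := by
  obtain ⟨F₁, F₂, h1, h2, h3, h4, h5, h6⟩ := h
  exact ⟨F₁, F₂, h1, h2, h3, h4, h6, h5⟩

theorem N3_pos (p q : ℂ) (hp : p ≠ 0) (hq : q ≠ 0) (hp2 : ‖p‖ ≤ 2 * Real.pi)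
    (hq2 : ‖q‖ ≤ 2 * Real.pi) (him : 0 < (p * conj q).im) (hre : 0 ≤ (p * conj q).re)
    (h : Real.arccos (‖p‖ / (2 * Real.pi)) + Real.arccos (‖q‖ / (2 * Real.pi)) <
      Real.arccos ((p * conj q).re / (‖p‖ * ‖q‖))) : ImmC p q := by
  have hpi := Real.pi_pos
  have np : 0 < ‖p‖ := norm_pos_iff.mpr hp
  have nq : 0 < ‖q‖ := norm_pos_iff.mpr hq
  have d1 : 0 < ‖p‖ / (2 * Real.pi) := by positivity
  have d2 : 0 < ‖q‖ / (2 * Real.pi) := by positivity
  have d1' : ‖p‖ / (2 * Real.pi) ≤ 1 := by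
    rw [div_le_one (by positivity)]; exact hp2
  have d2' : ‖q‖ / (2 * Real.pi) ≤ 1 := by
    rw [div_le_one (by positivity)]; exact hq2
  have key := R2 ‖q‖ ‖p‖ (Complex.arg q) (Real.arccos ((p * conj q).re / (‖p‖ * ‖q‖)))
    (Real.arccos (‖p‖ / (2 * Real.pi))) (Real.arccos (‖q‖ / (2 * Real.pi))) nq np hq2 hp2
    (Real.arccos_nonneg _) (Real.arccos_nonneg _)
    (Real.arccos_le_pi_div_two.mpr (by positivity))
    (by rw [Real.cos_arccos (by linarith) d2']; field_simp)
    (by rw [Real.cos_arccos (by linarith) d1']; field_simp)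
    (Real.arccos_lt_pi_div_two.mpr d1) (Real.arccos_lt_pi_div_two.mpr d2) h
  rw [Complex.norm_mul_exp_arg_mul_I] at key
  have hz : p * conj q ≠ 0 := by
    intro e
    rw [e] at him
    simp at him
  have hnz : ‖p * conj q‖ = ‖p‖ * ‖q‖ := by rw [norm_mul, Complex.norm_conj]
  have harg : Complex.arg (p * conj q) = Real.arccos ((p * conj q).re / (‖p‖ * ‖q‖)) := by
    rw [Complex.arg_of_im_nonneg_of_ne_zero him.le hz, hnz]
  have e1 := Complex.norm_mul_exp_arg_mul_I (p * conj q)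
  rw [harg, hnz] at e1
  have e2 := Complex.norm_mul_exp_arg_mul_I q
  have e3 : conj q * q = ((‖q‖ : ℝ) : ℂ) ^ 2 := Complex.conj_mul' q
  have nq' : ((‖q‖ : ℝ) : ℂ) ≠ 0 := by exact_mod_cast nq.ne'
  have e4 : (‖p‖ : ℂ) * Complex.exp (((Complex.arg q +
      Real.arccos ((p * conj q).re / (‖p‖ * ‖q‖)) : ℝ) : ℂ) * Complex.I) = p := by
    have e5 : p * ((‖q‖ : ℝ) : ℂ) ^ 2 = (‖p‖ : ℂ) * Complex.exp (((Complex.arg q +
      Real.arccos ((p * conj q).re / (‖p‖ * ‖q‖)) : ℝ) : ℂ) * Complex.I) *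
        ((‖q‖ : ℝ) : ℂ) ^ 2 := by
      have e6 : p * ((‖q‖ : ℝ) : ℂ) ^ 2 = (p * conj q) * q := by rw [← e3]; ring
      have e7 : (p * conj q) * q = (((‖p‖ * ‖q‖ : ℝ) : ℂ) *
          Complex.exp (((Real.arccos ((p * conj q).re / (‖p‖ * ‖q‖)) : ℝ) : ℂ) * Complex.I)) *
          ((‖q‖ : ℂ) * Complex.exp ((Complex.arg q : ℂ) * Complex.I)) := by
        rw [e1, e2]
      rw [e6, e7]
      push_cast
      rw [add_mul, Complex.exp_add]
      ring
    exact (mul_right_cancel₀ (pow_ne_zero 2 nq') e5).symm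
  rw [e4] at key
  exact key

theorem N3_core (p q : ℂ) (hp : p ≠ 0) (hq : q ≠ 0) (hp2 : ‖p‖ ≤ 2 * Real.pi)
    (hq2 : ‖q‖ ≤ 2 * Real.pi) (him : (p * conj q).im ≠ 0) (hre : 0 ≤ (p * conj q).re)
    (h : Real.arccos (‖p‖ / (2 * Real.pi)) + Real.arccos (‖q‖ / (2 * Real.pi)) <
      Real.arccos ((p * conj q).re / (‖p‖ * ‖q‖))) : ImmC p q := by
  rcases lt_or_gt_of_ne him with h1 | h1
  · apply N3_symm
    have e : q * conj p = conj (p * conj q) := by
      rw [map_mul, Complex.conj_conj, mul_comm]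
    have e1 : (q * conj p).im = - (p * conj q).im := by rw [e, Complex.conj_im]
    have e2 : (q * conj p).re = (p * conj q).re := by rw [e, Complex.conj_re]
    apply N3_pos q p hq hp hq2 hp2
    · rw [e1]; linarith
    · rw [e2]; exact hre
    · rw [e2, add_comm, mul_comm ‖q‖]; exact h
  · exact N3_pos p q hp hq hp2 hq2 h1 hre h

theorem N3_map (f : ℂ →+ EuclideanSpace ℝ (Fin 2)) (a b : ℂ) {p : ℂ}
    (hp : p ∈ AddSubgroup.closure {a, b}) : f p ∈ AddSubgroup.closure {f a, f b} := by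
  have : AddSubgroup.closure {a, b} ≤ (AddSubgroup.closure {f a, f b}).comap f := by
    rw [AddSubgroup.closure_le]
    rintro x (rfl | rfl)
    · exact AddSubgroup.subset_closure (by simp)
    · exact AddSubgroup.subset_closure (by simp)
  exact this hp

theorem N3_coord (a b z : ℂ) (h : (a * conj b).im ≠ 0) :
    ∃ s t : ℝ, z = (s : ℂ) * a + (t : ℂ) * b := by
  have hD : a.im * b.re - a.re * b.im ≠ 0 := by
    intro e
    apply h
    simp only [Complex.mul_im, Complex.conj_re, Complex.conj_im]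
    linarith
  refine ⟨(z.im * b.re - z.re * b.im) / (a.im * b.re - a.re * b.im),
    -(z.im * a.re - z.re * a.im) / (a.im * b.re - a.re * b.im), ?_⟩
  apply Complex.ext
  · simp only [Complex.add_re, Complex.mul_re, Complex.ofReal_re, Complex.ofReal_im]
    rw [zero_mul, zero_mul, sub_zero, sub_zero, div_mul_eq_mul_div, div_mul_eq_mul_div,
      ← add_div, eq_div_iff hD]
    ring
  · simp only [Complex.add_im, Complex.mul_im, Complex.ofReal_re, Complex.ofReal_im]
    rw [zero_mul, zero_mul, add_zero, add_zero, div_mul_eq_mul_div, div_mul_eq_mul_div,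
      ← add_div, eq_div_iff hD]
    ring

theorem N3_round (a b z : ℂ) (h : (a * conj b).im ≠ 0) (hab : ‖a‖ ≤ ‖b‖) :
    ∃ p ∈ AddSubgroup.closure {a, b}, ‖z - p‖ ≤ ‖b‖ := by
  obtain ⟨s, t, e⟩ := N3_coord a b z h
  refine ⟨(round s : ℤ) • a + (round t : ℤ) • b, ?_, ?_⟩
  · exact add_mem (zsmul_mem (AddSubgroup.subset_closure (by simp)) _)
      (zsmul_mem (AddSubgroup.subset_closure (by simp)) _)
  · have e1 : z - ((round s : ℤ) • a + (round t : ℤ) • b) =
        ((s - round s : ℝ) : ℂ) * a + ((t - round t : ℝ) : ℂ) * b := by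
      rw [e]
      simp only [zsmul_eq_mul]
      push_cast
      ring
    rw [e1]
    have h1 := abs_sub_round s
    have h2 := abs_sub_round t
    calc ‖((s - round s : ℝ) : ℂ) * a + ((t - round t : ℝ) : ℂ) * b‖
        ≤ ‖((s - round s : ℝ) : ℂ) * a‖ + ‖((t - round t : ℝ) : ℂ) * b‖ := norm_add_le _ _
      _ = |s - round s| * ‖a‖ + |t - round t| * ‖b‖ := by
          rw [norm_mul, norm_mul, Complex.norm_real, Complex.norm_real, Real.norm_eq_abs,
            Real.norm_eq_abs]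
      _ ≤ 1 / 2 * ‖a‖ + 1 / 2 * ‖b‖ := by gcongr
      _ ≤ ‖b‖ := by linarith

/-- the numeric part -/
theorem N3_num (l : ℝ) (hl : 0 < l) : ∃ L : ℝ, 0 < L ∧ ∀ a b κ : ℝ, l ≤ a → a ≤ b → L < b →
    κ ≤ a / (2 * b) →
    Real.arccos (a / (⌈a / (2 * Real.pi)⌉₊ : ℝ) / (2 * Real.pi)) +
      Real.arccos (b / (⌈b / (2 * Real.pi)⌉₊ : ℝ) / (2 * Real.pi)) < Real.arccos κ := by
  have hpi := Real.pi_pos
  set X := Real.arccos (min l Real.pi / (2 * Real.pi)) with hX
  have hm : 0 < min l Real.pi := lt_min hl hpi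
  have hX2 : X < Real.pi / 2 := Real.arccos_lt_pi_div_two.mpr (by positivity)
  set ε := min ((Real.pi / 2 - X) / 2) (Real.pi / 6) with hε
  have hε0 : 0 < ε := lt_min (by linarith) (by linarith)
  have hε1 : ε ≤ (Real.pi / 2 - X) / 2 := min_le_left _ _
  have hε2 : ε ≤ Real.pi / 6 := min_le_right _ _
  have hc1 : Real.cos ε < 1 := by
    rw [← Real.cos_zero]
    exact Real.cos_lt_cos_of_nonneg_of_le_pi le_rfl (by linarith) hε0
  have hc0 : 0 < Real.cos ε := Real.cos_pos_of_mem_Ioo ⟨by linarith, by linarith⟩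
  have hs0 : 0 < Real.sin ε := Real.sin_pos_of_pos_of_lt_pi hε0 (by linarith)
  have hL1 : 0 < 2 * Real.pi / (1 - Real.cos ε) := by
    apply div_pos (by positivity); linarith
  have hL2 : 0 < 100 / Real.sin ε := by positivity
  refine ⟨2 * Real.pi / (1 - Real.cos ε) + 100 / Real.sin ε, by positivity, ?_⟩
  intro a b κ hla hab hLb hκ
  have ha : 0 < a := lt_of_lt_of_le hl hla
  have hb : 0 < b := lt_of_lt_of_le ha hab
  -- general facts on ceilings
  have hce : ∀ c : ℝ, 0 < c → (0 : ℝ) < (⌈c / (2 * Real.pi)⌉₊ : ℝ) ∧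
      (⌈c / (2 * Real.pi)⌉₊ : ℝ) < c / (2 * Real.pi) + 1 ∧
      c / (2 * Real.pi) ≤ (⌈c / (2 * Real.pi)⌉₊ : ℝ) ∧
      c / (⌈c / (2 * Real.pi)⌉₊ : ℝ) / (2 * Real.pi) =
        c / (2 * Real.pi) / (⌈c / (2 * Real.pi)⌉₊ : ℝ) := by
    intro c hc
    have h1 : 0 < c / (2 * Real.pi) := by positivity
    have h2 : 0 < ⌈c / (2 * Real.pi)⌉₊ := Nat.ceil_pos.mpr h1
    have h3 : (0 : ℝ) < (⌈c / (2 * Real.pi)⌉₊ : ℝ) := by exact_mod_cast h2
    refine ⟨h3, Nat.ceil_lt_add_one h1.le, Nat.le_ceil _, ?_⟩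
    field_simp
  obtain ⟨ma0, ma1, ma2, ma3⟩ := hce a ha
  obtain ⟨mb0, mb1, mb2, mb3⟩ := hce b hb
  set ra := a / (2 * Real.pi) with hra
  set rb := b / (2 * Real.pi) with hrb
  have hra0 : 0 < ra := by positivity
  have hrb0 : 0 < rb := by positivity
  have hrb1 : 1 / (1 - Real.cos ε) < rb := by
    have h1 : 2 * Real.pi / (1 - Real.cos ε) < b := by linarith
    rw [hrb, lt_div_iff₀ (by positivity)]
    calc 1 / (1 - Real.cos ε) * (2 * Real.pi) = 2 * Real.pi / (1 - Real.cos ε) := by ring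
      _ < b := h1
  -- the b part
  have hxb : Real.arccos (b / (⌈rb⌉₊ : ℝ) / (2 * Real.pi)) < ε := by
    rw [mb3]
    have h1 : Real.cos ε < rb / (⌈rb⌉₊ : ℝ) := by
      rw [lt_div_iff₀ mb0]
      have h2 : 1 < rb * (1 - Real.cos ε) := by
        rw [div_lt_iff₀ (by linarith)] at hrb1
        exact hrb1
      calc Real.cos ε * (⌈rb⌉₊ : ℝ) < Real.cos ε * (rb + 1) := by
            apply mul_lt_mul_of_pos_left mb1 hc0
        _ < rb := by nlinarith
    have h3 : rb / (⌈rb⌉₊ : ℝ) ≤ 1 := by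
      rw [div_le_one mb0]; exact mb2
    have h4 := Real.arccos_lt_arccos (by linarith) h1 h3
    rw [Real.arccos_cos hε0.le (by linarith)] at h4
    exact h4
  rw [ma3]
  by_cases hA : a ≤ 100
  · -- small a
    have hxa : Real.arccos (ra / (⌈ra⌉₊ : ℝ)) ≤ X := by
      rw [hX]
      apply Real.arccos_le_arccos
      rw [div_le_div_iff₀ (by positivity) ma0]
      -- min l π * ⌈ra⌉ ≤ ra * (2π) = a
      have h1 : ra * (2 * Real.pi) = a := by rw [hra]; field_simp
      rw [h1]
      by_cases hm1 : ⌈ra⌉₊ ≤ 1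
      · have h2 : (⌈ra⌉₊ : ℝ) ≤ 1 := by exact_mod_cast hm1
        calc min l Real.pi * (⌈ra⌉₊ : ℝ) ≤ l * 1 := by
              apply mul_le_mul (min_le_left _ _) h2 ma0.le hl.le
          _ ≤ a := by linarith
      · have h2 : (2 : ℝ) ≤ (⌈ra⌉₊ : ℝ) := by
          have : 2 ≤ ⌈ra⌉₊ := by omega
          exact_mod_cast this
        have h3 : (⌈ra⌉₊ : ℝ) - 1 < ra := by linarith
        calc min l Real.pi * (⌈ra⌉₊ : ℝ) ≤ Real.pi * (⌈ra⌉₊ : ℝ) := by
              apply mul_le_mul_of_nonneg_right (min_le_right _ _) ma0.le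
          _ ≤ Real.pi * (2 * ((⌈ra⌉₊ : ℝ) - 1)) := by
              apply mul_le_mul_of_nonneg_left _ hpi.le
              linarith
          _ ≤ Real.pi * (2 * ra) := by
              apply mul_le_mul_of_nonneg_left _ hpi.le
              linarith
          _ = a := by rw [← h1]; ring
    have hβ : Real.pi / 2 - ε ≤ Real.arccos κ := by
      have h1 : κ ≤ Real.sin ε := by
        refine hκ.trans ?_
        rw [div_le_iff₀ (by positivity)]
        have h2 : 100 / Real.sin ε < b := by linarith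
        rw [div_lt_iff₀ hs0] at h2
        nlinarith
      have h2 := Real.arccos_le_arccos h1
      have h3 : Real.arccos (Real.sin ε) = Real.pi / 2 - ε := by
        unfold Real.arccos
        rw [Real.arcsin_sin (by linarith) (by linarith)]
      rw [h3] at h2
      exact h2
    linarith
  · push Not at hA
    have hra15 : 15 ≤ ra := by
      rw [hra, le_div_iff₀ (by positivity)]
      have := Real.pi_lt_d2
      linarith
    have hxa : Real.arccos (ra / (⌈ra⌉₊ : ℝ)) ≤ Real.pi / 6 := by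
      have h1 : Real.cos (Real.pi / 6) ≤ ra / (⌈ra⌉₊ : ℝ) := by
        rw [Real.cos_pi_div_six, le_div_iff₀ ma0]
        have h2 : Real.sqrt 3 ≤ 15 / 8 := by
          rw [Real.sqrt_le_left (by norm_num)]
          norm_num
        have h3 : Real.sqrt 3 / 2 * (⌈ra⌉₊ : ℝ) ≤ 15 / 16 * (ra + 1) := by
          apply mul_le_mul _ ma1.le ma0.le (by norm_num)
          linarith
        linarith
      have h4 := Real.arccos_le_arccos h1
      rw [Real.arccos_cos (by linarith) (by linarith)] at h4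
      exact h4
    have hβ : Real.pi / 3 ≤ Real.arccos κ := by
      have h1 : κ ≤ Real.cos (Real.pi / 3) := by
        rw [Real.cos_pi_div_three]
        refine hκ.trans ?_
        rw [div_le_iff₀ (by positivity)]
        linarith
      have h2 := Real.arccos_le_arccos h1
      rw [Real.arccos_cos (by linarith) (by linarith)] at h2
      exact h2
    linarith

/-- for a reduced basis -/
theorem N3_red (a b : ℂ) (ha : a ≠ 0) (hb : b ≠ 0) (him : (a * conj b).im ≠ 0)
    (hre : 0 ≤ (a * conj b).re)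
    (h : Real.arccos (‖a‖ / (⌈‖a‖ / (2 * Real.pi)⌉₊ : ℝ) / (2 * Real.pi)) +
      Real.arccos (‖b‖ / (⌈‖b‖ / (2 * Real.pi)⌉₊ : ℝ) / (2 * Real.pi)) <
      Real.arccos ((a * conj b).re / (‖a‖ * ‖b‖))) :
    ∃ p q : ℂ, ImmC p q ∧ AddSubgroup.closure {a, b} ≤ AddSubgroup.closure {p, q} := by
  have hpi := Real.pi_pos
  have na : 0 < ‖a‖ := norm_pos_iff.mpr ha
  have nb : 0 < ‖b‖ := norm_pos_iff.mpr hb
  have hca : 0 < ⌈‖a‖ / (2 * Real.pi)⌉₊ := Nat.ceil_pos.mpr (by positivity)
  have hcb : 0 < ⌈‖b‖ / (2 * Real.pi)⌉₊ := Nat.ceil_pos.mpr (by positivity)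
  have hla : ‖a‖ / (2 * Real.pi) ≤ (⌈‖a‖ / (2 * Real.pi)⌉₊ : ℝ) := Nat.le_ceil _
  have hlb : ‖b‖ / (2 * Real.pi) ≤ (⌈‖b‖ / (2 * Real.pi)⌉₊ : ℝ) := Nat.le_ceil _
  generalize ⌈‖a‖ / (2 * Real.pi)⌉₊ = m at *
  generalize ⌈‖b‖ / (2 * Real.pi)⌉₊ = n at *
  have hm : (0 : ℝ) < m := by exact_mod_cast hca
  have hn : (0 : ℝ) < n := by exact_mod_cast hcb
  have hmc : (m : ℂ) ≠ 0 := by exact_mod_cast hca.ne'
  have hnc : (n : ℂ) ≠ 0 := by exact_mod_cast hcb.ne'
  have npa : ‖a / (m : ℂ)‖ = ‖a‖ / m := by rw [norm_div, Complex.norm_natCast]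
  have npb : ‖b / (n : ℂ)‖ = ‖b‖ / n := by rw [norm_div, Complex.norm_natCast]
  have hz : a / (m : ℂ) * conj (b / (n : ℂ)) = ((1 / (m * n : ℝ) : ℝ) : ℂ) * (a * conj b) := by
    rw [map_div₀, Complex.conj_natCast]
    push_cast
    field_simp
  have hzim : (a / (m : ℂ) * conj (b / (n : ℂ))).im = 1 / (m * n : ℝ) * (a * conj b).im := by
    rw [hz, Complex.im_ofReal_mul]
  have hzre : (a / (m : ℂ) * conj (b / (n : ℂ))).re = 1 / (m * n : ℝ) * (a * conj b).re := by
    rw [hz, Complex.re_ofReal_mul]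
  refine ⟨a / (m : ℂ), b / (n : ℂ), ?_, ?_⟩
  · apply N3_core
    · exact div_ne_zero ha hmc
    · exact div_ne_zero hb hnc
    · rw [npa, div_le_iff₀ hm]
      rw [div_le_iff₀ (by positivity)] at hla
      linarith
    · rw [npb, div_le_iff₀ hn]
      rw [div_le_iff₀ (by positivity)] at hlb
      linarith
    · rw [hzim]
      exact mul_ne_zero (by positivity) him
    · rw [hzre]
      exact mul_nonneg (by positivity) hre
    · rw [npa, npb, hzre]
      have e : 1 / (m * n : ℝ) * (a * conj b).re / (‖a‖ / m * (‖b‖ / n)) =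
          (a * conj b).re / (‖a‖ * ‖b‖) := by
        field_simp
      rw [e]
      exact h
  · rw [AddSubgroup.closure_le]
    rintro x (rfl | rfl)
    · have e : x = m • (x / (m : ℂ)) := by
        rw [nsmul_eq_mul]; field_simp
      have h1 : m • (x / (m : ℂ)) ∈ AddSubgroup.closure {x / (m : ℂ), b / (n : ℂ)} :=
        nsmul_mem (AddSubgroup.subset_closure (by simp)) m
      rw [← e] at h1
      exact h1
    · have e : x = n • (x / (n : ℂ)) := by
        rw [nsmul_eq_mul]; field_simp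
      have h1 : n • (x / (n : ℂ)) ∈ AddSubgroup.closure {a / (m : ℂ), x / (n : ℂ)} :=
        nsmul_mem (AddSubgroup.subset_closure (by simp)) n
      rw [← e] at h1
      exact h1

theorem N3 (l : ℝ) (hl : 0 < l) : ∃ L : ℝ, ∀ u v : EuclideanSpace ℝ (Fin 2),
    LinearIndependent ℝ ![u, v] →
    (∀ p ∈ AddSubgroup.closure {u, v}, p ≠ 0 → l ≤ ‖p‖) →
    ¬ DiamLE u v L → Immersible u v := by
  obtain ⟨L, hL0, hL⟩ := N3_num l hl
  refine ⟨L, ?_⟩
  intro u v huv hsys hdiam
  set Re := Complex.orthonormalBasisOneI.repr with hRe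
  set a0 := Re.symm u with ha0
  set b0 := Re.symm v with hb0
  have hRa : Re a0 = u := Re.apply_symm_apply u
  have hRb : Re b0 = v := Re.apply_symm_apply v
  let f : ℂ →+ EuclideanSpace ℝ (Fin 2) := Re.toLinearEquiv.toLinearMap.toAddMonoidHom
  have hf : ∀ z, f z = Re z := fun z => rfl
  have hpair := LinearIndependent.pair_iff.mp huv
  have him0 : (a0 * conj b0).im ≠ 0 := by
    intro e
    have e1 : (Complex.normSq b0 : ℂ) * a0 + ((-(a0 * conj b0).re : ℝ) : ℂ) * b0 = 0 := by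
      have e2 : a0 * conj b0 = (((a0 * conj b0).re : ℝ) : ℂ) := by
        apply Complex.ext
        · simp only [Complex.ofReal_re]
        · rw [e, Complex.ofReal_im]
      have e3 : (Complex.normSq b0 : ℂ) = b0 * conj b0 := (Complex.mul_conj b0).symm
      rw [e3, Complex.ofReal_neg, ← e2]
      ring
    have e4 : (Complex.normSq b0) • u + (-(a0 * conj b0).re) • v = 0 := by
      have := congrArg Re e1
      rw [map_add, map_zero, ← Complex.real_smul, ← Complex.real_smul, map_smul, map_smul,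
        hRa, hRb] at this
      exact this
    have e5 := (hpair _ _ e4).1
    have e6 : b0 = 0 := Complex.normSq_eq_zero.mp e5
    have e7 : v = 0 := by rw [← hRb, e6, map_zero]
    have e8 := (hpair 0 1 (by rw [e7]; simp)).2
    exact one_ne_zero e8
  obtain ⟨a, b, hcl, _, _, him, hre, h2a, h2b⟩ := L3 a0 b0 him0 (max ‖a0‖ ‖b0‖)
    (le_max_left _ _) (le_max_right _ _)
  -- main claim for an ordered reduced basis
  have main : ∀ a b : ℂ, AddSubgroup.closure {a, b} = AddSubgroup.closure {a0, b0} →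
      (a * conj b).im ≠ 0 → 0 ≤ (a * conj b).re → 2 * (a * conj b).re ≤ Complex.normSq a →
      ‖a‖ ≤ ‖b‖ → Immersible u v := by
    intro a b hcl him hre h2a hab
    have ha : a ≠ 0 := by
      rintro rfl
      simp at him
    have hb : b ≠ 0 := by
      rintro rfl
      simp at him
    have hmap : ∀ p ∈ AddSubgroup.closure {a, b}, Re p ∈ AddSubgroup.closure {u, v} := by
      intro p hp
      rw [hcl] at hp
      have := N3_map f a0 b0 hp
      rw [hf, hf, hf, hRa, hRb] at this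
      exact this
    have hla : l ≤ ‖a‖ := by
      have h1 := hsys (Re a) (hmap a (AddSubgroup.subset_closure (by simp)))
        (by
          intro e
          apply ha
          have := congrArg Re.symm e
          rw [Re.symm_apply_apply, map_zero] at this
          exact this)
      rw [Re.norm_map] at h1
      exact h1
    have hLb : L < ‖b‖ := by
      by_contra hcon
      push Not at hcon
      apply hdiam
      intro x y
      obtain ⟨p, hp, hp2⟩ := N3_round a b (Re.symm (x - y)) him hab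
      refine ⟨Re p, hmap p hp, ?_⟩
      have e : x - y - Re p = Re (Re.symm (x - y) - p) := by
        rw [map_sub, Re.apply_symm_apply]
      rw [e, Re.norm_map]
      exact hp2.trans hcon
    have na : 0 < ‖a‖ := norm_pos_iff.mpr ha
    have nb : 0 < ‖b‖ := norm_pos_iff.mpr hb
    have hκ : (a * conj b).re / (‖a‖ * ‖b‖) ≤ ‖a‖ / (2 * ‖b‖) := by
      rw [div_le_div_iff₀ (by positivity) (by positivity)]
      rw [Complex.normSq_eq_norm_sq] at h2a
      nlinarith
    obtain ⟨p, q, hpq, hle⟩ := N3_red a b ha hb him hre (hL ‖a‖ ‖b‖ _ hla hab hLb hκ)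
    have hmem : ∀ z ∈ AddSubgroup.closure {a0, b0}, Re z ∈ AddSubgroup.closure {Re p, Re q} := by
      intro z hz
      rw [← hcl] at hz
      have := N3_map f p q (hle hz)
      rw [hf, hf, hf] at this
      exact this
    have hu := hmem a0 (AddSubgroup.subset_closure (by simp))
    have hv := hmem b0 (AddSubgroup.subset_closure (by simp))
    rw [hRa] at hu
    rw [hRb] at hv
    exact L1 p q hpq u v hu hv
  rcases le_total ‖a‖ ‖b‖ with hab | hab
  · exact main a b hcl him hre h2a hab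
  · have e : b * conj a = conj (a * conj b) := by
      rw [map_mul, Complex.conj_conj, mul_comm]
    have e1 : (b * conj a).im = - (a * conj b).im := by rw [e, Complex.conj_im]
    have e2 : (b * conj a).re = (a * conj b).re := by rw [e, Complex.conj_re]
    apply main b a (by rw [Set.pair_comm]; exact hcl) _ _ _ hab
    · rw [e1]; exact neg_ne_zero.mpr him
    · rw [e2]; exact hre
    · rw [e2]; exact h2b


end Pool.Agent.Helper331.FT
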