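import Pool.Agent.Helper331.FT.Defs
set_option autoImplicit false
open scoped ContDiff ComplexConjugate
open Set MeasureTheory intervalIntegral

namespace Pool.Agent.Helper331.FT


theorem T4_span (a b x : EuclideanSpace ℝ (Fin 2)) (h : inner ℝ a b = 0) (ha : a ≠ 0) (hb : b ≠ 0) :
    ∃ s t : ℝ, x = s • a + t • b := by
  have hna : 0 < ‖a‖ ^ 2 := by
    have := norm_pos_iff.mpr ha
    positivity
  have hnb : 0 < ‖b‖ ^ 2 := by
    have := norm_pos_iff.mpr hb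
    positivity
  have ea : ‖a‖ ^ 2 = a 0 ^ 2 + a 1 ^ 2 := by
    rw [EuclideanSpace.norm_sq_eq, Fin.sum_univ_two, Real.norm_eq_abs, Real.norm_eq_abs, sq_abs,
      sq_abs]
  have eb : ‖b‖ ^ 2 = b 0 ^ 2 + b 1 ^ 2 := by
    rw [EuclideanSpace.norm_sq_eq, Fin.sum_univ_two, Real.norm_eq_abs, Real.norm_eq_abs, sq_abs,
      sq_abs]
  have hin : a 0 * b 0 + a 1 * b 1 = 0 := by
    have h1 : inner ℝ a b = a 0 * b 0 + a 1 * b 1 := by
      simp [PiLp.inner_apply, Fin.sum_univ_two]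
      ring
    rw [← h1]; exact h
  rw [ea] at hna
  rw [eb] at hnb
  obtain ⟨d, hd⟩ : ∃ d : ℝ, d = a 0 * b 1 - a 1 * b 0 := ⟨_, rfl⟩
  have hd2 : d ^ 2 = (a 0 ^ 2 + a 1 ^ 2) * (b 0 ^ 2 + b 1 ^ 2) := by
    have h2 : (a 0 ^ 2 + a 1 ^ 2) * (b 0 ^ 2 + b 1 ^ 2) = d ^ 2 + (a 0 * b 0 + a 1 * b 1) ^ 2 := by
      rw [hd]; ring
    rw [h2, hin]; ring
  have hd0 : d ≠ 0 := by
    intro h0
    rw [h0] at hd2
    have := mul_pos hna hnb
    rw [← hd2] at this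
    norm_num at this
  refine ⟨(x 0 * b 1 - x 1 * b 0) / d, (a 0 * x 1 - a 1 * x 0) / d, ?_⟩
  ext i
  fin_cases i
  · change x 0 = (x 0 * b 1 - x 1 * b 0) / d * a 0 + (a 0 * x 1 - a 1 * x 0) / d * b 0
    field_simp
    rw [hd]
    ring
  · change x 1 = (x 0 * b 1 - x 1 * b 0) / d * a 1 + (a 0 * x 1 - a 1 * x 0) / d * b 1
    field_simp
    rw [hd]
    ring

theorem T4 (a b : EuclideanSpace ℝ (Fin 2)) (h : inner ℝ a b = 0) (ha : a ≠ 0) (hb : b ≠ 0) :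
    ∀ x : EuclideanSpace ℝ (Fin 2), ∃ p ∈ AddSubgroup.closure {a, b},
      ‖x - p‖ ≤ Real.sqrt (‖a‖ ^ 2 + ‖b‖ ^ 2) / 2 := by
  intro x
  obtain ⟨s, t, hx⟩ := T4_span a b x h ha hb
  refine ⟨(round s) • a + (round t) • b, ?_, ?_⟩
  · rw [AddSubgroup.mem_closure_pair]
    exact ⟨round s, round t, rfl⟩
  · have e : x - ((round s) • a + (round t) • b) = (s - round s) • a + (t - round t) • b := by
      rw [hx, sub_smul, sub_smul, Int.cast_smul_eq_zsmul, Int.cast_smul_eq_zsmul]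
      abel
    rw [e]
    have hn : ‖(s - round s) • a + (t - round t) • b‖ ^ 2 =
        (s - round s) ^ 2 * ‖a‖ ^ 2 + (t - round t) ^ 2 * ‖b‖ ^ 2 := by
      rw [norm_add_sq_real, norm_smul, norm_smul, inner_smul_left, inner_smul_right, h,
        mul_pow, mul_pow, Real.norm_eq_abs, Real.norm_eq_abs, sq_abs, sq_abs]
      ring
    have hs : (s - round s) ^ 2 ≤ 1 / 4 := by
      have h1 := abs_sub_round s
      have h2 : |s - round s| ^ 2 ≤ (1 / 2) ^ 2 := pow_le_pow_left₀ (abs_nonneg _) h1 2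
      rw [sq_abs] at h2
      linarith
    have ht : (t - round t) ^ 2 ≤ 1 / 4 := by
      have h1 := abs_sub_round t
      have h2 : |t - round t| ^ 2 ≤ (1 / 2) ^ 2 := pow_le_pow_left₀ (abs_nonneg _) h1 2
      rw [sq_abs] at h2
      linarith
    have h3 := mul_le_mul_of_nonneg_right hs (sq_nonneg ‖a‖)
    have h4 := mul_le_mul_of_nonneg_right ht (sq_nonneg ‖b‖)
    have h5 : 2 * ‖(s - round s) • a + (t - round t) • b‖ ≤ Real.sqrt (‖a‖ ^ 2 + ‖b‖ ^ 2) := by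
      apply Real.le_sqrt_of_sq_le
      rw [mul_pow, hn]
      linarith
    linarith



end Pool.Agent.Helper331.FT
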