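import Pool.Agent.Helper331.FT.Defs
set_option autoImplicit false
open scoped ContDiff ComplexConjugate
open Set MeasureTheory intervalIntegral

namespace Pool.Agent.Helper331.FT

theorem T5 (a b : EuclideanSpace ℝ (Fin 2)) (h : inner ℝ a b = 0) :
    ∀ p ∈ AddSubgroup.closure {a, b},
      Real.sqrt (‖a‖ ^ 2 + ‖b‖ ^ 2) / 2 ≤ ‖(1 / 2 : ℝ) • (a + b) - p‖ := by
  intro p hp
  rw [AddSubgroup.mem_closure_pair] at hp
  obtain ⟨m, n, rfl⟩ := hp
  have e : (1 / 2 : ℝ) • (a + b) - (m • a + n • b) = ((1 / 2 : ℝ) - m) • a + ((1 / 2 : ℝ) - n) • b := by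
    rw [← Int.cast_smul_eq_zsmul ℝ m a, ← Int.cast_smul_eq_zsmul ℝ n b]
    module
  have hq : ∀ k : ℤ, (1 / 4 : ℝ) ≤ ((1 / 2 : ℝ) - k) ^ 2 := by
    intro k
    have h1 : (k : ℝ) * (k - 1) ≥ 0 := by
      rcases le_or_gt k 0 with hk | hk
      · have : (k : ℝ) ≤ 0 := by exact_mod_cast hk
        nlinarith
      · have : (1 : ℝ) ≤ k := by exact_mod_cast hk
        nlinarith
    nlinarith
  have hsq : ‖((1 / 2 : ℝ) - m) • a + ((1 / 2 : ℝ) - n) • b‖ ^ 2 =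
      ((1 / 2 : ℝ) - m) ^ 2 * ‖a‖ ^ 2 + ((1 / 2 : ℝ) - n) ^ 2 * ‖b‖ ^ 2 := by
    rw [norm_add_sq_real, inner_smul_left, inner_smul_right, h, norm_smul, norm_smul, mul_pow, mul_pow]
    simp only [Real.norm_eq_abs, sq_abs]
    simp
  rw [e]
  refine (sq_le_sq₀ (by positivity) (norm_nonneg _)).1 ?_
  · rw [hsq, div_pow, Real.sq_sqrt (by positivity)]
    have h1 := mul_le_mul_of_nonneg_right (hq m) (sq_nonneg ‖a‖)
    have h2 := mul_le_mul_of_nonneg_right (hq n) (sq_nonneg ‖b‖)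
    nlinarith


end Pool.Agent.Helper331.FT
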